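import Pool.Agent.Lib.TWRR.D2
import Pool.Agent.Lib.TWCT.AsmP

/-!
# TANK W, contact: row J1, from the core to the real world

`C ≤ Ω` closed, `w` a floor over `C`, `tH C` the tame closure in the big field `H`,
`C' = PM (tH C) G M` its Gauss extension, `c, d, m ∈ C'` the scalars which normalise `w`, `y` and the
level.

* `j1_real`: `JL` and `OClsJ` over `C'` for `ι w / c`, `ι y / d` give `JL` and `OClsJ` over `C` for
  `w`, `y`;
* `oc_real`, `gp_real`: the class `OC`, and `gr` perfect.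
-/

set_option autoImplicit false

open Polynomial Finset

namespace Pool.Agent.TWRR

open Pool.Agent.H15JM (RVal)
open Pool.Agent.D2 (Ctx0)
open Pool.Agent.D2P (clI)
open Pool.Agent.TWM
open Pool.Agent.TWS (IsoE MonG PM VG)
open Pool.Agent.TWII (PG LP)
open Pool.Agent.TWN1
open Pool.Agent.TWTam
open Pool.Agent.TWCT (tH)

universe u

variable {k Ω H : Type u} [Field k] [Field Ω] [Algebra k Ω] [Field H] [Algebra k H]
  {p : ℕ} {v : RVal Ω} {vH : RVal H} {ι : Ω →ₐ[k] H} {x : Ω} {C F : IntermediateField k Ω}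
  {w y X₀ : Ω} {ρ s ν : ℝ} {A₀ : IntermediateField k H} {G : AddSubgroup ℝ} {M : ℝ → H}
  [hp : Fact p.Prime] [CharP Ω p] [CharP H p] [CharP k p] [IsAlgClosed Ω] [IsAlgClosed k]

/-- The class `OC` of a real element. -/
theorem oc_real (hI : IsoE v vH ι) (hcv : CompleteV v) (hcw : CompleteV vH) (hk : Ctx0 k v)
    (hx0 : x ≠ 0) (hx : x ∈ C) (hC : Cld v C) (hCF : C ≤ F) (hF : Cld v F)
    (hFC : ∀ a ∈ F, IsAlgebraic C a → a ∈ C) (hM : MonG vH A₀ G M)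
    (hV : ∀ g ∈ VG vH A₀, g / p ∈ VG vH A₀) (hiF : Imm vH A₀ (tH p v ι x F))
    (hiC : Imm vH A₀ (tH p v ι x C)) (hX : X₀ ∈ F) {r : ℝ} {a : Ω} (ha : a ∈ F)
    (h : OC p vH (PM vH (tH p v ι x C) G M) (PM vH (tH p v ι x F) G M) (ι X₀) r (ι a)) :
    OC p v C F X₀ r a := by
  have hcF : Cld vH (tH p v ι x F) := (hI.cld_iff hcv).2 (cld_tam F)
  have hcC : Cld vH (tH p v ι x C) := (hI.cld_iff hcv).2 (cld_tam C)
  have hCF' : tH p v ι x C ≤ tH p v ι x F := TWCT.tH_mono hCF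
  obtain ⟨π, hπ⟩ := TWS.exists_pi0 hcw hM hiF hcF
  have h1 := Prj.gauss (p := p) hπ hV
  have h2 : OC p vH (tH p v ι x C) (tH p v ι x F) (ι X₀) r (ι a) := by
    refine h1.oc (fun g hg => ?_) (PM.mono hCF') (TWCT.mem_tH hX) (TWCT.mem_tH ha) h
    rw [prG_eq π (PM.mono hCF' hg)]
    exact hπ.sub _ hiC hCF' hcC _ hg
  have h3 : OC p v (tam p v x C) (tam p v x F) X₀ r a := OC.of_map hI h2
  have hF' := tamB_of (K := F) hp.out hk hcv hx0 hF (hCF hx)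
  have hS : TamS p v x F C := tamS_of_alg hCF hC hx hFC
  exact (TamB.prj hF').oc (fun g hg => (hS.prT_mem hF' hg).1) hS.tam_le hX ha h3

/-- `gr` perfect. -/
theorem gp_real (hI : IsoE v vH ι) (hcv : CompleteV v) (hcw : CompleteV vH) (hk : Ctx0 k v)
    (hx0 : x ≠ 0) (hx : x ∈ C) (hC : Cld v C) (hM : MonG vH A₀ G M)
    (hV : ∀ g ∈ VG vH A₀, g / p ∈ VG vH A₀) (hiC : Imm vH A₀ (tH p v ι x C))
    (h : GP p vH (PM vH (tH p v ι x C) G M)) : GP p v C := by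
  have hcC : Cld vH (tH p v ι x C) := (hI.cld_iff hcv).2 (cld_tam C)
  obtain ⟨π, hπ⟩ := TWS.exists_pi0 hcw hM hiC hcC
  have h1 := (Prj.gauss (p := p) hπ hV).gp h
  have h2 : GP p v (tam p v x C) := GP.of_map hI h1
  exact (TamB.prj (tamB_of (K := C) hp.out hk hcv hx0 hC hx)).gp h2

/-- **From the real world to the core.** -/
theorem nrm_core (hI : IsoE v vH ι) (hcv : CompleteV v) (hcw : CompleteV vH) (hk : Ctx0 k v)
    (hx0 : x ≠ 0) (hx : x ∈ C) (hC : Cld v C) (hw : TL v C w ρ) (hM : MonG vH A₀ G M)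
    (hV : ∀ g ∈ VG vH A₀, g / p ∈ VG vH A₀) (hiF : Imm vH A₀ (tH p v ι x (cadj v C w)))
    (hiC : Imm vH A₀ (tH p v ι x C)) {e : Ω} {A : ℕ → Ω} {N J : ℕ} {B : Polynomial Ω}
    (hN : Nrm p v C w y ρ s ν e A N B J 0) {c d m : H}
    (hc : c ∈ PM vH (tH p v ι x C) G M) (hc0 : c ≠ 0) (hd : d ∈ PM vH (tH p v ι x C) G M)
    (hd0 : d ≠ 0) (hm : m ∈ PM vH (tH p v ι x C) G M) (hm0 : m ≠ 0) :
    Nrm p vH (PM vH (tH p v ι x C) G M) (ι w / c) (ι y / d) (ρ - vH c) (s - vH d) (ν - p * vH m)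
      ((m ^ p)⁻¹ * ι e * d) (scA p d m fun i => ι (A i)) N
      (Polynomial.C (m ^ p)⁻¹ * sc c (B.map ι.toRingHom)) J 0 := by
  have hcC : Cld vH (tH p v ι x C) := (hI.cld_iff hcv).2 (cld_tam C)
  have hK : TamB p v x (cadj v C w) := tamB_cadj hcv hk hx0 hx
  have hF : TamS p v x (cadj v C w) C := tamS_cadj hx hC hw
  have hiF' : Imm vH A₀ (cadj vH (tH p v ι x C) (ι w)) := by
    rw [← TWCT.tH_cadj hI hcv]
    exact hiF
  obtain ⟨π, hπ, -⟩ := exists_gauss (p := p) hcw hM hV hiF' hiC hcC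
  have n2 : Nrm p vH (tH p v ι x C) (ι w) (ι y) ρ s ν (ι e) (fun i => ι (A i)) N
      (B.map ι.toRingHom) J 0 := nrm_map hI hcv (nrm_tam hK hF hN)
  exact nrm_scale hc hc0 hd hd0 hm hm0 (hπ.nrm_up PM.le n2)

/-- **From the core to the real world.** -/
theorem j1_real (hI : IsoE v vH ι) (hcv : CompleteV v) (hcw : CompleteV vH) (hk : Ctx0 k v)
    (hx0 : x ≠ 0) (hx : x ∈ C) (hC : Cld v C) (hw : TL v C w ρ) (hM : MonG vH A₀ G M)
    (hV : ∀ g ∈ VG vH A₀, g / p ∈ VG vH A₀) (hiF : Imm vH A₀ (tH p v ι x (cadj v C w)))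
    (hiC : Imm vH A₀ (tH p v ι x C)) {e : Ω} {A : ℕ → Ω} {N J D : ℕ} {B : Polynomial Ω}
    (hN : Nrm p v C w y ρ s ν e A N B J 0) (hX : X₀ ∈ C) {c d m : H}
    (hc : c ∈ PM vH (tH p v ι x C) G M) (hc0 : c ≠ 0) (hd : d ∈ PM vH (tH p v ι x C) G M)
    (hd0 : d ≠ 0) (hm : m ∈ PM vH (tH p v ι x C) G M) (hm0 : m ≠ 0) {φ : ℕ → Polynomial H}
    (hjl : JL p vH (PM vH (tH p v ι x C) G M) (ι w / c) (ι y / d) (ρ - vH c) (s - vH d)
      ((m ^ p)⁻¹ * ι e * d) J φ D)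
    (hcl : OClsJ p vH (PM vH (tH p v ι x C) G M) (ι w / c) (ρ - vH c) (ν - p * vH m)
      ((m ^ p)⁻¹ * ι e * d) (scA p d m fun i => ι (A i)) N
      (Polynomial.C (m ^ p)⁻¹ * sc c (B.map ι.toRingHom)) φ (ι X₀)) :
    ∃ ψ : ℕ → Polynomial Ω, JL p v C w y ρ s e J ψ D ∧ OClsJ p v C w ρ ν e A N B ψ X₀ := by
  have hcC : Cld vH (tH p v ι x C) := (hI.cld_iff hcv).2 (cld_tam C)
  have hK : TamB p v x (cadj v C w) := tamB_cadj hcv hk hx0 hx
  have hF : TamS p v x (cadj v C w) C := tamS_cadj hx hC hw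
  have hiF' : Imm vH A₀ (cadj vH (tH p v ι x C) (ι w)) := by
    rw [← TWCT.tH_cadj hI hcv]
    exact hiF
  -- the radii
  have j1 := hjl.unscale hc hc0 hd hd0 hm0
  have c1 := hcl.unscale hc hc0 hd0 hm hm0
  -- the Gauss extension
  obtain ⟨π, hπ, hπC⟩ := exists_gauss (p := p) hcw hM hV hiF' hiC hcC
  have n2 : Nrm p vH (tH p v ι x C) (ι w) (ι y) ρ s ν (ι e) (fun i => ι (A i)) N
      (B.map ι.toRingHom) J 0 := nrm_map hI hcv (nrm_tam hK hF hN)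
  have j2 := hπ.jl PM.le hπC j1
  have c2 := hπ.oclsJ PM.le hπC n2 j1.mem (TWCT.mem_tH hX) c1
  -- the big field
  obtain ⟨ψ, hψ, e3⟩ := exists_fam_of_PI (C := tam p v x C) j2.mem
  have e4 := funext e3
  rw [e4] at j2 c2
  have j3 : JL p v (tam p v x C) w y ρ s e J ψ D := JL.of_map hI hψ j2
  have c3 : OClsJ p v (tam p v x C) w ρ ν e A N B ψ X₀ := OClsJ.of_map hI hcv c2
  -- the tame closure
  have h5 := TamS.prj hK
  exact ⟨_, h5.jl (le_tam C) (fun g hg => (hF.prT_mem hK hg).1) j3,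
    h5.oclsJ (le_tam C) (fun g hg => (hF.prT_mem hK hg).1) hN hψ hX c3⟩

end Pool.Agent.TWRR
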