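import Pool.Agent.Lib.TWRR.R4
import Pool.Agent.Lib.TWN1.GabE2

/-!
# TANK W, contact: the additive form, from H0 and RAT

`H0w p v C w ρ` (H0) and `RatH p v C w ρ` (the conclusion of RAT) are the only hypotheses on `w`,
besides `TL`. The proofs are those of `TWN1/GabE.lean`, `TWN1/GabE2.lean`.
* `add_form_of`, `H0w.add_form`: the additive form of `B(w)`;
* `H0w.af`: the record `AF`;
* `H0w.inf_af`: from the output of `soc` to `AF`;
* `H0w.hit_af`: every hit critical element has a jet of the form `AF`.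
-/

set_option autoImplicit false

open Polynomial Finset

namespace Pool.Agent.TWRR

open Pool.Agent.H15JM (RVal)
open Pool.Agent.D2 (Ctx0)
open Pool.Agent.TWM
open Pool.Agent.TWII (PG LP)
open Pool.Agent.TWN1

universe u

variable {k Ω : Type u} [Field k] [Field Ω] [Algebra k Ω] [IsAlgClosed Ω] {v : RVal Ω}
  {C F K : IntermediateField k Ω} {w y b : Ω} {ρ s ν : ℝ} {p : ℕ} [hp : Fact p.Prime] [CharP Ω p]
  {B : Polynomial Ω}

/-- The conclusion of RAT. -/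
def RatH (p : ℕ) (v : RVal Ω) (C : IntermediateField k Ω) (w : Ω) (ρ : ℝ) : Prop :=
  ∀ (y : Ω) (s ν : ℝ) (e : Ω) (A : ℕ → Ω) (N : ℕ) (B : Polynomial Ω) (J : ℕ),
    Nrm p v C w y ρ s ν e A N B J 0 →
    ∃ g ∈ PI C, Nrm p v C w (y - g.eval w) ρ s ν e A N (fth p e A N B g) 0 0

theorem FamR.ratH [IsAlgClosed k] (hk : Ctx0 k v) {t : Ω} (h : FamR v C w ρ t) :
    RatH p v C w ρ := fun _ _ _ _ _ _ _ _ hN => ratR hk h hN

/-- Jets of null elements are null. -/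
theorem pg_jet (hw : TL v C w ρ) {f : Polynomial Ω} (hf : f ∈ PI C)
    (h : PG p v (cadj v C w) ν (f.eval w)) {j : ℕ} (hj : j ≠ 0) :
    PG p v (cadj v C w) (ν - j * ρ) ((hasseDeriv j f).eval w) := by
  obtain ⟨μ, hμ, h1⟩ := PG.exists_pc h
  exact (PC.jet_pg hw hf h1 hj).mono (by linarith)

/-- **The additive form** of a polynomial of class X all whose `p`-jets are in `C` + null. -/
theorem add_form_of (hw : TL v C w ρ)
    (hB : B ∈ PI C) (hX : ∀ l, 2 ≤ l → ¬ p ∣ l → hasseDeriv l B = 0) {e₂ : Ω}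
    (he : hasseDeriv 1 B = Polynomial.C e₂)
    (hlev : ∀ l : ℕ, l ≠ 0 → p ∣ l → LP p v (cadj v C w) (ν - l * ρ) ((hasseDeriv l B).eval w))
    (hcl : ∀ l : ℕ, l ≠ 0 → p ∣ l → ∃ c ∈ C, PG p v (cadj v C w) (ν - l * ρ)
      ((hasseDeriv l B).eval w - c)) :
    ∃ (b₀ : Ω) (x : ℕ → Ω) (S : ℕ), b₀ ∈ C ∧ x 0 = e₂ ∧ (∀ j, x j ∈ C) ∧
      (∀ j : ℕ, j ≠ 0 → LP p v C (ν - p ^ j * ρ) (x j)) ∧
      PG p v (cadj v C w) ν (B.eval w - (b₀ + col p x w S)) ∧
      ∀ j : ℕ, j ≠ 0 → PG p v (cadj v C w) (ν - p ^ j * ρ)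
        ((hasseDeriv (p ^ j) B).eval w - x j) := by
  classical
  have hp1 := hp.out.one_lt
  have hpp : ∀ j : ℕ, j ≠ 0 → p ∣ p ^ j := fun j hj => dvd_pow_self p hj
  have hpj0 : ∀ j : ℕ, p ^ j ≠ 0 := fun j => (Nat.pow_pos hp.out.pos).ne'
  have hcj : ∀ j : ℕ, ∃ c : Ω, c ∈ C ∧ (j ≠ 0 → PG p v (cadj v C w) (ν - p ^ j * ρ)
      ((hasseDeriv (p ^ j) B).eval w - c)) := by
    intro j
    rcases eq_or_ne j 0 with hj | hj
    · exact ⟨0, zero_mem _, fun h1 => absurd hj h1⟩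
    · obtain ⟨c, hc, h2⟩ := hcl (p ^ j) (hpj0 j) (hpp j hj)
      push_cast at h2
      exact ⟨c, hc, fun _ => h2⟩
  choose c hc hcn using hcj
  have he₂ : e₂ ∈ C := by
    have h1 := hasse_mem_PI hB 1 0
    rwa [he, coeff_C_zero] at h1
  set x : ℕ → Ω := fun j => if j = 0 then e₂ else c j with hx
  have hx0 : x 0 = e₂ := by simp [hx]
  have hxj : ∀ j : ℕ, j ≠ 0 → x j = c j := fun j hj => by simp [hx, hj]
  have hxC : ∀ j, x j ∈ C := by
    intro j
    rcases eq_or_ne j 0 with rfl | hj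
    · rw [hx0]
      exact he₂
    · rw [hxj j hj]
      exact hc j
  set S := B.natDegree with hS
  set A : Polynomial Ω := ∑ j ∈ range (S + 1), Polynomial.C (x j) * X ^ p ^ j with hA
  have hAC : A ∈ PI C := sum_mem fun j _ => mul_mem (C_mem_PI (hxC j)) (pow_mem X_mem_PI _)
  have hB'C : B - A ∈ PI C := sub_mem hB hAC
  have hinj : ∀ i j : ℕ, p ^ i = p ^ j → i = j := fun i j hij => Nat.pow_right_injective hp1 hij
  have hlt : ∀ j : ℕ, j < p ^ j := fun j => Nat.lt_pow_self hp1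
  -- the jets of the rest
  have hjA : ∀ l : ℕ, l ≠ 0 → hasseDeriv l (B - A) = hasseDeriv l B -
      ∑ j ∈ range (S + 1), if l = p ^ j then Polynomial.C (x j) else 0 := by
    intro l hl
    rw [map_sub, hA, hasse_add_poly x S hl]
  have hz : ∀ l : ℕ, 0 < l → ¬ p ∣ l → hasseDeriv l (B - A) = 0 := by
    intro l hl hpl
    rw [hjA l hl.ne']
    rcases eq_or_ne l 1 with rfl | hl1
    · rw [sum_eq_single_of_mem 0 (mem_range.2 (by omega)) (fun j _ hj => if_neg ?_),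
        pow_zero, if_pos rfl, hx0, he, sub_self]
      intro h1
      exact hj (hinj j 0 (by rw [pow_zero]; exact h1.symm))
    · rw [hX l (by omega) hpl, zero_sub, neg_eq_zero]
      refine sum_eq_zero fun j _ => if_neg fun h1 => ?_
      rcases eq_or_ne j 0 with rfl | hj
      · exact hl1 (by rw [h1, pow_zero])
      · exact hpl (h1 ▸ hpp j hj)
  have hn : ∀ l : ℕ, 0 < l → p ∣ l →
      PG p v (cadj v C w) (ν - l * ρ) ((hasseDeriv l (B - A)).eval w) := by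
    intro l hl hpl
    rw [hjA l hl.ne']
    obtain ⟨a, m, hm, e⟩ := Nat.exists_eq_pow_mul_and_not_dvd hl.ne' p hp.out.ne_one
    have ha : a ≠ 0 := by
      rintro rfl
      rw [pow_zero, one_mul] at e
      exact hm (e ▸ hpl)
    rcases eq_or_ne m 1 with rfl | hm1
    · rw [mul_one] at e
      by_cases haS : a ≤ S
      · have h1 : ∑ j ∈ range (S + 1), (if l = p ^ j then Polynomial.C (x j) else 0) =
            Polynomial.C (c a) := by
          rw [sum_eq_single_of_mem a (mem_range.2 (by omega)) (fun j _ hj => if_neg ?_),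
            if_pos e, hxj a ha]
          intro h2
          exact hj (hinj j a (by rw [← h2, ← e]))
        rw [h1, eval_sub, eval_C]
        have h2 := hcn a ha
        rw [e]
        push_cast
        exact h2
      · have h1 : ∑ j ∈ range (S + 1), (if l = p ^ j then Polynomial.C (x j) else 0) = 0 := by
          refine sum_eq_zero fun j hj => if_neg fun h2 => ?_
          have h3 := hinj a j (by rw [← e, ← h2])
          have h4 := mem_range.1 hj
          omega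
        have h2 : S < l := by
          have := hlt a
          omega
        rw [h1, sub_zero, hasseDeriv_eq_zero_of_lt_natDegree B l h2, eval_zero]
        exact PC.pg (c := ν - l * ρ + 1) (.of_ge RVal.Ge.zero) (by linarith)
    · have h1 : ∑ j ∈ range (S + 1), (if l = p ^ j then Polynomial.C (x j) else 0) = 0 := by
        refine sum_eq_zero fun j _ => if_neg fun h2 => ?_
        rw [e] at h2
        rcases lt_or_ge a j with h3 | h3
        · refine hm ?_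
          have h4 : p ^ a * m = p ^ a * p ^ (j - a) := by
            rw [h2, ← pow_add, Nat.add_sub_cancel' h3.le]
          rw [Nat.eq_of_mul_eq_mul_left (Nat.pow_pos hp.out.pos) h4]
          exact hpp _ (by omega)
        · have hm0 : m ≠ 0 := by
            rintro rfl
            exact hm (dvd_zero p)
          have h4 : p ^ a * m = p ^ j := h2
          have h5 : p ^ j ≤ p ^ a := Nat.pow_le_pow_right hp.out.pos h3
          have h6 : p ^ a * 2 ≤ p ^ a * m := Nat.mul_le_mul_left _ (by omega)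
          have h7 := Nat.pos_of_ne_zero (hpj0 a)
          omega
      rw [h1, sub_zero]
      have hm0 : m ≠ 0 := by
        rintro rfl
        exact hm (dvd_zero p)
      -- `l = i + p ^ a`
      have hpa : p ^ a < l := by
        have h6 : p ^ a * 2 ≤ p ^ a * m := Nat.mul_le_mul_left _ (by omega)
        have h7 := Nat.pos_of_ne_zero (hpj0 a)
        omega
      obtain ⟨i, hi⟩ : ∃ i, l = i + p ^ a := ⟨l - p ^ a, by omega⟩
      have hi0 : i ≠ 0 := by omega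
      have hpi : p ∣ i := (Nat.dvd_add_left (hpp a ha)).1 (hi ▸ hpl)
      obtain ⟨c', hc', h2⟩ := hcl (p ^ a) (hpj0 a) (hpp a ha)
      have h3 := pg_jet (f := hasseDeriv (p ^ a) B - Polynomial.C c') hw
        (sub_mem (hasse_mem_PI hB (p ^ a)) (C_mem_PI hc'))
        (by rwa [eval_sub, eval_C]) hi0
      rw [map_sub, hasseDeriv_eq_zero_of_lt_natDegree (Polynomial.C c') i (by
        rw [natDegree_C]; omega), sub_zero, hasse_eval, ← hi] at h3
      have h4 : ¬ p ∣ l.choose i := by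
        have h5 : l.choose i = (p ^ a * m).choose (p ^ a * 1) := by
          rw [← e, mul_one, hi]
          exact Nat.choose_symm_add
        rw [h5, dvd_choose_pow p a m 1, Nat.choose_one_right]
        exact hm
      have h5 := pg_of_natCast_mul h4 h3
      refine h5.mono ?_
      rw [hi]
      push_cast
      linarith
  -- the rest is a constant
  obtain ⟨μ, δ₀, hμ, hδ₀, hdeep⟩ := exists_deep (l₀ := 0) hw hB'C (fun l hl hpl => hn l hl hpl)
  have hL1 : (0 : ℝ) < 4 * ((B - A).natDegree + 1) := by positivity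
  set δ := min δ₀ (μ / (4 * ((B - A).natDegree + 1))) with hδdef
  have hδ : 0 < δ := lt_min hδ₀ (div_pos hμ hL1)
  have hδ1 : δ ≤ δ₀ := min_le_left _ _
  have hLδ : ((B - A).natDegree : ℝ) * δ ≤ μ / 2 := by
    have h1 : δ ≤ μ / (4 * ((B - A).natDegree + 1)) := min_le_right _ _
    rw [le_div_iff₀ hL1] at h1
    nlinarith
  obtain ⟨ψ, hψ, hwψ⟩ := hw.lim δ hδ
  have h1 := jet_diff (p := p) (l₀ := 0) (f := B - A) (ν := ν) (dvd_zero p) hz hψ
    (fun l h0 h1 => hdeep ψ hψ (hwψ.mono (by linarith)) l h0 h1) hδ.le hLδ (le_cadj v C w)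
    (self_mem_cadj v C w) hwψ
  rw [hasseDeriv_zero'] at h1
  refine ⟨(B - A).eval ψ, x, S, eval_mem hB'C hψ, hx0, hxC, fun j hj => ?_, ?_, fun j hj => ?_⟩
  · rw [hxj j hj]
    have h2 := hlev (p ^ j) (hpj0 j) (hpp j hj)
    push_cast at h2
    have h3 := h2.sub (TWII.LP.of_pg (hcn j hj))
    rw [sub_sub_cancel] at h3
    exact TWII.LP.down hw (hc j) h3
  · have e : B.eval w - ((B - A).eval ψ + col p x w S) = (B - A).eval w - (B - A).eval ψ := by
      rw [eval_sub B A w, hA, col, eval_finsetSum]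
      simp only [eval_mul, eval_C, eval_pow, eval_X]
      ring
    rw [e]
    refine h1.pg ?_
    rw [Nat.cast_zero]
    linarith
  · rw [hxj j hj]
    exact hcn j hj

/-- The `p`-jets of an element of class X are in `C` + null. -/
theorem H0w.cls (hw : TL v C w ρ) (h : H0w p v C w ρ)
    (hB : B ∈ PI C) (hX : ∀ l, 2 ≤ l → ¬ p ∣ l → hasseDeriv l B = 0)
    (hlev : ∀ l : ℕ, l ≠ 0 → p ∣ l → LP p v (cadj v C w) (ν - l * ρ) ((hasseDeriv l B).eval w))
    (l : ℕ) (hl : l ≠ 0) (hpl : p ∣ l) : ∃ c ∈ C, PG p v (cadj v C w) (ν - l * ρ)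
      ((hasseDeriv l B).eval w - c) := by
  have hX' : ∀ i : ℕ, i ≠ 0 → ¬ p ∣ i → hasseDeriv i (hasseDeriv l B) = 0 := by
    intro i hi hpi
    have e : hasseDeriv i (hasseDeriv l B) = (i + l).choose i • hasseDeriv (i + l) B := by
      have := LinearMap.congr_fun (hasseDeriv_comp (R := Ω) i l) B
      simpa using this
    rw [e, hX (i + l) (by omega) (fun h1 => hpi ((Nat.dvd_add_left hpl).1 h1)), smul_zero]
  obtain ⟨c, hc, h2⟩ := h.top hw (hasse_mem_PI hB l)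
    (fun i hi hpi => hX' i (by omega) hpi) (hlev l hl hpl) (e₂ := 0)
    (by rw [hX' 1 one_ne_zero (Nat.Prime.not_dvd_one hp.out), C_0])
  rw [zero_mul, sub_zero] at h2
  exact ⟨c, hc, h2⟩

/-- **The additive form** of a polynomial of class X all whose `p`-jets have level `ν - l ρ`. -/
theorem H0w.add_form (hw : TL v C w ρ) (h : H0w p v C w ρ)
    (hB : B ∈ PI C) (hX : ∀ l, 2 ≤ l → ¬ p ∣ l → hasseDeriv l B = 0) {e₂ : Ω}
    (he : hasseDeriv 1 B = Polynomial.C e₂)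
    (hlev : ∀ l : ℕ, l ≠ 0 → p ∣ l → LP p v (cadj v C w) (ν - l * ρ) ((hasseDeriv l B).eval w)) :
    ∃ (b₀ : Ω) (x : ℕ → Ω) (S : ℕ), b₀ ∈ C ∧ x 0 = e₂ ∧ (∀ j, x j ∈ C) ∧
      (∀ j : ℕ, j ≠ 0 → LP p v C (ν - p ^ j * ρ) (x j)) ∧
      PG p v (cadj v C w) ν (B.eval w - (b₀ + col p x w S)) := by
  obtain ⟨b₀, x, S, h1, h2, h3, h4, h5, -⟩ :=
    add_form_of hw hB hX he hlev (h.cls hw hB hX hlev)
  exact ⟨b₀, x, S, h1, h2, h3, h4, h5⟩

/-- The level of the jets of `B`, if `J = 0`. -/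
theorem nrm0_lev (hw : TL v C w ρ) {e : Ω} {A : ℕ → Ω} {N : ℕ}
    (hN : Nrm p v C w y ρ s ν e A N B 0 0) (l : ℕ) (hl : l ≠ 0) (hpl : p ∣ l) :
    LP p v (cadj v C w) (ν - l * ρ) ((hasseDeriv l B).eval w) := by
  have h1 := hN.lev_high hw (l := l) (by rw [mul_zero]; exact Nat.pos_of_ne_zero hl)
  have e1 : hasseDeriv l (fth p e A N B 0) = hasseDeriv l B := by
    rw [fth]
    have h2 : ∑ i ∈ Icc 1 N, Polynomial.C (A i) * (0 : Polynomial Ω) ^ p ^ i = 0 :=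
      sum_eq_zero fun i _ => by rw [zero_pow (Nat.pow_pos hp.out.pos).ne', mul_zero]
    rw [h2, mul_zero, zero_add, zero_add]
  rwa [e1] at h1

/-- **(G1)**: the additive form over the pair `w, y`. -/
theorem af_of (hw : TL v C w ρ)
    (hy : TL v (cadj v C w) y s) {e : Ω} {A : ℕ → Ω} {N : ℕ}
    (hN : Nrm p v C w y ρ s ν e A N B 0 0) {e₂ : Ω}
    (he₂ : hasseDeriv 1 B = Polynomial.C e₂)
    (hcl : ∀ l : ℕ, l ≠ 0 → p ∣ l → ∃ c ∈ C, PG p v (cadj v C w) (ν - l * ρ)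
      ((hasseDeriv l B).eval w - c)) {b : Ω}
    (hb : PG p v (cadj v (cadj v C w) y) ν
      (b - (e * y + ∑ i ∈ Icc 1 N, A i * y ^ p ^ i + B.eval w))) :
    ∃ (b₀ : Ω) (x : ℕ → Ω) (S : ℕ) (y' : ℕ → Ω),
      AF p v C (cadj v (cadj v C w) y) ν b b₀ w ρ x S y s y' N ∧
      x 0 = e₂ ∧ y' 0 = e ∧ (∀ i ∈ Icc 1 N, y' i = A i) ∧
      ¬ PG p v C (ν - p ^ N * s) (y' N) ∧ (∀ i, N < i → y' i = 0) ∧
      ∀ j : ℕ, j ≠ 0 → PG p v (cadj v C w) (ν - p ^ j * ρ)
        ((hasseDeriv (p ^ j) B).eval w - x j) := by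
  classical
  obtain ⟨b₀, x, S, hb₀, hx0, hxC, hxl, hrel, hxc⟩ :=
    add_form_of hw hN.BC hN.BX he₂ (nrm0_lev hw hN) hcl
  set y' : ℕ → Ω := fun i => if i = 0 then e else if i ≤ N then A i else 0 with hy'
  have hy0 : y' 0 = e := by simp [hy']
  have hyi : ∀ i ∈ Icc 1 N, y' i = A i := by
    intro i hi
    obtain ⟨h1, h2⟩ := mem_Icc.1 hi
    have h3 : i ≠ 0 := by omega
    simp [hy', h3, h2]
  have hyN : y' N = A N := hyi N (mem_Icc.2 ⟨hN.N1, le_rfl⟩)
  have hpar : Par v C (cadj v (cadj v C w) y) w ρ y s := Par.mk' hw hy hN.lim0 rfl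
  refine ⟨b₀, x, S, y', ⟨hpar, ⟨hxC, ?_, hxl⟩, ⟨?_, ?_, ?_⟩, hb₀, ?_⟩, hx0, hy0, hyi, ?_, fun i hi => ?_, hxc⟩
  · rw [hx0]
    have h1 := hN.B1
    rwa [he₂, eval_C] at h1
  · intro i
    rcases eq_or_ne i 0 with rfl | hi
    · rw [hy0]
      exact hN.eC
    · by_cases hiN : i ≤ N
      · rw [hyi i (mem_Icc.2 ⟨by omega, hiN⟩)]
        exact hN.AC i (mem_Icc.2 ⟨by omega, hiN⟩)
      · have h1 : y' i = 0 := by simp [hy', hi, hiN]
        rw [h1]
        exact zero_mem _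
  · rw [hy0]
    exact hN.ege
  · intro i hi
    by_cases hiN : i ≤ N
    · have hm : i ∈ Icc 1 N := mem_Icc.2 ⟨by omega, hiN⟩
      rw [hyi i hm]
      exact TWII.LP.down hw (hN.AC i hm) (hN.Alp i hm)
    · have h1 : y' i = 0 := by simp [hy', hi, hiN]
      rw [h1]
      exact lp_of_ge RVal.Ge.zero
  · have e1 : col p y' y N = e * y + ∑ i ∈ Icc 1 N, A i * y ^ p ^ i := by
      rw [col, range_eq_Ico, sum_eq_sum_Ico_succ_bot (Nat.succ_pos N), hy0, pow_zero, pow_one]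
      congr 1
      have e2 : Ico (0 + 1) (N + 1) = Icc 1 N := by
        ext i
        simp only [mem_Ico, mem_Icc]
        omega
      rw [e2]
      exact sum_congr rfl fun i hi => by rw [hyi i hi]
    have e2 : b - (b₀ + col p x w S + col p y' y N) =
        (b - (e * y + ∑ i ∈ Icc 1 N, A i * y ^ p ^ i + B.eval w)) +
          (B.eval w - (b₀ + col p x w S)) := by
      rw [e1]
      ring
    rw [e2]
    exact hb.add (PG.of_le' (le_cadj v _ y) hrel)
  · rw [hyN]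
    exact fun h1 => hN.top (TWII.PG.up h1)
  · have h3 : i ≠ 0 := by omega
    have h4 : ¬ i ≤ N := by omega
    simp [hy', h3, h4]


/-- **(G1)**: the additive form over the pair `w, y`. -/
theorem H0w.af (hw : TL v C w ρ) (h : H0w p v C w ρ)
    (hy : TL v (cadj v C w) y s) {e : Ω} {A : ℕ → Ω} {N : ℕ}
    (hN : Nrm p v C w y ρ s ν e A N B 0 0) {e₂ : Ω}
    (he₂ : hasseDeriv 1 B = Polynomial.C e₂) {b : Ω}
    (hb : PG p v (cadj v (cadj v C w) y) ν
      (b - (e * y + ∑ i ∈ Icc 1 N, A i * y ^ p ^ i + B.eval w))) :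
    ∃ (b₀ : Ω) (x : ℕ → Ω) (S : ℕ) (y' : ℕ → Ω),
      AF p v C (cadj v (cadj v C w) y) ν b b₀ w ρ x S y s y' N ∧
      x 0 = e₂ ∧ y' 0 = e ∧ (∀ i ∈ Icc 1 N, y' i = A i) ∧
      ¬ PG p v C (ν - p ^ N * s) (y' N) := by
  obtain ⟨b₀, x, S, y', h1, h2, h3, h4, h5, -, -⟩ :=
    af_of hw hy hN he₂ (h.cls hw hN.BC hN.BX (nrm0_lev hw hN)) hb
  exact ⟨b₀, x, S, y', h1, h2, h3, h4, h5⟩

/-- The additive form of a socle class. -/
theorem H0w.inf_af (hΩ : CompleteV v) (hw : TL v C w ρ) (h : H0w p v C w ρ) (hrat : RatH p v C w ρ)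
    (hy : TL v (cadj v C w) y s)
    {e₀ a₀ : Ω} {A₀ : ℕ → Ω} {N : ℕ} (hN : 1 ≤ N) (he₀ : e₀ ∈ cadj v C w)
    (hev : v.Ge (ν - s) e₀) (ha₀ : a₀ ∈ cadj v C w)
    (hA₀ : ∀ i ∈ Icc 1 N, A₀ i ∈ cadj v C w)
    (hlo : ∀ i ∈ Icc 1 N, LP p v (cadj v C w) (ν - p ^ i * s) (A₀ i))
    (htop : ¬ PG p v (cadj v C w) (ν - p ^ N * s) (A₀ N))
    (hst : ∀ ε : ℝ, 0 < ε → ∃ δ : ℝ, 0 < δ ∧ ∀ θ ∈ cadj v C w, v.Ge (s - δ) (y - θ) →
      ∃ g ∈ cadj v C w, v.Ge (ν - ε)
        (e₀ * θ + ∑ i ∈ Icc 1 N, A₀ i * θ ^ p ^ i + a₀ - g ^ p))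
    (ha : PG p v (cadj v (cadj v C w) y) ν
      (b - (e₀ * y + ∑ i ∈ Icc 1 N, A₀ i * y ^ p ^ i + a₀))) :
    ∃ g ∈ cadj v C w, ∃ (b₀ : Ω) (x : ℕ → Ω) (S : ℕ) (y' : ℕ → Ω),
      AF p v C (cadj v (cadj v C w) y) ν b b₀ w ρ x S (y - g) s y' N ∧
      ¬ PG p v C (ν - p ^ N * s) (y' N) := by
  obtain ⟨c, e, e₂, A, B, J, hc, hNr, -, he₂, hB1, -, hrel⟩ :=
    h.exists_nrm hΩ hw hy hN he₀ hev ha₀ hA₀ hlo htop hst ha
  obtain ⟨g, hg, hNr'⟩ := hrat _ _ _ _ _ _ _ _ hNr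
  have hgF : g.eval w ∈ cadj v C w := TWLM.eval_mem_cadj hg
  have hcg : c + g.eval w ∈ cadj v C w := add_mem hc hgF
  have ey : y - c - g.eval w = y - (c + g.eval w) := by ring
  rw [ey] at hNr'
  have hy' : TL v (cadj v C w) (y - (c + g.eval w)) s := TL.sub_mem hy hcg
  have hK : cadj v (cadj v C w) (y - (c + g.eval w)) = cadj v (cadj v C w) y := cadj_sub_mem hcg
  obtain ⟨e₂', he₂'⟩ : ∃ e₂' : Ω, hasseDeriv 1 (fth p e A N B g) = Polynomial.C e₂' := by
    rcases hNr'.eB with h0 | h0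
    · refine ⟨e₂, ?_⟩
      rw [hasseDeriv_one] at hB1 ⊢
      rw [derivative_fth, h0, C_0, zero_mul, zero_add, hB1]
    · exact ⟨0, by rw [h0, C_0]⟩
  have hrel' : PG p v (cadj v (cadj v C w) (y - (c + g.eval w))) ν
      (b - (e * (y - (c + g.eval w)) + ∑ i ∈ Icc 1 N, A i * (y - (c + g.eval w)) ^ p ^ i +
        (fth p e A N B g).eval w)) := by
    rw [hK]
    have e1 : e * (y - (c + g.eval w)) + ∑ i ∈ Icc 1 N, A i * (y - (c + g.eval w)) ^ p ^ i +
        (fth p e A N B g).eval w =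
        e * (y - c) + ∑ i ∈ Icc 1 N, A i * (y - c) ^ p ^ i + B.eval w := by
      rw [fth_eval]
      have e2 := ff_add (p := p) e A N (B.eval w) (y - (c + g.eval w)) (g.eval w)
      have e3 : y - (c + g.eval w) + g.eval w = y - c := by ring
      rw [e3] at e2
      unfold ff at e2 ⊢
      exact e2.symm
    rw [e1]
    exact hrel
  obtain ⟨b₀, x, S, y', h1, -, -, -, h2⟩ := h.af hw hy' hNr' he₂' hrel'
  rw [hK] at h1
  exact ⟨c + g.eval w, hcg, b₀, x, S, y', h1, h2⟩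


/-- A hit critical element: a jet has the additive form. -/
theorem H0w.hit_af (hΩ : CompleteV v) (hw : TL v C w ρ) (h : H0w p v C w ρ) (hrat : RatH p v C w ρ)
    (hy : TL v (cadj v C w) y s) {f : Polynomial Ω} (hf : f ∈ PI (cadj v C w))
    (hlp : LP p v (cadj v (cadj v C w) y) ν (f.eval y))
    (hhit : ∃ l : ℕ, p ∣ l ∧ l ≠ 0 ∧
      ¬ PG p v (cadj v (cadj v C w) y) (ν - l * s) ((taylor y f).coeff l)) :
    ∃ (m N : ℕ), ∃ g ∈ cadj v C w, ∃ (b₀ : Ω) (x : ℕ → Ω) (S : ℕ) (y' : ℕ → Ω), N ≠ 0 ∧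
      AF p v C (cadj v (cadj v C w) y) (ν - m * s) ((hasseDeriv m f).eval y) b₀ w ρ x S (y - g) s
        y' N ∧ ¬ PG p v C (ν - m * s - p ^ N * s) (y' N) := by
  obtain ⟨m, t, e₀, a₀, A₀, -, he₀, ha₀, hA₀, hev, hlo, htop, hrel, hst⟩ :=
    TWII.soc p hy hf hlp hhit
  have hsum : ∀ z : Ω, ∑ i ∈ Finset.range (t + 1), A₀ i * z ^ p ^ (i + 1) =
      ∑ i ∈ Icc 1 (t + 1), A₀ (i - 1) * z ^ p ^ i := by
    intro z
    have e1 : Icc 1 (t + 1) = Ico 1 (t + 1 + 1) := by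
      ext i
      simp only [mem_Icc, mem_Ico]
      omega
    rw [e1, sum_Ico_eq_sum_range]
    refine sum_congr rfl fun i _ => ?_
    rw [add_comm 1 i, Nat.add_sub_cancel]
  obtain ⟨g, hg, b₀, x, S, y', h3, h4⟩ := h.inf_af (p := p) (ν := ν - m * s) (N := t + 1)
    (A₀ := fun i => A₀ (i - 1)) (b := (hasseDeriv m f).eval y) hΩ hw hrat hy (by omega) he₀
    hev ha₀ (fun i _ => hA₀ _) (fun i hi => by
      obtain ⟨j, rfl⟩ : ∃ j, i = j + 1 := ⟨i - 1, by have := (mem_Icc.1 hi).1; omega⟩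
      have h5 := hlo j
      push_cast at h5
      simpa using h5) (by
      intro h5
      refine htop (TWII.PG.up ?_)
      push_cast
      simpa using h5) (fun ε hε => by
      obtain ⟨δ, hδ, h5⟩ := hst ε hε
      refine ⟨δ, hδ, fun θ hθ h6 => ?_⟩
      obtain ⟨q, hq, h8⟩ := h5 θ hθ h6
      refine ⟨q, hq, ?_⟩
      rw [hsum] at h8
      have e1 : e₀ * θ + ∑ i ∈ Icc 1 (t + 1), A₀ (i - 1) * θ ^ p ^ i + a₀ - q ^ p =
          a₀ + e₀ * θ + ∑ i ∈ Icc 1 (t + 1), A₀ (i - 1) * θ ^ p ^ i - q ^ p := by ring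
      rw [e1]
      exact h8) (by
      rw [hsum] at hrel
      have e1 : e₀ * y + ∑ i ∈ Icc 1 (t + 1), A₀ (i - 1) * y ^ p ^ i + a₀ =
          a₀ + e₀ * y + ∑ i ∈ Icc 1 (t + 1), A₀ (i - 1) * y ^ p ^ i := by ring
      rw [e1]
      exact hrel)
  exact ⟨m, t + 1, g, hg, b₀, x, S, y', Nat.succ_ne_zero t, h3, h4⟩

end Pool.Agent.TWRR
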