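import Pool.Agent.Lib.TWRR.G1
import Pool.Agent.Lib.TWCT.J3b

/-!
# TANK W, contact, j = 1: the end (row J1.6)

* `JL.oc`: integration of a noise free direction, with one class: the additive form has one class;
* `JL.red_oc`: it has an empty column;
* `hrone_j1`: the exit.
-/

set_option autoImplicit false

open Polynomial Finset

namespace Pool.Agent.TWRR

open Pool.Agent.H15JM (RVal)
open Pool.Agent.LU1 (VPos adj)
open Pool.Agent.D2 (Ctx0)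
open Pool.Agent.D2P (hen clI mem_clI)
open Pool.Agent.TW (Ctx Full BD HRone LU)
open Pool.Agent.TWM
open Pool.Agent.TWII (PG LP)
open Pool.Agent.TWN1

universe u

variable {k Ω : Type u} [Field k] [Field Ω] [Algebra k Ω] [IsAlgClosed Ω] {v : RVal Ω}
  {C F K : IntermediateField k Ω} {w y b X₀ : Ω} {ρ s ν : ℝ} {p : ℕ} [hp : Fact p.Prime]
  [CharP Ω p] {e : Ω} {A : ℕ → Ω} {N J D : ℕ} {B : Polynomial Ω} {φ : ℕ → Polynomial Ω}

/-- The effects are in one class. -/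
def OClsJ (p : ℕ) (v : RVal Ω) (C : IntermediateField k Ω) (w : Ω) (ρ ν : ℝ) (e : Ω)
    (A : ℕ → Ω) (N : ℕ) (B : Polynomial Ω) (φ : ℕ → Polynomial Ω) (X₀ : Ω) : Prop :=
  ∀ l : ℕ, l ≠ 0 → p ∣ l → OC p v C (cadj v C w) X₀ (ν - l * ρ) ((ef p e A N B φ l).eval w)

omit [IsAlgClosed Ω] hp [CharP Ω p] in
theorem OClsJ.cls (h : OClsJ p v C w ρ ν e A N B φ X₀) (hX : X₀ ∈ C) :
    ClsJ p v C w ρ ν e A N B φ := fun l hl hpl => by
  obtain ⟨g, hg, h1⟩ := h l hl hpl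
  exact ⟨g ^ p * X₀, mul_mem (pow_mem hg _) hX, h1⟩

omit [IsAlgClosed Ω] hp [CharP Ω p] in
theorem OC.up' {F F' : IntermediateField k Ω} (hF : F ≤ F') {c : ℝ} {a : Ω}
    (h : OC p v C F X₀ c a) : OC p v C F' X₀ c a := by
  obtain ⟨g, hg, h1⟩ := h
  exact ⟨g, hg, PG.of_le' hF h1⟩

theorem OC.down' (hw : TL v C w ρ) (hX : X₀ ∈ C) {c : ℝ} {a : Ω} (ha : a ∈ C)
    (h : OC p v C (cadj v C w) X₀ c a) : OC p v C C X₀ c a := by
  obtain ⟨g, hg, h1⟩ := h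
  exact ⟨g, hg, TWII.PG.down hw (sub_mem ha (mul_mem (pow_mem hg _) hX)) h1⟩

/-- **Integration of a noise free direction, one class.** -/
theorem JL.oc (hgp : GP p v C) (hX : X₀ ∈ C) (hw : TL v C w ρ) (hy : TL v (cadj v C w) y s)
    (hN : Nrm p v C w y ρ s ν e A N B J 0) (hjl : JL p v C w y ρ s e J φ D)
    (hA : ∀ i ∈ Icc 1 N, OC p v C C X₀ (ν - p ^ i * s) (A i))
    (h : OClsJ p v C w ρ ν e A N B φ X₀) {e₂ : Ω} (he₂ : hasseDeriv 1 B = Polynomial.C e₂)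
    (hb : PG p v (cadj v (cadj v C w) y) ν
      (b - (e * y + ∑ i ∈ Icc 1 N, A i * y ^ p ^ i + B.eval w))) :
    ∃ g ∈ PI C, ∃ (b₀ : Ω) (x : ℕ → Ω) (S : ℕ) (y' : ℕ → Ω),
      AF p v C (cadj v (cadj v C w) y) ν b b₀ w ρ x S (y - g.eval w) s y' N ∧
      OCol p v C ν ρ X₀ x ∧ OCol p v C ν s X₀ y' ∧ ¬ PG p v C (ν - p ^ N * s) (y' N) := by
  obtain ⟨g, hg, b₀, x, S, y', h1, h2, h3, h4, c, hcC, hcge, hx⟩ :=
    hjl.af hw hy hN (h.cls hX) he₂ hb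
  refine ⟨g, hg, b₀, x, S, y', h1, fun j hj => ?_, fun j hj => ?_, h3⟩
  · refine OC.down' hw hX (h1.c1.mem j) ?_
    have hpj : p ^ j ≠ 0 := (Nat.pow_pos hp.out.pos).ne'
    have h5 : OC p v C (cadj v C w) X₀ (ν - p ^ j * ρ) ((ef p e A N B φ (p ^ j)).eval w) := by
      have h6 := h (p ^ j) hpj (dvd_pow_self p hj)
      push_cast at h6
      exact h6
    have h6 : OC p v C (cadj v C w) X₀ (ν - p ^ j * ρ) (e * c (p ^ j) + ∑ m ∈ Icc 1 N,
        (if p ^ m ∣ p ^ j then A m * (c (p ^ j / p ^ m)) ^ p ^ m else 0)) := by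
      refine OC.add (OC.of_pg (PG.of_le' (le_cadj v C w) (hgp.null (mul_mem hN.eC (hcC _)) ?_)))
        (OC.sum _ _ fun m hm => ?_)
      · refine (hN.ege.mul (hcge _ hpj)).mono ?_
        push_cast
        linarith
      · split_ifs with hd
        · have hmj : m ≤ j := (Nat.pow_dvd_pow_iff_le_right hp.out.one_lt).1 hd
          obtain ⟨i, rfl⟩ := Nat.exists_eq_add_of_le hmj
          have e1 : p ^ (m + i) / p ^ m = p ^ i := by
            rw [pow_add, Nat.mul_div_cancel_left _ (Nat.pow_pos hp.out.pos)]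
          rw [e1]
          have h7 := (hA m hm).mul_pow (i := m) le_rfl (hcC (p ^ i))
            (by have := (mem_Icc.1 hm).1; omega) (hcge (p ^ i) (Nat.pow_pos hp.out.pos).ne')
          refine (h7.up' (le_cadj v C w)).mono (le_of_eq ?_)
          push_cast
          rw [pow_add]
          ring
        · exact OC.of_pg (PG.of_gt Gt.zero)
    have h7 := (h5.sub h6).sub (OC.of_pg (C := C) (X₀ := X₀) (hx j hj))
    rwa [sub_sub_cancel] at h7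
  · by_cases hjN : j ≤ N
    · have hm : j ∈ Icc 1 N := mem_Icc.2 ⟨by omega, hjN⟩
      rw [h2 j hm]
      exact hA j hm
    · rw [h4 j (by omega)]
      exact OC.of_pg (PG.of_gt Gt.zero)

/-- **The additive form has an empty column.** -/
theorem JL.red_oc (hgp : GP p v C) (hX : X₀ ∈ C) (hw : TL v C w ρ) (hy : TL v (cadj v C w) y s)
    (hN : Nrm p v C w y ρ s ν e A N B J 0) (hjl : JL p v C w y ρ s e J φ D)
    (hA : ∀ i ∈ Icc 1 N, OC p v C C X₀ (ν - p ^ i * s) (A i))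
    (h : OClsJ p v C w ρ ν e A N B φ X₀) {e₂ : Ω} (he₂ : hasseDeriv 1 B = Polynomial.C e₂)
    (hb : PG p v (cadj v (cadj v C w) y) ν
      (b - (e * y + ∑ i ∈ Icc 1 N, A i * y ^ p ^ i + B.eval w))) :
    ∃ (b₀' z₁' z₂' : Ω) (r₁' r₂' : ℝ) (x' y' : ℕ → Ω) (T' : ℕ),
      AF p v C (cadj v (cadj v C w) y) ν b b₀' z₁' r₁' x' 0 z₂' r₂' y' T' ∧
      T' ≠ 0 ∧ ¬ PG p v C (ν - p ^ T' * r₂') (y' T') := by
  obtain ⟨g, -, b₀, x, S, y', h1, h2, h3, h4⟩ := hjl.oc hgp hX hw hy hN hA h he₂ hb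
  exact AF.red_oc hgp h1 (by have := hN.N1; omega) h4 h2 h3

/-- **The exit of row J1.6.** -/
theorem hrone_j1 [IsAlgClosed k] [CharP k p] (h₀ : Ctx k v 1)
    (hcv : CompleteV v) {K₀ : IntermediateField k Ω} (hK : K₀.FG) (hKf : Full v K₀)
    (htr : Algebra.trdeg k K₀ = (4 : ℕ)) (hBDK : BD p v K₀) {al : Ω}
    (hal : al ^ p ∈ K₀) (hBD : BD p v (adj K₀ al)) {C₀ : IntermediateField k Ω}
    (hCf : Full v C₀) (hCt : Algebra.trdeg k C₀ = (2 : ℕ))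
    (hlev : ∀ g ∈ clI v K₀, ¬ Gt v ν (al ^ p - g ^ p))
    (hgp : GP p v (clI v C₀)) (hX : X₀ ∈ clI v C₀) (hw : TL v (clI v C₀) w ρ)
    (hy : TL v (cadj v (clI v C₀) w) y s)
    (hKe : clI v K₀ = cadj v (cadj v (clI v C₀) w) y)
    (hN : Nrm p v (clI v C₀) w y ρ s ν e A N B J 0)
    (hjl : JL p v (clI v C₀) w y ρ s e J φ D)
    (hA : ∀ i ∈ Icc 1 N, OC p v (clI v C₀) (clI v C₀) X₀ (ν - p ^ i * s) (A i))
    (h : OClsJ p v (clI v C₀) w ρ ν e A N B φ X₀) {e₂ : Ω}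
    (he₂ : hasseDeriv 1 B = Polynomial.C e₂)
    (hb : PG p v (clI v K₀) ν
      (al ^ p - (e * y + ∑ i ∈ Icc 1 N, A i * y ^ p ^ i + B.eval w))) :
    HRone v (adj K₀ al) := by
  rw [hKe] at hb
  obtain ⟨b₀', z₁', z₂', r₁', r₂', x', y', T', h1, -, -⟩ :=
    hjl.red_oc hgp hX hw hy hN hA h he₂ hb
  rw [← hKe] at h1
  exact TWCT.hrone4_of_af h₀ hcv hK hKf htr hBDK hal hBD hCf hCt hlev h1

end Pool.Agent.TWRR
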