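import Pool.Agent.Lib.TWRR.R5
import Pool.Agent.Lib.TWCT.TrH

/-!
# TANK W, contact: descent of H0 and RAT from the tame closure in the big field

`K = C⟨z⟩` in `Ω`, `tam C` the tame closure of `C`, `ι : Ω → H` isometric.

* `prP`: the projection `tam K → K` on the coefficients of a polynomial;
* `H0w.of_tam`, `RatH.of_tam`: from `tam C` to `C`;
* `H0w.of_map`, `RatH.of_map`: from `H` to `Ω`;
* `H0w.desc`, `RatH.desc`: both.
-/

set_option autoImplicit false

open Polynomial Finset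

namespace Pool.Agent.TWRR

open Pool.Agent.H15JM (RVal)
open Pool.Agent.D2 (Ctx0)
open Pool.Agent.D2P (clI)
open Pool.Agent.TWM
open Pool.Agent.TWS (IsoE)
open Pool.Agent.TWII (PG LP)
open Pool.Agent.TWN1
open Pool.Agent.TWTam

universe u

variable {k Ω : Type u} [Field k] [Field Ω] [Algebra k Ω] {v : RVal Ω}
  {C F K : IntermediateField k Ω} {x z : Ω} {ρ : ℝ} {p : ℕ}

/-! ### Change of the field -/

theorem pg_mono_field {F F' : IntermediateField k Ω} (h : F ≤ F') {c : ℝ} {a : Ω}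
    (ha : PG p v F c a) : PG p v F' c a := by
  obtain ⟨g, hg, h1⟩ := ha
  exact ⟨g, h hg, h1⟩

theorem lp_mono_field {F F' : IntermediateField k Ω} (h : F ≤ F') {c : ℝ} {a : Ω}
    (ha : LP p v F c a) : LP p v F' c a := fun ε hε => by
  obtain ⟨g, hg, h1⟩ := ha ε hε
  exact ⟨g, h hg, h1⟩

theorem pi_mono {F F' : IntermediateField k Ω} (h : F ≤ F') {f : Polynomial Ω} (hf : f ∈ PI F) :
    f ∈ PI F' := fun i => h (hf i)

/-! ### The projection of polynomials -/

/-- The projection of the coefficients. -/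
noncomputable def prP (p : ℕ) (v : RVal Ω) (x : Ω) (K : IntermediateField k Ω)
    (f : Polynomial Ω) : Polynomial Ω :=
  ∑ i ∈ range (f.natDegree + 1), Polynomial.C (prT p v x K (f.coeff i)) * X ^ i

section PrP

variable (hK : TamB p v x K)

include hK

theorem prT_zero : prT p v x K 0 = 0 := hK.prT_self (zero_mem K)

theorem prP_coeff (f : Polynomial Ω) (n : ℕ) :
    (prP p v x K f).coeff n = prT p v x K (f.coeff n) := by
  classical
  rw [prP, finsetSum_coeff]
  simp only [coeff_C_mul, coeff_X_pow, mul_ite, mul_one, mul_zero]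
  rw [Finset.sum_ite_eq]
  split_ifs with h
  · rfl
  · rw [coeff_eq_zero_of_natDegree_lt (by
      rw [mem_range] at h
      omega), prT_zero hK]

theorem prP_self {f : Polynomial Ω} (hf : f ∈ PI K) : prP p v x K f = f := by
  ext n
  rw [prP_coeff hK, hK.prT_self (hf n)]

theorem prP_zero : prP p v x K 0 = 0 := prP_self hK (zero_mem _)

theorem prP_add {f g : Polynomial Ω} (hf : f ∈ PI (tam p v x K)) (hg : g ∈ PI (tam p v x K)) :
    prP p v x K (f + g) = prP p v x K f + prP p v x K g := by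
  ext n
  rw [prP_coeff hK, coeff_add, coeff_add, prP_coeff hK, prP_coeff hK, hK.prT_add (hf n) (hg n)]

theorem prP_sum {ι : Type*} (s : Finset ι) (g : ι → Polynomial Ω)
    (hg : ∀ i ∈ s, g i ∈ PI (tam p v x K)) :
    prP p v x K (∑ i ∈ s, g i) = ∑ i ∈ s, prP p v x K (g i) := by
  classical
  induction s using Finset.induction_on with
  | empty => rw [sum_empty, sum_empty, prP_zero hK]
  | insert a s ha ih =>
    rw [sum_insert ha, sum_insert ha, prP_add hK (hg a (mem_insert_self a s))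
      (sum_mem fun i hi => hg i (mem_insert_of_mem hi)),
      ih fun i hi => hg i (mem_insert_of_mem hi)]

theorem prP_C_mul {a : Ω} (ha : a ∈ K) {f : Polynomial Ω} (hf : f ∈ PI (tam p v x K)) :
    prP p v x K (Polynomial.C a * f) = Polynomial.C a * prP p v x K f := by
  ext n
  rw [prP_coeff hK, coeff_C_mul, coeff_C_mul, prP_coeff hK, hK.prT_mul ha (hf n)]

theorem prP_hasse {f : Polynomial Ω} (hf : f ∈ PI (tam p v x K)) (l : ℕ) :
    prP p v x K (hasseDeriv l f) = hasseDeriv l (prP p v x K f) := by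
  ext n
  rw [prP_coeff hK, hasseDeriv_coeff, hasseDeriv_coeff, prP_coeff hK,
    hK.prT_mul (natCast_mem K _) (hf _)]

theorem prP_pow [hp : Fact p.Prime] [CharP Ω p] {f : Polynomial Ω}
    (hf : f ∈ PI (tam p v x K)) : prP p v x K (f ^ p) = prP p v x K f ^ p := by
  have e : ∀ (g : Polynomial Ω) (n : ℕ),
      (g ^ p).coeff n = if p ∣ n then g.coeff (n / p) ^ p else 0 := by
    intro g n
    rw [← Polynomial.map_frobenius_expand p, coeff_map, coeff_expand hp.out.pos]
    split_ifs with h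
    · rw [frobenius_def]
    · rw [map_zero]
  ext n
  rw [prP_coeff hK, e, e]
  split_ifs with h
  · rw [hK.prT_pow (hf _), prP_coeff hK]
  · exact prT_zero hK

theorem prP_ppow [hp : Fact p.Prime] [CharP Ω p] {f : Polynomial Ω}
    (hf : f ∈ PI (tam p v x K)) (j : ℕ) : prP p v x K (f ^ p ^ j) = prP p v x K f ^ p ^ j := by
  induction j with
  | zero => rw [pow_zero, pow_one, pow_one]
  | succ j ih => rw [pow_succ, pow_mul, prP_pow hK (pow_mem hf _), ih, ← pow_mul]

theorem prP_eval {f : Polynomial Ω} (hf : f ∈ PI (tam p v x K)) (hz : z ∈ K) :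
    (prP p v x K f).eval z = prT p v x K (f.eval z) := by
  have h1 : (prP p v x K f).natDegree ≤ f.natDegree := by
    refine natDegree_le_iff_coeff_eq_zero.2 fun n hn => ?_
    rw [prP_coeff hK, coeff_eq_zero_of_natDegree_lt hn, prT_zero hK]
  rw [eval_eq_sum_range' (Nat.lt_succ_of_le h1), eval_eq_sum_range' (Nat.lt_succ_self _),
    hK.prT_sum _ _ fun i _ => mul_mem (hf i) (pow_mem (le_tam K hz) i)]
  refine sum_congr rfl fun i _ => ?_
  rw [prP_coeff hK, mul_comm (f.coeff i), hK.prT_mul (pow_mem hz i) (hf i), mul_comm]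

theorem prP_mem (hF : TamS p v x K F) {f : Polynomial Ω} (hf : f ∈ PI (tam p v x F)) :
    prP p v x K f ∈ PI F := fun i => by
  rw [prP_coeff hK]
  exact (hF.prT_mem hK (hf i)).1

theorem prP_fth [hp : Fact p.Prime] [CharP Ω p] {e : Ω} {A : ℕ → Ω} {N : ℕ}
    {B θ : Polynomial Ω} (he : e ∈ K) (hA : ∀ i ∈ Icc 1 N, A i ∈ K)
    (hB : B ∈ PI (tam p v x K)) (hθ : θ ∈ PI (tam p v x K)) :
    prP p v x K (fth p e A N B θ) = fth p e A N (prP p v x K B) (prP p v x K θ) := by
  have h1 : Polynomial.C e * θ ∈ PI (tam p v x K) := mul_mem (C_mem_PI (le_tam K he)) hθ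
  have h2 : ∀ i ∈ Icc 1 N, Polynomial.C (A i) * θ ^ p ^ i ∈ PI (tam p v x K) := fun i hi =>
    mul_mem (C_mem_PI (le_tam K (hA i hi))) (pow_mem hθ _)
  rw [fth, fth, prP_add hK (add_mem h1 (sum_mem h2)) hB, prP_add hK h1 (sum_mem h2),
    prP_sum hK _ _ h2, prP_C_mul hK he hθ]
  congr 2
  refine sum_congr rfl fun i hi => ?_
  rw [prP_C_mul hK (hA i hi) (pow_mem hθ _), prP_ppow hK hθ]

end PrP

theorem fth_mem_PI {e : Ω} {A : ℕ → Ω} {N : ℕ} {B θ : Polynomial Ω} (he : e ∈ F)
    (hA : ∀ i ∈ Icc 1 N, A i ∈ F) (hB : B ∈ PI F) (hθ : θ ∈ PI F) : fth p e A N B θ ∈ PI F :=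
  add_mem (add_mem (mul_mem (C_mem_PI he) hθ)
    (sum_mem fun i hi => mul_mem (C_mem_PI (hA i hi)) (pow_mem hθ _))) hB

theorem eval_mem_of_PI {f : Polynomial Ω} (hf : f ∈ PI F) (hz : z ∈ F) : f.eval z ∈ F := by
  rw [eval_eq_sum_range]
  exact sum_mem fun i _ => mul_mem (hf i) (pow_mem hz i)

/-! ### From the tame closure -/

section OfTam

variable [hp : Fact p.Prime] [CharP Ω p] (hK : TamB p v x (cadj v C z))
  (hF : TamS p v x (cadj v C z) C)

include hK

theorem H0w.of_tam (h : H0w p v (tam p v x C) z ρ) : H0w p v C z ρ := by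
  intro f ν hf hX hlp l hl hpl
  have hzK : z ∈ cadj v C z := self_mem_cadj v C z
  have hfK : f ∈ PI (cadj v C z) := pi_mono (le_cadj v C z) hf
  have h1 := h f ν (pi_mono (le_tam C) hf) hX (by
    rw [← tam_cadj]
    exact lp_mono_field (le_tam _) hlp) l hl hpl
  rw [← tam_cadj] at h1
  exact hK.self.pg hK (eval_mem_of_PI (hasse_mem_PI hfK l) hzK) h1

include hF

/-- The normal form goes up. -/
theorem nrm_tam {y e : Ω} {s ν : ℝ} {A : ℕ → Ω} {N : ℕ} {B : Polynomial Ω} {J : ℕ}
    (h : Nrm p v C z y ρ s ν e A N B J 0) : Nrm p v (tam p v x C) z y ρ s ν e A N B J 0 where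
  N1 := h.N1
  eC := le_tam C h.eC
  ege := h.ege
  AC := fun i hi => le_tam C (h.AC i hi)
  Alp := fun i hi => by
    rw [← tam_cadj]
    exact lp_mono_field (le_tam _) (h.Alp i hi)
  top := fun h1 => h.top (by
    rw [← tam_cadj] at h1
    exact hK.self.pg hK (hF.le (h.AC N (mem_Icc.2 ⟨h.N1, le_rfl⟩))) h1)
  mem := zero_mem _
  low := h.low
  bin := h.bin
  pdv := h.pdv
  siz := h.siz
  BC := pi_mono (le_tam C) h.BC
  BX := h.BX
  B1 := h.B1
  eB := h.eB
  fam := fun ε hε => by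
    obtain ⟨θ, h1, h2, h3, h4, h5⟩ := h.fam ε hε
    refine ⟨θ, pi_mono (le_tam C) h1, h2, h3, h4, ?_⟩
    rw [← tam_cadj]
    exact lp_mono_field (le_tam _) h5

theorem RatH.of_tam (h : RatH p v (tam p v x C) z ρ) : RatH p v C z ρ := by
  intro y s ν e A N B J hN
  obtain ⟨g, hg, hN'⟩ := h y s ν e A N B J (nrm_tam hK hF hN)
  have hzK : z ∈ cadj v C z := self_mem_cadj v C z
  have hCK : C ≤ cadj v C z := hF.le
  have hgK : g ∈ PI (tam p v x (cadj v C z)) := pi_mono (tam_mono hCK) hg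
  have heK : e ∈ cadj v C z := hCK hN.eC
  have hAK : ∀ i ∈ Icc 1 N, A i ∈ cadj v C z := fun i hi => hCK (hN.AC i hi)
  have hBK : B ∈ PI (cadj v C z) := pi_mono hCK hN.BC
  have hBt : B ∈ PI (tam p v x (cadj v C z)) := pi_mono (le_tam _) hBK
  set g₀ := prP p v x (cadj v C z) g with hg₀
  have hg₀C : g₀ ∈ PI C := prP_mem hK hF hg
  have hfg : fth p e A N B g ∈ PI (tam p v x (cadj v C z)) :=
    fth_mem_PI (le_tam _ heK) (fun i hi => le_tam _ (hAK i hi)) hBt hgK
  have hfe : prP p v x (cadj v C z) (fth p e A N B g) = fth p e A N B g₀ := by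
    rw [prP_fth hK heK hAK hBt hgK, prP_self hK hBK]
  refine ⟨g₀, hg₀C, ?_⟩
  exact
    { N1 := hN.N1
      eC := hN.eC
      ege := hN.ege
      AC := hN.AC
      Alp := hN.Alp
      top := hN.top
      mem := zero_mem _
      low := fun j hj => absurd hj (by simp)
      bin := fun j hj => absurd hj (by simp)
      pdv := fun _ j hj => absurd hj (by simp)
      siz := fun j => by
        rw [coeff_zero]
        exact RVal.Ge.zero
      BC := fth_mem_PI hN.eC hN.AC hN.BC hg₀C
      BX := fun l hl hpl => by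
        rw [← hfe, ← prP_hasse hK hfg, hN'.BX l hl hpl, prP_zero hK]
      B1 := by
        rw [← hfe, ← prP_hasse hK hfg, prP_eval hK (hasse_mem_PI hfg 1) hzK]
        exact hK.prT_ge (eval_mem_of_PI (hasse_mem_PI hfg 1) (le_tam _ hzK)) hN'.B1
      eB := by
        rcases hN'.eB with h1 | h1
        · exact Or.inl h1
        · right
          rw [← hfe, ← prP_hasse hK hfg, h1, prP_zero hK]
      fam := fun ε hε => by
        obtain ⟨θ, h1, h2, h3, h4, h5⟩ := hN'.fam ε hε
        obtain ⟨θ', h1', -, -, h4', -⟩ := hN.fam ε hε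
        have hθK : θ ∈ PI (tam p v x (cadj v C z)) := pi_mono (tam_mono hCK) h1
        have hθ'K : θ'.eval z ∈ cadj v C z := eval_mem_of_PI (pi_mono hCK h1') hzK
        have hge : g.eval z ∈ tam p v x (cadj v C z) := eval_mem_of_PI hgK (le_tam _ hzK)
        have hθe : θ.eval z ∈ tam p v x (cadj v C z) := eval_mem_of_PI hθK (le_tam _ hzK)
        refine ⟨prP p v x (cadj v C z) θ, prP_mem hK hF h1, fun i hi => ?_, fun he l hl => ?_, ?_,
          ?_⟩
        · rw [prP_coeff hK, h2 i hi, coeff_zero, prT_zero hK]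
        · rw [← prP_hasse hK hθK, h3 he l hl, prP_zero hK]
        · have h6 : v.Ge (s - ε) (θ'.eval z - g.eval z - θ.eval z) := by
            have e1 : θ'.eval z - g.eval z - θ.eval z =
              (y - g.eval z - θ.eval z) - (y - θ'.eval z) := by ring
            rw [e1]
            exact h4.sub h4'
          have h7 := hK.prT_ge (sub_mem (sub_mem (le_tam _ hθ'K) hge) hθe) h6
          rw [hK.prT_sub (sub_mem (le_tam _ hθ'K) hge) hθe, hK.prT_sub (le_tam _ hθ'K) hge,
            hK.prT_self hθ'K, ← prP_eval hK hgK hzK, ← prP_eval hK hθK hzK] at h7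
          have e2 : y - g₀.eval z - (prP p v x (cadj v C z) θ).eval z = (y - θ'.eval z) +
            (θ'.eval z - g₀.eval z - (prP p v x (cadj v C z) θ).eval z) := by ring
          rw [e2]
          exact h4'.add h7
        · rw [← tam_cadj] at h5
          have h6 : fth p e A N (fth p e A N B g) θ ∈ PI (tam p v x (cadj v C z)) :=
            fth_mem_PI (le_tam _ heK) (fun i hi => le_tam _ (hAK i hi)) hfg hθK
          have h7 := hK.self.lp_pr hK (eval_mem_of_PI h6 (le_tam _ hzK)) h5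
          rwa [← prP_eval hK h6 hzK, prP_fth hK heK hAK hfg hθK, hfe] at h7 }

end OfTam

/-! ### From the big field -/

section OfMap

variable {H : Type u} [Field H] [Algebra k H] {w : RVal H} {ι : Ω →ₐ[k] H}

theorem hasse_map (f : Polynomial Ω) (l : ℕ) :
    hasseDeriv l (f.map ι.toRingHom) = (hasseDeriv l f).map ι.toRingHom := by
  ext n
  rw [hasseDeriv_coeff, coeff_map, coeff_map, hasseDeriv_coeff, map_mul, map_natCast]

theorem fth_map (e : Ω) (A : ℕ → Ω) (N : ℕ) (B θ : Polynomial Ω) :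
    fth p (ι e) (fun i => ι (A i)) N (B.map ι.toRingHom) (θ.map ι.toRingHom) =
      (fth p e A N B θ).map ι.toRingHom := by
  rw [fth, fth, Polynomial.map_add, Polynomial.map_add, Polynomial.map_mul, map_C,
    Polynomial.map_sum]
  congr 2
  refine sum_congr rfl fun i _ => ?_
  rw [Polynomial.map_mul, Polynomial.map_pow, map_C]
  rfl

theorem mem_of_map {a : Ω} (h : ι a ∈ C.map ι) : a ∈ C := by
  obtain ⟨b, hb, e⟩ := h
  have h1 : b = a := TWM.Dense.inj ι e
  rwa [← h1]

theorem map_eq_zero_ι {f : Polynomial Ω} : f.map ι.toRingHom = 0 ↔ f = 0 :=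
  Polynomial.map_eq_zero _

variable (hI : IsoE v w ι) (hcv : CompleteV v)

include hI hcv

theorem H0w.of_map (h : H0w p w (C.map ι) (ι z) ρ) : H0w p v C z ρ := by
  intro f ν hf hX hlp l hl hpl
  have h1 := h (f.map ι.toRingHom) ν (TWCT.map_mem_PI hf) (fun l hl hpl => by
    rw [hasse_map, hX l hl hpl, Polynomial.map_zero]) (by
    rw [TWCT.eval_map_ι, hI.cadj_map hcv, TWCT.lp_iff' hI]
    exact hlp) l hl hpl
  rwa [hasse_map, TWCT.eval_map_ι, hI.cadj_map hcv, TWCT.pg_iff' hI] at h1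

/-- The normal form goes to the big field. -/
theorem nrm_map {y e : Ω} {s ν : ℝ} {A : ℕ → Ω} {N : ℕ} {B : Polynomial Ω} {J : ℕ}
    (h : Nrm p v C z y ρ s ν e A N B J 0) :
    Nrm p w (C.map ι) (ι z) (ι y) ρ s ν (ι e) (fun i => ι (A i)) N (B.map ι.toRingHom) J 0 where
  N1 := h.N1
  eC := ⟨e, h.eC, rfl⟩
  ege := hI.ge_iff.2 h.ege
  AC := fun i hi => ⟨A i, h.AC i hi, rfl⟩
  Alp := fun i hi => by
    rw [hI.cadj_map hcv, TWCT.lp_iff' hI]
    exact h.Alp i hi
  top := by
    rw [hI.cadj_map hcv, TWCT.pg_iff' hI]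
    exact h.top
  mem := zero_mem _
  low := fun j hj => absurd hj (by simp)
  bin := fun j hj => absurd hj (by simp)
  pdv := fun _ j hj => absurd hj (by simp)
  siz := fun j => by
    rw [coeff_zero]
    exact RVal.Ge.zero
  BC := TWCT.map_mem_PI h.BC
  BX := fun l hl hpl => by rw [hasse_map, h.BX l hl hpl, Polynomial.map_zero]
  B1 := by
    rw [hasse_map, TWCT.eval_map_ι]
    exact hI.ge_iff.2 h.B1
  eB := by
    rcases h.eB with h1 | h1
    · exact Or.inl (by rw [h1, map_zero])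
    · exact Or.inr (by rw [hasse_map, h1, Polynomial.map_zero])
  fam := fun ε hε => by
    obtain ⟨θ, h1, h2, h3, h4, h5⟩ := h.fam ε hε
    refine ⟨θ.map ι.toRingHom, TWCT.map_mem_PI h1, fun i hi => ?_, fun he l hl => ?_, ?_, ?_⟩
    · rw [coeff_map, h2 i hi, coeff_zero, coeff_zero, map_zero]
    · rw [hasse_map, h3 (fun h0 => he (by rw [h0, map_zero])) l hl, Polynomial.map_zero]
    · rw [TWCT.eval_map_ι, ← map_sub]
      exact hI.ge_iff.2 h4
    · rw [fth_map, TWCT.eval_map_ι, hI.cadj_map hcv, TWCT.lp_iff' hI]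
      exact h5

/-- The normal form comes back. -/
theorem nrm_of_map {y e : Ω} {s ν : ℝ} {A : ℕ → Ω} {N : ℕ} {B : Polynomial Ω} {J : ℕ}
    (h : Nrm p w (C.map ι) (ι z) (ι y) ρ s ν (ι e) (fun i => ι (A i)) N (B.map ι.toRingHom) J 0) :
    Nrm p v C z y ρ s ν e A N B J 0 where
  N1 := h.N1
  eC := mem_of_map h.eC
  ege := hI.ge_iff.1 h.ege
  AC := fun i hi => mem_of_map (h.AC i hi)
  Alp := fun i hi => by
    have h1 := h.Alp i hi
    rwa [hI.cadj_map hcv, TWCT.lp_iff' hI] at h1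
  top := by
    have h1 := h.top
    rwa [hI.cadj_map hcv, TWCT.pg_iff' hI] at h1
  mem := zero_mem _
  low := fun j hj => absurd hj (by simp)
  bin := fun j hj => absurd hj (by simp)
  pdv := fun _ j hj => absurd hj (by simp)
  siz := fun j => by
    rw [coeff_zero]
    exact RVal.Ge.zero
  BC := fun i => by
    have h1 := h.BC i
    rw [coeff_map] at h1
    exact mem_of_map h1
  BX := fun l hl hpl => by
    have h1 := h.BX l hl hpl
    rwa [hasse_map, map_eq_zero_ι] at h1
  B1 := by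
    have h1 := h.B1
    rw [hasse_map, TWCT.eval_map_ι] at h1
    exact hI.ge_iff.1 h1
  eB := by
    rcases h.eB with h1 | h1
    · exact Or.inl (TWM.Dense.inj ι (by rw [h1, map_zero]))
    · right
      rwa [hasse_map, map_eq_zero_ι] at h1
  fam := fun ε hε => by
    obtain ⟨θ', h1, h2, h3, h4, h5⟩ := h.fam ε hε
    obtain ⟨θ, hθ, rfl⟩ := TWCT.exists_of_PI h1
    refine ⟨θ, hθ, fun i hi => ?_, fun he l hl => ?_, ?_, ?_⟩
    · have h6 := h2 i hi
      rw [coeff_map, coeff_zero] at h6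
      rw [coeff_zero]
      exact TWM.Dense.inj ι (by rw [map_zero]; exact h6)
    · have h6 := h3 (fun h0 => he (TWM.Dense.inj ι (by rw [h0, map_zero]))) l hl
      rwa [hasse_map, map_eq_zero_ι] at h6
    · rw [TWCT.eval_map_ι, ← map_sub] at h4
      exact hI.ge_iff.1 h4
    · rw [fth_map, TWCT.eval_map_ι, hI.cadj_map hcv, TWCT.lp_iff' hI] at h5
      exact h5

theorem RatH.of_map (h : RatH p w (C.map ι) (ι z) ρ) : RatH p v C z ρ := by
  intro y s ν e A N B J hN
  obtain ⟨g', hg', hN'⟩ := h (ι y) s ν (ι e) (fun i => ι (A i)) N (B.map ι.toRingHom) J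
    (nrm_map hI hcv hN)
  obtain ⟨g, hg, rfl⟩ := TWCT.exists_of_PI hg'
  rw [TWCT.eval_map_ι, ← map_sub, fth_map] at hN'
  exact ⟨g, hg, nrm_of_map hI hcv hN'⟩

end OfMap

/-! ### Both -/

section Both

variable {H : Type u} [Field H] [Algebra k H] {w : RVal H} {ι : Ω →ₐ[k] H}
  [hp : Fact p.Prime] [CharP Ω p] [CharP k p] [IsAlgClosed Ω] [IsAlgClosed k]
  (hI : IsoE v w ι) (hcv : CompleteV v) (hk : Ctx0 k v) (hx0 : x ≠ 0) (hx : x ∈ C) (hC : Cld v C)
  (hz : TL v C z ρ)

include hcv hk hx0 hx hC hz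

omit hC hz [CharP Ω p] in
theorem tamB_cadj : TamB p v x (cadj v C z) :=
  tamB_of hp.out hk hcv hx0 (cld_cadj v C z) (le_cadj v C z hx)

omit hcv hk hx0 [CharP k p] [IsAlgClosed k] in
theorem tamS_cadj : TamS p v x (cadj v C z) C :=
  tamS_of_alg (le_cadj v C z) hC hx fun _ ha haA => hz.alg_mem p hC ha haA

include hI

omit hC hz in
/-- **Descent of H0** from the tame closure in the big field. -/
theorem H0w.desc (h : H0w p w ((tam p v x C).map ι) (ι z) ρ) : H0w p v C z ρ :=
  (h.of_map hI hcv).of_tam (tamB_cadj hcv hk hx0 hx)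

/-- **Descent of RAT** from the tame closure in the big field. -/
theorem RatH.desc (h : RatH p w ((tam p v x C).map ι) (ι z) ρ) : RatH p v C z ρ :=
  (h.of_map hI hcv).of_tam (tamB_cadj hcv hk hx0 hx) (tamS_cadj hx hC hz)

end Both

end Pool.Agent.TWRR
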