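import Pool.Agent.Lib.TWRR.JN
import Pool.Agent.Lib.TWCY.Dat

/-!
# TANK W, contact, row J1: from the shape to the limits of the jets (radii and level `0`)

`C` closed, `w` of transcendental type and radius `0` over `C`, `F = C⟨w⟩`, `T c : w ↦ w + c`.

* `Att`: the jets of `y` along `T` are attained: `(T c - 1) y = ∑ f j c ^ j` mod `O_0`;
* `Att.jl`: the limits of the jets `JL`;
* `Att.oclsJ`: the classes of the effects, from the values of the derivations.
-/

set_option autoImplicit false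

open Polynomial Finset

namespace Pool.Agent.TWRR

open Pool.Agent.H15JM (RVal)
open Pool.Agent.D2 (Ctx0)
open Pool.Agent.LU1 (VPos)
open Pool.Agent.TWM
open Pool.Agent.TWS (IsoE)
open Pool.Agent.TWII (PG LP)
open Pool.Agent.TWN1
open Pool.Agent.TWCY (Drv)

universe u

variable {k Ω : Type u} [Field k] [Field Ω] [Algebra k Ω] {v : RVal Ω}
  {C F K : IntermediateField k Ω} {w y x : Ω} {p : ℕ} {T : k → Ω →ₐ[k] Ω} {D : ℕ} {f : ℕ → Ω}

/-- The jets of `y` along `T` are attained. -/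
structure Att (v : RVal Ω) (C F : IntermediateField k Ω) (w y : Ω) (T : k → Ω →ₐ[k] Ω) (D : ℕ)
    (f : ℕ → Ω) : Prop where
  iso : ∀ c, IsoE v v (T c)
  fix : ∀ c, ∀ a ∈ C, T c a = a
  w : ∀ c, T c w = w + algebraMap k Ω c
  fF : ∀ j, f j ∈ F
  jet : ∀ c, v.Ge 0 (T c y - y - ∑ j ∈ Icc 1 D, algebraMap k Ω c ^ j * f j)

/-- The elements of value `≥ r`. -/
def geM (hk : Ctx0 k v) (r : ℝ) : Submodule k Ω where
  carrier := {a | v.Ge r a}
  add_mem' := fun ha hb => RVal.Ge.add ha hb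
  zero_mem' := RVal.Ge.zero
  smul_mem' := fun c a ha => by
    change v.Ge r (c • a)
    rw [Algebra.smul_def]
    by_cases hc : c = 0
    · rw [hc, map_zero, zero_mul]
      exact RVal.Ge.zero
    have h1 : v.Ge 0 (algebraMap k Ω c) := fun _ => (hk.triv c hc).ge
    have h2 := h1.mul ha
    rwa [zero_add] at h2

theorem mem_geM {hk : Ctx0 k v} {r : ℝ} {a : Ω} : a ∈ geM hk r ↔ v.Ge r a := Iff.rfl

/-- The value of `T c` at a polynomial in `w`. -/
theorem Att.eval (h : Att v C F w y T D f) {θ : Polynomial Ω} (hθ : θ ∈ PI C) (c : k) :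
    T c (θ.eval w) = θ.eval (w + algebraMap k Ω c) := by
  rw [← h.w c, eval_eq_sum_range, eval_eq_sum_range, map_sum]
  refine sum_congr rfl fun i _ => ?_
  rw [map_mul, map_pow, h.fix c _ (hθ i)]

/-- The jets of the approximants. -/
theorem Att.near [Infinite k] (hk : Ctx0 k v) (h : Att v C F w y T D f) {ε : ℝ} (hε : 0 < ε)
    {θ : Polynomial Ω} (hθ : θ ∈ PI C) (hy : v.Ge (-ε) (y - θ.eval w)) {j : ℕ} (hj : j ≠ 0) :
    v.Ge (-ε) ((hasseDeriv j θ).eval w - if j ≤ D then f j else 0) := by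
  set N := max θ.natDegree D with hN
  by_cases hjN : N < j
  · have h1 : θ.natDegree < j := (le_max_left _ _).trans_lt hjN
    have h2 : ¬ j ≤ D := not_le.2 ((le_max_right _ _).trans_lt hjN)
    rw [hasseDeriv_eq_zero_of_lt_natDegree θ j h1, eval_zero, if_neg h2, sub_zero]
    exact RVal.Ge.zero
  push Not at hjN
  set b : ℕ → Ω := fun j => if j = 0 then 0 else
    (hasseDeriv j θ).eval w - if j ≤ D then f j else 0 with hb
  have hsum : ∀ c : k, ∑ j ∈ range (N + 1), c ^ j • b j ∈ geM hk (-ε) := by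
    intro c
    rw [mem_geM]
    have e1 : ∑ j ∈ range (N + 1), c ^ j • b j = (θ.eval (w + algebraMap k Ω c) - θ.eval w) -
        ∑ j ∈ Icc 1 D, algebraMap k Ω c ^ j * f j := by
      rw [TWN1.rt_taylor (le_max_left θ.natDegree D) w (w + algebraMap k Ω c), sum_range_succ',
        sum_range_succ' (fun j => (hasseDeriv j θ).eval w * (w + algebraMap k Ω c - w) ^ j)]
      have h0 : c ^ 0 • b 0 = 0 := by simp [hb]
      rw [h0, add_zero, hasseDeriv_zero', pow_zero, mul_one, add_sub_cancel_right,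
        add_sub_cancel_left]
      have h2 : ∑ j ∈ Icc 1 D, algebraMap k Ω c ^ j * f j = ∑ j ∈ range N,
          if j + 1 ≤ D then algebraMap k Ω c ^ (j + 1) * f (j + 1) else 0 := by
        rw [← sum_filter]
        refine sum_bij' (fun j _ => j - 1) (fun j _ => j + 1) (fun j hj => ?_) (fun j hj => ?_)
          (fun j hj => ?_) (fun j hj => ?_) (fun j hj => ?_)
        · obtain ⟨h3, h4⟩ := mem_Icc.1 hj
          have h5 := le_max_right θ.natDegree D
          refine mem_filter.2 ⟨mem_range.2 (by omega), by omega⟩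
        · obtain ⟨h3, h4⟩ := mem_filter.1 hj
          exact mem_Icc.2 ⟨by omega, h4⟩
        · have := (mem_Icc.1 hj).1
          omega
        · rfl
        · have := (mem_Icc.1 hj).1
          rw [Nat.sub_add_cancel this]
      rw [h2, ← sum_sub_distrib]
      refine sum_congr rfl fun j _ => ?_
      simp only [hb, Nat.succ_ne_zero, if_false]
      rw [Algebra.smul_def, map_pow]
      split_ifs
      · ring
      · ring
    rw [e1, ← h.eval hθ c]
    have e2 : T c (θ.eval w) - θ.eval w - ∑ j ∈ Icc 1 D, algebraMap k Ω c ^ j * f j =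
        (T c y - y - ∑ j ∈ Icc 1 D, algebraMap k Ω c ^ j * f j) + (y - θ.eval w) -
          T c (y - θ.eval w) := by
      rw [map_sub]
      ring
    rw [e2]
    exact (((h.jet c).mono (by linarith)).add hy).sub ((h.iso c).ge_iff.2 hy)
  have h1 := TWD.mem_of_vdm (geM hk (-ε)) (Set.infinite_univ) (fun c _ => hsum c) j
    (Nat.lt_succ_of_le hjN)
  simp only [hb, if_neg hj] at h1
  exact h1

/-- **The limits of the jets.** -/
theorem Att.exists_jl [Infinite k] [IsAlgClosed Ω] (hk : Ctx0 k v) (hw : TL v C w 0)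
    (h : Att v C (cadj v C w) w y T D f) (p : ℕ) (e : Ω) (J : ℕ) {r : ℝ} (hr : 0 ≤ r) :
    ∃ φ, JL p v C w y 0 0 e J φ D ∧ ∀ j, j ≠ 0 → j ≤ D → (e ≠ 0 → p ∣ j) →
      v.Ge r (f j - (φ j).eval w) := by
  classical
  choose g hg hgr using fun j => hw.dense (h.fF j) r
  set φ : ℕ → Polynomial Ω := fun j => if j ≤ D ∧ (e ≠ 0 → p ∣ j) then g j else 0 with hφ
  have h1 : ∀ j, j ≤ D → (e ≠ 0 → p ∣ j) → φ j = g j := fun j hj he => by
    simp only [hφ]
    rw [if_pos ⟨hj, he⟩]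
  refine ⟨φ, ⟨fun j => ?_, fun j hj => ?_, fun he j hj => ?_, 1, one_pos, ?_⟩,
    fun j _ hj he => by rw [h1 j hj he]; exact hgr j⟩
  · simp only [hφ]
    split_ifs
    · exact hg j
    · exact zero_mem _
  · simp only [hφ]
    rw [if_neg (fun h2 => absurd h2.1 (by omega))]
  · simp only [hφ]
    rw [if_neg (fun h2 => hj (h2.2 he))]
  · intro ε θ hε _ hθ _ hX hy j hj
    have hy' : v.Ge (-ε) (y - θ.eval w) := hy.mono (by linarith)
    have h2 := h.near hk hε hθ hy' hj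
    by_cases hjD : j ≤ D
    · rw [if_pos hjD] at h2
      by_cases he : e ≠ 0 → p ∣ j
      · rw [h1 j hjD he]
        have e1 : (hasseDeriv j θ).eval w - (g j).eval w =
          ((hasseDeriv j θ).eval w - f j) + (f j - (g j).eval w) := by ring
        rw [e1]
        exact (h2.mono (by linarith)).add ((hgr j).mono (by linarith))
      · push Not at he
        have h3 : φ j = 0 := by
          simp only [hφ]
          rw [if_neg (fun h4 => he.2 (h4.2 he.1))]
        rw [h3, hX he.1 j he.2, eval_zero, sub_zero]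
        exact RVal.Ge.zero
    · have h3 : φ j = 0 := by
        simp only [hφ]
        rw [if_neg (fun h4 => hjD h4.1)]
      rw [if_neg hjD] at h2
      rw [h3, eval_zero]
      exact h2.mono (by linarith)

section Eff

variable [hp : Fact p.Prime] [CharP Ω p] [IsAlgClosed Ω] {ρ s ν : ℝ} {e : Ω} {A : ℕ → Ω} {N J : ℕ}
  {B : Polynomial Ω} {φ : ℕ → Polynomial Ω}

/-- The level of the effects. -/
theorem JL.ef_lp (hw : TL v C w ρ) (hN : Nrm p v C w y ρ s ν e A N B J 0)
    (h : JL p v C w y ρ s e J φ D) {l : ℕ} (hl : l ≠ 0) :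
    LP p v (cadj v C w) (ν - l * ρ) ((ef p e A N B φ l).eval w) := by
  have hp0 := hp.out.pos
  have hp0' : (0 : ℝ) < p := by exact_mod_cast hp0
  have hp1 : (1 : ℝ) ≤ p := by exact_mod_cast hp.out.one_lt.le
  have hQ0 : (0 : ℝ) < (p : ℝ) ^ N := by positivity
  have hQ1 : (1 : ℝ) ≤ (p : ℝ) ^ N := one_le_pow₀ hp1
  obtain ⟨ε₀, hε₀, h1⟩ := h.lim
  refine lp_of_forall fun ε hε => ?_
  obtain ⟨η, hη, hη0, hηε⟩ : ∃ η : ℝ, 0 < η ∧ η ≤ ε₀ ∧ p ^ N * η ≤ ε :=
    ⟨min ε₀ (ε / p ^ N), lt_min hε₀ (by positivity), min_le_left _ _, by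
      have h2 : min ε₀ (ε / p ^ N) ≤ ε / p ^ N := min_le_right _ _
      rwa [le_div_iff₀' hQ0] at h2⟩
  obtain ⟨θ, hθ, hdeg, hX, hyθ, hlp⟩ := exists_apx hN hη
  have h2 := h1 _ θ hη hη0 hθ hdeg hX hyθ
  have h3 := LP.hjet hw (fth_mem hN.toDt hN.BC hθ) hlp l
  rw [ef_fth] at h3
  have e1 : (ef p e A N B φ l).eval w = (ef p e A N B (fun j => hasseDeriv j θ) l).eval w -
      (e * ((hasseDeriv l θ).eval w - (φ l).eval w) + ∑ m ∈ Icc 1 N,
      (if p ^ m ∣ l then A m * ((hasseDeriv (l / p ^ m) θ).eval w - (φ (l / p ^ m)).eval w) ^ p ^ m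
        else 0)) := by
    rw [← ef_sub (B := B) (φ := fun j => hasseDeriv j θ)]
    ring
  rw [e1]
  have hη1 : η ≤ p ^ N * η := le_mul_of_one_le_left hη.le hQ1
  refine (lp_mono h3 (by linarith)).sub (lp_add (lp_of_ge ((hN.ege.mul (h2 _ hl)).mono
    (by linarith))) (lp_sum _ _ fun m hm => ?_))
  split_ifs with hd
  · obtain ⟨j, hj⟩ := hd
    have hj0 : j ≠ 0 := by
      rintro rfl
      exact hl (by rw [hj, mul_zero])
    obtain ⟨hi1, hi2⟩ := mem_Icc.1 hm
    have e2 : l / p ^ m = j := by rw [hj, Nat.mul_div_cancel_left _ (Nat.pow_pos hp.out.pos)]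
    rw [e2]
    have hφF : (hasseDeriv j θ).eval w - (φ j).eval w ∈ cadj v C w :=
      sub_mem (TWLM.eval_mem_cadj (hasse_mem_PI hθ _)) (TWLM.eval_mem_cadj (h.mem _))
    refine lp_mono (lp_mul_powq (hN.Alp m hm) hφF hi1 (h2 _ hj0)) ?_
    have h4 : (p : ℝ) ^ m ≤ (p : ℝ) ^ N := pow_le_pow_right₀ hp1 hi2
    have h5 : (p : ℝ) ^ m * η ≤ (p : ℝ) ^ N * η := mul_le_mul_of_nonneg_right h4 hη.le
    have e3 : (l : ℝ) = p ^ m * j := by
      rw [hj]
      push_cast
      ring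
    rw [e3]
    have e4 : (p : ℝ) ^ m * (s - j * ρ - η) = p ^ m * s - p ^ m * j * ρ - p ^ m * η := by ring
    rw [e4]
    linarith
  · exact lp_of_ge RVal.Ge.zero

end Eff

/-- A `k`-derivation is zero at the `p`-th powers. -/
theorem drv_pow [Fact p.Prime] [CharP Ω p] {d : Ω → Ω} (hd : Drv v F d) {g : Ω} (hg : g ∈ F) :
    d (g ^ p) = 0 := by
  have h1 : ∀ n : ℕ, d (g ^ n) = n * g ^ (n - 1) * d g := by
    intro n
    induction n with
    | zero =>
      have h2 := hd.alg 1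
      rw [map_one] at h2
      rw [pow_zero, h2]
      simp
    | succ n ih =>
      rw [pow_succ, hd.mul _ (pow_mem hg n) _ hg, ih, Nat.add_sub_cancel]
      rcases n with _ | n
      · simp
      · rw [Nat.add_sub_cancel, pow_succ]
        push_cast
        ring
  rw [h1, CharP.cast_eq_zero, zero_mul, zero_mul]

theorem drv_sub {d : Ω → Ω} (hd : Drv v F d) {g h : Ω} (hg : g ∈ F) (hh : h ∈ F) :
    d (g - h) = d g - d h := by
  have h1 := hd.add _ (sub_mem hg hh) _ hh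
  rw [sub_add_cancel] at h1
  rw [h1]
  ring

theorem drv_sum {d : Ω → Ω} (hd : Drv v F d) {ι : Type*} (S : Finset ι) (g : ι → Ω)
    (hg : ∀ i ∈ S, g i ∈ F) : d (∑ i ∈ S, g i) = ∑ i ∈ S, d (g i) := by
  classical
  have h0 : d 0 = 0 := by
    have h1 := hd.alg 0
    rwa [map_zero] at h1
  induction S using Finset.induction_on with
  | empty => rw [sum_empty, sum_empty, h0]
  | insert a S ha ih =>
    rw [sum_insert ha, sum_insert ha, hd.add _ (hg a (mem_insert_self a S)) _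
      (sum_mem fun i hi => hg i (mem_insert_of_mem hi)), ih fun i hi => hg i (mem_insert_of_mem hi)]

theorem drv_mul {d : Ω → Ω} (hd : Drv v F d) {a g : Ω} (ha : a ∈ F) (hg : g ∈ F) (h0 : d a = 0) :
    d (a * g) = a * d g := by
  rw [hd.mul _ ha _ hg, h0, mul_zero, add_zero]

theorem drv_powq [hp : Fact p.Prime] [CharP Ω p] {d : Ω → Ω} (hd : Drv v F d) {g : Ω} (hg : g ∈ F)
    {m : ℕ} (hm : 1 ≤ m) : d (g ^ p ^ m) = 0 := by
  obtain ⟨n, rfl⟩ : ∃ n, m = n + 1 := ⟨m - 1, by omega⟩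
  rw [pow_succ, pow_mul]
  exact drv_pow hd (pow_mem hg _)

/-- **The classes of the effects**, from the derivations. -/
theorem oclsJ_of_drv [hp : Fact p.Prime] [CharP Ω p] [IsAlgClosed Ω] [IsAlgClosed k]
    (hw : TL v C w 0) {e : Ω} {A : ℕ → Ω} {N J : ℕ} {B : Polynomial Ω}
    {φ : ℕ → Polynomial Ω} (hN : Nrm p v C w y 0 0 0 e A N B J 0)
    (hjl : JL p v C w y 0 0 e J φ D) {I : Type*} {dd : I → Ω → Ω}
    (hd : ∀ i, Drv v (cadj v C w) (dd i)) (hde : ∀ i, dd i e = 0)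
    (hdA : ∀ m ∈ Icc 1 N, ∀ i, dd i (A m) = 0)
    (hcls : ∀ b ∈ cadj v C w, LP p v (cadj v C w) 0 b → (∀ i, VPos v (dd i b)) →
      ∃ c : k, PG p v (cadj v C w) 0 (b - algebraMap k Ω c * x))
    (hf : ∀ l, f l ∈ cadj v C w)
    (hfφ : ∀ l, l ≠ 0 → p ∣ l → v.Ge 1 (f l - (φ l).eval w))
    (hG : ∀ l, l ≠ 0 → p ∣ l → ∀ i, VPos v (e * dd i (f l) + dd i ((hasseDeriv l B).eval w))) :
    OClsJ p v C w 0 0 e A N B φ x := by
  intro l hl hpl
  have hCF : C ≤ cadj v C w := le_cadj v C w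
  have heF := hCF hN.eC
  have hAF : ∀ m ∈ Icc 1 N, A m ∈ cadj v C w := fun m hm => hCF (hN.AC m hm)
  have hφF : ∀ j, (φ j).eval w ∈ cadj v C w := fun j => TWLM.eval_mem_cadj (hjl.mem j)
  have hBF : (hasseDeriv l B).eval w ∈ cadj v C w :=
    TWLM.eval_mem_cadj (hasse_mem_PI hN.BC l)
  have hlp := hjl.ef_lp hw hN hl
  rw [mul_zero, sub_zero] at hlp
  have hmem : ∀ m ∈ Icc 1 N, (if p ^ m ∣ l then
      A m * ((φ (l / p ^ m)).eval w) ^ p ^ m else 0) ∈ cadj v C w := fun m hm => by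
    split_ifs
    · exact mul_mem (hAF m hm) (pow_mem (hφF _) _)
    · exact zero_mem _
  have hef : (ef p e A N B φ l).eval w ∈ cadj v C w := by
    rw [ef_eval]
    exact add_mem (add_mem (mul_mem heF (hφF l)) (sum_mem hmem)) hBF
  have hder : ∀ i, dd i ((ef p e A N B φ l).eval w) =
      e * dd i ((φ l).eval w) + dd i ((hasseDeriv l B).eval w) := by
    intro i
    rw [ef_eval, (hd i).add _ (add_mem (mul_mem heF (hφF l)) (sum_mem hmem)) _ hBF,
      (hd i).add _ (mul_mem heF (hφF l)) _ (sum_mem hmem), drv_mul (hd i) heF (hφF l) (hde i),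
      drv_sum (hd i) _ _ hmem]
    have h1 : ∑ m ∈ Icc 1 N, dd i (if p ^ m ∣ l then
        A m * ((φ (l / p ^ m)).eval w) ^ p ^ m else 0) = 0 := by
      refine sum_eq_zero fun m hm => ?_
      split_ifs
      · rw [drv_mul (hd i) (hAF m hm) (pow_mem (hφF _) _) (hdA m hm i),
          drv_powq (hd i) (hφF _) (mem_Icc.1 hm).1, mul_zero]
      · have h2 := (hd i).alg 0
        rwa [map_zero] at h2
    rw [h1, add_zero]
  obtain ⟨c, hc⟩ := hcls _ hef hlp fun i => by
    rw [hder i]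
    have h1 := (hd i).norm _ (sub_mem (hf l) (hφF l)) 1 (hfφ l hl hpl)
    rw [drv_sub (hd i) (hf l) (hφF l)] at h1
    have h2 : v.Ge 0 e := hN.ege.mono (by norm_num)
    have h3 : Gt v 0 (e * (dd i (f l) - dd i ((φ l).eval w))) :=
      Gt.of_ge (h2.mul h1) (by norm_num)
    have e1 : e * dd i ((φ l).eval w) + dd i ((hasseDeriv l B).eval w) =
        (e * dd i (f l) + dd i ((hasseDeriv l B).eval w)) -
          e * (dd i (f l) - dd i ((φ l).eval w)) := by ring
    rw [e1]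
    exact Gt.sub (hG l hl hpl i) h3
  obtain ⟨c', hc'⟩ : ∃ c' : k, c' ^ p = c := IsAlgClosed.exists_pow_nat_eq c hp.out.pos
  refine ⟨algebraMap k Ω c', C.algebraMap_mem c', ?_⟩
  rw [mul_zero, sub_zero, ← map_pow, hc']
  exact hc

end Pool.Agent.TWRR
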