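import Pool.Agent.Lib.TWRR.G2
import Pool.Agent.Lib.TWRR.D0

/-!
# TANK W, contact: descent along a projection

`Prj K K' π`: `π : K' → K` additive, `K`-linear, the identity on `K`, compatible with `p`-th powers
and of norm `≤ 0`. Examples: the tame projection, the projection of a Gauss extension.

* `prQ`: the projection of the coefficients of a polynomial;
* `Prj.pg`, `Prj.lp`, `Prj.oc`: the classes come down;
* `Prj.nrm_up`: the normal form goes up;
* `Prj.jl`, `Prj.oclsJ`: the limits of the jets and the classes of the effects come down;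
* `TamB.prj`: the tame projection.
-/

set_option autoImplicit false

open Polynomial Finset

namespace Pool.Agent.TWRR

open Pool.Agent.H15JM (RVal)
open Pool.Agent.D2 (Ctx0)
open Pool.Agent.D2P (clI)
open Pool.Agent.TWM
open Pool.Agent.TWS (IsoE)
open Pool.Agent.TWII (PG LP)
open Pool.Agent.TWN1
open Pool.Agent.TWTam

universe u

variable {k Ω : Type u} [Field k] [Field Ω] [Algebra k Ω] {v : RVal Ω}
  {C C' F K K' : IntermediateField k Ω} {x z w y X₀ : Ω} {ρ s ν : ℝ} {p : ℕ} {π : Ω → Ω}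

/-- A projection of `K'` on `K`. -/
structure Prj (p : ℕ) (v : RVal Ω) (K K' : IntermediateField k Ω) (π : Ω → Ω) : Prop where
  le : K ≤ K'
  mem : ∀ g ∈ K', π g ∈ K
  add : ∀ g ∈ K', ∀ g' ∈ K', π (g + g') = π g + π g'
  mul : ∀ a ∈ K, ∀ g ∈ K', π (a * g) = a * π g
  self : ∀ a ∈ K, π a = a
  pow : ∀ g ∈ K', π (g ^ p) = π g ^ p
  ge : ∀ g ∈ K', ∀ r : ℝ, v.Ge r g → v.Ge r (π g)

/-- The projection of the coefficients. -/
noncomputable def prQ (π : Ω → Ω) (f : Polynomial Ω) : Polynomial Ω :=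
  ∑ i ∈ range (f.natDegree + 1), Polynomial.C (π (f.coeff i)) * X ^ i

namespace Prj

variable (h : Prj p v K K' π)

include h

theorem zero : π 0 = 0 := h.self 0 (zero_mem K)

theorem gt {g : Ω} (hg : g ∈ K') {r : ℝ} (h1 : Gt v r g) : Gt v r (π g) := by
  intro h0
  by_cases hg0 : g = 0
  · exact absurd (by rw [hg0]; exact h.zero) h0
  exact lt_of_lt_of_le (h1 hg0) (h.ge g hg _ (RVal.ge_self g) h0)

theorem neg {g : Ω} (hg : g ∈ K') : π (-g) = -π g := by
  have h1 := h.mul (-1) (neg_mem (one_mem K)) g hg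
  rwa [neg_one_mul, neg_one_mul] at h1

theorem sub {g g' : Ω} (hg : g ∈ K') (hg' : g' ∈ K') : π (g - g') = π g - π g' := by
  rw [sub_eq_add_neg, h.add g hg _ (neg_mem hg'), h.neg hg', ← sub_eq_add_neg]

theorem sum {ι : Type*} (s : Finset ι) (g : ι → Ω) (hg : ∀ i ∈ s, g i ∈ K') :
    π (∑ i ∈ s, g i) = ∑ i ∈ s, π (g i) := by
  classical
  induction s using Finset.induction_on with
  | empty => rw [sum_empty, sum_empty, h.zero]
  | insert a s ha ih =>
    rw [sum_insert ha, sum_insert ha, h.add _ (hg a (mem_insert_self a s)) _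
      (sum_mem fun i hi => hg i (mem_insert_of_mem hi)),
      ih fun i hi => hg i (mem_insert_of_mem hi)]

/-! ### The classes -/

theorem pg_pr {c : ℝ} {a : Ω} (ha : a ∈ K') (h1 : PG p v K' c a) : PG p v K c (π a) := by
  obtain ⟨g, hg, h2⟩ := h1
  refine ⟨π g, h.mem g hg, ?_⟩
  rw [← h.pow g hg, ← h.sub ha (pow_mem hg p)]
  exact h.gt (sub_mem ha (pow_mem hg p)) h2

theorem pg {c : ℝ} {a : Ω} (ha : a ∈ K) (h1 : PG p v K' c a) : PG p v K c a := by
  have h2 := h.pg_pr (h.le ha) h1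
  rwa [h.self a ha] at h2

theorem lp_pr {c : ℝ} {a : Ω} (ha : a ∈ K') (h1 : LP p v K' c a) : LP p v K c (π a) := by
  intro ε hε
  obtain ⟨g, hg, h2⟩ := h1 ε hε
  refine ⟨π g, h.mem g hg, ?_⟩
  rw [← h.pow g hg, ← h.sub ha (pow_mem hg p)]
  exact h.ge _ (sub_mem ha (pow_mem hg p)) _ h2

theorem lp {c : ℝ} {a : Ω} (ha : a ∈ K) (h1 : LP p v K' c a) : LP p v K c a := by
  have h2 := h.lp_pr (h.le ha) h1
  rwa [h.self a ha] at h2

theorem oc (hC : ∀ g ∈ C', π g ∈ C) (hC' : C' ≤ K') (hX : X₀ ∈ K) {c : ℝ} {a : Ω} (ha : a ∈ K)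
    (h1 : OC p v C' K' X₀ c a) : OC p v C K X₀ c a := by
  obtain ⟨g, hg, h2⟩ := h1
  refine ⟨π g, hC g hg, ?_⟩
  have hgp : g ^ p ∈ K' := pow_mem (hC' hg) p
  have h3 := h.pg_pr (sub_mem (h.le ha) (mul_mem hgp (h.le hX))) h2
  rwa [h.sub (h.le ha) (mul_mem hgp (h.le hX)), h.self a ha, mul_comm (g ^ p),
    h.mul X₀ hX _ hgp, h.pow g (hC' hg), mul_comm X₀] at h3

/-! ### Polynomials -/

theorem coeff (f : Polynomial Ω) (n : ℕ) : (prQ π f).coeff n = π (f.coeff n) := by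
  classical
  rw [prQ, finsetSum_coeff]
  simp only [coeff_C_mul, coeff_X_pow, mul_ite, mul_one, mul_zero]
  rw [Finset.sum_ite_eq]
  split_ifs with h1
  · rfl
  · rw [coeff_eq_zero_of_natDegree_lt (by
      rw [mem_range] at h1
      omega), h.zero]

theorem poly_self {f : Polynomial Ω} (hf : f ∈ PI K) : prQ π f = f := by
  ext n
  rw [h.coeff, h.self _ (hf n)]

theorem poly_zero : prQ π (0 : Polynomial Ω) = 0 := h.poly_self (zero_mem _)

theorem poly_add {f g : Polynomial Ω} (hf : f ∈ PI K') (hg : g ∈ PI K') :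
    prQ π (f + g) = prQ π f + prQ π g := by
  ext n
  rw [h.coeff, coeff_add, coeff_add, h.coeff, h.coeff, h.add _ (hf n) _ (hg n)]

theorem poly_sum {ι : Type*} (s : Finset ι) (g : ι → Polynomial Ω) (hg : ∀ i ∈ s, g i ∈ PI K') :
    prQ π (∑ i ∈ s, g i) = ∑ i ∈ s, prQ π (g i) := by
  classical
  induction s using Finset.induction_on with
  | empty => rw [sum_empty, sum_empty, h.poly_zero]
  | insert a s ha ih =>
    rw [sum_insert ha, sum_insert ha, h.poly_add (hg a (mem_insert_self a s))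
      (sum_mem fun i hi => hg i (mem_insert_of_mem hi)),
      ih fun i hi => hg i (mem_insert_of_mem hi)]

theorem poly_C_mul {a : Ω} (ha : a ∈ K) {f : Polynomial Ω} (hf : f ∈ PI K') :
    prQ π (Polynomial.C a * f) = Polynomial.C a * prQ π f := by
  ext n
  rw [h.coeff, coeff_C_mul, coeff_C_mul, h.coeff, h.mul a ha _ (hf n)]

theorem poly_hasse {f : Polynomial Ω} (hf : f ∈ PI K') (l : ℕ) :
    prQ π (hasseDeriv l f) = hasseDeriv l (prQ π f) := by
  ext n
  rw [h.coeff, hasseDeriv_coeff, hasseDeriv_coeff, h.coeff, h.mul _ (natCast_mem K _) _ (hf _)]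

theorem poly_pow [hp : Fact p.Prime] [CharP Ω p] {f : Polynomial Ω} (hf : f ∈ PI K') :
    prQ π (f ^ p) = prQ π f ^ p := by
  have e : ∀ (g : Polynomial Ω) (n : ℕ),
      (g ^ p).coeff n = if p ∣ n then g.coeff (n / p) ^ p else 0 := by
    intro g n
    rw [← Polynomial.map_frobenius_expand p, coeff_map, coeff_expand hp.out.pos]
    split_ifs with h1
    · rw [frobenius_def]
    · rw [map_zero]
  ext n
  rw [h.coeff, e, e]
  split_ifs with h1
  · rw [h.pow _ (hf _), h.coeff]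
  · exact h.zero

theorem poly_ppow [hp : Fact p.Prime] [CharP Ω p] {f : Polynomial Ω} (hf : f ∈ PI K') (j : ℕ) :
    prQ π (f ^ p ^ j) = prQ π f ^ p ^ j := by
  induction j with
  | zero => rw [pow_zero, pow_one, pow_one]
  | succ j ih => rw [pow_succ, pow_mul, h.poly_pow (pow_mem hf _), ih, ← pow_mul]

theorem poly_eval {f : Polynomial Ω} (hf : f ∈ PI K') (hz : z ∈ K) :
    (prQ π f).eval z = π (f.eval z) := by
  have h1 : (prQ π f).natDegree ≤ f.natDegree := by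
    refine natDegree_le_iff_coeff_eq_zero.2 fun n hn => ?_
    rw [h.coeff, coeff_eq_zero_of_natDegree_lt hn, h.zero]
  rw [eval_eq_sum_range' (Nat.lt_succ_of_le h1), eval_eq_sum_range' (Nat.lt_succ_self _),
    h.sum _ _ fun i _ => mul_mem (hf i) (pow_mem (h.le hz) i)]
  refine sum_congr rfl fun i _ => ?_
  rw [h.coeff, mul_comm (f.coeff i), h.mul _ (pow_mem hz i) _ (hf i), mul_comm]

theorem poly_mem (hC : ∀ g ∈ C', π g ∈ C) {f : Polynomial Ω} (hf : f ∈ PI C') :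
    prQ π f ∈ PI C := fun i => by
  rw [h.coeff]
  exact hC _ (hf i)

/-- The effects. -/
theorem poly_ef [hp : Fact p.Prime] [CharP Ω p] {e : Ω} {A : ℕ → Ω} {N : ℕ} {B : Polynomial Ω}
    {φ : ℕ → Polynomial Ω} (he : e ∈ K) (hA : ∀ i ∈ Icc 1 N, A i ∈ K) (hB : B ∈ PI K)
    (hφ : ∀ j, φ j ∈ PI K') (l : ℕ) :
    prQ π (ef p e A N B φ l) = ef p e A N B (fun j => prQ π (φ j)) l := by
  have h1 : Polynomial.C e * φ l ∈ PI K' := mul_mem (C_mem_PI (h.le he)) (hφ l)
  have h2 : ∀ m ∈ Icc 1 N, (if p ^ m ∣ l then Polynomial.C (A m) * φ (l / p ^ m) ^ p ^ m else 0) ∈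
      PI K' := fun m hm => by
    split_ifs
    · exact mul_mem (C_mem_PI (h.le (hA m hm))) (pow_mem (hφ _) _)
    · exact zero_mem _
  have h3 : hasseDeriv l B ∈ PI K' := hasse_mem_PI (pi_mono h.le hB) l
  rw [ef, ef, h.poly_add (add_mem h1 (sum_mem h2)) h3, h.poly_add h1 (sum_mem h2),
    h.poly_sum _ _ h2, h.poly_C_mul he (hφ l), h.poly_self (hasse_mem_PI hB l)]
  congr 2
  refine sum_congr rfl fun m hm => ?_
  split_ifs
  · rw [h.poly_C_mul (hA m hm) (pow_mem (hφ _) _), h.poly_ppow (hφ _)]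
  · exact h.poly_zero

end Prj

/-! ### The data of row J1 -/

section Data

variable [hp : Fact p.Prime] [CharP Ω p] (h : Prj p v (cadj v C w) (cadj v C' w) π)
  (hCC : C ≤ C') (hC : ∀ g ∈ C', π g ∈ C) {e : Ω} {A : ℕ → Ω} {N J D : ℕ} {B : Polynomial Ω}
  {φ : ℕ → Polynomial Ω}

include h hCC

omit hp [CharP Ω p] in
/-- The normal form goes up. -/
theorem Prj.nrm_up (hN : Nrm p v C w y ρ s ν e A N B J 0) :
    Nrm p v C' w y ρ s ν e A N B J 0 where
  N1 := hN.N1
  eC := hCC hN.eC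
  ege := hN.ege
  AC := fun i hi => hCC (hN.AC i hi)
  Alp := fun i hi => lp_mono_field h.le (hN.Alp i hi)
  top := fun h1 => hN.top (h.pg (le_cadj v C w (hN.AC N (mem_Icc.2 ⟨hN.N1, le_rfl⟩))) h1)
  mem := zero_mem _
  low := hN.low
  bin := hN.bin
  pdv := hN.pdv
  siz := hN.siz
  BC := pi_mono hCC hN.BC
  BX := hN.BX
  B1 := hN.B1
  eB := hN.eB
  fam := fun ε hε => by
    obtain ⟨θ, h1, h2, h3, h4, h5⟩ := hN.fam ε hε
    exact ⟨θ, pi_mono hCC h1, h2, h3, h4, lp_mono_field h.le h5⟩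

include hC

omit hp [CharP Ω p] in
/-- **The limits of the jets come down.** -/
theorem Prj.jl (hjl : JL p v C' w y ρ s e J φ D) :
    JL p v C w y ρ s e J (fun j => prQ π (φ j)) D where
  mem := fun j => h.poly_mem hC (hjl.mem j)
  deg := fun j hj => by rw [hjl.deg j hj, h.poly_zero]
  X := fun he j hj => by rw [hjl.X he j hj, h.poly_zero]
  lim := by
    obtain ⟨ε₀, hε₀, h1⟩ := hjl.lim
    refine ⟨ε₀, hε₀, fun ε θ hε hεε hθ hdeg hX hy j hj => ?_⟩
    have h2 := h1 ε θ hε hεε (pi_mono hCC hθ) hdeg hX hy j hj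
    have hw : w ∈ cadj v C w := self_mem_cadj v C w
    have hθK : hasseDeriv j θ ∈ PI (cadj v C w) := hasse_mem_PI (pi_mono (le_cadj v C w) hθ) j
    have hφK : φ j ∈ PI (cadj v C' w) := pi_mono (le_cadj v C' w) (hjl.mem j)
    have h3 : (hasseDeriv j θ).eval w ∈ cadj v C w := eval_mem_of_PI hθK hw
    have h4 : (φ j).eval w ∈ cadj v C' w := eval_mem_of_PI hφK (h.le hw)
    have h5 := h.ge _ (sub_mem (h.le h3) h4) _ h2
    rwa [h.sub (h.le h3) h4, h.self _ h3, ← h.poly_eval hφK hw] at h5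

/-- **The classes of the effects come down.** -/
theorem Prj.oclsJ (hN : Nrm p v C w y ρ s ν e A N B J 0) (hφ : ∀ j, φ j ∈ PI C') (hX : X₀ ∈ C)
    (hcl : OClsJ p v C' w ρ ν e A N B φ X₀) :
    OClsJ p v C w ρ ν e A N B (fun j => prQ π (φ j)) X₀ := by
  intro l hl hpl
  have h1 := hcl l hl hpl
  have hC'K : C' ≤ cadj v C' w := le_cadj v C' w
  have hCK : C ≤ cadj v C w := le_cadj v C w
  have hw : w ∈ cadj v C w := self_mem_cadj v C w
  have hef : ef p e A N B φ l ∈ PI (cadj v C' w) := by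
    refine pi_mono hC'K (add_mem (add_mem (mul_mem (C_mem_PI (hCC hN.eC)) (hφ l))
      (sum_mem fun m hm => ?_)) (hasse_mem_PI (pi_mono hCC hN.BC) l))
    split_ifs
    · exact mul_mem (C_mem_PI (hCC (hN.AC m hm))) (pow_mem (hφ _) _)
    · exact zero_mem _
  obtain ⟨g, hg, h2⟩ := h1
  have hgp : g ^ p ∈ cadj v C' w := pow_mem (hC'K hg) p
  have hev : (ef p e A N B φ l).eval w ∈ cadj v C' w := eval_mem_of_PI hef (h.le hw)
  have hX' : X₀ ∈ cadj v C w := hCK hX
  refine ⟨π g, hC g hg, ?_⟩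
  have h3 := h.pg_pr (sub_mem hev (mul_mem hgp (h.le hX'))) h2
  rwa [h.sub hev (mul_mem hgp (h.le hX')), mul_comm (g ^ p), h.mul X₀ hX' _ hgp,
    h.pow g (hC'K hg), mul_comm X₀, ← h.poly_eval hef hw,
    h.poly_ef (hCK hN.eC) (fun i hi => hCK (hN.AC i hi)) (pi_mono hCK hN.BC)
      (fun j => pi_mono hC'K (hφ j))] at h3

omit hp [CharP Ω p] in
/-- The projection on the base. -/
theorem Prj.base : Prj p v C C' π where
  le := hCC
  mem := hC
  add := fun g hg g' hg' => h.add g (le_cadj v C' w hg) g' (le_cadj v C' w hg')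
  mul := fun a ha g hg => h.mul a (le_cadj v C w ha) g (le_cadj v C' w hg)
  self := fun a ha => h.self a (le_cadj v C w ha)
  pow := fun g hg => h.pow g (le_cadj v C' w hg)
  ge := fun g hg r hr => h.ge g (le_cadj v C' w hg) r hr

end Data

/-- `gr` perfect comes down. -/
theorem Prj.gp (h : Prj p v K K' π) (hgp : GP p v K') : GP p v K := by
  intro c hc h0
  obtain ⟨g, hg, h1⟩ := hgp c (h.le hc) h0
  refine ⟨π g, h.mem g hg, ?_⟩
  have h2 := h.gt (sub_mem (h.le hc) (pow_mem hg p)) h1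
  rwa [h.sub (h.le hc) (pow_mem hg p), h.self c hc, h.pow g hg] at h2

/-! ### From the big field -/

section OfMap

variable {H : Type u} [Field H] [Algebra k H] {vH : RVal H} {ι : Ω →ₐ[k] H} (hI : IsoE v vH ι)
  {e : Ω} {A : ℕ → Ω} {N J D : ℕ} {B : Polynomial Ω}

theorem exists_fam_of_PI {φ : ℕ → Polynomial H} (h : ∀ j, φ j ∈ PI (C.map ι)) :
    ∃ ψ : ℕ → Polynomial Ω, (∀ j, ψ j ∈ PI C) ∧ ∀ j, φ j = (ψ j).map ι.toRingHom := by
  choose ψ hψ h1 using fun j => TWCT.exists_of_PI (h j)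
  exact ⟨ψ, hψ, fun j => (h1 j).symm⟩

include hI

omit hI in
theorem ef_map (ψ : ℕ → Polynomial Ω) (l : ℕ) :
    ef p (ι e) (fun i => ι (A i)) N (B.map ι.toRingHom) (fun j => (ψ j).map ι.toRingHom) l =
      (ef p e A N B ψ l).map ι.toRingHom := by
  rw [ef, ef, Polynomial.map_add, Polynomial.map_add, Polynomial.map_mul, map_C,
    Polynomial.map_sum, hasse_map]
  congr 2
  refine sum_congr rfl fun i _ => ?_
  split_ifs
  · rw [Polynomial.map_mul, Polynomial.map_pow, map_C]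
    rfl
  · rw [Polynomial.map_zero]

theorem JL.of_map {ψ : ℕ → Polynomial Ω} (hψ : ∀ j, ψ j ∈ PI C)
    (h : JL p vH (C.map ι) (ι w) (ι y) ρ s (ι e) J (fun j => (ψ j).map ι.toRingHom) D) :
    JL p v C w y ρ s e J ψ D where
  mem := hψ
  deg := fun j hj => (Polynomial.map_eq_zero _).1 (h.deg j hj)
  X := fun he j hj => (Polynomial.map_eq_zero _).1
    (h.X (fun h0 => he (TWM.Dense.inj ι (by rw [h0, map_zero]))) j hj)
  lim := by
    obtain ⟨ε₀, hε₀, h1⟩ := h.lim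
    refine ⟨ε₀, hε₀, fun ε θ hε hεε hθ hdeg hX hy j hj => ?_⟩
    have h2 := h1 ε (θ.map ι.toRingHom) hε hεε (TWCT.map_mem_PI hθ)
      ((natDegree_map_le).trans hdeg)
      (fun he l hl => by
        rw [hasse_map, hX (fun h0 => he (by rw [h0, map_zero])) l hl, Polynomial.map_zero])
      (by
        rw [TWCT.eval_map_ι, ← map_sub]
        exact hI.ge_iff.2 hy) j hj
    rw [hasse_map, TWCT.eval_map_ι, TWCT.eval_map_ι, ← map_sub] at h2
    exact hI.ge_iff.1 h2

theorem OC.of_map {c : ℝ} {a : Ω}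
    (h : OC p vH (C.map ι) (F.map ι) (ι X₀) c (ι a)) : OC p v C F X₀ c a := by
  obtain ⟨g, hg, h1⟩ := h
  obtain ⟨g', hg', e1⟩ := hg
  have e2 : g = ι g' := e1.symm
  subst e2
  refine ⟨g', hg', (TWCT.pg_iff' hI).1 ?_⟩
  rw [map_sub, map_mul, map_pow]
  exact h1

theorem GP.of_map (h : GP p vH (C.map ι)) : GP p v C := by
  intro c hc h0
  obtain ⟨g, hg, h1⟩ := h (ι c) ⟨c, hc, rfl⟩ (fun h2 => h0 (TWM.Dense.inj ι (by rw [h2, map_zero])))
  obtain ⟨g', hg', e1⟩ := hg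
  have e2 : g = ι g' := e1.symm
  subst e2
  refine ⟨g', hg', ?_⟩
  rw [← map_pow, ← map_sub, hI.val c h0] at h1
  exact hI.gt_iff.1 h1

theorem OClsJ.of_map (hcv : CompleteV v) {ψ : ℕ → Polynomial Ω}
    (h : OClsJ p vH (C.map ι) (ι w) ρ ν (ι e) (fun i => ι (A i)) N (B.map ι.toRingHom)
      (fun j => (ψ j).map ι.toRingHom) (ι X₀)) :
    OClsJ p v C w ρ ν e A N B ψ X₀ := by
  intro l hl hpl
  have h1 := h l hl hpl
  rw [ef_map, TWCT.eval_map_ι, hI.cadj_map hcv] at h1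
  exact OC.of_map hI h1

end OfMap

/-! ### The tame projection -/

theorem TamB.prj [Fact p.Prime] [CharP Ω p] (hK : TamB p v x K) :
    Prj p v K (tam p v x K) (prT p v x K) where
  le := le_tam K
  mem := fun _ hg => (hK.spec hg).1
  add := fun _ hg _ hg' => hK.prT_add hg hg'
  mul := fun _ ha _ hg => hK.prT_mul ha hg
  self := fun _ ha => hK.prT_self ha
  pow := fun _ hg => hK.prT_pow hg
  ge := fun _ hg _ h => hK.prT_ge hg h

theorem TamS.prj [Fact p.Prime] [CharP Ω p] (hK : TamB p v x (cadj v C w)) :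
    Prj p v (cadj v C w) (cadj v (tam p v x C) w) (prT p v x (cadj v C w)) := by
  have h1 := TamB.prj hK
  rwa [tam_cadj] at h1

end Pool.Agent.TWRR
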