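import Pool.Agent.Lib.TWRR.D1
import Pool.Agent.Lib.TWS.MonE

/-!
# TANK W, contact: the Gauss projection, and the normalisation of the radii

* `Prj.gauss`: the projection `PM v F G M → F` (component of degree `0`) is a `Prj`;
* `sc c f = f(c X)`; `nrm_scale`, `JL.scale`, `OClsJ.scale`, `OC.scale`: `w / c`, `y / d`, level
  `ν - p v(m)`.
-/

set_option autoImplicit false

open Polynomial Finset

namespace Pool.Agent.TWRR

open Pool.Agent.H15JM (RVal)
open Pool.Agent.D2 (Ctx0)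
open Pool.Agent.D2P (clI)
open Pool.Agent.TWM
open Pool.Agent.TWS (MonG PM Pi0 VG exists_pi0)
open Pool.Agent.TWII (PG LP)
open Pool.Agent.TWN1

universe u

variable {k Ω : Type u} [Field k] [Field Ω] [Algebra k Ω] {v : RVal Ω}
  {A₀ C F K : IntermediateField k Ω} {x z w y X₀ : Ω} {ρ s ν : ℝ} {p : ℕ} {G : AddSubgroup ℝ}
  {M : ℝ → Ω}

/-! ### The Gauss projection -/

section Gauss

open Classical in
/-- The projection as a map of `Ω`. -/
noncomputable def prG (F : IntermediateField k Ω) (G : AddSubgroup ℝ) (M : ℝ → Ω)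
    (π : PM v F G M →ₗ[k] Ω) (g : Ω) : Ω := if h : g ∈ PM v F G M then π ⟨g, h⟩ else 0

theorem prG_eq (π : PM v F G M →ₗ[k] Ω) {g : Ω} (hg : g ∈ PM v F G M) :
    prG F G M π g = π ⟨g, hg⟩ := by rw [prG, dif_pos hg]

theorem Prj.gauss [Fact p.Prime] [CharP Ω p] {π : PM v F G M →ₗ[k] Ω} (hπ : Pi0 v A₀ F G M π)
    (hV : ∀ g ∈ VG v A₀, g / p ∈ VG v A₀) : Prj p v F (PM v F G M) (prG F G M π) where
  le := PM.le
  mem := fun g hg => by
    rw [prG_eq π hg]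
    exact hπ.mem _
  add := fun g hg g' hg' => by
    rw [prG_eq π hg, prG_eq π hg', prG_eq π (add_mem hg hg'), ← map_add]
    rfl
  mul := fun a ha g hg => by
    rw [prG_eq π hg, prG_eq π (mul_mem (PM.le ha) hg), ← hπ.lin a ha]
    rfl
  self := fun a ha => by
    rw [prG_eq π (PM.le ha)]
    exact hπ.self a ha
  pow := fun g hg => by
    rw [prG_eq π hg, prG_eq π (pow_mem hg p), ← hπ.pow p hV]
    rfl
  ge := fun g hg r hr => by
    rw [prG_eq π hg]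
    exact hπ.norm _ _ hr

/-- **The Gauss projection for `C⟨w⟩`.** -/
theorem exists_gauss [Fact p.Prime] [CharP Ω p] (hΩ : CompleteV v) (hM : MonG v A₀ G M)
    (hV : ∀ g ∈ VG v A₀, g / p ∈ VG v A₀) (hi : Imm v A₀ (cadj v C w)) (hC : Imm v A₀ C)
    (hCc : Cld v C) :
    ∃ π : Ω → Ω, Prj p v (cadj v C w) (cadj v (PM v C G M) w) π ∧ ∀ g ∈ PM v C G M, π g ∈ C := by
  obtain ⟨π, hπ⟩ := exists_pi0 hΩ hM hi (cld_cadj v C w)
  have h1 := Prj.gauss (p := p) hπ hV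
  rw [PM.cadj] at h1
  refine ⟨_, h1, fun g hg => ?_⟩
  rw [prG_eq π (PM.mono (le_cadj v C w) hg)]
  exact hπ.sub C hC (le_cadj v C w) hCc _ hg

end Gauss

/-! ### Scaling -/

/-- `f(c X)`. -/
noncomputable def sc (c : Ω) (f : Polynomial Ω) : Polynomial Ω := f.comp (Polynomial.C c * X)

theorem sc_coeff (c : Ω) (f : Polynomial Ω) (n : ℕ) : (sc c f).coeff n = f.coeff n * c ^ n :=
  comp_C_mul_X_coeff

theorem sc_eval (c : Ω) (f : Polynomial Ω) (a : Ω) : (sc c f).eval a = f.eval (c * a) := by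
  rw [sc, eval_comp, eval_mul, eval_C, eval_X]

theorem sc_zero (c : Ω) : sc c 0 = 0 := zero_comp

theorem sc_mem {c : Ω} (hc : c ∈ F) {f : Polynomial Ω} (hf : f ∈ PI F) : sc c f ∈ PI F :=
  fun n => by
  rw [sc_coeff]
  exact mul_mem (hf n) (pow_mem hc n)

theorem hasse_sc (c : Ω) (f : Polynomial Ω) (l : ℕ) :
    hasseDeriv l (sc c f) = Polynomial.C (c ^ l) * sc c (hasseDeriv l f) := by
  ext n
  rw [hasseDeriv_coeff, sc_coeff, coeff_C_mul, sc_coeff, hasseDeriv_coeff, pow_add]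
  ring

theorem sc_natDegree {c : Ω} (f : Polynomial Ω) : (sc c f).natDegree ≤ f.natDegree := by
  refine natDegree_le_iff_coeff_eq_zero.2 fun n hn => ?_
  rw [sc_coeff, coeff_eq_zero_of_natDegree_lt hn, zero_mul]

theorem sc_inv {c : Ω} (hc : c ≠ 0) (f : Polynomial Ω) : sc c⁻¹ (sc c f) = f := by
  ext n
  rw [sc_coeff, sc_coeff, mul_assoc, ← mul_pow, mul_inv_cancel₀ hc, one_pow, mul_one]

section Scale

variable {c d m : Ω}

/-- The class `OC` scaled by a `p`-th power. -/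
theorem OC.scale {a : Ω} {r : ℝ} {t : Ω} (hCF : C ≤ F) (ht : t ∈ C) (ht0 : t ≠ 0)
    (h : OC p v C F X₀ r a) : OC p v C F X₀ (r + p * v t) (t ^ p * a) := by
  obtain ⟨g, hg, b, hb, h1⟩ := h
  refine ⟨t * g, mul_mem ht hg, t * b, mul_mem (hCF ht) hb, ?_⟩
  have e : t ^ p * a - (t * g) ^ p * X₀ - (t * b) ^ p = t ^ p * (a - g ^ p * X₀ - b ^ p) := by
    rw [_root_.mul_pow, _root_.mul_pow]
    ring
  rw [e, mul_comm (t ^ p)]
  exact Gt.mul_ge h1 fun _ => by rw [v.map_pow ht0]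

theorem pg_scale {a : Ω} {r : ℝ} {t : Ω} (ht : t ∈ F) (ht0 : t ≠ 0) (h : PG p v F r a) :
    PG p v F (r + p * v t) (t ^ p * a) := by
  obtain ⟨b, hb, h1⟩ := h
  refine ⟨t * b, mul_mem ht hb, ?_⟩
  rw [mul_pow, ← mul_sub, mul_comm (t ^ p)]
  exact Gt.mul_ge h1 fun _ => by rw [v.map_pow ht0]

theorem lp_scale {a : Ω} {r : ℝ} {t : Ω} (ht : t ∈ F) (ht0 : t ≠ 0) (h : LP p v F r a) :
    LP p v F (r + p * v t) (t ^ p * a) := by
  intro ε hε
  obtain ⟨b, hb, h1⟩ := h ε hε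
  refine ⟨t * b, mul_mem ht hb, ?_⟩
  rw [mul_pow, ← mul_sub]
  have h2 : v.Ge (p * v t) (t ^ p) := fun _ => by rw [v.map_pow ht0]
  exact (h2.mul h1).mono (by linarith)

/-- The scaled data. -/
noncomputable def scA (p : ℕ) (d m : Ω) (A : ℕ → Ω) (i : ℕ) : Ω := (m ^ p)⁻¹ * A i * d ^ p ^ i

/-- The scaled family. -/
noncomputable def scφ (c d : Ω) (φ : ℕ → Polynomial Ω) (j : ℕ) : Polynomial Ω :=
  Polynomial.C (d⁻¹ * c ^ j) * sc c (φ j)

variable [hp : Fact p.Prime] [CharP Ω p] {e : Ω} {A : ℕ → Ω} {N J D : ℕ} {B : Polynomial Ω}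
  {φ : ℕ → Polynomial Ω}

omit hp [CharP Ω p] in
theorem scφ_eval (hc : c ≠ 0) (j : ℕ) :
    (scφ c d φ j).eval (w / c) = d⁻¹ * c ^ j * (φ j).eval w := by
  rw [scφ, eval_mul, eval_C, sc_eval, mul_div_cancel₀ _ hc]

omit hp [CharP Ω p] in
/-- The scaled polynomial. -/
theorem fth_sc (hd : d ≠ 0) (θ : Polynomial Ω) :
    fth p ((m ^ p)⁻¹ * e * d) (scA p d m A) N (Polynomial.C (m ^ p)⁻¹ * sc c B)
      (Polynomial.C d⁻¹ * sc c θ) = Polynomial.C (m ^ p)⁻¹ * sc c (fth p e A N B θ) := by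
  have h1 : Polynomial.C ((m ^ p)⁻¹ * e * d) * (Polynomial.C d⁻¹ * sc c θ) =
      Polynomial.C (m ^ p)⁻¹ * (Polynomial.C e * sc c θ) := by
    rw [← mul_assoc, ← C_mul, mul_assoc, mul_inv_cancel₀ hd, mul_one, C_mul, mul_assoc]
  have h2 : ∀ i : ℕ, Polynomial.C (scA p d m A i) * (Polynomial.C d⁻¹ * sc c θ) ^ p ^ i =
      Polynomial.C (m ^ p)⁻¹ * (Polynomial.C (A i) * sc c θ ^ p ^ i) := fun i => by
    rw [scA, mul_pow, ← C_pow, ← mul_assoc, ← C_mul, mul_assoc (_ * A i), ← mul_pow,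
      mul_inv_cancel₀ hd, one_pow, mul_one, C_mul, mul_assoc]
  have h3 : sc c (fth p e A N B θ) = Polynomial.C e * sc c θ +
      ∑ i ∈ Icc 1 N, Polynomial.C (A i) * sc c θ ^ p ^ i + sc c B := by
    have h4 : ∀ f : Polynomial Ω, sc c f = compRingHom (Polynomial.C c * X) f := fun _ => rfl
    rw [h4, h4, h4, fth, map_add, map_add, map_mul, map_sum]
    simp only [map_mul, map_pow, coe_compRingHom_apply, C_comp]
  rw [fth, h1, h3, mul_add, mul_add, mul_sum]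
  congr 2
  exact sum_congr rfl fun i _ => h2 i

omit hp [CharP Ω p] in
theorem cadj_sc (hc : c ∈ C) (hc0 : c ≠ 0) : cadj v C (w / c) = cadj v C w := by
  refine le_antisymm (cadj_le (cld_cadj v C w) (le_cadj v C w)
    (div_mem (self_mem_cadj v C w) (le_cadj v C w hc))) (cadj_le (cld_cadj v C _) (le_cadj v C _) ?_)
  have h1 := mul_mem (self_mem_cadj v C (w / c)) (le_cadj v C (w / c) hc)
  rwa [div_mul_cancel₀ _ hc0] at h1

omit hp [CharP Ω p] in
theorem scA_eq {i : ℕ} (hi : 1 ≤ i) : scA p d m A i = (m⁻¹ * d ^ p ^ (i - 1)) ^ p * A i := by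
  obtain ⟨j, rfl⟩ := Nat.exists_eq_add_of_le' hi
  rw [scA, Nat.add_sub_cancel, _root_.mul_pow, inv_pow, ← pow_mul, ← pow_succ]
  ring

omit hp [CharP Ω p] in
theorem val_sc {i : ℕ} (hi : 1 ≤ i) (hd0 : d ≠ 0) (hm0 : m ≠ 0) :
    (p : ℝ) * v (m⁻¹ * d ^ p ^ (i - 1)) = - (p * v m) + p ^ i * v d := by
  obtain ⟨j, rfl⟩ := Nat.exists_eq_add_of_le' hi
  rw [Nat.add_sub_cancel, v.map_mul (inv_ne_zero hm0) (pow_ne_zero _ hd0), v.map_inv hm0,
    v.map_pow hd0]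
  push_cast
  ring

variable (hc : c ∈ C) (hc0 : c ≠ 0) (hd : d ∈ C) (hd0 : d ≠ 0) (hm : m ∈ C) (hm0 : m ≠ 0)

include hc hc0 hd hd0 hm hm0

omit hp [CharP Ω p] in
/-- **The scaled normal form.** -/
theorem nrm_scale (hN : Nrm p v C w y ρ s ν e A N B J 0) :
    Nrm p v C (w / c) (y / d) (ρ - v c) (s - v d) (ν - p * v m) ((m ^ p)⁻¹ * e * d) (scA p d m A) N
      (Polynomial.C (m ^ p)⁻¹ * sc c B) J 0 := by
  have hmp : m ^ p ≠ 0 := pow_ne_zero _ hm0
  have hmi : v.Ge (-(p * v m)) (m ^ p)⁻¹ := fun _ => by rw [v.map_inv hmp, v.map_pow hm0]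
  have hF : C ≤ cadj v C w := le_cadj v C w
  exact
    { N1 := hN.N1
      eC := mul_mem (mul_mem (inv_mem (pow_mem hm p)) hN.eC) hd
      ege := ((hmi.mul hN.ege).mul (RVal.ge_self d)).mono (by linarith)
      AC := fun i hi => mul_mem (mul_mem (inv_mem (pow_mem hm p)) (hN.AC i hi)) (pow_mem hd _)
      Alp := fun i hi => by
        have hi1 := (mem_Icc.1 hi).1
        have ht0 : m⁻¹ * d ^ p ^ (i - 1) ≠ 0 := mul_ne_zero (inv_ne_zero hm0) (pow_ne_zero _ hd0)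
        have h1 := lp_scale (hF (mul_mem (inv_mem hm) (pow_mem hd (p ^ (i - 1))))) ht0
          (hN.Alp i hi)
        rw [← scA_eq hi1, val_sc hi1 hd0 hm0] at h1
        rw [cadj_sc hc hc0]
        exact h1.mono (by linarith)
      top := fun h1 => hN.top (by
        have hi1 := hN.N1
        have ht0 : m⁻¹ * d ^ p ^ (N - 1) ≠ 0 := mul_ne_zero (inv_ne_zero hm0) (pow_ne_zero _ hd0)
        rw [cadj_sc hc hc0, scA_eq hi1] at h1
        have h2 := pg_scale (inv_mem (hF (mul_mem (inv_mem hm) (pow_mem hd (p ^ (N - 1))))))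
          (inv_ne_zero ht0) h1
        rw [inv_pow, inv_mul_cancel_left₀ (pow_ne_zero _ ht0), v.map_inv ht0, mul_neg,
          val_sc hi1 hd0 hm0] at h2
        exact h2.mono (by linarith))
      mem := zero_mem _
      low := fun j hj => absurd hj (by simp)
      bin := fun j hj => absurd hj (by simp)
      pdv := fun _ j hj => absurd hj (by simp)
      siz := fun j => by
        rw [coeff_zero]
        exact RVal.Ge.zero
      BC := mul_mem (C_mem_PI (inv_mem (pow_mem hm p))) (sc_mem hc hN.BC)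
      BX := fun l hl hpl => by
        rw [TWN1.hasse_C_mul, hasse_sc, hN.BX l hl hpl, sc_zero, mul_zero, mul_zero]
      B1 := by
        rw [TWN1.hasse_C_mul, hasse_sc, eval_mul, eval_mul, eval_C, eval_C, sc_eval,
          mul_div_cancel₀ _ hc0, pow_one]
        exact (hmi.mul ((RVal.ge_self c).mul hN.B1)).mono (by linarith)
      eB := by
        rcases hN.eB with h1 | h1
        · left
          rw [h1, mul_zero, zero_mul]
        · right
          rw [TWN1.hasse_C_mul, hasse_sc, h1, sc_zero, mul_zero, mul_zero]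
      fam := fun ε hε => by
        obtain ⟨θ, h1, h2, h3, h4, h5⟩ := hN.fam ε hε
        refine ⟨Polynomial.C d⁻¹ * sc c θ, mul_mem (C_mem_PI (inv_mem hd)) (sc_mem hc h1),
          fun i hi => ?_, fun he l hl => ?_, ?_, ?_⟩
        · rw [coeff_C_mul, sc_coeff, h2 i hi, coeff_zero, zero_mul, mul_zero]
        · rw [TWN1.hasse_C_mul, hasse_sc, h3 (fun h0 => he (by rw [h0, mul_zero, zero_mul])) l hl,
            sc_zero, mul_zero, mul_zero]
        · have e1 : y / d - (Polynomial.C d⁻¹ * sc c θ).eval (w / c) = d⁻¹ * (y - θ.eval w) := by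
            rw [eval_mul, eval_C, sc_eval, mul_div_cancel₀ _ hc0]
            field_simp
          rw [e1]
          have h6 : v.Ge (-v d) d⁻¹ := fun _ => by rw [v.map_inv hd0]
          exact (h6.mul h4).mono (by linarith)
        · rw [fth_sc hd0, eval_mul, eval_C, sc_eval, mul_div_cancel₀ _ hc0, cadj_sc hc hc0,
            ← inv_pow]
          have h6 := lp_scale (hF (inv_mem hm)) (inv_ne_zero hm0) h5
          rw [v.map_inv hm0] at h6
          exact h6.mono (by linarith) }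

omit hp [CharP Ω p] hm in
/-- **The scaled limits of the jets.** -/
theorem JL.scale (hjl : JL p v C w y ρ s e J φ D) :
    JL p v C (w / c) (y / d) (ρ - v c) (s - v d) ((m ^ p)⁻¹ * e * d) J (scφ c d φ) D := by
  have hmp : (m ^ p)⁻¹ ≠ 0 := inv_ne_zero (pow_ne_zero _ hm0)
  have he' : (m ^ p)⁻¹ * e * d ≠ 0 → e ≠ 0 := fun h h0 => h (by rw [h0, mul_zero, zero_mul])
  have he : e ≠ 0 → (m ^ p)⁻¹ * e * d ≠ 0 := fun h => mul_ne_zero (mul_ne_zero hmp h) hd0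
  refine ⟨fun j => mul_mem (C_mem_PI (mul_mem (inv_mem hd) (pow_mem hc j))) (sc_mem hc (hjl.mem j)),
    fun j hj => ?_, fun h0 j hj => ?_, ?_⟩
  · rw [scφ, hjl.deg j hj, sc_zero, mul_zero]
  · rw [scφ, hjl.X (he' h0) j hj, sc_zero, mul_zero]
  · obtain ⟨ε₀, hε₀, h1⟩ := hjl.lim
    refine ⟨ε₀, hε₀, fun ε θ hε hεε hθ hdeg hX hy j hj => ?_⟩
    have hci : c⁻¹ ∈ C := inv_mem hc
    have h2 := h1 ε (Polynomial.C d * sc c⁻¹ θ) hε hεε
      (mul_mem (C_mem_PI hd) (sc_mem hci hθ)) ((natDegree_C_mul_le _ _).trans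
        ((sc_natDegree θ).trans hdeg)) (fun h0 l hl => by
        rw [TWN1.hasse_C_mul, hasse_sc, hX (he h0) l hl, sc_zero, mul_zero, mul_zero]) (by
        have e1 : y - (Polynomial.C d * sc c⁻¹ θ).eval w = d * (y / d - θ.eval (w / c)) := by
          rw [eval_mul, eval_C, sc_eval, ← div_eq_inv_mul]
          field_simp
        rw [e1]
        exact ((RVal.ge_self d).mul hy).mono (by linarith)) j hj
    have e2 : (hasseDeriv j θ).eval (w / c) - (scφ c d φ j).eval (w / c) = d⁻¹ * c ^ j *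
        ((hasseDeriv j (Polynomial.C d * sc c⁻¹ θ)).eval w - (φ j).eval w) := by
      rw [scφ_eval hc0, TWN1.hasse_C_mul, hasse_sc, eval_mul, eval_mul, eval_C, eval_C, sc_eval,
        ← div_eq_inv_mul, inv_pow]
      have hcj : c ^ j ≠ 0 := pow_ne_zero _ hc0
      field_simp
    rw [e2]
    have h3 : v.Ge (-v d + j * v c) (d⁻¹ * c ^ j) := fun _ => by
      rw [v.map_mul (inv_ne_zero hd0) (pow_ne_zero _ hc0), v.map_inv hd0, v.map_pow hc0]
    exact (h3.mul h2).mono (by linarith)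

omit hp [CharP Ω p] hc hd hm hm0 in
/-- The effects. -/
theorem ef_sc (l : ℕ) :
    (ef p ((m ^ p)⁻¹ * e * d) (scA p d m A) N (Polynomial.C (m ^ p)⁻¹ * sc c B) (scφ c d φ) l).eval
      (w / c) = (m ^ p)⁻¹ * c ^ l * (ef p e A N B φ l).eval w := by
  rw [ef_eval, ef_eval, scφ_eval hc0, TWN1.hasse_C_mul, hasse_sc, eval_mul, eval_mul, eval_C,
    eval_C, sc_eval, mul_div_cancel₀ _ hc0, mul_add, mul_add, mul_sum]
  congr 1
  · congr 1
    · field_simp
    · refine sum_congr rfl fun i _ => ?_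
      split_ifs with hi
      · have e1 : (c ^ (l / p ^ i)) ^ p ^ i = c ^ l := by
          rw [← pow_mul, Nat.div_mul_cancel hi]
        have hdp : d ^ p ^ i ≠ 0 := pow_ne_zero _ hd0
        rw [scφ_eval hc0, scA, _root_.mul_pow, _root_.mul_pow, e1, inv_pow]
        field_simp
      · rw [mul_zero]
  · ring

omit hp [CharP Ω p] hd in
/-- **The scaled classes of the effects.** -/
theorem OClsJ.scale (h : OClsJ p v C w ρ ν e A N B φ X₀) :
    OClsJ p v C (w / c) (ρ - v c) (ν - p * v m) ((m ^ p)⁻¹ * e * d) (scA p d m A) N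
      (Polynomial.C (m ^ p)⁻¹ * sc c B) (scφ c d φ) X₀ := by
  intro l hl hpl
  obtain ⟨j, rfl⟩ := hpl
  have h1 := h _ hl (dvd_mul_right p j)
  have ht : m⁻¹ * c ^ j ∈ C := mul_mem (inv_mem hm) (pow_mem hc j)
  have ht0 : m⁻¹ * c ^ j ≠ 0 := mul_ne_zero (inv_ne_zero hm0) (pow_ne_zero _ hc0)
  have h2 := OC.scale (le_cadj v C w) ht ht0 h1
  rw [cadj_sc hc hc0, ef_sc hc0 hd0]
  have e1 : (m⁻¹ * c ^ j) ^ p = (m ^ p)⁻¹ * c ^ (p * j) := by
    rw [_root_.mul_pow, inv_pow, ← pow_mul, mul_comm j]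
  have e2 : (p : ℝ) * v (m⁻¹ * c ^ j) = -(p * v m) + (p * j : ℕ) * v c := by
    rw [v.map_mul (inv_ne_zero hm0) (pow_ne_zero _ hc0), v.map_inv hm0, v.map_pow hc0]
    push_cast
    ring
  rw [e1, e2] at h2
  exact h2.mono (by linarith)

end Scale

/-! ### Back -/

section Unscale

variable {c d m : Ω} {e : Ω} {A : ℕ → Ω} {N J D : ℕ} {B : Polynomial Ω} {φ : ℕ → Polynomial Ω}
  (hc : c ∈ C) (hc0 : c ≠ 0) (hd : d ∈ C) (hd0 : d ≠ 0) (hm : m ∈ C) (hm0 : m ≠ 0)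

theorem unsc_e (hd0 : d ≠ 0) (hm0 : m ≠ 0) : (m⁻¹ ^ p)⁻¹ * ((m ^ p)⁻¹ * e * d) * d⁻¹ = e := by
  have hmp : m ^ p ≠ 0 := pow_ne_zero _ hm0
  rw [inv_pow, inv_inv]
  field_simp

theorem unsc_A (hd0 : d ≠ 0) (hm0 : m ≠ 0) : scA p d⁻¹ m⁻¹ (scA p d m A) = A := by
  funext i
  have hmp : m ^ p ≠ 0 := pow_ne_zero _ hm0
  have hdp : d ^ p ^ i ≠ 0 := pow_ne_zero _ hd0
  rw [scA, scA, inv_pow, inv_pow, inv_inv]
  field_simp

theorem unsc_B (hc0 : c ≠ 0) (hm0 : m ≠ 0) :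
    Polynomial.C (m⁻¹ ^ p)⁻¹ * sc c⁻¹ (Polynomial.C (m ^ p)⁻¹ * sc c B) = B := by
  have hmp : m ^ p ≠ 0 := pow_ne_zero _ hm0
  ext n
  rw [coeff_C_mul, sc_coeff, coeff_C_mul, sc_coeff, inv_pow, inv_inv, inv_pow]
  have hcn : c ^ n ≠ 0 := pow_ne_zero _ hc0
  field_simp

include hc hc0 hd hd0 hm0

theorem JL.unscale (hjl : JL p v C (w / c) (y / d) (ρ - v c) (s - v d) ((m ^ p)⁻¹ * e * d) J φ D) :
    JL p v C w y ρ s e J (scφ c⁻¹ d⁻¹ φ) D := by
  have h1 := hjl.scale (inv_mem hc) (inv_ne_zero hc0) (inv_mem hd) (inv_ne_zero hd0)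
    (m := m⁻¹) (inv_ne_zero hm0)
  rwa [unsc_e hd0 hm0, div_inv_eq_mul, div_inv_eq_mul, div_mul_cancel₀ _ hc0,
    div_mul_cancel₀ _ hd0, v.map_inv hc0, v.map_inv hd0, sub_neg_eq_add, sub_add_cancel,
    sub_neg_eq_add, sub_add_cancel] at h1

include hm

omit hd in
theorem OClsJ.unscale (h : OClsJ p v C (w / c) (ρ - v c) (ν - p * v m) ((m ^ p)⁻¹ * e * d)
    (scA p d m A) N (Polynomial.C (m ^ p)⁻¹ * sc c B) φ X₀) :
    OClsJ p v C w ρ ν e A N B (scφ c⁻¹ d⁻¹ φ) X₀ := by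
  have h1 := h.scale (inv_mem hc) (inv_ne_zero hc0) (inv_ne_zero hd0) (inv_mem hm)
    (inv_ne_zero hm0)
  rwa [unsc_e hd0 hm0, unsc_A hd0 hm0, unsc_B hc0 hm0, div_inv_eq_mul,
    div_mul_cancel₀ _ hc0, v.map_inv hc0, sub_neg_eq_add, sub_add_cancel, v.map_inv hm0,
    mul_neg, sub_neg_eq_add, sub_add_cancel] at h1

end Unscale

end Pool.Agent.TWRR
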