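import Pool.Agent.Lib.TWRR.R5

/-!
# TANK W, contact, j = 1: integration of a noise free direction

`w` over `C`, `y` over `F = C⟨w⟩`, normal form `Nrm`. The jets of the approximants of `y` are
attained (`JL`), the effects `ef φ l` of `w` are in `C` + null (`ClsJ`). Then `y - g(w)` is a limit of
`C`, and the additive form over the pair `w, y - g(w)`.

* `ef`, `ClsJ`; `ClsJ.all`: it holds for all limits of the jets; `ClsJ.relJ`;
* `JL.af`: the additive form, with the classes of the columns.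
-/

set_option autoImplicit false

open Polynomial Finset

namespace Pool.Agent.TWRR

open Pool.Agent.H15JM (RVal)
open Pool.Agent.D2 (Ctx0)
open Pool.Agent.TWM
open Pool.Agent.TWII (PG LP)
open Pool.Agent.TWN1

universe u

variable {k Ω : Type u} [Field k] [Field Ω] [Algebra k Ω] [IsAlgClosed Ω] {v : RVal Ω}
  {C F K : IntermediateField k Ω} {w y b : Ω} {ρ s ν : ℝ} {p : ℕ} [hp : Fact p.Prime] [CharP Ω p]
  {e : Ω} {A : ℕ → Ω} {N J D : ℕ} {B : Polynomial Ω} {φ ψ : ℕ → Polynomial Ω}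

omit [IsAlgClosed Ω] hp [CharP Ω p] in
/-- The effect of index `l`. -/
noncomputable def ef (p : ℕ) (e : Ω) (A : ℕ → Ω) (N : ℕ) (B : Polynomial Ω)
    (φ : ℕ → Polynomial Ω) (l : ℕ) : Polynomial Ω :=
  Polynomial.C e * φ l + ∑ m ∈ Icc 1 N,
    (if p ^ m ∣ l then Polynomial.C (A m) * φ (l / p ^ m) ^ p ^ m else 0) + hasseDeriv l B

omit [IsAlgClosed Ω] [CharP Ω p] in
theorem ef_fl (l : ℕ) : ef p e A N B φ (p ^ N * l) = fl p e A N B φ l := by
  rw [ef, fl]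
  congr 2
  refine sum_congr rfl fun m hm => ?_
  have h1 : p ^ N = p ^ m * p ^ (N - m) := by
    rw [← pow_add, Nat.add_sub_cancel' (mem_Icc.1 hm).2]
  rw [if_pos (by rw [h1, mul_assoc]; exact dvd_mul_right _ _), h1, mul_assoc,
    Nat.mul_div_cancel_left _ (Nat.pow_pos hp.out.pos)]

omit [IsAlgClosed Ω] hp [CharP Ω p] in
theorem ef_eval (l : ℕ) (x : Ω) : (ef p e A N B φ l).eval x = e * (φ l).eval x +
    ∑ m ∈ Icc 1 N, (if p ^ m ∣ l then A m * ((φ (l / p ^ m)).eval x) ^ p ^ m else 0) +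
    (hasseDeriv l B).eval x := by
  rw [ef, eval_add, eval_add, eval_mul, eval_C, eval_finsetSum]
  congr 2
  refine sum_congr rfl fun m _ => ?_
  split_ifs
  · rw [eval_mul, eval_C, eval_pow]
  · rw [eval_zero]

/-- The effects of `fth`. -/
theorem ef_fth (g : Polynomial Ω) (l : ℕ) :
    hasseDeriv l (fth p e A N B g) = ef p e A N B (fun j => hasseDeriv j g) l := by
  rw [fth, ef, map_add, map_add, map_sum, TWN1.hasse_C_mul]
  congr 2
  refine sum_congr rfl fun m _ => ?_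
  rw [TWN1.hasse_C_mul, hasse_powq]
  split_ifs
  · rfl
  · rw [mul_zero]

omit [IsAlgClosed Ω] in
/-- Change of the `φ`. -/
theorem ef_sub (l : ℕ) (x : Ω) : (ef p e A N B φ l).eval x - (ef p e A N B ψ l).eval x =
    e * ((φ l).eval x - (ψ l).eval x) + ∑ m ∈ Icc 1 N,
      (if p ^ m ∣ l then A m * ((φ (l / p ^ m)).eval x - (ψ (l / p ^ m)).eval x) ^ p ^ m
        else 0) := by
  rw [ef_eval, ef_eval]
  have h1 : ∑ m ∈ Icc 1 N,
      (if p ^ m ∣ l then A m * ((φ (l / p ^ m)).eval x - (ψ (l / p ^ m)).eval x) ^ p ^ m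
        else 0) = ∑ m ∈ Icc 1 N, (if p ^ m ∣ l then A m * ((φ (l / p ^ m)).eval x) ^ p ^ m else 0) -
      ∑ m ∈ Icc 1 N, (if p ^ m ∣ l then A m * ((ψ (l / p ^ m)).eval x) ^ p ^ m else 0) := by
    rw [← sum_sub_distrib]
    refine sum_congr rfl fun m _ => ?_
    split_ifs
    · rw [sub_pow_char_pow, mul_sub]
    · rw [sub_zero]
  rw [h1]
  ring

/-- The effects are in `C` + null. -/
def ClsJ (p : ℕ) (v : RVal Ω) (C : IntermediateField k Ω) (w : Ω) (ρ ν : ℝ) (e : Ω)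
    (A : ℕ → Ω) (N : ℕ) (B : Polynomial Ω) (φ : ℕ → Polynomial Ω) : Prop :=
  ∀ l : ℕ, l ≠ 0 → p ∣ l → ∃ c ∈ C, PG p v (cadj v C w) (ν - l * ρ)
    ((ef p e A N B φ l).eval w - c)

/-- Elements `r_j`, of value `≥ s - j ρ`: the effect is in `C` + null. -/
theorem eff_small (hw : TL v C w ρ) (hD : Dt p v C (cadj v C w) s ν e A N) {r : ℕ → Ω}
    (hr : ∀ j : ℕ, j ≠ 0 → r j ∈ cadj v C w ∧ v.Ge (s - j * ρ) (r j)) :
    ∃ c : ℕ → Ω, (∀ j, c j ∈ C) ∧ (∀ j : ℕ, j ≠ 0 → v.Ge (s - j * ρ) (c j)) ∧ ∀ l : ℕ, l ≠ 0 →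
      PG p v (cadj v C w) (ν - l * ρ) (e * r l + ∑ m ∈ Icc 1 N,
        (if p ^ m ∣ l then A m * (r (l / p ^ m)) ^ p ^ m else 0) - (e * c l + ∑ m ∈ Icc 1 N,
        (if p ^ m ∣ l then A m * (c (l / p ^ m)) ^ p ^ m else 0))) := by
  classical
  have hp0 : (0 : ℝ) < p := by exact_mod_cast hp.out.pos
  have h1 : ∀ j : ℕ, ∃ c ∈ C, j ≠ 0 → v.Ge (s - j * ρ) c ∧ Gt v (s - j * ρ) (r j - c) := by
    intro j
    rcases eq_or_ne j 0 with hj | hj
    · exact ⟨0, zero_mem _, fun h => absurd hj h⟩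
    · obtain ⟨h2, h3⟩ := hr j hj
      obtain ⟨c, hc, -, h4⟩ := exists_lead hw.imm h2 h3
      refine ⟨c, hc, fun _ => ⟨?_, h4⟩⟩
      have e1 : c = r j - (r j - c) := by ring
      rw [e1]
      exact h3.sub h4.ge
  choose c hcC hc using h1
  refine ⟨c, hcC, fun j hj => (hc j hj).1, fun l hl => ?_⟩
  have e1 : e * r l + ∑ m ∈ Icc 1 N,
        (if p ^ m ∣ l then A m * (r (l / p ^ m)) ^ p ^ m else 0) - (e * c l + ∑ m ∈ Icc 1 N,
        (if p ^ m ∣ l then A m * (c (l / p ^ m)) ^ p ^ m else 0)) = e * (r l - c l) +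
        ∑ m ∈ Icc 1 N, (if p ^ m ∣ l then A m * (r (l / p ^ m) - c (l / p ^ m)) ^ p ^ m
          else 0) := by
    have h2 : ∑ m ∈ Icc 1 N, (if p ^ m ∣ l then A m * (r (l / p ^ m) - c (l / p ^ m)) ^ p ^ m
          else 0) = ∑ m ∈ Icc 1 N, (if p ^ m ∣ l then A m * (r (l / p ^ m)) ^ p ^ m else 0) -
        ∑ m ∈ Icc 1 N, (if p ^ m ∣ l then A m * (c (l / p ^ m)) ^ p ^ m else 0) := by
      rw [← sum_sub_distrib]
      refine sum_congr rfl fun m _ => ?_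
      split_ifs
      · rw [sub_pow_char_pow, mul_sub]
      · rw [sub_zero]
    rw [h2]
    ring
  rw [e1]
  refine PG.add (PG.of_gt ?_) (PG.sum _ _ fun m hm => ?_)
  · obtain ⟨μ, hμ, h4⟩ := TWLM.exists_ge_of_gt (hc l hl).2
    exact Gt.of_ge (hD.ege.mul h4) (by linarith)
  · split_ifs with hd
    · obtain ⟨j, hj⟩ := hd
      have hj0 : j ≠ 0 := by
        rintro rfl
        exact hl (by rw [hj, mul_zero])
      have e2 : l / p ^ m = j := by rw [hj, Nat.mul_div_cancel_left _ (Nat.pow_pos hp.out.pos)]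
      rw [e2]
      obtain ⟨μ, hμ, h4⟩ := TWLM.exists_ge_of_gt (hc j hj0).2
      have h5 : r j - c j ∈ cadj v C w := sub_mem (hr j hj0).1 (le_cadj v C w (hcC j))
      refine pg_of_lp (lp_mul_powq (hD.Alp m hm) h5 (mem_Icc.1 hm).1 h4) ?_
      have h6 : 0 < (p : ℝ) ^ m * μ := by positivity
      have e3 : (l : ℝ) = p ^ m * j := by
        rw [hj]
        push_cast
        ring
      rw [e3]
      have e4 : (p : ℝ) ^ m * (s - j * ρ + μ) = p ^ m * s - p ^ m * j * ρ + p ^ m * μ := by ring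
      rw [e4]
      linarith
    · exact .of_gt Gt.zero

omit [IsAlgClosed Ω] in
/-- Two limits of the jets. -/
theorem JL.sub_ge (hN : Nrm p v C w y ρ s ν e A N B J 0) (h : JL p v C w y ρ s e J φ D) {D' : ℕ}
    (h' : JL p v C w y ρ s e J ψ D') {j : ℕ} (hj : j ≠ 0) :
    v.Ge (s - j * ρ) ((φ j).eval w - (ψ j).eval w) := by
  obtain ⟨ε₀, hε₀, h1⟩ := h.lim
  obtain ⟨ε₁, hε₁, h2⟩ := h'.lim
  refine ge_of_eps fun ε hε => ?_
  obtain ⟨θ, hθ, hdeg, hX, hyθ, -⟩ := exists_apx hN (lt_min hε (lt_min hε₀ hε₁))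
  have h3 := h1 _ θ (lt_min hε (lt_min hε₀ hε₁))
    ((min_le_right _ _).trans (min_le_left _ _)) hθ hdeg hX hyθ j hj
  have h4 := h2 _ θ (lt_min hε (lt_min hε₀ hε₁))
    ((min_le_right _ _).trans (min_le_right _ _)) hθ hdeg hX hyθ j hj
  have e1 : (φ j).eval w - (ψ j).eval w = ((hasseDeriv j θ).eval w - (ψ j).eval w) -
      ((hasseDeriv j θ).eval w - (φ j).eval w) := by ring
  rw [e1]
  exact (h4.sub h3).mono (by linarith [min_le_left ε (min ε₀ ε₁)])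

/-- The classes of the effects, after a change of the `φ`. -/
theorem ClsJ.change (hw : TL v C w ρ) (hD : Dt p v C (cadj v C w) s ν e A N)
    (h : ClsJ p v C w ρ ν e A N B φ) (hφ : ∀ j, φ j ∈ PI C) (hψ : ∀ j, ψ j ∈ PI C)
    (hd : ∀ j : ℕ, j ≠ 0 → v.Ge (s - j * ρ) ((φ j).eval w - (ψ j).eval w)) :
    ClsJ p v C w ρ ν e A N B ψ := by
  intro l hl hpl
  obtain ⟨c, hc, h1⟩ := h l hl hpl
  obtain ⟨c', hc', -, h2⟩ := eff_small hw hD
    (r := fun j => (φ j).eval w - (ψ j).eval w) (fun j hj =>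
      ⟨sub_mem (TWLM.eval_mem_cadj (hφ j)) (TWLM.eval_mem_cadj (hψ j)), hd j hj⟩)
  replace h2 := h2 l hl
  refine ⟨c - (e * c' l + ∑ m ∈ Icc 1 N, (if p ^ m ∣ l then A m * (c' (l / p ^ m)) ^ p ^ m else 0)),
    sub_mem hc (add_mem (mul_mem hD.eC (hc' l)) (sum_mem fun m hm => ?_)), ?_⟩
  · split_ifs
    · exact mul_mem (hD.AC m hm) (pow_mem (hc' _) _)
    · exact zero_mem _
  · rw [← ef_sub] at h2
    have h3 := h1.sub h2
    refine (congrArg _ ?_).mp h3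
    ring

/-- The relation from the classes. -/
theorem ClsJ.relJ (hw : TL v C w ρ) (hN : Nrm p v C w y ρ s ν e A N B J 0)
    (hjl : JL p v C w y ρ s e J φ D) (h : ClsJ p v C w ρ ν e A N B φ) :
    RelJ p v C w y ρ s ν e A N B J := by
  intro ψ D' hψ l i hl hi
  have h1 := h.change hw hN.toDt hjl.mem hψ.mem (fun j hj => hjl.sub_ge hN hψ hj)
  have hQ : p ^ N * l ≠ 0 := Nat.mul_ne_zero (Nat.pow_pos hp.out.pos).ne' hl
  obtain ⟨c, hc, h2⟩ := h1 (p ^ N * l) hQ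
    ((dvd_pow_self p (by have := hN.N1; omega)).mul_right l)
  rw [ef_fl] at h2
  have hi' : p ^ N * i ≠ 0 := Nat.mul_ne_zero (Nat.pow_pos hp.out.pos).ne' hi
  have h3 := pg_jet (f := fl p e A N B ψ l - Polynomial.C c) hw
    (sub_mem (fl_mem hN.toDt hN.BC hψ.mem l) (C_mem_PI hc)) (by rwa [eval_sub, eval_C]) hi'
  rw [map_sub, hasseDeriv_eq_zero_of_lt_natDegree (Polynomial.C c) _ (by
    rw [natDegree_C]; omega), sub_zero] at h3
  refine h3.mono (le_of_eq ?_)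
  push_cast
  ring

/-- **Integration of a noise free direction.** -/
theorem JL.af (hw : TL v C w ρ) (hy : TL v (cadj v C w) y s)
    (hN : Nrm p v C w y ρ s ν e A N B J 0) (hjl : JL p v C w y ρ s e J φ D)
    (h : ClsJ p v C w ρ ν e A N B φ) {e₂ : Ω} (he₂ : hasseDeriv 1 B = Polynomial.C e₂)
    (hb : PG p v (cadj v (cadj v C w) y) ν
      (b - (e * y + ∑ i ∈ Icc 1 N, A i * y ^ p ^ i + B.eval w))) :
    ∃ g ∈ PI C, ∃ (b₀ : Ω) (x : ℕ → Ω) (S : ℕ) (y' : ℕ → Ω),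
      AF p v C (cadj v (cadj v C w) y) ν b b₀ w ρ x S (y - g.eval w) s y' N ∧
      (∀ i ∈ Icc 1 N, y' i = A i) ∧ ¬ PG p v C (ν - p ^ N * s) (y' N) ∧
      (∀ i, N < i → y' i = 0) ∧ ∃ c : ℕ → Ω, (∀ j, c j ∈ C) ∧ (∀ j : ℕ, j ≠ 0 → v.Ge (s - j * ρ) (c j)) ∧
        ∀ j : ℕ, j ≠ 0 → PG p v (cadj v C w) (ν - p ^ j * ρ)
          ((ef p e A N B φ (p ^ j)).eval w - (e * c (p ^ j) + ∑ m ∈ Icc 1 N,
            (if p ^ m ∣ p ^ j then A m * (c (p ^ j / p ^ m)) ^ p ^ m else 0)) - x j) := by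
  classical
  obtain ⟨g, hg, hNr', ψ, D', hψ, hgψ⟩ := hjl.integ hw (h.relJ hw hN hjl) hN
  have hgF : g.eval w ∈ cadj v C w := TWLM.eval_mem_cadj hg
  have hy' : TL v (cadj v C w) (y - g.eval w) s := TL.sub_mem hy hgF
  have hK : cadj v (cadj v C w) (y - g.eval w) = cadj v (cadj v C w) y := cadj_sub_mem hgF
  have hdiff : ∀ j : ℕ, j ≠ 0 → v.Ge (s - j * ρ) ((φ j).eval w - (hasseDeriv j g).eval w) := by
    intro j hj
    have e1 : (φ j).eval w - (hasseDeriv j g).eval w = ((φ j).eval w - (ψ j).eval w) +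
        ((ψ j).eval w - (hasseDeriv j g).eval w) := by ring
    rw [e1]
    exact (hjl.sub_ge hN hψ hj).add (hgψ j hj)
  have hcg : ClsJ p v C w ρ ν e A N B (fun j => hasseDeriv j g) :=
    h.change hw hN.toDt hjl.mem (fun j => hasse_mem_PI hg j) hdiff
  have hcl : ∀ l : ℕ, l ≠ 0 → p ∣ l → ∃ c ∈ C, PG p v (cadj v C w) (ν - l * ρ)
      ((hasseDeriv l (fth p e A N B g)).eval w - c) := by
    intro l hl hpl
    rw [ef_fth]
    exact hcg l hl hpl
  obtain ⟨e₂', he₂'⟩ : ∃ e₂' : Ω, hasseDeriv 1 (fth p e A N B g) = Polynomial.C e₂' := by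
    rcases hNr'.eB with h0 | h0
    · refine ⟨e₂, ?_⟩
      rw [hasseDeriv_one] at he₂ ⊢
      rw [derivative_fth, h0, C_0, zero_mul, zero_add, he₂]
    · exact ⟨0, by rw [h0, C_0]⟩
  have hrel' : PG p v (cadj v (cadj v C w) (y - g.eval w)) ν
      (b - (e * (y - g.eval w) + ∑ i ∈ Icc 1 N, A i * (y - g.eval w) ^ p ^ i +
        (fth p e A N B g).eval w)) := by
    rw [hK]
    have e1 : e * (y - g.eval w) + ∑ i ∈ Icc 1 N, A i * (y - g.eval w) ^ p ^ i +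
        (fth p e A N B g).eval w = e * y + ∑ i ∈ Icc 1 N, A i * y ^ p ^ i + B.eval w := by
      rw [fth_eval]
      have e2 := ff_add (p := p) e A N (B.eval w) (y - g.eval w) (g.eval w)
      have e3 : y - g.eval w + g.eval w = y := by ring
      rw [e3] at e2
      unfold ff at e2 ⊢
      exact e2.symm
    rw [e1]
    exact hb
  obtain ⟨b₀, x, S, y', h1, -, -, h3, h4, h4', h5⟩ := af_of hw hy' hNr' he₂' hcl hrel'
  rw [hK] at h1
  obtain ⟨c, hcC, hcge, hcpg⟩ : ∃ c : ℕ → Ω, (∀ j, c j ∈ C) ∧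
      (∀ j : ℕ, j ≠ 0 → v.Ge (s - j * ρ) (c j)) ∧ ∀ l : ℕ, l ≠ 0 →
      PG p v (cadj v C w) (ν - l * ρ) ((ef p e A N B φ l).eval w -
        (hasseDeriv l (fth p e A N B g)).eval w - (e * c l + ∑ m ∈ Icc 1 N,
          (if p ^ m ∣ l then A m * (c (l / p ^ m)) ^ p ^ m else 0))) := by
    obtain ⟨c, hcC, hcge, hc⟩ := eff_small hw hN.toDt
      (r := fun j => (φ j).eval w - (hasseDeriv j g).eval w) (fun j hj =>
      ⟨sub_mem (TWLM.eval_mem_cadj (hjl.mem j)) (TWLM.eval_mem_cadj (hasse_mem_PI hg j)),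
        hdiff j hj⟩)
    refine ⟨c, hcC, hcge, fun l hl => ?_⟩
    have h6 := hc l hl
    rw [← ef_sub (ψ := fun j => hasseDeriv j g), ← ef_fth] at h6
    exact h6
  refine ⟨g, hg, b₀, x, S, y', h1, h3, h4, h4', c, hcC, hcge, fun j hj => ?_⟩
  have h6 := hcpg (p ^ j) (Nat.pow_pos hp.out.pos).ne'
  push_cast at h6
  have h7 := h6.add (h5 j hj)
  refine (congrArg _ ?_).mp h7
  ring

end Pool.Agent.TWRR
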