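import Pool.Agent.Lib.TWRR.G0
import Pool.Agent.Lib.TWCT.Pair

/-!
# TANK W, contact, j = 1: an additive form with one class has an empty column

`gr C` is perfect, the coefficients of the columns (of index `≥ 1`) are `h ^ p * X` + null for one
element `X`.

* `OCol`: one class; `OCol.step`: it is invariant under the column operations;
* `not_ind_oc`: tops of one class are dependent;
* `AF.red_oc`: column reduction to an empty column;
-/

set_option autoImplicit false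
set_option linter.unusedSectionVars false

open Polynomial Finset

namespace Pool.Agent.TWRR

open Pool.Agent.H15JM (RVal)
open Pool.Agent.D2 (Ctx0)
open Pool.Agent.TWM
open Pool.Agent.TWII (PG LP)
open Pool.Agent.TWN1
open Pool.Agent.TWCT (Ind)

universe u

variable {k Ω : Type u} [Field k] [Field Ω] [Algebra k Ω] {v : RVal Ω}
  {C F K : IntermediateField k Ω} {p : ℕ} [hp : Fact p.Prime] [CharP Ω p]
  {ν : ℝ} {b b₀ z₁ z₂ : Ω} {r₁ r₂ r : ℝ} {x y : ℕ → Ω} {S T : ℕ} {X₀ : Ω}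

/-- `gr C` is perfect. -/
def GP (p : ℕ) (v : RVal Ω) (C : IntermediateField k Ω) : Prop :=
  ∀ c ∈ C, c ≠ 0 → ∃ h ∈ C, Gt v (v c) (c - h ^ p)

/-- `x` is `h ^ p * X₀` + null at the level `c`. -/
def OC (p : ℕ) (v : RVal Ω) (C F : IntermediateField k Ω) (X₀ : Ω) (c : ℝ) (x : Ω) : Prop :=
  ∃ h ∈ C, PG p v F c (x - h ^ p * X₀)

/-- One class. -/
def OCol (p : ℕ) (v : RVal Ω) (C : IntermediateField k Ω) (ν r : ℝ) (X₀ : Ω) (x : ℕ → Ω) : Prop :=
  ∀ j : ℕ, j ≠ 0 → OC p v C C X₀ (ν - p ^ j * r) (x j)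

/-- Elements of value `≥ c` are null. -/
theorem GP.null (h : GP p v C) {x : Ω} (hx : x ∈ C) {c : ℝ} (hc : v.Ge c x) : PG p v C c x := by
  by_cases h0 : x = 0
  · rw [h0]
    exact PG.of_gt Gt.zero
  · obtain ⟨g, hg, h1⟩ := h x hx h0
    exact ⟨g, hg, h1.mono (hc h0)⟩

/-- Roots of exponent `p ^ n`. -/
theorem GP.root (h : GP p v C) (n : ℕ) {c : Ω} (hc : c ∈ C) (h0 : c ≠ 0) :
    ∃ g ∈ C, Gt v (v c) (c - g ^ p ^ n) := by
  induction n with
  | zero =>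
    refine ⟨c, hc, ?_⟩
    rw [pow_zero, pow_one, sub_self]
    exact Gt.zero
  | succ n ih =>
    obtain ⟨g, hg, h1⟩ := ih
    have h2 := h1.val_eq h0
    have hg0 : g ≠ 0 := fun h3 => h2.1 (by rw [h3, zero_pow (Nat.pow_pos hp.out.pos).ne'])
    obtain ⟨g', hg', h3⟩ := h g hg hg0
    refine ⟨g', hg', ?_⟩
    have e1 : c - g' ^ p ^ (n + 1) = (c - g ^ p ^ n) + (g - g' ^ p) ^ p ^ n := by
      rw [sub_pow_char_pow, ← pow_mul, ← pow_succ']
      ring
    rw [e1]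
    refine h1.add ?_
    intro h4
    have h5 : g - g' ^ p ≠ 0 := fun h6 => h4 (by
      rw [h6, zero_pow (Nat.pow_pos hp.out.pos).ne'])
    rw [← h2.2, v.map_pow hg0, v.map_pow h5]
    have h6 : (0 : ℝ) < (p ^ n : ℕ) := by exact_mod_cast Nat.pow_pos hp.out.pos
    exact mul_lt_mul_of_pos_left (h3 h5) h6

/-- The factor of a column operation, raised to a power. -/
theorem OC.mul_pow (hF : C ≤ F) {c : ℝ} {a : Ω} (ha : OC p v C F X₀ c a) {s : Ω} (hs : s ∈ C)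
    {i : ℕ} (hi : i ≠ 0) {d : ℝ} (hd : v.Ge d s) : OC p v C F X₀ (c + p ^ i * d) (a * s ^ p ^ i) := by
  obtain ⟨h, hh, h1⟩ := ha
  obtain ⟨i, rfl⟩ : ∃ j, i = j + 1 := ⟨i - 1, by omega⟩
  have e : ∀ z : Ω, z ^ p ^ (i + 1) = (z ^ p ^ i) ^ p := fun z => by rw [← pow_mul, ← pow_succ]
  refine ⟨h * s ^ p ^ i, mul_mem hh (pow_mem hs _), ?_⟩
  have e1 : a * s ^ p ^ (i + 1) - (h * s ^ p ^ i) ^ p * X₀ =
      (a - h ^ p * X₀) * (s ^ p ^ i) ^ p := by
    rw [_root_.mul_pow, e]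
    ring
  rw [e1]
  refine PG.mul_pow h1 (pow_mem (hF hs) _) ?_
  rw [← e]
  refine (ge_pow hd _).mono ?_
  push_cast
  exact le_rfl

theorem OC.sub {c : ℝ} {a a' : Ω} (h : OC p v C F X₀ c a) (h' : OC p v C F X₀ c a') :
    OC p v C F X₀ c (a - a') := by
  obtain ⟨g, hg, h1⟩ := h
  obtain ⟨g', hg', h2⟩ := h'
  refine ⟨g - g', sub_mem hg hg', ?_⟩
  have e1 : a - a' - (g - g') ^ p * X₀ = (a - g ^ p * X₀) - (a' - g' ^ p * X₀) := by
    rw [sub_pow_char]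
    ring
  rw [e1]
  exact h1.sub h2

theorem OC.add {c : ℝ} {a a' : Ω} (h : OC p v C F X₀ c a) (h' : OC p v C F X₀ c a') :
    OC p v C F X₀ c (a + a') := by
  obtain ⟨g, hg, h1⟩ := h
  obtain ⟨g', hg', h2⟩ := h'
  refine ⟨g + g', add_mem hg hg', ?_⟩
  have e1 : a + a' - (g + g') ^ p * X₀ = (a - g ^ p * X₀) + (a' - g' ^ p * X₀) := by
    rw [add_pow_char]
    ring
  rw [e1]
  exact h1.add h2

omit [CharP Ω p] in
theorem OC.of_pg {c : ℝ} {a : Ω} (h : PG p v F c a) : OC p v C F X₀ c a := by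
  refine ⟨0, zero_mem _, ?_⟩
  rw [zero_pow hp.out.ne_zero, zero_mul, sub_zero]
  exact h

theorem OC.sum {ι : Type*} {c : ℝ} (s : Finset ι) (f : ι → Ω)
    (h : ∀ i ∈ s, OC p v C F X₀ c (f i)) : OC p v C F X₀ c (∑ i ∈ s, f i) := by
  classical
  induction s using Finset.induction_on with
  | empty => exact OC.of_pg (by rw [sum_empty]; exact PG.of_gt Gt.zero)
  | insert a s ha ih =>
    rw [sum_insert ha]
    exact (h a (mem_insert_self a s)).add (ih fun i hi => h i (mem_insert_of_mem hi))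

omit hp [CharP Ω p] in
theorem OC.mono {c c' : ℝ} {a : Ω} (h : OC p v C F X₀ c a) (hc : c' ≤ c) :
    OC p v C F X₀ c' a := by
  obtain ⟨g, hg, h1⟩ := h
  exact ⟨g, hg, h1.mono hc⟩

/-- The column operation. -/
theorem OCol.step (hgp : GP p v C) (hx : OCol p v C ν r₁ X₀ x) (hy : OCol p v C ν r₂ X₀ y)
    (hcy : Col p v C ν r₂ y) {s : Ω} (hs : s ∈ C) {d : ℕ} (hv : v.Ge (r₂ - p ^ d * r₁) s) :
    OCol p v C ν r₁ X₀ (colS p x y s d) := by
  intro j hj
  rw [colS]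
  refine (hx j hj).sub ?_
  split_ifs with hd
  · obtain ⟨i, rfl⟩ := Nat.exists_eq_add_of_le hd
    rw [Nat.add_sub_cancel_left]
    have e1 : ν - (p : ℝ) ^ (d + i) * r₁ = ν - p ^ i * r₂ + p ^ i * (r₂ - p ^ d * r₁) := by
      rw [pow_add]
      ring
    rcases eq_or_ne i 0 with rfl | hi
    · refine OC.of_pg (hgp.null (mul_mem (hcy.mem 0) (pow_mem hs _)) ?_)
      rw [pow_zero, pow_one]
      refine (hcy.lin.mul hv).mono ?_
      rw [add_zero]
      linarith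
    · rw [e1]
      exact (hy i hi).mul_pow le_rfl hs hi hv
  · exact OC.of_pg (PG.of_gt Gt.zero)

/-- `h ^ p * X₀` is small, if `h` is. -/
theorem lp_small {c δ : ℝ} (hδ : 0 < δ) {g ε : Ω} (hg : ε ∈ C) (hε : v.Ge δ ε)
    (h : LP p v C c (g ^ p * X₀)) : PG p v C c ((g * ε) ^ p * X₀) := by
  have hp0 : (0 : ℝ) < p := by exact_mod_cast hp.out.pos
  have h1 := h.pc (c' := c - p * δ / 2) (by
    have : 0 < (p : ℝ) * δ := by positivity
    linarith)
  have h2 := h1.mul_pow hg (ge_pow hε p)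
  have e1 : g ^ p * X₀ * ε ^ p = (g * ε) ^ p * X₀ := by
    rw [_root_.mul_pow]
    ring
  rw [e1] at h2
  refine h2.pg ?_
  have : 0 < (p : ℝ) * δ := by positivity
  linarith

/-- The levels of the multiples of `X₀`. -/
theorem lev_le {c c' : ℝ} {g h : Ω} (hg : g ∈ C) (hh : h ∈ C) (hg0 : g ≠ 0) (hh0 : h ≠ 0)
    (hn : ¬ PG p v C c (g ^ p * X₀)) (hlp : LP p v C c' (h ^ p * X₀)) :
    c' - p * v h ≤ c - p * v g := by
  by_contra hlt
  push Not at hlt
  apply hn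
  have hgh : v.Ge (v g - v h) (g / h) := fun _ => by rw [v.map_div hg0 hh0]
  set δ := (c' - p * v h - (c - p * v g)) / 2 with hδ
  have h1 := hlp.pc (c' := c' - δ) (by linarith)
  have h2 := h1.mul_pow (div_mem hg hh) (ge_pow hgh p)
  have e1 : h ^ p * X₀ * (g / h) ^ p = g ^ p * X₀ := by
    rw [div_pow]
    have : h ^ p ≠ 0 := pow_ne_zero _ hh0
    field_simp
  rw [e1] at h2
  refine h2.pg ?_
  linarith

/-- **Tops of one class are dependent.** -/
theorem not_ind_oc (hgp : GP p v C) (hS : S ≠ 0) {a a' : Ω}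
    (ha : OC p v C C X₀ (ν - p ^ S * r₁) a) (ha' : OC p v C C X₀ (ν - p ^ T * r₂) a')
    (hlpa : LP p v C (ν - p ^ S * r₁) a) (hlp : LP p v C (ν - p ^ T * r₂) a')
    (hna : ¬ PG p v C (ν - p ^ S * r₁) a) (hn : ¬ PG p v C (ν - p ^ T * r₂) a') :
    ¬ Ind p v C ν r₁ S r₂ T a a' := by
  intro hind
  obtain ⟨h, hh, h1⟩ := ha
  obtain ⟨g, hg, h2⟩ := ha'
  have hh0 : h ≠ 0 := by
    rintro rfl
    rw [zero_pow hp.out.ne_zero, zero_mul, sub_zero] at h1
    exact hna h1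
  have hg0 : g ≠ 0 := by
    rintro rfl
    rw [zero_pow hp.out.ne_zero, zero_mul, sub_zero] at h2
    exact hn h2
  -- the values
  have hlp1 : LP p v C (ν - p ^ S * r₁) (h ^ p * X₀) := by
    have h6 := hlpa.sub (LP.of_pg h1)
    rwa [sub_sub_cancel] at h6
  have hlp2 : LP p v C (ν - p ^ T * r₂) (g ^ p * X₀) := by
    have h6 := hlp.sub (LP.of_pg h2)
    rwa [sub_sub_cancel] at h6
  have hn1 : ¬ PG p v C (ν - p ^ S * r₁) (h ^ p * X₀) := fun h3 => hna (by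
    have h6 := h1.add h3
    rwa [sub_add_cancel] at h6)
  have hn2 : ¬ PG p v C (ν - p ^ T * r₂) (g ^ p * X₀) := fun h3 => hn (by
    have h6 := h2.add h3
    rwa [sub_add_cancel] at h6)
  have hv1 := lev_le hg hh hg0 hh0 hn2 hlp1
  have hv2 := lev_le hh hg hh0 hg0 hn1 hlp2
  obtain ⟨S, rfl⟩ : ∃ j, S = j + 1 := ⟨S - 1, by omega⟩
  have hgh : -(g / h) ∈ C := neg_mem (div_mem hg hh)
  have hgh0 : -(g / h) ≠ 0 := neg_ne_zero.2 (div_ne_zero hg0 hh0)
  obtain ⟨c, hc, h3⟩ := hgp.root S hgh hgh0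
  have hval := h3.val_eq hgh0
  have hc0 : c ≠ 0 := fun h4 => hval.1 (by rw [h4, zero_pow (Nat.pow_pos hp.out.pos).ne'])
  have hvc : (p : ℝ) ^ S * v c = v g - v h := by
    have h4 := hval.2
    rw [v.map_pow hc0, v.map_neg _ (div_ne_zero hg0 hh0), v.map_div hg0 hh0] at h4
    push_cast at h4
    exact h4
  -- the error
  set ε := 1 + h * c ^ p ^ S / g with hε
  have hεC : ε ∈ C := add_mem (one_mem _) (div_mem (mul_mem hh (pow_mem hc _)) hg)
  have hε1 : Gt v 0 ε := by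
    have e1 : ε = (-(g / h) - c ^ p ^ S) * (-(g / h))⁻¹ := by
      rw [hε]
      field_simp
      ring
    rw [e1]
    have h4 : v.Ge (-v (-(g / h))) (-(g / h))⁻¹ := fun _ => by rw [v.map_inv hgh0]
    have h5 := h3.mul_ge h4
    rwa [add_neg_cancel] at h5
  obtain ⟨δ, hδ, hε2⟩ := TWLM.exists_ge_of_gt hε1
  rw [zero_add] at hε2
  have h4 := lp_small hδ hεC hε2 hlp2
  -- the relation
  have h5 : PG p v C (ν - p ^ T * r₂) (a * c ^ p ^ (S + 1) + a' * 1 ^ p ^ T) := by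
    have h6 : PG p v C (ν - p ^ T * r₂) ((a - h ^ p * X₀) * c ^ p ^ (S + 1)) := by
      have e : c ^ p ^ (S + 1) = (c ^ p ^ S) ^ p := by rw [← pow_mul, ← pow_succ]
      rw [e]
      refine (h1.mul_pow (pow_mem hc _) (RVal.ge_self (v := v) ((c ^ p ^ S) ^ p))).mono ?_
      rw [v.map_pow (pow_ne_zero _ hc0), v.map_pow hc0]
      push_cast
      rw [hvc]
      linarith
    have e1 : a * c ^ p ^ (S + 1) + a' * 1 ^ p ^ T =
        (a - h ^ p * X₀) * c ^ p ^ (S + 1) + (a' - g ^ p * X₀) + (g * ε) ^ p * X₀ := by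
      have e2 : g * ε = g + h * c ^ p ^ S := by
        rw [hε]
        field_simp
      rw [one_pow, e2, add_pow_char, _root_.mul_pow, ← pow_mul, ← pow_succ]
      ring
    rw [e1]
    exact (h6.add h2).add h4
  have h6 := (hind c hc 1 (one_mem _) _ h5).2
  rw [one_pow] at h6
  have h8 := h6 one_ne_zero
  rw [v.map_one] at h8
  linarith

/-- **Column reduction to an empty column.** -/
theorem AF.red_oc [IsAlgClosed Ω] (hgp : GP p v C)
    (h : AF p v C K ν b b₀ z₁ r₁ x S z₂ r₂ y T) (hT : T ≠ 0)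
    (hyT : ¬ PG p v C (ν - p ^ T * r₂) (y T)) (hx : OCol p v C ν r₁ X₀ x)
    (hy : OCol p v C ν r₂ X₀ y) :
    ∃ (b₀' z₁' z₂' : Ω) (r₁' r₂' : ℝ) (x' y' : ℕ → Ω) (T' : ℕ),
      AF p v C K ν b b₀' z₁' r₁' x' 0 z₂' r₂' y' T' ∧
      T' ≠ 0 ∧ ¬ PG p v C (ν - p ^ T' * r₂') (y' T') := by
  obtain ⟨n, hn⟩ : ∃ n, n = S + T := ⟨_, rfl⟩
  induction n using Nat.strong_induction_on generalizing b₀ z₁ z₂ r₁ r₂ x y S T with
  | _ n ih =>
    rcases Nat.eq_zero_or_pos S with hS | hS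
    · subst hS
      exact ⟨b₀, z₁, z₂, r₁, r₂, x, y, T, h, hT, hyT⟩
    by_cases hxS : PG p v C (ν - p ^ S * r₁) (x S)
    · -- drop
      obtain ⟨S, rfl⟩ : ∃ i, S = i + 1 := ⟨S - 1, by omega⟩
      obtain ⟨b₀', h'⟩ := h.drop hxS
      exact ih (S + T) (by omega) h' hT hyT hx hy rfl
    have hind : ¬ Ind p v C ν r₁ S r₂ T (x S) (y T) :=
      not_ind_oc hgp hS.ne' (hx S hS.ne') (hy T hT) (h.c1.lev S hS.ne') (h.c2.lev T hT) hxS hyT
    have hind' : ¬ Ind p v C ν r₂ T r₁ S (y T) (x S) :=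
      not_ind_oc hgp hT (hy T hT) (hx S hS.ne') (h.c2.lev T hT) (h.c1.lev S hS.ne') hyT hxS
    rcases le_total T S with hTS | hTS
    · obtain ⟨s, hs, hv, hn'⟩ := exists_factor h.c1 h.c2 hTS hT hyT hind
      have h' : AF p v C K ν b b₀ z₁ r₁ (colS p x y s (S - T)) S
          (z₂ + s * z₁ ^ p ^ (S - T)) r₂ y T :=
        ⟨h.par.step hs hv, h.c1.step h.c2 hs hv, h.c2, h.b0, by
          rw [add_assoc, ← col_step hTS s, ← add_assoc]
          exact h.rel⟩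
      have hn'' : PG p v C (ν - p ^ S * r₁) (colS p x y s (S - T) S) := by
        rw [colS, if_pos (Nat.sub_le S T), Nat.sub_sub_self hTS]
        exact hn'
      obtain ⟨S, rfl⟩ : ∃ i, S = i + 1 := ⟨S - 1, by omega⟩
      obtain ⟨b₀', h''⟩ := h'.drop hn''
      exact ih (S + T) (by omega) h'' hT hyT (hx.step hgp hy h.c2 hs hv) hy rfl
    · obtain ⟨s, hs, hv, hn'⟩ := exists_factor h.c2 h.c1 hTS hS.ne' hxS hind'
      have h₀ := h.symm
      have h' : AF p v C K ν b b₀ z₂ r₂ (colS p y x s (T - S)) T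
          (z₁ + s * z₂ ^ p ^ (T - S)) r₁ x S :=
        ⟨h₀.par.step hs hv, h₀.c1.step h₀.c2 hs hv, h₀.c2, h₀.b0, by
          rw [add_assoc, ← col_step hTS s, ← add_assoc]
          exact h₀.rel⟩
      have hn'' : PG p v C (ν - p ^ T * r₂) (colS p y x s (T - S) T) := by
        rw [colS, if_pos (Nat.sub_le T S), Nat.sub_sub_self hTS]
        exact hn'
      obtain ⟨T, rfl⟩ : ∃ i, T = i + 1 := ⟨T - 1, by omega⟩
      obtain ⟨b₀', h''⟩ := h'.drop hn''
      exact ih (T + S) (by omega) h'' hS.ne' hxS (hy.step hgp hx h.c1 hs hv) hx rfl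

end Pool.Agent.TWRR
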