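import Pool.Agent.Lib.TWRR.J0

/-!
# TANK W, contact, row J1: two forms of `a`, and the end

`W ≤ C ≤ F = C⟨w⟩`, `K = F⟨z⟩`, radii and level `0`, `T` an isometry which fixes `W`, `d` a derivation
of norm `≤ 0` which kills `W`.

* `drv_form`: `e dS + d(T a₀ - a₀)` modulo strictly positive values does not depend on the form
  `a = e (z - φ) + ∑ A i (z - φ) ^ p ^ i + a₀`, `A i ∈ W`, `e ∈ W`, where `S` is `(T - 1)(z - φ)` modulo
  `O_0`.
-/

set_option autoImplicit false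

open Polynomial Finset

namespace Pool.Agent.TWRR

open Pool.Agent.H15JM (RVal)
open Pool.Agent.D2 (Ctx0)
open Pool.Agent.LU1 (VPos)
open Pool.Agent.TWM
open Pool.Agent.TWS (IsoE)
open Pool.Agent.TWII (PG LP)
open Pool.Agent.TWN1
open Pool.Agent.TWCY (Drv)

universe u

variable {k Ω : Type u} [Field k] [Field Ω] [Algebra k Ω] {v : RVal Ω}
  {W F K : IntermediateField k Ω} {w z a x : Ω} {p : ℕ}

section Form

variable {T : Ω →ₐ[k] Ω} {d : Ω → Ω} {e e' φ a₀ b S : Ω} {A A' : ℕ → Ω} {N N' : ℕ}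
  [hp : Fact p.Prime] [CharP Ω p]

theorem drv_sum_powq (hd : Drv v F d) (hWF : W ≤ F) (hdW : ∀ g ∈ W, d g = 0)
    (hA : ∀ i ∈ Icc 1 N, A i ∈ W) {g : Ω} (hg : g ∈ F) :
    d (∑ i ∈ Icc 1 N, A i * g ^ p ^ i) = 0 := by
  rw [drv_sum hd _ _ fun i hi => mul_mem (hWF (hA i hi)) (pow_mem hg _)]
  refine sum_eq_zero fun i hi => ?_
  rw [drv_mul hd (hWF (hA i hi)) (pow_mem hg _) (hdW _ (hA i hi)),
    drv_powq hd hg (mem_Icc.1 hi).1, mul_zero]

omit hp [CharP Ω p] in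
theorem map_form (hfix : ∀ g ∈ W, T g = g) (he : e ∈ W) (hA : ∀ i ∈ Icc 1 N, A i ∈ W) (g b : Ω) :
    T (e * g + ∑ i ∈ Icc 1 N, A i * g ^ p ^ i + b) =
      e * T g + ∑ i ∈ Icc 1 N, A i * T g ^ p ^ i + T b := by
  rw [map_add, map_add, map_mul, hfix e he, map_sum]
  congr 2
  refine sum_congr rfl fun i hi => ?_
  rw [map_mul, map_pow, hfix _ (hA i hi)]

theorem sub_form (T : Ω →ₐ[k] Ω) (e : Ω) (A : ℕ → Ω) (N : ℕ) (g b : Ω) :
    e * T g + ∑ i ∈ Icc 1 N, A i * T g ^ p ^ i + T b -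
      (e * g + ∑ i ∈ Icc 1 N, A i * g ^ p ^ i + b) =
      e * (T g - g) + ∑ i ∈ Icc 1 N, A i * (T g - g) ^ p ^ i + (T b - b) := by
  have h1 : ∑ i ∈ Icc 1 N, A i * (T g - g) ^ p ^ i =
      ∑ i ∈ Icc 1 N, A i * T g ^ p ^ i - ∑ i ∈ Icc 1 N, A i * g ^ p ^ i := by
    rw [← sum_sub_distrib]
    refine sum_congr rfl fun i _ => ?_
    rw [sub_pow_char_pow]
    ring
  rw [h1]
  ring

omit hp in
/-- The derivative of the additive polynomials. -/
theorem deriv_form (e : Ω) (A : ℕ → Ω) (N : ℕ) (φ b : Ω) :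
    derivative (C e * (X - C φ) + ∑ i ∈ Icc 1 N, C (A i) * (X - C φ) ^ p ^ i + C b) = C e := by
  have h1 : ∀ i ∈ Icc 1 N, derivative (C (A i) * (X - C φ) ^ p ^ i) = 0 := by
    intro i hi
    obtain ⟨j, rfl⟩ : ∃ j, i = j + 1 := ⟨i - 1, by have := (mem_Icc.1 hi).1; omega⟩
    rw [derivative_mul, derivative_C, zero_mul, zero_add, derivative_pow]
    have h2 : ((p ^ (j + 1) : ℕ) : Ω) = 0 := by
      rw [pow_succ, Nat.cast_mul, CharP.cast_eq_zero Ω p, mul_zero]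
    rw [h2, C_0, zero_mul, zero_mul, mul_zero]
  rw [derivative_add, derivative_add, derivative_sum, sum_eq_zero h1, derivative_C, add_zero,
    add_zero, derivative_mul, derivative_C, zero_mul, zero_add, derivative_sub, derivative_X,
    derivative_C, sub_zero, mul_one]

/-- **Two forms of `a`.** -/
theorem drv_form [IsAlgClosed Ω] (hz : TL v F z 0) (hWF : W ≤ F) (hiso : IsoE v v T)
    (hfix : ∀ g ∈ W, T g = g) (hTF : ∀ g ∈ F, T g ∈ F) (hd : Drv v F d) (hdW : ∀ g ∈ W, d g = 0)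
    (he : e ∈ W) (hA : ∀ i ∈ Icc 1 N, A i ∈ W) (he' : e' ∈ W) (hA' : ∀ i ∈ Icc 1 N', A' i ∈ W)
    (hφ : φ ∈ F) (ha₀ : a₀ ∈ F) (hb : b ∈ F) (hS : S ∈ F)
    (h1 : PG p v (cadj v F z) 0 (a - (e * (z - φ) + ∑ i ∈ Icc 1 N, A i * (z - φ) ^ p ^ i + a₀)))
    (h2 : PG p v (cadj v F z) 0 (a - (e' * z + ∑ i ∈ Icc 1 N', A' i * z ^ p ^ i + b)))
    (hjet : v.Ge 0 (T (z - φ) - (z - φ) - S)) (hX : VPos v (e * d S + d (T a₀ - a₀))) :
    VPos v (e' * d (S + (T φ - φ)) + d (T b - b)) := by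
  set P : Polynomial Ω := (C e * (X - C φ) + ∑ i ∈ Icc 1 N, C (A i) * (X - C φ) ^ p ^ i + C a₀) -
    (C e' * (X - C 0) + ∑ i ∈ Icc 1 N', C (A' i) * (X - C 0) ^ p ^ i + C b) with hP
  have hPe : ∀ θ : Ω, P.eval θ = (e * (θ - φ) + ∑ i ∈ Icc 1 N, A i * (θ - φ) ^ p ^ i + a₀) -
      (e' * θ + ∑ i ∈ Icc 1 N', A' i * θ ^ p ^ i + b) := fun θ => by
    rw [hP]
    simp [eval_finsetSum]
  have hXF : ∀ φ ∈ F, (X - C φ : Polynomial Ω) ∈ PI F := fun φ hφ => sub_mem X_mem_PI (C_mem_PI hφ)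
  have hPF : P ∈ PI F := by
    refine sub_mem (add_mem (add_mem (mul_mem (C_mem_PI (hWF he)) (hXF φ hφ)) (sum_mem fun i hi =>
      mul_mem (C_mem_PI (hWF (hA i hi))) (pow_mem (hXF φ hφ) _))) (C_mem_PI ha₀)) (add_mem (add_mem
      (mul_mem (C_mem_PI (hWF he')) (hXF 0 (zero_mem _))) (sum_mem fun i hi =>
      mul_mem (C_mem_PI (hWF (hA' i hi))) (pow_mem (hXF 0 (zero_mem _)) _))) (C_mem_PI hb))
  have h3 : PG p v (cadj v F z) 0 (P.eval z) := by
    rw [hPe]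
    refine (congrArg _ ?_).mp (h2.sub h1)
    ring
  obtain ⟨G, hG, h4⟩ := PG.exists_poly hz h3
  set Q := P - G ^ p with hQ
  have hQF : Q ∈ PI F := sub_mem hPF (pow_mem hG p)
  obtain ⟨c₁, hc₁, h5⟩ := TWLM.exists_ge_of_gt h4
  have h6 := TWLM.poly_str hz hQF one_ne_zero h5
  have h7 : (hasseDeriv 1 Q).eval z = e - e' := by
    rw [hasseDeriv_one', hQ, hP, derivative_sub, derivative_sub, deriv_form, deriv_form,
      derivative_pow, CharP.cast_eq_zero, C_0, zero_mul, zero_mul, sub_zero, eval_sub, eval_C,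
      eval_C]
  rw [h7] at h6
  have h6' : Gt v 0 (e - e') := fun h0 => by
    have := h6 h0
    simp at this
    linarith
  obtain ⟨c₂, hc₂, h8⟩ := TWLM.exists_ge_of_gt h6'
  obtain ⟨δ, hδ, h9⟩ := TL.deep hz {Q} fun f hf => by rwa [mem_singleton.1 hf]
  obtain ⟨ε, hε, hεδ, hεc⟩ : ∃ ε : ℝ, 0 < ε ∧ ε ≤ δ ∧ ε ≤ c₂ / 2 :=
    ⟨min δ (c₂ / 2), lt_min hδ (by linarith), min_le_left _ _, min_le_right _ _⟩
  obtain ⟨θ, hθ, h10⟩ := hz.lim ε hε
  have h11 : v.Ge c₁ (Q.eval θ) := by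
    have := ((h9 θ (h10.mono (by linarith)) Q (mem_singleton_self _)).1 (0 + c₁)).1 h5
    rwa [zero_add] at this
  -- the elements
  have hQθ : Q.eval θ ∈ F := eval_mem hQF hθ
  have hGθ : G.eval θ ∈ F := eval_mem hG hθ
  have hU : T (θ - φ) - (θ - φ) ∈ F := sub_mem (hTF _ (sub_mem hθ hφ)) (sub_mem hθ hφ)
  have hV : T θ - θ ∈ F := sub_mem (hTF _ hθ) hθ
  have hq : T (Q.eval θ) - Q.eval θ ∈ F := sub_mem (hTF _ hQθ) hQθ
  have hg : T (G.eval θ) - G.eval θ ∈ F := sub_mem (hTF _ hGθ) hGθ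
  have hΔφ : T φ - φ ∈ F := sub_mem (hTF _ hφ) hφ
  have hΔa : T a₀ - a₀ ∈ F := sub_mem (hTF _ ha₀) ha₀
  have hΔb : T b - b ∈ F := sub_mem (hTF _ hb) hb
  have hW1 : ∑ i ∈ Icc 1 N, A i * (T (θ - φ) - (θ - φ)) ^ p ^ i ∈ F :=
    sum_mem fun i hi => mul_mem (hWF (hA i hi)) (pow_mem hU _)
  have hW2 : ∑ i ∈ Icc 1 N', A' i * (T θ - θ) ^ p ^ i ∈ F :=
    sum_mem fun i hi => mul_mem (hWF (hA' i hi)) (pow_mem hV _)
  have key : e * (T (θ - φ) - (θ - φ)) + ∑ i ∈ Icc 1 N, A i * (T (θ - φ) - (θ - φ)) ^ p ^ i +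
      (T a₀ - a₀) = (e' * (T θ - θ) + ∑ i ∈ Icc 1 N', A' i * (T θ - θ) ^ p ^ i + (T b - b)) +
      ((T (Q.eval θ) - Q.eval θ) + (T (G.eval θ) - G.eval θ) ^ p) := by
    have e1 : Q.eval θ + (G.eval θ) ^ p = (e * (θ - φ) + ∑ i ∈ Icc 1 N, A i * (θ - φ) ^ p ^ i + a₀) -
      (e' * θ + ∑ i ∈ Icc 1 N', A' i * θ ^ p ^ i + b) := by
      rw [← hPe, hQ, eval_sub, eval_pow]
      ring
    have e2 := congrArg T e1
    rw [map_add, map_pow, map_sub, map_form hfix he hA, map_form hfix he' hA'] at e2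
    rw [← sub_form T e A N (θ - φ) a₀, ← sub_form T e' A' N' θ b, sub_pow_char]
    linear_combination e1 - e2
  -- the derivatives
  have key2 : e * d (T (θ - φ) - (θ - φ)) + d (T a₀ - a₀) =
      (e' * d (T θ - θ) + d (T b - b)) + d (T (Q.eval θ) - Q.eval θ) := by
    have h12 := congrArg d key
    rw [hd.add _ (add_mem (mul_mem (hWF he) hU) hW1) _ hΔa, hd.add _ (mul_mem (hWF he) hU) _ hW1,
      drv_mul hd (hWF he) hU (hdW e he), drv_sum_powq hd hWF hdW hA hU,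
      hd.add _ (add_mem (add_mem (mul_mem (hWF he') hV) hW2) hΔb) _ (add_mem hq (pow_mem hg p)),
      hd.add _ (add_mem (mul_mem (hWF he') hV) hW2) _ hΔb, hd.add _ (mul_mem (hWF he') hV) _ hW2,
      drv_mul hd (hWF he') hV (hdW e' he'), drv_sum_powq hd hWF hdW hA' hV,
      hd.add _ hq _ (pow_mem hg p), drv_pow hd hg] at h12
    linear_combination h12
  have key3 : d (T θ - θ) = d (T (θ - φ) - (θ - φ)) + d (T φ - φ) := by
    rw [← hd.add _ hU _ hΔφ]
    congr 1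
    rw [map_sub]
    ring
  have key4 : e' * d (S + (T φ - φ)) + d (T b - b) = (e * d S + d (T a₀ - a₀)) +
      ((e - e') * d (T (θ - φ) - (θ - φ) - S) - d (T (Q.eval θ) - Q.eval θ)) := by
    rw [hd.add _ hS _ hΔφ, drv_sub hd hU hS]
    rw [key3] at key2
    linear_combination - key2
  rw [key4]
  have hc0 : (0 : ℝ) < c₂ - ε := by linarith
  have h13 : v.Ge (-ε) (T (θ - φ) - (θ - φ) - S) := by
    have e1 : T (θ - φ) - (θ - φ) - S = (T (z - φ) - (z - φ) - S) - (T (z - θ) - (z - θ)) := by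
      simp only [map_sub]
      ring
    rw [e1]
    have h14 : v.Ge (-ε) (z - θ) := h10.mono (by linarith)
    exact (hjet.mono (by linarith)).sub ((hiso.ge_iff.2 h14).sub h14)
  have h15 : Gt v 0 ((e - e') * d (T (θ - φ) - (θ - φ) - S)) :=
    Gt.of_ge (h8.mul (hd.norm _ (sub_mem hU hS) _ h13)) (by linarith)
  have h16 : Gt v 0 (d (T (Q.eval θ) - Q.eval θ)) :=
    Gt.of_ge (hd.norm _ hq c₁ ((hiso.ge_iff.2 h11).sub h11)) hc₁
  exact Gt.add hX (Gt.sub h15 h16)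

end Form

/-! ### The jets of `z`, from those of `z - φ` -/

section Jets

variable {C : IntermediateField k Ω} {T : k → Ω →ₐ[k] Ω} {D : ℕ} {f : ℕ → Ω} {φ : Ω}

theorem sum_Icc_ite (c : Ω) (f : ℕ → Ω) {D N : ℕ} (h : D ≤ N) :
    ∑ j ∈ Icc 1 N, c ^ j * (if j ≤ D then f j else 0) = ∑ j ∈ Icc 1 D, c ^ j * f j := by
  have h1 : Icc 1 D ⊆ Icc 1 N := Icc_subset_Icc_right h
  rw [← sum_subset h1]
  · refine sum_congr rfl fun j hj => ?_
    rw [if_pos (mem_Icc.1 hj).2]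
  · intro j hj hj'
    have h2 := mem_Icc.1 hj
    rw [if_neg (fun h3 => hj' (mem_Icc.2 ⟨h2.1, h3⟩)), mul_zero]

/-- Taylor's formula. -/
theorem Att.taylor {y : Ω} (h : Att v C F w y T D f) {q : Polynomial Ω} (hq : q ∈ PI C) {N : ℕ}
    (hN : q.natDegree ≤ N) (c : k) : T c (q.eval w) - q.eval w =
      ∑ j ∈ Icc 1 N, algebraMap k Ω c ^ j * (hasseDeriv j q).eval w := by
  have e1 : Icc 1 N = Ico 1 (N + 1) := by
    ext j
    simp only [mem_Icc, mem_Ico]
    omega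
  rw [h.eval hq, TWN1.rt_taylor hN w (w + algebraMap k Ω c), range_eq_Ico,
    sum_eq_sum_Ico_succ_bot (Nat.succ_pos N), e1, hasseDeriv_zero', pow_zero, mul_one, zero_add,
    add_sub_cancel_left]
  refine sum_congr rfl fun j _ => ?_
  rw [add_sub_cancel_left, mul_comm]

/-- The jets of `z`. -/
theorem Att.shift (h : Att v C (cadj v C w) w (z - φ) T D f) {q : Polynomial Ω} (hq : q ∈ PI C)
    (hφ : v.Ge 0 (φ - q.eval w)) :
    Att v C (cadj v C w) w z T (max D q.natDegree)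
      (fun j => (if j ≤ D then f j else 0) + (hasseDeriv j q).eval w) where
  iso := h.iso
  fix := h.fix
  w := h.w
  fF := fun j => by
    refine add_mem ?_ (TWLM.eval_mem_cadj (hasse_mem_PI hq j))
    split_ifs
    · exact h.fF j
    · exact zero_mem _
  jet := fun c => by
    have e1 : ∑ j ∈ Icc 1 (max D q.natDegree), algebraMap k Ω c ^ j *
        ((if j ≤ D then f j else 0) + (hasseDeriv j q).eval w) =
        ∑ j ∈ Icc 1 D, algebraMap k Ω c ^ j * f j + (T c (q.eval w) - q.eval w) := by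
      rw [h.taylor hq (le_max_right _ _) c, ← sum_Icc_ite _ f (le_max_left D q.natDegree),
        ← sum_add_distrib]
      refine sum_congr rfl fun j _ => ?_
      ring
    rw [e1]
    have e2 : T c z - z - (∑ j ∈ Icc 1 D, algebraMap k Ω c ^ j * f j +
        (T c (q.eval w) - q.eval w)) =
        (T c (z - φ) - (z - φ) - ∑ j ∈ Icc 1 D, algebraMap k Ω c ^ j * f j) +
        (T c (φ - q.eval w) - (φ - q.eval w)) := by
      simp only [map_sub]
      ring
    rw [e2]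
    exact (h.jet c).add (((h.iso c).ge_iff.2 hφ).sub hφ)

/-- The elements of value `> r`. -/
def gtM (hk : Ctx0 k v) (r : ℝ) : Submodule k Ω where
  carrier := {a | Gt v r a}
  add_mem' := fun ha hb => Gt.add ha hb
  zero_mem' := Gt.zero
  smul_mem' := fun c a ha => by
    change Gt v r (c • a)
    rw [Algebra.smul_def]
    by_cases hc : c = 0
    · rw [hc, map_zero, zero_mul]
      exact Gt.zero
    have h1 : v.Ge 0 (algebraMap k Ω c) := fun _ => (hk.triv c hc).ge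
    have h2 := Gt.mul_ge ha h1
    rwa [add_zero, mul_comm] at h2

theorem mem_gtM {hk : Ctx0 k v} {r : ℝ} {a : Ω} : a ∈ gtM hk r ↔ Gt v r a := Iff.rfl

/-- Vandermonde. -/
theorem gt_of_vdm [Infinite k] (hk : Ctx0 k v) {a : ℕ → Ω} {M : ℕ} {r : ℝ}
    (h : ∀ c : k, Gt v r (∑ l ∈ Icc 1 M, algebraMap k Ω c ^ l * a l)) {l : ℕ} (hl : l ≠ 0)
    (hlM : l ≤ M) : Gt v r (a l) := by
  set b : ℕ → Ω := fun j => if j = 0 then 0 else a j with hb
  have h1 : ∀ c : k, ∑ j ∈ range (M + 1), c ^ j • b j ∈ gtM hk r := by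
    intro c
    rw [mem_gtM]
    have e1 : Icc 1 M = Ico 1 (M + 1) := by
      ext j
      simp only [mem_Icc, mem_Ico]
      omega
    rw [range_eq_Ico, sum_eq_sum_Ico_succ_bot (Nat.succ_pos M), zero_add, ← e1]
    have h0 : c ^ 0 • b 0 = 0 := by simp [hb]
    rw [h0, zero_add]
    refine (congrArg _ (sum_congr rfl fun j hj => ?_)).mp (h c)
    have hj0 : j ≠ 0 := by
      have := (mem_Icc.1 hj).1
      omega
    simp only [hb, if_neg hj0]
    rw [Algebra.smul_def, map_pow]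
  have h2 := TWD.mem_of_vdm (gtM hk r) Set.infinite_univ (fun c _ => h1 c) l (by omega)
  simp only [hb, if_neg hl] at h2
  exact h2

end Jets

/-! ### The end, in the big field -/

section Big

variable {C : IntermediateField k Ω} {T : k → Ω →ₐ[k] Ω} {D : ℕ} {f : ℕ → Ω}
  {e e' φ a₀ : Ω} {A A' : ℕ → Ω} {N N' J : ℕ} {B : Polynomial Ω}
  [hp : Fact p.Prime] [CharP Ω p]

/-- **From one form of `a` to `JL` and the classes of the effects**, for another form in normal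
form. -/
theorem exists_jl_ocls [IsAlgClosed Ω] [IsAlgClosed k] (hk : Ctx0 k v) (hw : TL v C w 0)
    (hz : TL v (cadj v C w) z 0) (hWC : W ≤ C)
    (hatt : Att v C (cadj v C w) w (z - φ) T D f)
    (hTF : ∀ c, ∀ g ∈ cadj v C w, T c g ∈ cadj v C w)
    {I : Type*} {dd : I → Ω → Ω} (hd : ∀ i, Drv v (cadj v C w) (dd i))
    (hdW : ∀ i, ∀ g ∈ W, dd i g = 0)
    (he : e ∈ W) (hA : ∀ i ∈ Icc 1 N, A i ∈ W) (hφ : φ ∈ cadj v C w) (ha₀ : a₀ ∈ cadj v C w)
    (h1 : PG p v (cadj v (cadj v C w) z) 0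
      (a - (e * (z - φ) + ∑ i ∈ Icc 1 N, A i * (z - φ) ^ p ^ i + a₀)))
    (hN : Nrm p v C w z 0 0 0 e' A' N' B J 0) (he' : e' ∈ W) (hA' : ∀ i ∈ Icc 1 N', A' i ∈ W)
    (h2 : PG p v (cadj v (cadj v C w) z) 0
      (a - (e' * z + ∑ i ∈ Icc 1 N', A' i * z ^ p ^ i + B.eval w)))
    (hcls : ∀ b ∈ cadj v C w, LP p v (cadj v C w) 0 b → (∀ i, VPos v (dd i b)) →
      ∃ c : k, PG p v (cadj v C w) 0 (b - algebraMap k Ω c * x))
    (hX : ∀ c i, VPos v (e * dd i (∑ j ∈ Icc 1 D, algebraMap k Ω c ^ j * f j) +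
      dd i (T c a₀ - a₀))) :
    ∃ (ψ : ℕ → Polynomial Ω) (D' : ℕ), JL p v C w z 0 0 e' J ψ D' ∧
      OClsJ p v C w 0 0 e' A' N' B ψ x := by
  classical
  have hinf : Infinite k := IsAlgClosed.instInfinite
  have hCF : C ≤ cadj v C w := le_cadj v C w
  have hWF : W ≤ cadj v C w := hWC.trans hCF
  obtain ⟨q, hq, hφq⟩ := hw.dense hφ 1
  set D' := max D q.natDegree with hD'
  set f' : ℕ → Ω := fun j => (if j ≤ D then f j else 0) + (hasseDeriv j q).eval w with hf'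
  have hatt' : Att v C (cadj v C w) w z T D' f' := hatt.shift hq (hφq.mono (by norm_num))
  obtain ⟨ψ, hψ, hψf⟩ := hatt'.exists_jl hk hw p e' J (r := 1) zero_le_one
  set f'' : ℕ → Ω := fun j => if j ≤ D' then f' j else 0 with hf''
  have hf''F : ∀ j, f'' j ∈ cadj v C w := fun j => by
    simp only [hf'']
    split_ifs
    · exact hatt'.fF j
    · exact zero_mem _
  have hd0 : ∀ i, dd i 0 = 0 := fun i => by
    have h3 := (hd i).alg 0
    rwa [map_zero] at h3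
  have he'0 : v.Ge 0 e' := hN.ege.mono (by norm_num)
  have hBF : ∀ l, (hasseDeriv l B).eval w ∈ cadj v C w := fun l =>
    TWLM.eval_mem_cadj (hasse_mem_PI hN.BC l)
  -- the points
  set M := max D' B.natDegree with hM
  have hpt : ∀ i, ∀ c : k, Gt v 0 (∑ l ∈ Icc 1 M, algebraMap k Ω c ^ l *
      (e' * dd i (f'' l) + dd i ((hasseDeriv l B).eval w))) := by
    intro i c
    set S := ∑ j ∈ Icc 1 D, algebraMap k Ω c ^ j * f j with hS
    have hcF : ∀ j : ℕ, algebraMap k Ω c ^ j ∈ cadj v C w := fun j =>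
      pow_mem ((cadj v C w).algebraMap_mem c) j
    have hSF : S ∈ cadj v C w := sum_mem fun j _ => mul_mem (hcF j) (hatt.fF j)
    have hBw : B.eval w ∈ cadj v C w := TWLM.eval_mem_cadj hN.BC
    have h3 := drv_form (T := T c) (d := dd i) (S := S) hz hWF (hatt.iso c)
      (fun g hg => hatt.fix c g (hWC hg)) (hTF c) (hd i) (hdW i) he hA he' hA' hφ ha₀ hBw hSF h1 h2
      (hatt.jet c) (hX c i)
    have hdc : ∀ (j : ℕ), ∀ g ∈ cadj v C w, dd i (algebraMap k Ω c ^ j * g) =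
        algebraMap k Ω c ^ j * dd i g := fun j g hg => by
      refine drv_mul (hd i) (hcF j) hg ?_
      rw [← map_pow]
      exact (hd i).alg _
    have e1 : ∑ l ∈ Icc 1 M, algebraMap k Ω c ^ l *
        (e' * dd i (f'' l) + dd i ((hasseDeriv l B).eval w)) =
        e' * dd i (∑ l ∈ Icc 1 D', algebraMap k Ω c ^ l * f' l) + dd i (T c (B.eval w) - B.eval w) := by
      rw [hatt'.taylor hN.BC (le_max_right D' B.natDegree) c,
        drv_sum (hd i) _ _ fun l _ => mul_mem (hcF l) (hBF l),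
        ← sum_Icc_ite _ f' (le_max_left D' B.natDegree),
        drv_sum (hd i) _ _ fun l _ => mul_mem (hcF l) (hf''F l), mul_sum, ← sum_add_distrib]
      refine sum_congr rfl fun l _ => ?_
      rw [hdc l _ (hBF l), hdc l _ (hf''F l)]
      ring
    rw [e1]
    have e2 : ∑ l ∈ Icc 1 D', algebraMap k Ω c ^ l * f' l = S + (T c (q.eval w) - q.eval w) := by
      rw [hatt.taylor hq (le_max_right D q.natDegree) c, hS,
        ← sum_Icc_ite _ f (le_max_left D q.natDegree), ← sum_add_distrib]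
      refine sum_congr rfl fun l _ => ?_
      simp only [hf']
      ring
    rw [e2]
    have hqw : q.eval w ∈ cadj v C w := TWLM.eval_mem_cadj hq
    have hδ : T c (φ - q.eval w) - (φ - q.eval w) ∈ cadj v C w :=
      sub_mem (hTF c _ (sub_mem hφ hqw)) (sub_mem hφ hqw)
    have e3 : S + (T c (q.eval w) - q.eval w) = S + (T c φ - φ) -
        (T c (φ - q.eval w) - (φ - q.eval w)) := by
      rw [map_sub]
      ring
    rw [e3, drv_sub (hd i) (add_mem hSF (sub_mem (hTF c _ hφ) hφ)) hδ]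
    have e4 : e' * (dd i (S + (T c φ - φ)) - dd i (T c (φ - q.eval w) - (φ - q.eval w))) +
        dd i (T c (B.eval w) - B.eval w) =
        (e' * dd i (S + (T c φ - φ)) + dd i (T c (B.eval w) - B.eval w)) -
        e' * dd i (T c (φ - q.eval w) - (φ - q.eval w)) := by ring
    rw [e4]
    refine Gt.sub h3 (Gt.of_ge (he'0.mul ((hd i).norm _ hδ 1
      (((hatt.iso c).ge_iff.2 hφq).sub hφq))) (by norm_num))
  refine ⟨ψ, D', hψ, oclsJ_of_drv hw hN hψ hd (fun i => hdW i _ he') (fun m hm i =>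
    hdW i _ (hA' m hm)) hcls (f := f'') hf''F (fun l hl hpl => ?_) fun l hl hpl i => ?_⟩
  · by_cases hlD : l ≤ D'
    · simp only [hf'', if_pos hlD]
      exact hψf l hl hlD fun _ => hpl
    · simp only [hf'', if_neg hlD]
      rw [hψ.deg l (not_le.1 hlD), eval_zero, sub_zero]
      exact RVal.Ge.zero
  · by_cases hlM : l ≤ M
    · exact gt_of_vdm hk (hpt i) hl hlM
    · push Not at hlM
      have h3 : B.natDegree < l := (le_max_right _ _).trans_lt hlM
      have h4 : ¬ l ≤ D' := not_le.2 ((le_max_left _ _).trans_lt hlM)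
      rw [hasseDeriv_eq_zero_of_lt_natDegree B l h3, eval_zero]
      simp only [hf'', if_neg h4]
      rw [hd0, mul_zero, add_zero]
      exact Gt.zero

end Big

end Pool.Agent.TWRR
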