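import Pool.Agent.Lib.TWRR.J1E

/-!
# TANK W, contact, row J1: the classes of the jets, from the core to the real world

`C` closed, `F = C⟨w⟩`, `K = F⟨y⟩` real; `tH` the tame closure in the big field, `PM` its Gauss
extension; `c, d, m` the scalars.

* `pm_cadj`: the fields of the core;
* `oc_jets`: the jets, of order divisible by `p`, of a real polynomial `f(y)` are in the class of `X₀`,
  if some form of `f(y)` over the core has coefficients in this class.
-/

set_option autoImplicit false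

open Polynomial Finset

namespace Pool.Agent.TWRR

open Pool.Agent.H15JM (RVal)
open Pool.Agent.D2 (Ctx0)
open Pool.Agent.D2P (clI)
open Pool.Agent.TWM
open Pool.Agent.TWS (IsoE MonG PM VG)
open Pool.Agent.TWII (PG LP)
open Pool.Agent.TWN1
open Pool.Agent.TWTam
open Pool.Agent.TWCT (tH)

universe u

variable {k Ω H : Type u} [Field k] [Field Ω] [Algebra k Ω] [Field H] [Algebra k H]
  {p : ℕ} {v : RVal Ω} {vH : RVal H} {ι : Ω →ₐ[k] H} {x : Ω} {C F : IntermediateField k Ω}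
  {w y X₀ : Ω} {ρ s ν : ℝ} {A₀ : IntermediateField k H} {G : AddSubgroup ℝ} {M : ℝ → H}
  [hp : Fact p.Prime] [CharP Ω p] [CharP H p] [CharP k p] [IsAlgClosed Ω] [IsAlgClosed k]

omit hp [CharP Ω p] [CharP H p] [CharP k p] [IsAlgClosed k] [IsAlgClosed Ω] in
/-- The fields of the core. -/
theorem pm_cadj (hI : IsoE v vH ι) (hcv : CompleteV v) (B : IntermediateField k Ω) (y : Ω) {d : H}
    (hd : d ∈ PM vH (tH p v ι x B) G M) (hd0 : d ≠ 0) :
    cadj vH (PM vH (tH p v ι x B) G M) (ι y / d) = PM vH (tH p v ι x (cadj v B y)) G M := by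
  rw [cadj_sc hd hd0, ← PM.cadj, TWCT.tH_cadj hI hcv]

omit [CharP k p] [IsAlgClosed k] [CharP Ω p] [CharP H p] [IsAlgClosed Ω] hp in
/-- The scaled polynomial, from the real world. -/
theorem sc_map_eval {c m : H} (hc0 : c ≠ 0) (B : Polynomial Ω) (w : Ω) :
    (Polynomial.C m * sc c (B.map ι.toRingHom)).eval (ι w / c) = m * ι (B.eval w) := by
  rw [eval_mul, eval_C, sc_eval, mul_div_cancel₀ _ hc0]
  congr 1
  have h1 := Polynomial.eval_map (p := B) ι.toRingHom (ι w)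
  rw [h1]
  exact (Polynomial.hom_eval₂ B (RingHom.id Ω) ι.toRingHom w).symm

omit [CharP k p] [IsAlgClosed k] [CharP H p] [IsAlgClosed Ω] [Field H] [Algebra k H] [Algebra k Ω] [Field k] in
/-- The jets, of order divisible by `p`, of an additive form. -/
theorem hasse_form (e : Ω) (A : ℕ → Ω) (N : ℕ) (φ b : Ω) {l : ℕ} (hl : l ≠ 0) (hpl : p ∣ l) :
    hasseDeriv l (Polynomial.C e * (X - Polynomial.C φ) +
      ∑ i ∈ Icc 1 N, Polynomial.C (A i) * (X - Polynomial.C φ) ^ p ^ i + Polynomial.C b) =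
      ∑ i ∈ Icc 1 N, if l = p ^ i then Polynomial.C (A i) else 0 := by
  have hl1 : 1 < l := lt_of_lt_of_le hp.out.one_lt (Nat.le_of_dvd (Nat.pos_of_ne_zero hl) hpl)
  have h1 : hasseDeriv l (Polynomial.C e * (X - Polynomial.C φ)) = 0 := by
    refine hasseDeriv_eq_zero_of_lt_natDegree _ _ (lt_of_le_of_lt ?_ hl1)
    exact (natDegree_C_mul_le _ _).trans (natDegree_X_sub_C_le φ)
  have h2 : hasseDeriv l (Polynomial.C b) = 0 :=
    hasseDeriv_eq_zero_of_lt_natDegree _ _ (by rw [natDegree_C]; omega)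
  rw [map_add, map_add, h1, h2, add_zero, zero_add, map_sum]
  refine sum_congr rfl fun i _ => ?_
  rw [sub_pow_char_pow, ← C_pow, mul_sub, ← C_mul, map_sub, TWN1.hasse_C_X,
    hasseDeriv_eq_zero_of_lt_natDegree (Polynomial.C _) _ (by rw [natDegree_C]; omega), sub_zero]
  split_ifs with h
  · rw [h, Nat.choose_self, Nat.cast_one, one_mul, Nat.sub_self, monomial_zero_left]
  · have h1 : (((p ^ i).choose l : ℕ) : Ω) = 0 := by
      rcases lt_or_ge (p ^ i) l with h2 | h2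
      · rw [Nat.choose_eq_zero_of_lt h2, Nat.cast_zero]
      · exact (CharP.cast_eq_zero_iff Ω p _).2 (hp.out.dvd_choose_pow (n := i) hl h)
    rw [h1, zero_mul, monomial_zero_right]

/-- **The classes of the jets of a real element.** -/
theorem oc_jets [IsAlgClosed H] (hI : IsoE v vH ι) (hcv : CompleteV v) (hcw : CompleteV vH) (hk : Ctx0 k v)
    (hx0 : x ≠ 0) (hx : x ∈ C) (hC : Cld v C) (hw : TL v C w ρ) (hy : TL v (cadj v C w) y s)
    (hM : MonG vH A₀ G M) (hV : ∀ g ∈ VG vH A₀, g / p ∈ VG vH A₀)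
    (hiK : Imm vH A₀ (tH p v ι x (cadj v (cadj v C w) y)))
    (hiC : Imm vH A₀ (tH p v ι x C)) (hX : X₀ ∈ C) {c d m : H}
    (hc : c ∈ PM vH (tH p v ι x C) G M) (hc0 : c ≠ 0) (hd : d ∈ PM vH (tH p v ι x C) G M)
    (hd0 : d ≠ 0) (hm : m ∈ PM vH (tH p v ι x C) G M) (hm0 : m ≠ 0)
    (hz : TL vH (cadj vH (PM vH (tH p v ι x C) G M) (ι w / c)) (ι y / d) (s - vH d))
    {f : Polynomial Ω} (hf : f ∈ PI (cadj v C w)) {e φ a₀ : H} {A : ℕ → H} {N : ℕ}
    (he : e ∈ cadj vH (PM vH (tH p v ι x C) G M) (ι w / c))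
    (hA : ∀ i ∈ Icc 1 N, A i ∈ cadj vH (PM vH (tH p v ι x C) G M) (ι w / c))
    (hφ : φ ∈ cadj vH (PM vH (tH p v ι x C) G M) (ι w / c))
    (ha₀ : a₀ ∈ cadj vH (PM vH (tH p v ι x C) G M) (ι w / c))
    (hAcl : ∀ i ∈ Icc 1 N, OC p vH (PM vH (tH p v ι x C) G M)
      (cadj vH (cadj vH (PM vH (tH p v ι x C) G M) (ι w / c)) (ι y / d)) (ι X₀)
      (ν - p * vH m - p ^ i * (s - vH d)) (A i))
    (h1 : PG p vH (cadj vH (cadj vH (PM vH (tH p v ι x C) G M) (ι w / c)) (ι y / d))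
      (ν - p * vH m) ((m ^ p)⁻¹ * ι (f.eval y) -
        (e * (ι y / d - φ) + ∑ i ∈ Icc 1 N, A i * (ι y / d - φ) ^ p ^ i + a₀)))
    {l : ℕ} (hl : l ≠ 0) (hpl : p ∣ l) :
    OC p v C (cadj v (cadj v C w) y) X₀ (ν - l * s) ((hasseDeriv l f).eval y) := by
  set C' := PM vH (tH p v ι x C) G M with hC'
  set F' := cadj vH C' (ι w / c) with hF'
  set K' := cadj vH F' (ι y / d) with hK'
  have hCF' : C' ≤ F' := le_cadj _ _ _
  have hFK' : F' ≤ K' := le_cadj _ _ _
  have eF : F' = PM vH (tH p v ι x (cadj v C w)) G M := pm_cadj hI hcv C w hc hc0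
  have eK : K' = PM vH (tH p v ι x (cadj v (cadj v C w) y)) G M := by
    rw [hK', eF]
    exact pm_cadj hI hcv (cadj v C w) y (by rw [← eF]; exact hCF' hd) hd0
  -- the polynomials
  set f' : Polynomial H := Polynomial.C (m ^ p)⁻¹ * sc d (f.map ι.toRingHom) with hf'
  have hf'F : f' ∈ PI F' := by
    refine mul_mem (C_mem_PI (hCF' (inv_mem (pow_mem hm p)))) (sc_mem (hCF' hd) fun n => ?_)
    rw [Polynomial.coeff_map, eF]
    exact PM.le (TWCT.mem_tH (hf n))
  set g : Polynomial H := Polynomial.C e * (X - Polynomial.C φ) +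
      ∑ i ∈ Icc 1 N, Polynomial.C (A i) * (X - Polynomial.C φ) ^ p ^ i + Polynomial.C a₀ with hg
  have hXφ : (X - Polynomial.C φ : Polynomial H) ∈ PI F' := sub_mem X_mem_PI (C_mem_PI hφ)
  have hgF : g ∈ PI F' := add_mem (add_mem (mul_mem (C_mem_PI he) hXφ) (sum_mem fun i hi =>
    mul_mem (C_mem_PI (hA i hi)) (pow_mem hXφ _))) (C_mem_PI ha₀)
  have hge : g.eval (ι y / d) = e * (ι y / d - φ) +
      ∑ i ∈ Icc 1 N, A i * (ι y / d - φ) ^ p ^ i + a₀ := by
    rw [hg]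
    simp [eval_finsetSum]
  have h2 : PG p vH K' (ν - p * vH m) ((f' - g).eval (ι y / d)) := by
    rw [eval_sub, hge, hf', sc_map_eval hd0]
    exact h1
  have h3 := pg_jet hz (sub_mem hf'F hgF) h2 hl
  rw [map_sub, hg, hasse_form e A N φ a₀ hl hpl, eval_sub, hf', TWN1.hasse_C_mul, hasse_sc,
    hasse_map, eval_mul, eval_C] at h3
  have h4 : OC p vH C' K' (ι X₀) (ν - p * vH m - l * (s - vH d))
      ((m ^ p)⁻¹ * (d ^ l * ι ((hasseDeriv l f).eval y))) := by
    have e1 : (Polynomial.C (d ^ l) * sc d ((hasseDeriv l f).map ι.toRingHom)).eval (ι y / d) =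
      d ^ l * ι ((hasseDeriv l f).eval y) := sc_map_eval hd0 _ _
    rw [e1] at h3
    by_cases hli : ∃ i ∈ Icc 1 N, l = p ^ i
    · obtain ⟨i, hi, rfl⟩ := hli
      obtain ⟨b, hb, h5⟩ := hAcl i hi
      refine ⟨b, hb, ?_⟩
      have e2 : (∑ j ∈ Icc 1 N, if p ^ i = p ^ j then Polynomial.C (A j) else 0) =
          Polynomial.C (A i) := by
        rw [sum_eq_single_of_mem i hi (fun j _ hj => if_neg ?_), if_pos rfl]
        intro h6
        exact hj (Nat.pow_right_injective hp.out.two_le h6).symm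
      rw [e2, eval_C] at h3
      push_cast at h3 ⊢
      refine (congrArg _ ?_).mp (PG.add' h3 h5)
      ring
    · push Not at hli
      refine ⟨0, zero_mem _, ?_⟩
      rw [sum_eq_zero fun i hi => if_neg (hli i hi), eval_zero, sub_zero] at h3
      rwa [zero_pow hp.out.ne_zero, zero_mul, sub_zero]
  -- the real jets
  obtain ⟨j, rfl⟩ := hpl
  set t : H := m * (d ^ j)⁻¹ with ht
  have ht0 : t ≠ 0 := mul_ne_zero hm0 (inv_ne_zero (pow_ne_zero _ hd0))
  have htC : t ∈ C' := mul_mem hm (inv_mem (pow_mem hd j))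
  have h5 := OC.scale (hCF'.trans hFK') htC ht0 h4
  have e3 : t ^ p * ((m ^ p)⁻¹ * (d ^ (p * j) * ι ((hasseDeriv (p * j) f).eval y))) =
      ι ((hasseDeriv (p * j) f).eval y) := by
    have hmp : m ^ p ≠ 0 := pow_ne_zero _ hm0
    have hdj : (d ^ j) ^ p ≠ 0 := pow_ne_zero _ (pow_ne_zero _ hd0)
    have e4 : d ^ (p * j) = (d ^ j) ^ p := by rw [← pow_mul, mul_comm]
    rw [e4, ht, _root_.mul_pow, inv_pow]
    field_simp
  have e5 : vH t = vH m - j * vH d := by
    rw [ht, vH.map_mul hm0 (inv_ne_zero (pow_ne_zero _ hd0)), vH.map_inv (pow_ne_zero _ hd0),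
      vH.map_pow hd0]
    ring
  rw [e3, e5] at h5
  have e6 : ν - p * vH m - (p * j : ℕ) * (s - vH d) + p * (vH m - j * vH d) =
      ν - (p * j : ℕ) * s := by
    push_cast
    ring
  rw [e6, eK] at h5
  have hCK : C ≤ cadj v (cadj v C w) y := (le_cadj v C w).trans (le_cadj _ _ _)
  refine oc_real hI hcv hcw hk hx0 hx hC hCK (cld_cadj _ _ _) (fun a ha hal => ?_) hM hV hiK hiC
    (hCK hX) (TWLM.eval_mem_cadj (hasse_mem_PI hf _)) h5
  have h6 := hy.alg_mem p (cld_cadj v C w) ha (D2P.alg_mono (le_cadj v C w) hal)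
  exact hw.alg_mem p hC h6 hal

end Pool.Agent.TWRR
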