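import Pool.Agent.Lib.TWRR.G2
import Pool.Agent.Lib.TWRR.J1F
import Pool.Agent.Lib.TWCT.J1S

/-!
# TANK W, contact, row J1: the end

* `exists_xi`: the level of the base, from the distance to the `p`-th powers;
* `exists_mono`: monomials of `C` in `W`;
* `gp_of_pdiv`: `gr` perfect;
* `J1D.core_false`: **from the core to a contradiction**, for any presentation of `K`.
-/

set_option autoImplicit false

open Polynomial Finset

namespace Pool.Agent.TWRR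

open Pool.Agent.H15JM (RVal)
open Pool.Agent.D2 (Ctx0)
open Pool.Agent.LU1 (VPos adj)
open Pool.Agent.D2P (clI mem_clI mem_adj_self adj_le)
open Pool.Agent.TW (Ctx Full BD HRone)
open Pool.Agent.TWM
open Pool.Agent.TWS (IsoE MonG PM VG)
open Pool.Agent.TWS7 (PDiv)
open Pool.Agent.TWII (PG LP)
open Pool.Agent.TWN1
open Pool.Agent.TWTam
open Pool.Agent.TWCT (tH J1D)
open Pool.Agent.TWCY (Drv)

universe u

variable {k Ω H : Type u} [Field k] [Field Ω] [Algebra k Ω] [Field H] [Algebra k H]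
  {p : ℕ} {v : RVal Ω} {vH : RVal H} {ι : Ω →ₐ[k] H} {x : Ω} {W C F : IntermediateField k Ω}
  {w y X₀ : Ω} {ρ s ν : ℝ}

/-- The level of the base. -/
theorem exists_xi (hfar : ∃ C : ℝ, ∀ g ∈ W, ¬ v.Ge C (X₀ - g ^ p)) :
    ∃ ξ, LP p v W ξ X₀ ∧ ¬ PG p v W ξ X₀ := by
  obtain ⟨C, hC⟩ := hfar
  have h1 : ∀ g ∈ W, X₀ - g ^ p ≠ 0 ∧ v (X₀ - g ^ p) < C := by
    intro g hg
    have h2 := hC g hg
    constructor
    · intro h0
      rw [h0] at h2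
      exact h2 RVal.Ge.zero
    · by_contra h3
      push Not at h3
      exact h2 fun _ => h3
  set S : Set ℝ := {r | ∃ g ∈ W, r = v (X₀ - g ^ p)} with hS
  have hne : S.Nonempty := ⟨_, 0, zero_mem _, rfl⟩
  have hbd : BddAbove S := ⟨C, by
    rintro r ⟨g, hg, rfl⟩
    exact (h1 g hg).2.le⟩
  refine ⟨sSup S, fun ε hε => ?_, ?_⟩
  · obtain ⟨r, ⟨g, hg, rfl⟩, h2⟩ := exists_lt_of_lt_csSup hne (show sSup S - ε < sSup S by linarith)
    exact ⟨g, hg, fun _ => h2.le⟩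
  · rintro ⟨g, hg, h2⟩
    have h3 := h2 (h1 g hg).1
    have h4 := le_csSup hbd ⟨g, hg, rfl⟩
    linarith

/-- Monomials of `C` in `W`. -/
theorem exists_mono (hi : Imm v W C) :
    ∃ μ, Mono v C μ ∧ ∀ g ∈ VG v C, μ g ∈ W := by
  classical
  have h1 : ∀ g : ℝ, ∃ a : Ω, g ∈ VG v C → a ∈ W ∧ a ≠ 0 ∧ v a = g := by
    intro g
    by_cases hg : g ∈ VG v C
    · rw [VG.imm hi] at hg
      obtain ⟨a, ha, h0, h2⟩ := hg
      exact ⟨a, fun _ => ⟨ha, h0, h2⟩⟩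
    · exact ⟨0, fun h => absurd h hg⟩
  choose μ hμ using h1
  exact ⟨μ, ⟨fun g hg => hi.le (hμ g hg).1, fun g hg => (hμ g hg).2.1, fun g hg => (hμ g hg).2.2⟩,
    fun g hg => (hμ g hg).1⟩

/-- `gr` perfect. -/
theorem gp_of_pdiv [hp : Fact p.Prime] [IsAlgClosed k] (hk : Ctx0 k v) (h : PDiv p v W) :
    GP p v W := by
  intro c hc h0
  obtain ⟨g, hg, hg0, h1⟩ := h c hc h0
  have hgp : g ^ p ≠ 0 := pow_ne_zero _ hg0
  obtain ⟨a, ha, h2⟩ := hk.res (c / g ^ p) (div_ne_zero h0 hgp) (by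
    rw [div_eq_mul_inv, v.map_mul h0 (inv_ne_zero hgp), v.map_inv hgp, v.map_pow hg0, h1]
    ring)
  obtain ⟨b, hb⟩ := IsAlgClosed.exists_pow_nat_eq a hp.out.pos
  refine ⟨algebraMap k Ω b * g, mul_mem (W.algebraMap_mem b) hg, ?_⟩
  have e1 : c - (algebraMap k Ω b * g) ^ p = (c / g ^ p - algebraMap k Ω a) * g ^ p := by
    rw [_root_.mul_pow, ← map_pow, hb, sub_mul, div_mul_cancel₀ _ hgp]
  rw [e1]
  have h3 : Gt v 0 (c / g ^ p - algebraMap k Ω a) := h2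
  have h4 := Gt.mul_ge h3 (RVal.ge_self (v := v) (g ^ p))
  rwa [zero_add, v.map_pow hg0, ← h1] at h4

theorem gp_imm (hi : Imm v W C) (h : GP p v W) : GP p v C := by
  intro c hc h0
  obtain ⟨a, ha, h1⟩ := hi.imm c hc h0
  obtain ⟨h2, h3⟩ := Gt.val_eq h0 h1
  obtain ⟨g, hg, h4⟩ := h a ha h2
  refine ⟨g, hi.le hg, ?_⟩
  rw [show c - g ^ p = (c - a) + (a - g ^ p) by ring]
  rw [h3] at h4
  exact h1.add h4

/-- The distance of the base, from a derivation of the big field. -/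
theorem far_of_drv [hp : Fact p.Prime] [CharP H p] {W' : IntermediateField k H} {WX : IntermediateField k Ω}
    (hI : IsoE v vH ι) (hWW : ∀ g ∈ WX, ι g ∈ W') {cx : H} (hcx : cx ∈ W') (hcx0 : cx ≠ 0)
    (hX : X₀ ∈ WX) {D : H → H} (hD : Drv vH W' D) (h1 : D (ι X₀ / cx ^ p) = 1) :
    ∃ c : ℝ, ∀ g ∈ WX, ¬ v.Ge c (X₀ - g ^ p) := by
  refine ⟨p * vH cx + 1, fun g hg h2 => ?_⟩
  have h3 : vH.Ge (p * vH cx + 1) (ι (X₀ - g ^ p)) := hI.ge_iff.2 h2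
  have hcp : cx ^ p ≠ 0 := pow_ne_zero _ hcx0
  have hxW : ι X₀ / cx ^ p ∈ W' := div_mem (hWW _ hX) (pow_mem hcx p)
  have hgW : ι g / cx ∈ W' := div_mem (hWW _ hg) hcx
  have e1 : ι X₀ / cx ^ p - (ι g / cx) ^ p = ι (X₀ - g ^ p) * (cx ^ p)⁻¹ := by
    rw [map_sub, map_pow, div_pow, ← sub_div, div_eq_mul_inv]
  have h4 : vH.Ge 1 (ι X₀ / cx ^ p - (ι g / cx) ^ p) := by
    rw [e1]
    have h5 : vH.Ge (-(p * vH cx)) (cx ^ p)⁻¹ := fun _ => by rw [vH.map_inv hcp, vH.map_pow hcx0]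
    exact (h3.mul h5).mono (by linarith)
  have h5 := hD.norm _ (sub_mem hxW (pow_mem hgW p)) 1 h4
  rw [drv_sub hD hxW (pow_mem hgW p), h1, drv_pow hD hgW, sub_zero] at h5
  have h6 := h5 one_ne_zero
  rw [vH.map_one] at h6
  linarith

/-- `T c` maps `F` into itself. -/
theorem Att.mem [IsAlgClosed Ω] {T : k → Ω →ₐ[k] Ω} {D : ℕ} {f : ℕ → Ω} {z : Ω} (hw : TL v C w ρ)
    (h : Att v C (cadj v C w) w z T D f) (c : k) {g : Ω} (hg : g ∈ cadj v C w) :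
    T c g ∈ cadj v C w := by
  refine (cld_cadj v C w) (mem_clI.2 fun r => ?_)
  obtain ⟨q, hq, h1⟩ := hw.dense hg r
  have h2 := (h.iso c).ge_iff.2 h1
  rw [map_sub, h.eval hq] at h2
  exact ⟨_, TWM.eval_mem (fun i => le_cadj v C w (hq i)) (add_mem (self_mem_cadj v C w)
    ((cadj v C w).algebraMap_mem c)), h2⟩

section Main

variable [hp : Fact p.Prime] [CharP Ω p] [CharP H p] [CharP k p] [IsAlgClosed k] [IsAlgClosed Ω]
  [IsAlgClosed H] {W₀ K₀ : IntermediateField k Ω} {al y u z : Ω} {r t : ℝ}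
  {G : AddSubgroup ℝ} {M : ℝ → H}

omit [CharP H p] [IsAlgClosed H] in
/-- The polynomial of `al ^ p`. -/
theorem exists_pol (h : J1D p v vH ι x W₀ K₀ al ν) (hy : TL v (clI v W₀) y r)
    (hu : TL v (cadj v (clI v W₀) y) u t) (hz : TL v (cadj v (cadj v (clI v W₀) y) u) z s)
    (hK : clI v K₀ = cadj v (cadj v (cadj v (clI v W₀) y) u) z) :
    ∃ f ∈ PI (cadj v (cadj v (clI v W₀) y) u), v.Ge (ν + 1) (al ^ p - f.eval z) ∧
      LP p v (cadj v (cadj v (cadj v (clI v W₀) y) u) z) ν (f.eval z) ∧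
      ∃ l : ℕ, p ∣ l ∧ l ≠ 0 ∧ ¬ PG p v (cadj v (cadj v (cadj v (clI v W₀) y) u) z) (ν - l * s)
        ((taylor z f).coeff l) := by
  have hal : al ^ p ∈ cadj v (cadj v (cadj v (clI v W₀) y) u) z := by
    rw [← hK]
    exact TWM.le_clI _ h.mem
  obtain ⟨f, hf, h1⟩ := hz.dense hal (ν + 1)
  have hlp := h.lp
  rw [hK] at hlp
  have h2 : PG p v (cadj v (cadj v (cadj v (clI v W₀) y) u) z) ν (al ^ p - f.eval z) :=
    PG.of_gt (Gt.of_ge h1 (by linarith))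
  refine ⟨f, hf, h1, lp_of_pg_add hlp h2, ?_⟩
  by_contra hno
  push Not at hno
  refine h.not_unh hy hu hz hK ?_
  rw [hK]
  exact ⟨f, hf, h2, fun l hl hl0 => hno l hl hl0⟩

omit [CharP H p] [CharP k p] [IsAlgClosed H] in
/-- The real normal form, with coefficients in `W`. -/
theorem exists_nrm_real (h : J1D p v vH ι x W₀ K₀ al ν) (hy : TL v (clI v W₀) y r)
    (hu : TL v (cadj v (clI v W₀) y) u t) (hz : TL v (cadj v (cadj v (clI v W₀) y) u) z s)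
    (hX : X₀ ∈ clI v W₀) (hfar : ∃ c : ℝ, ∀ g ∈ clI v W₀, ¬ v.Ge c (X₀ - g ^ p))
    {f : Polynomial Ω} (hf : f ∈ PI (cadj v (cadj v (clI v W₀) y) u))
    (h1 : v.Ge (ν + 1) (al ^ p - f.eval z))
    (hlp : LP p v (cadj v (cadj v (cadj v (clI v W₀) y) u) z) ν (f.eval z))
    (hhit : ∃ l : ℕ, p ∣ l ∧ l ≠ 0 ∧ ¬ PG p v (cadj v (cadj v (cadj v (clI v W₀) y) u) z)
      (ν - l * s) ((taylor z f).coeff l))
    (hcls : ∀ l : ℕ, l ≠ 0 → p ∣ l → OC p v (cadj v (clI v W₀) y)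
      (cadj v (cadj v (cadj v (clI v W₀) y) u) z) X₀ (ν - l * s) ((hasseDeriv l f).eval z)) :
    ∃ (N : ℕ) (c₀ e e₂ : Ω) (A : ℕ → Ω) (B : Polynomial Ω) (J : ℕ),
      c₀ ∈ cadj v (cadj v (clI v W₀) y) u ∧ e ∈ clI v W₀ ∧ (∀ i ∈ Icc 1 N, A i ∈ clI v W₀) ∧
      (∀ i ∈ Icc 1 N, OC p v (cadj v (clI v W₀) y) (cadj v (clI v W₀) y) X₀ (ν - p ^ i * s) (A i)) ∧
      Nrm p v (cadj v (clI v W₀) y) u (z - c₀) t s ν e A N B J 0 ∧
      hasseDeriv 1 B = Polynomial.C e₂ ∧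
      PG p v (cadj v (cadj v (cadj v (clI v W₀) y) u) z) ν
        (al ^ p - (e * (z - c₀) + ∑ i ∈ Icc 1 N, A i * (z - c₀) ^ p ^ i + B.eval u)) := by
  set W := clI v W₀ with hW
  set C := cadj v W y with hC
  set F := cadj v C u with hF
  set K := cadj v F z with hK'
  have hk : Ctx0 k v := h.ctx.toCtx0
  have hWC : W ≤ C := le_cadj v W y
  have hCF : C ≤ F := le_cadj v C u
  obtain ⟨μ, hμ, hμW⟩ := exists_mono hy.imm
  obtain ⟨ξ, hξ, hξn⟩ := exists_xi hfar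
  have hξF : LP p v F ξ X₀ := hξ.up.up
  have hξnF : ¬ PG p v F ξ X₀ := fun h2 => hξn (PG.down hy hX (PG.down hu (hWC hX) h2))
  obtain ⟨N, c₀, e₂, e', κ, g, B, J, hN1, hc₀, he', hκ, hκN, hN, he₂, hB, he₂v, hrel⟩ :=
    exists_nrm_cls (C := C) (X₀ := X₀) hk hμ hu hz (hWC hX) hξF hξnF hf hlp hhit hcls
  have hAW : ∀ i ∈ Icc 1 N, algebraMap k Ω (κ i) * μ (g i) ^ p * X₀ ∈ W := by
    intro i hi
    by_cases h0 : κ i = 0
    · rw [h0, map_zero, zero_mul, zero_mul]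
      exact zero_mem _
    · exact mul_mem (mul_mem (W.algebraMap_mem _) (pow_mem (hμW _ (hκ i hi h0).1) p)) hX
  refine ⟨N, c₀, algebraMap k Ω e' * μ (ν - s), e₂,
    fun i => algebraMap k Ω (κ i) * μ (g i) ^ p * X₀, B, J, hc₀, ?_, hAW, fun i hi => ?_, hN, hB, ?_⟩
  · by_cases h0 : e' = 0
    · rw [h0, map_zero, zero_mul]
      exact zero_mem _
    · exact mul_mem (W.algebraMap_mem _) (hμW _ (he' h0))
  · by_cases h0 : κ i = 0
    · refine ⟨0, zero_mem _, ?_⟩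
      change PG p v C _ (algebraMap k Ω (κ i) * μ (g i) ^ p * X₀ - 0 ^ p * X₀)
      rw [h0, map_zero, zero_mul, zero_mul, zero_pow hp.out.ne_zero, zero_mul, sub_zero]
      exact PG.of_gt Gt.zero
    · obtain ⟨b, hb⟩ := IsAlgClosed.exists_pow_nat_eq (κ i) hp.out.pos
      refine ⟨algebraMap k Ω b * μ (g i), mul_mem (C.algebraMap_mem _)
        (hμ.mem _ (hκ i hi h0).1), ?_⟩
      change PG p v C _ (algebraMap k Ω (κ i) * μ (g i) ^ p * X₀ -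
        (algebraMap k Ω b * μ (g i)) ^ p * X₀)
      rw [_root_.mul_pow, ← map_pow, hb, sub_self]
      exact PG.of_gt Gt.zero
  · have h2 : PG p v K ν (al ^ p - f.eval z) := PG.of_gt (Gt.of_ge h1 (by linarith))
    refine (congrArg _ ?_).mp (PG.add' h2 hrel)
    ring

end Main

end Pool.Agent.TWRR
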