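import Pool.Agent.Lib.TWRR.J1G

/-!
# TANK W, contact, row J1: the end, from a form in the big field

* `false_of_form`: for a presentation `y, u, z` of `K` over `W`, a form of `al ^ p` in the big field
  whose jets along `u` are attained and whose effects have strict derivatives is impossible.
-/

set_option autoImplicit false

open Polynomial Finset

namespace Pool.Agent.TWRR

open Pool.Agent.H15JM (RVal)
open Pool.Agent.D2 (Ctx0)
open Pool.Agent.LU1 (VPos adj)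
open Pool.Agent.D2P (clI mem_clI mem_adj_self adj_le)
open Pool.Agent.TW (Ctx Full BD HRone)
open Pool.Agent.TWM
open Pool.Agent.TWS (IsoE MonG PM VG)
open Pool.Agent.TWS7 (PDiv)
open Pool.Agent.TWII (PG LP)
open Pool.Agent.TWN1
open Pool.Agent.TWTam
open Pool.Agent.TWCT (tH J1D)
open Pool.Agent.TWCY (Drv)

universe u

variable {k Ω H : Type u} [Field k] [Field Ω] [Algebra k Ω] [Field H] [Algebra k H]
  {p : ℕ} {v : RVal Ω} {vH : RVal H} {ι : Ω →ₐ[k] H} {x : Ω}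
  {X₀ : Ω} {s ν : ℝ} [hp : Fact p.Prime] [CharP Ω p] [CharP H p] [CharP k p] [IsAlgClosed k]
  [IsAlgClosed Ω] [IsAlgClosed H] {W₀ K₀ : IntermediateField k Ω} {al y u z : Ω} {r t : ℝ}
  {G : AddSubgroup ℝ} {M : ℝ → H} {c d m cx : H} {W' C' F' K' : IntermediateField k H}

omit hp [CharP Ω p] [CharP k p] [IsAlgClosed k] [IsAlgClosed Ω] in
/-- Another multiple of the class. -/
theorem OClsJ.of_mul {C : IntermediateField k Ω} {w X₁ : Ω} {ρ : ℝ} {e : Ω} {A : ℕ → Ω} {N : ℕ}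
    {B : Polynomial Ω} {φ : ℕ → Polynomial Ω} (h : OClsJ p v C w ρ ν e A N B φ X₁) {b : Ω}
    (hb : b ∈ C) (hX : X₁ = b ^ p * X₀) : OClsJ p v C w ρ ν e A N B φ X₀ := fun l hl hpl => by
  obtain ⟨g, hg, h1⟩ := h l hl hpl
  refine ⟨g * b, mul_mem hg hb, ?_⟩
  rwa [_root_.mul_pow, mul_assoc, ← hX]

/-- **The end, from a form in the big field.** -/
theorem false_of_form (h : J1D p v vH ι x W₀ K₀ al ν) (hy : TL v (clI v W₀) y r)
    (hu : TL v (cadj v (clI v W₀) y) u t) (hz : TL v (cadj v (cadj v (clI v W₀) y) u) z s)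
    (hK : clI v K₀ = cadj v (cadj v (cadj v (clI v W₀) y) u) z)
    (hM : MonG vH (tH p v ι x (clI v W₀)) G M)
    (hV : ∀ g ∈ VG vH (tH p v ι x (clI v W₀)), g / p ∈ VG vH (tH p v ι x (clI v W₀)))
    (hX : X₀ ∈ clI v W₀) (hfar : ∃ c : ℝ, ∀ g ∈ clI v W₀, ¬ v.Ge c (X₀ - g ^ p))
    (eW : W' = PM vH (tH p v ι x (clI v W₀)) G M)
    (eC : C' = PM vH (tH p v ι x (cadj v (clI v W₀) y)) G M)
    (eF : F' = cadj vH C' (ι u / c)) (eK : K' = cadj vH F' (ι z / d))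
    (hc : c ∈ W') (hc0 : c ≠ 0) (hd : d ∈ W') (hd0 : d ≠ 0) (hm : m ∈ W') (hm0 : m ≠ 0)
    (hcx : cx ∈ W') (hcx0 : cx ≠ 0) (ht : vH c = t) (hs : vH d = s) (hν : p * vH m = ν)
    (hw' : TL vH C' (ι u / c) 0) (hz' : TL vH F' (ι z / d) 0)
    {T : k → H →ₐ[k] H} {D : ℕ} {f : ℕ → H} {I : Type*} {dd : I → H → H} {e φ a₀ : H} {A : ℕ → H}
    {N : ℕ} (hatt : Att vH C' F' (ι u / c) (ι z / d - φ) T D f)
    (hdd : ∀ i, Drv vH F' (dd i)) (hdW : ∀ i, ∀ g ∈ W', dd i g = 0)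
    (he : e ∈ W') (hA : ∀ i ∈ Icc 1 N, A i ∈ W')
    (hAcl : ∀ i ∈ Icc 1 N, OC p vH C' K' (ι X₀) 0 (A i))
    (hφ : φ ∈ F') (ha₀ : a₀ ∈ F')
    (hrel : PG p vH K' 0 (ι (al ^ p) / m ^ p -
      (e * (ι z / d - φ) + ∑ i ∈ Icc 1 N, A i * (ι z / d - φ) ^ p ^ i + a₀)))
    (hcls : ∀ b ∈ F', LP p vH F' 0 b → (∀ i, VPos vH (dd i b)) →
      ∃ κ : k, PG p vH F' 0 (b - algebraMap k H κ * (ι X₀ / cx ^ p)))
    (heff : ∀ c i, VPos vH (e * dd i (∑ j ∈ Icc 1 D, algebraMap k H c ^ j * f j) +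
      dd i (T c a₀ - a₀))) : False := by
  have hI := h.iso
  have hcv := h.cpl
  have hcw := h.cw
  have hk : Ctx0 k v := h.ctx.toCtx0
  have hkH : Ctx0 k vH := h.c0
  set W := clI v W₀ with hW
  set C := cadj v W y with hCd
  set F := cadj v C u with hFd
  set K := cadj v F z with hKd
  have hWC : W ≤ C := le_cadj v W y
  have hCF : C ≤ F := le_cadj v C u
  have hFK : F ≤ K := le_cadj v F z
  have hxW : x ∈ W := h.xW
  have hxC : x ∈ C := hWC hxW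
  have hCc : Cld v C := cld_cadj v W y
  -- immediate extensions
  have tl1 : TL vH (tH p v ι x W) (ι y) r := by
    rw [tH, hI.tl_iff]
    exact tl_tam hxW hy
  have tl2 : TL vH (tH p v ι x C) (ι u) t := by
    rw [tH, hI.tl_iff]
    exact tl_tam hxC hu
  have tl3 : TL vH (tH p v ι x F) (ι z) s := by
    rw [tH, hI.tl_iff]
    exact tl_tam (hCF hxC) hz
  have e1 : tH p v ι x C = cadj vH (tH p v ι x W) (ι y) := TWCT.tH_cadj hI hcv W y
  have e2 : tH p v ι x F = cadj vH (tH p v ι x C) (ι u) := TWCT.tH_cadj hI hcv C u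
  have e3 : tH p v ι x K = cadj vH (tH p v ι x F) (ι z) := TWCT.tH_cadj hI hcv F z
  have i1 : Imm vH (tH p v ι x W) (tH p v ι x C) := by
    rw [e1]
    exact tl1.imm
  have i2 : Imm vH (tH p v ι x C) (tH p v ι x F) := by
    rw [e2]
    exact tl2.imm
  have i3 : Imm vH (tH p v ι x F) (tH p v ι x K) := by
    rw [e3]
    exact tl3.imm
  have iF := i1.trans i2
  have iK := iF.trans i3
  have hWC' : W' ≤ C' := by
    rw [eW, eC]
    exact PM.mono i1.le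
  have hCF' : C' ≤ F' := by
    rw [eF]
    exact le_cadj _ _ _
  have hFK' : F' ≤ K' := by
    rw [eK]
    exact le_cadj _ _ _
  have s1 : t - vH c = 0 := by rw [ht, sub_self]
  have s2 : s - vH d = 0 := by rw [hs, sub_self]
  have s3 : ν - p * vH m = 0 := by rw [hν, sub_self]
  have hmp : m ^ p ≠ 0 := pow_ne_zero _ hm0
  -- the polynomial
  obtain ⟨q, hq, hq1, hqlp, hqhit⟩ := exists_pol h hy hu hz hK
  -- the classes of the jets
  have hqcls : ∀ l : ℕ, l ≠ 0 → p ∣ l → OC p v C K X₀ (ν - l * s) ((hasseDeriv l q).eval z) := by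
    intro l hl hpl
    have hvm : vH.Ge (-ν) (m ^ p)⁻¹ := fun _ => by
      rw [vH.map_inv hmp, vH.map_pow hm0, hν]
    have h1 : PG p vH K' 0 ((m ^ p)⁻¹ * ι (q.eval z) -
        (e * (ι z / d - φ) + ∑ i ∈ Icc 1 N, A i * (ι z / d - φ) ^ p ^ i + a₀)) := by
      have h2 : vH.Ge (ν + 1) (ι (al ^ p - q.eval z)) := hI.ge_iff.2 hq1
      have h3 : PG p vH K' 0 ((m ^ p)⁻¹ * ι (al ^ p - q.eval z)) :=
        PG.of_gt (Gt.of_ge (hvm.mul h2) (by linarith))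
      refine (congrArg _ ?_).mp (PG.sub hrel h3)
      rw [map_sub]
      ring
    subst eC eF eK
    refine oc_jets (e := e) (φ := φ) (a₀ := a₀) (A := A) (N := N) (c := c) (d := d) (m := m) hI hcv
      hcw hk h.x0 hxC hCc hu hz hM hV iK i1 (hWC hX) (hWC' hc) hc0 (hWC' hd) hd0 (hWC' hm) hm0
      (by rw [s2]; exact hz') hq (hCF' (hWC' he)) (fun i hi => hCF' (hWC' (hA i hi))) hφ ha₀
      (fun i hi => ?_) (by rw [s3]; exact h1) hl hpl
    rw [s3, s2, mul_zero, sub_zero]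
    exact hAcl i hi
  -- the real normal form
  obtain ⟨N', c₀, e', e₂, A', B, J, hc₀, he', hA', hAcl', hN, hB, hrel'⟩ :=
    exists_nrm_real h hy hu hz hX hfar hq hq1 hqlp hqhit hqcls
  have eFF : F' = PM vH (tH p v ι x F) G M := by
    subst eC
    rw [eF]
    exact pm_cadj hI hcv C u (hWC' hc) hc0
  have eKK : K' = PM vH (tH p v ι x K) G M := by
    rw [eK, eFF]
    exact pm_cadj hI hcv F z (by rw [← eFF]; exact hCF' (hWC' hd)) hd0
  have hιW : ∀ g ∈ W, ι g ∈ W' := fun g hg => by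
    rw [eW]
    exact PM.le (TWCT.mem_tH hg)
  have hιF : ∀ g ∈ F, ι g ∈ F' := fun g hg => by
    rw [eFF]
    exact PM.le (TWCT.mem_tH hg)
  -- the scaled normal form
  set z' : H := ι (z - c₀) / d with hz'd
  set e'' : H := (m ^ p)⁻¹ * ι e' * d with he''
  set A'' : ℕ → H := scA p d m fun i => ι (A' i) with hA''
  set B'' : Polynomial H := Polynomial.C (m ^ p)⁻¹ * sc c (B.map ι.toRingHom) with hB''
  have hN' : Nrm p vH C' (ι u / c) z' 0 0 0 e'' A'' N' B'' J 0 := by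
    have h1 := nrm_core (c := c) (d := d) (m := m) hI hcv hcw hk h.x0 hxC hCc hu hM hV iF i1 hN
      (eC ▸ hWC' hc) hc0 (eC ▸ hWC' hd) hd0 (eC ▸ hWC' hm) hm0
    rw [s1, s2, s3, ← eC] at h1
    exact h1
  have hzz : z' = ι z / d - ι c₀ / d := by
    rw [hz'd, map_sub, sub_div]
  have hcd : ι c₀ / d ∈ F' := div_mem (hιF _ hc₀) (hCF' (hWC' hd))
  have eK' : cadj vH F' z' = K' := by
    rw [hzz, cadj_sub_mem hcd, eK]
  have he''W : e'' ∈ W' := mul_mem (mul_mem (inv_mem (pow_mem hm p)) (hιW _ he')) hd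
  have hA''W : ∀ i ∈ Icc 1 N', A'' i ∈ W' := fun i hi =>
    mul_mem (mul_mem (inv_mem (pow_mem hm p)) (hιW _ (hA' i hi))) (pow_mem hd _)
  have h2 : PG p vH (cadj vH F' z') 0 (ι (al ^ p) / m ^ p -
      (e'' * z' + ∑ i ∈ Icc 1 N', A'' i * z' ^ p ^ i + B''.eval (ι u / c))) := by
    obtain ⟨g, hg, h3⟩ := hrel'
    have hgK : ι g ∈ K' := by
      rw [eKK]
      exact PM.le (TWCT.mem_tH hg)
    rw [eK']
    refine ⟨m⁻¹ * ι g, mul_mem (inv_mem (hFK' (hCF' (hWC' hm)))) hgK, ?_⟩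
    have h4 : Gt vH ν (ι (al ^ p - (e' * (z - c₀) + ∑ i ∈ Icc 1 N', A' i * (z - c₀) ^ p ^ i +
        B.eval u) - g ^ p)) := by
      intro h0
      have h5 : al ^ p - (e' * (z - c₀) + ∑ i ∈ Icc 1 N', A' i * (z - c₀) ^ p ^ i +
        B.eval u) - g ^ p ≠ 0 := fun h6 => h0 (by rw [h6, map_zero])
      rw [hI.val _ h5]
      exact h3 h5
    have e4 : ∀ i : ℕ, A'' i * z' ^ p ^ i = (m ^ p)⁻¹ * ι (A' i * (z - c₀) ^ p ^ i) := by
      intro i
      have hdp : d ^ p ^ i ≠ 0 := pow_ne_zero _ hd0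
      rw [hA'', scA, hz'd, div_pow, map_mul, map_pow]
      field_simp
    have e5 : e'' * z' = (m ^ p)⁻¹ * ι (e' * (z - c₀)) := by
      rw [he'', hz'd, map_mul]
      field_simp
    have e6 : B''.eval (ι u / c) = (m ^ p)⁻¹ * ι (B.eval u) := sc_map_eval hc0 B u
    have e7 : ι (al ^ p) / m ^ p -
        (e'' * z' + ∑ i ∈ Icc 1 N', A'' i * z' ^ p ^ i + B''.eval (ι u / c)) - (m⁻¹ * ι g) ^ p =
        (m ^ p)⁻¹ * ι (al ^ p - (e' * (z - c₀) + ∑ i ∈ Icc 1 N', A' i * (z - c₀) ^ p ^ i +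
        B.eval u) - g ^ p) := by
      rw [sum_congr rfl fun i _ => e4 i, ← mul_sum, e5, e6, map_sub, map_sub, map_add, map_add,
        map_sum, _root_.mul_pow, inv_pow, map_pow ι g p]
      ring
    rw [e7]
    have h5 : vH.Ge (-ν) (m ^ p)⁻¹ := fun _ => by
      rw [vH.map_inv hmp, vH.map_pow hm0, hν]
    have h6 := Gt.mul_ge h4 h5
    rwa [add_neg_cancel, mul_comm] at h6
  -- the jets and the classes
  have e8 : z' - (φ - ι c₀ / d) = ι z / d - φ := by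
    rw [hzz]
    ring
  have hzt : TL vH F' z' 0 := by
    rw [hzz]
    exact hz'.sub_mem hcd
  obtain ⟨ψ, D', hjl, hcl⟩ : ∃ (ψ : ℕ → Polynomial H) (D' : ℕ),
      JL p vH C' (ι u / c) z' 0 0 e'' J ψ D' ∧
      OClsJ p vH C' (ι u / c) 0 0 e'' A'' N' B'' ψ (ι X₀ / cx ^ p) := by
    have h1 : PG p vH (cadj vH F' z') 0 (ι (al ^ p) / m ^ p - (e * (z' - (φ - ι c₀ / d)) +
        ∑ i ∈ Icc 1 N, A i * (z' - (φ - ι c₀ / d)) ^ p ^ i + a₀)) := by
      rw [eK', e8]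
      exact hrel
    have hat : Att vH C' F' (ι u / c) (z' - (φ - ι c₀ / d)) T D f := by
      rw [e8]
      exact hatt
    have hφ' := sub_mem hφ hcd
    clear_value z' e'' A'' B''
    clear hrel hatt hz' e8 hzz eK eKK eFF
    subst eF
    exact exists_jl_ocls hkH hw' hzt hWC' hat (fun c g hg => hat.mem hw' c hg) hdd hdW he hA hφ' ha₀
      h1 hN' he''W hA''W h2 hcls heff
  have hcl' : OClsJ p vH C' (ι u / c) 0 0 e'' A'' N' B'' ψ (ι X₀) :=
    hcl.of_mul (b := cx⁻¹) (inv_mem (hWC' hcx)) (by rw [inv_pow, div_eq_mul_inv, mul_comm])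
  obtain ⟨ψ₀, hjl₀, hcl₀⟩ := j1_real (c := c) (d := d) (m := m) (φ := ψ) (D := D') hI hcv hcw hk h.x0
    hxC hCc hu hM hV iF i1 hN (hWC hX) (eC ▸ hWC' hc) hc0 (eC ▸ hWC' hd) hd0 (eC ▸ hWC' hm) hm0
    (by rw [s1, s2, ← eC]; exact hjl) (by rw [s1, s3, ← eC]; exact hcl')
  -- the exit
  have e9 : clI v (adj W₀ y) = C := clI_adj_clI.symm
  have hCt : Algebra.trdeg k (adj W₀ y) = (2 : ℕ) := by
    rw [TW.HRLU.trdeg_adj (TWC.TL.transcendental hy (le_clI W₀)), h.trW]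
    norm_num
  have hC₀ : cadj v (cadj v C u) (z - c₀) = K := cadj_sub_mem hc₀
  refine h.bad (hrone_j1 (C₀ := adj W₀ y) (w := u) (y := z - c₀) (X₀ := X₀) (e₂ := e₂) (ρ := t)
    (s := s) (ν := ν) (e := e') (A := A') (N := N') (B := B) (J := J) (φ := ψ₀) (D := D') h.ctx hcv
    h.fg h.full h.tr h.bd h.mem h.bda (h.full_of (mem_adj_self W₀ y).2) hCt h.lev
    (by rw [e9]; exact gp_imm hy.imm (gp_of_pdiv hk h.pd)) (by rw [e9]; exact hWC hX)
    (by rw [e9]; exact hu) (by rw [e9]; exact hz.sub_mem hc₀) (by rw [e9, hC₀]; exact hK)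
    (by rw [e9]; exact hN) (by rw [e9]; exact hjl₀) (fun i hi => by rw [e9]; exact hAcl' i hi)
    (by rw [e9]; exact hcl₀) hB (by rw [hK]; exact hrel'))

end Pool.Agent.TWRR
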