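import Pool.Agent.Lib.TWRR.D3

/-!
# TANK W, contact, row J1: the monomial normal form

`F = C⟨w⟩`, `y` a floor over `F`, `a = e₀ y + ∑ A₀ i y ^ p ^ i + a₀` modulo null, the coefficients
`A₀ i` in the class of `X₀` (`A₀ i = h ^ p X₀ + null`, `h ∈ C`).

* `Mono v C μ`: monomials `μ g ∈ C` of value `g`, `g` in the value group of `C`;
* `Dat.to`: change of the coefficients;
* `exists_nrm_mono`: the normal form, with `e = e' μ(ν - s)`, `A i = κ i (μ (g i)) ^ p X₀`,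
  `e', κ i ∈ k`.
-/

set_option autoImplicit false

open Polynomial Finset

namespace Pool.Agent.TWRR

open Pool.Agent.H15JM (RVal)
open Pool.Agent.D2 (Ctx0)
open Pool.Agent.LU1 (VPos)
open Pool.Agent.TWM
open Pool.Agent.TWS (VG)
open Pool.Agent.TWII (PG LP)
open Pool.Agent.TWN1

universe u

variable {k Ω : Type u} [Field k] [Field Ω] [Algebra k Ω] {v : RVal Ω}
  {C F K : IntermediateField k Ω} {w y X₀ a : Ω} {ρ s ν ξ : ℝ} {p : ℕ} {μ : ℝ → Ω}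

/-- Monomials of `C`. -/
structure Mono (v : RVal Ω) (C : IntermediateField k Ω) (μ : ℝ → Ω) : Prop where
  mem : ∀ g ∈ VG v C, μ g ∈ C
  ne : ∀ g ∈ VG v C, μ g ≠ 0
  val : ∀ g ∈ VG v C, v (μ g) = g

/-- The leading term, as a monomial. -/
theorem Mono.lead (hμ : Mono v C μ) (hk : Ctx0 k v) {h : Ω} (hh : h ∈ C) (h0 : h ≠ 0) :
    ∃ c : k, c ≠ 0 ∧ Gt v (v h) (h - algebraMap k Ω c * μ (v h)) := by
  have hg : v h ∈ VG v C := ⟨h, hh, h0, rfl⟩
  have hm0 := hμ.ne _ hg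
  have hq : h / μ (v h) ≠ 0 := div_ne_zero h0 hm0
  obtain ⟨c, hc, h1⟩ := hk.res (h / μ (v h)) hq (by
    rw [div_eq_mul_inv, v.map_mul h0 (inv_ne_zero hm0), v.map_inv hm0, hμ.val _ hg]
    ring)
  refine ⟨c, hc, ?_⟩
  have e1 : h - algebraMap k Ω c * μ (v h) = (h / μ (v h) - algebraMap k Ω c) * μ (v h) := by
    rw [sub_mul, div_mul_cancel₀ _ hm0]
  rw [e1]
  have h2 : Gt v 0 (h / μ (v h) - algebraMap k Ω c) := h1
  have h3 := h2.mul_ge (RVal.ge_self (v := v) (μ (v h)))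
  rwa [hμ.val _ hg, zero_add] at h3

variable [hp : Fact p.Prime] [CharP Ω p]

/-- Change of the coefficients. -/
theorem Dat.to {e e' : Ω} {A A' : ℕ → Ω} {N : ℕ} {b : Ω} (hy : TL v F y s) (hFK : F ≤ K)
    (hyK : y ∈ K) (hD : Dat p v F K y s ν a N e A b) (he' : e' ∈ F) (hee : Gt v (ν - s) (e - e'))
    (hA' : ∀ i ∈ Icc 1 N, A' i ∈ F)
    (hAA : ∀ i ∈ Icc 1 N, PG p v F (ν - p ^ i * s) (A i - A' i)) :
    ∃ c ∈ F, Dat p v F K (y - c) s ν a N e' A' (ff p e A N b c) := by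
  have hp0 : (0 : ℝ) < p := by exact_mod_cast hp.out.pos
  obtain ⟨μ₁, hμ₁, h1⟩ := TWLM.exists_ge_of_gt hee
  obtain ⟨μ₂, hμ₂, h2⟩ := exists_unif (Icc 1 N)
    (P := fun i μ => PC p v F (ν - p ^ i * s + μ) (A i - A' i))
    (fun i a b hab h3 => h3.mono (by linarith)) (fun i hi => PG.exists_pc (hAA i hi))
  set m := min μ₁ μ₂ with hm
  have hm0 : 0 < m := lt_min hμ₁ hμ₂
  obtain ⟨c₂, hc₂, hyc₂⟩ := hy.lim (m / (2 * p ^ N)) (by positivity)
  have hμ2 : (p : ℝ) ^ N * (m / (2 * p ^ N)) < m := by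
    have e1 : (p : ℝ) ^ N * (m / (2 * p ^ N)) = m / 2 := by field_simp
    rw [e1]
    linarith
  exact ⟨c₂, hc₂, (hD.shift hc₂).cmp hFK (sub_mem hyK (hFK hc₂)) (μ := m) he' hA'
    (by positivity) hyc₂ hμ2 (h1.mono (by linarith [min_le_left μ₁ μ₂])) fun i hi =>
      (h2 i hi).mono (by linarith [min_le_right μ₁ μ₂])⟩

theorem lp_of_pg_add {c : ℝ} {x y : Ω} (h : LP p v F c x) (h' : PG p v F c (x - y)) :
    LP p v F c y := by
  have h1 := h.sub (TWII.LP.of_pg h')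
  rwa [sub_sub_cancel] at h1

/-- The class of a coefficient, as a monomial. -/
theorem exists_mono_cls [IsAlgClosed k] (hμ : Mono v C μ) (hk : Ctx0 k v) (hCF : C ≤ F) (hXC : X₀ ∈ C)
    (hξ : LP p v F ξ X₀) (hX : ¬ PG p v F ξ X₀) {r : ℝ} {A : Ω} (hlp : LP p v F r A)
    (h : OC p v C F X₀ r A) :
    ∃ (c : k) (g : ℝ), (c ≠ 0 → g ∈ VG v C ∧ p * g + ξ = r) ∧
      PG p v F r (A - algebraMap k Ω c * μ g ^ p * X₀) ∧
      algebraMap k Ω c * μ g ^ p * X₀ ∈ C := by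
  obtain ⟨h, hh, h1⟩ := h
  have hp0 : (0 : ℝ) < p := by exact_mod_cast hp.out.pos
  have hz : ∀ g : ℝ, algebraMap k Ω 0 * μ g ^ p * X₀ = 0 := fun g => by
    rw [map_zero, zero_mul, zero_mul]
  by_cases hpg : PG p v F r A
  · exact ⟨0, 0, fun h => absurd rfl h, by rwa [hz, sub_zero], by rw [hz]; exact zero_mem _⟩
  have h0 : h ≠ 0 := by
    rintro rfl
    apply hpg
    rwa [zero_pow hp.out.ne_zero, zero_mul, sub_zero] at h1
  have h2 : LP p v F r (h ^ p * X₀) := lp_of_pg_add hlp h1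
  have h3 : LP p v F (ξ + p * v h) (h ^ p * X₀) := lp_scale (hCF hh) h0 hξ
  have h4 : p * v h + ξ = r := by
    rcases lt_trichotomy (ξ + p * v h) r with h4 | h4 | h4
    · exfalso
      have h5 := lp_scale (inv_mem (hCF hh)) (inv_ne_zero h0) h2
      rw [inv_pow, inv_mul_cancel_left₀ (pow_ne_zero _ h0), v.map_inv h0] at h5
      exact hX (pg_of_lp h5 (by linarith))
    · linarith
    · exfalso
      have h5 := PG.add' h1 (pg_of_lp h3 h4)
      rw [sub_add_cancel] at h5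
      exact hpg h5
  obtain ⟨c, hc, h5⟩ := hμ.lead hk hh h0
  have hg : v h ∈ VG v C := ⟨h, hh, h0, rfl⟩
  have hcC : algebraMap k Ω (c ^ p) * μ (v h) ^ p * X₀ ∈ C :=
    mul_mem (mul_mem (C.algebraMap_mem _) (pow_mem (hμ.mem _ hg) p)) hXC
  refine ⟨c ^ p, v h, fun _ => ⟨hg, h4⟩, ?_, hcC⟩
  have e1 : A - algebraMap k Ω (c ^ p) * μ (v h) ^ p * X₀ = (A - h ^ p * X₀) +
      (h - algebraMap k Ω c * μ (v h)) ^ p * X₀ := by
    rw [sub_pow_char, map_pow, _root_.mul_pow]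
    ring
  rw [e1]
  refine PG.add' h1 ?_
  by_cases hd : h - algebraMap k Ω c * μ (v h) = 0
  · rw [hd, zero_pow hp.out.ne_zero, zero_mul]
    exact PG.of_gt Gt.zero
  · have h6 : h - algebraMap k Ω c * μ (v h) ∈ F :=
      hCF (sub_mem hh (mul_mem (C.algebraMap_mem _) (hμ.mem _ hg)))
    refine pg_of_lp (lp_scale h6 hd hξ) ?_
    have h7 := mul_lt_mul_of_pos_left (h5 hd) hp0
    linarith

/-- **The monomial normal form.** -/
theorem exists_nrm_mono [IsAlgClosed k] [IsAlgClosed Ω] (hk : Ctx0 k v) (hμ : Mono v C μ)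
    (hw : TL v C w ρ) (hy : TL v (cadj v C w) y s) (hXC : X₀ ∈ C)
    (hξ : LP p v (cadj v C w) ξ X₀) (hX : ¬ PG p v (cadj v C w) ξ X₀)
    {e₀ a₀ : Ω} {A₀ : ℕ → Ω} {N : ℕ} (hN : 1 ≤ N) (he₀ : e₀ ∈ cadj v C w)
    (hev : v.Ge (ν - s) e₀) (ha₀ : a₀ ∈ cadj v C w)
    (hA₀ : ∀ i ∈ Icc 1 N, A₀ i ∈ cadj v C w)
    (hlo : ∀ i ∈ Icc 1 N, LP p v (cadj v C w) (ν - p ^ i * s) (A₀ i))
    (hcl : ∀ i ∈ Icc 1 N, OC p v C (cadj v C w) X₀ (ν - p ^ i * s) (A₀ i))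
    (htop : ¬ PG p v (cadj v C w) (ν - p ^ N * s) (A₀ N))
    (hst : ∀ ε : ℝ, 0 < ε → ∃ δ : ℝ, 0 < δ ∧ ∀ θ ∈ cadj v C w, v.Ge (s - δ) (y - θ) →
      ∃ g ∈ cadj v C w, v.Ge (ν - ε)
        (e₀ * θ + ∑ i ∈ Icc 1 N, A₀ i * θ ^ p ^ i + a₀ - g ^ p))
    (ha : PG p v (cadj v (cadj v C w) y) ν
      (a - (e₀ * y + ∑ i ∈ Icc 1 N, A₀ i * y ^ p ^ i + a₀))) :
    ∃ (c e₂ : Ω) (e' : k) (κ : ℕ → k) (g : ℕ → ℝ) (B : Polynomial Ω) (J : ℕ),
      c ∈ cadj v C w ∧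
      (e' ≠ 0 → ν - s ∈ VG v C) ∧
      (∀ i ∈ Icc 1 N, κ i ≠ 0 → g i ∈ VG v C ∧ p * g i + ξ = ν - p ^ i * s) ∧ κ N ≠ 0 ∧
      Nrm p v C w (y - c) ρ s ν (algebraMap k Ω e' * μ (ν - s))
        (fun i => algebraMap k Ω (κ i) * μ (g i) ^ p * X₀) N B J 0 ∧
      e₂ ∈ C ∧ hasseDeriv 1 B = Polynomial.C e₂ ∧ (e₂ ≠ 0 → v e₂ = ν - ρ) ∧
      PG p v (cadj v (cadj v C w) y) ν
        (a - (algebraMap k Ω e' * μ (ν - s) * (y - c) +
          ∑ i ∈ Icc 1 N, algebraMap k Ω (κ i) * μ (g i) ^ p * X₀ * (y - c) ^ p ^ i +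
          B.eval w)) := by
  classical
  have hyK : y ∈ cadj v (cadj v C w) y := self_mem_cadj _ _ _
  have hFK : cadj v C w ≤ cadj v (cadj v C w) y := le_cadj _ _ _
  have hCF : C ≤ cadj v C w := le_cadj _ _ _
  have hD : Dat p v (cadj v C w) (cadj v (cadj v C w) y) y s ν a N e₀ A₀ a₀ :=
    ⟨hN, he₀, hev, hA₀, hlo, htop, ha₀, hst, ha⟩
  -- the coefficients
  have hcoef : ∀ i : ℕ, ∃ (c : k) (g : ℝ), i ∈ Icc 1 N → (c ≠ 0 → g ∈ VG v C ∧
      p * g + ξ = ν - p ^ i * s) ∧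
      PG p v (cadj v C w) (ν - p ^ i * s) (A₀ i - algebraMap k Ω c * μ g ^ p * X₀) ∧
      algebraMap k Ω c * μ g ^ p * X₀ ∈ C := by
    intro i
    by_cases hi : i ∈ Icc 1 N
    · obtain ⟨c, g, h1⟩ := exists_mono_cls hμ hk hCF hXC hξ hX (hlo i hi) (hcl i hi)
      exact ⟨c, g, fun _ => h1⟩
    · exact ⟨0, 0, fun h => absurd h hi⟩
  choose κ g hκ using hcoef
  have hAC : ∀ i ∈ Icc 1 N, algebraMap k Ω (κ i) * μ (g i) ^ p * X₀ ∈ C := fun i hi =>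
    (hκ i hi).2.2
  -- the linear coefficient
  obtain ⟨e', he', heC, hee, hev'⟩ : ∃ e' : k, (e' ≠ 0 → ν - s ∈ VG v C) ∧
      algebraMap k Ω e' * μ (ν - s) ∈ C ∧ Gt v (ν - s) (e₀ - algebraMap k Ω e' * μ (ν - s)) ∧
      (algebraMap k Ω e' * μ (ν - s) ≠ 0 → v (algebraMap k Ω e' * μ (ν - s)) = ν - s) := by
    obtain ⟨e₁, he₁, h1, h2⟩ := exists_lead hw.imm he₀ hev
    by_cases h3 : e₁ = 0
    · refine ⟨0, fun h => absurd rfl h, ?_, ?_, fun h => absurd ?_ h⟩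
      · rw [map_zero, zero_mul]
        exact zero_mem _
      · rw [map_zero, zero_mul]
        rwa [h3] at h2
      · rw [map_zero, zero_mul]
    · have h4 := h1 h3
      have hg : ν - s ∈ VG v C := ⟨e₁, he₁, h3, h4⟩
      obtain ⟨c, hc, h5⟩ := hμ.lead hk he₁ h3
      rw [h4] at h5
      have hc' : algebraMap k Ω c ≠ 0 := (_root_.map_ne_zero _).2 hc
      refine ⟨c, fun _ => hg, mul_mem (C.algebraMap_mem _) (hμ.mem _ hg), ?_, fun _ => ?_⟩
      · have e1 : e₀ - algebraMap k Ω c * μ (ν - s) = (e₀ - e₁) +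
          (e₁ - algebraMap k Ω c * μ (ν - s)) := by ring
        rw [e1]
        exact h2.add h5
      · rw [v.map_mul hc' (hμ.ne _ hg), hk.triv c hc, hμ.val _ hg, zero_add]
  obtain ⟨c₁, hc₁, hD₁⟩ := Dat.to hy hFK hyK hD (hCF heC) hee
    (A' := fun i => algebraMap k Ω (κ i) * μ (g i) ^ p * X₀) (fun i hi => hCF (hAC i hi))
    fun i hi => (hκ i hi).2.1
  have hy₁ := hy.sub_mem hc₁
  obtain ⟨c₂, hc₂, e₂, he₂, B, hB, hBd, hBX, hee₂, he₂v, hD₂⟩ := hD₁.toX hw hy₁ heC hev' hAC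
  have hy₂ := hy₁.sub_mem hc₂
  have e1 : y - (c₁ + c₂) = y - c₁ - c₂ := by ring
  have hnrm := hD₂.nrm hw hy₂ hB heC hev' hAC hBd hee₂ he₂v hBX
  refine ⟨c₁ + c₂, e₂, e', κ, g, B, B.natDegree / p ^ N, add_mem hc₁ hc₂, he',
    fun i hi => (hκ i hi).1, fun h0 => ?_, ?_, he₂, by rw [hasseDeriv_one', hBd], he₂v, ?_⟩
  · refine hnrm.top ?_
    rw [h0, map_zero, zero_mul, zero_mul]
    exact PG.of_gt Gt.zero
  · rw [e1]
    exact hnrm
  · rw [e1]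
    exact hD₂.rel

/-- **The monomial normal form, from the classes of the jets.** -/
theorem exists_nrm_cls [IsAlgClosed k] [IsAlgClosed Ω] (hk : Ctx0 k v) (hμ : Mono v C μ)
    (hw : TL v C w ρ) (hy : TL v (cadj v C w) y s) (hXC : X₀ ∈ C)
    (hξ : LP p v (cadj v C w) ξ X₀) (hX : ¬ PG p v (cadj v C w) ξ X₀)
    {f : Polynomial Ω} (hf : f ∈ PI (cadj v C w))
    (hlp : LP p v (cadj v (cadj v C w) y) ν (f.eval y))
    (hhit : ∃ l : ℕ, p ∣ l ∧ l ≠ 0 ∧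
      ¬ PG p v (cadj v (cadj v C w) y) (ν - l * s) ((taylor y f).coeff l))
    (hcls : ∀ l : ℕ, l ≠ 0 → p ∣ l →
      OC p v C (cadj v (cadj v C w) y) X₀ (ν - l * s) ((hasseDeriv l f).eval y)) :
    ∃ (N : ℕ) (c e₂ : Ω) (e' : k) (κ : ℕ → k) (g : ℕ → ℝ) (B : Polynomial Ω) (J : ℕ),
      1 ≤ N ∧ c ∈ cadj v C w ∧
      (e' ≠ 0 → ν - s ∈ VG v C) ∧
      (∀ i ∈ Icc 1 N, κ i ≠ 0 → g i ∈ VG v C ∧ p * g i + ξ = ν - p ^ i * s) ∧ κ N ≠ 0 ∧
      Nrm p v C w (y - c) ρ s ν (algebraMap k Ω e' * μ (ν - s))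
        (fun i => algebraMap k Ω (κ i) * μ (g i) ^ p * X₀) N B J 0 ∧
      e₂ ∈ C ∧ hasseDeriv 1 B = Polynomial.C e₂ ∧ (e₂ ≠ 0 → v e₂ = ν - ρ) ∧
      PG p v (cadj v (cadj v C w) y) ν
        (f.eval y - (algebraMap k Ω e' * μ (ν - s) * (y - c) +
          ∑ i ∈ Icc 1 N, algebraMap k Ω (κ i) * μ (g i) ^ p * X₀ * (y - c) ^ p ^ i +
          B.eval w)) := by
  classical
  have hpp : ∀ j : ℕ, j ≠ 0 → p ∣ p ^ j := fun j hj => dvd_pow_self p hj
  have hpj0 : ∀ j : ℕ, p ^ j ≠ 0 := fun j => (Nat.pow_pos hp.out.pos).ne'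
  have hCF : C ≤ cadj v C w := le_cadj v C w
  have hFK : cadj v C w ≤ cadj v (cadj v C w) y := le_cadj _ _ _
  obtain ⟨m, t, e₀, a₀, A₀, hpm, he₀, ha₀, hA₀, hev, hlo, htop, hrel, hst⟩ :=
    TWII.soc p hy hf hlp hhit
  -- the additive polynomial
  set x : ℕ → Ω := fun j => if j = 0 then e₀ else A₀ (j - 1) with hx
  have hx0 : x 0 = e₀ := by simp [hx]
  have hxs : ∀ j, x (j + 1) = A₀ j := fun j => by simp [hx]
  set R : Polynomial Ω := ∑ j ∈ range (t + 1 + 1), Polynomial.C (x j) * X ^ p ^ j with hR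
  have hxF : ∀ j, x j ∈ cadj v C w := fun j => by
    rcases j with _ | j
    · rw [hx0]
      exact he₀
    · rw [hxs]
      exact hA₀ j
  have hRF : R ∈ PI (cadj v C w) := sum_mem fun j _ =>
    mul_mem (C_mem_PI (hxF j)) (pow_mem X_mem_PI _)
  have hRe : R.eval y = e₀ * y + ∑ i ∈ range (t + 1), A₀ i * y ^ p ^ (i + 1) := by
    rw [hR, eval_finsetSum, sum_range_succ']
    simp only [eval_mul, eval_C, eval_pow, eval_X, hx0, hxs, pow_zero, pow_one]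
    ring
  have hRj : ∀ i : ℕ, i < t + 1 → hasseDeriv (p ^ (i + 1)) R = Polynomial.C (A₀ i) := by
    intro i hi
    rw [hR, hasse_add_poly x (t + 1) (hpj0 _),
      sum_eq_single_of_mem (i + 1) (mem_range.2 (by omega)) (fun j _ hj => if_neg ?_),
      if_pos rfl, hxs]
    intro h1
    exact hj (Nat.pow_right_injective hp.out.one_lt h1).symm
  have hrel' : PG p v (cadj v (cadj v C w) y) (ν - m * s)
      ((hasseDeriv m f).eval y - (a₀ + R.eval y)) := by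
    rw [hRe]
    refine (congrArg _ ?_).mp hrel
    ring
  -- the jets of the relation, after a change of the constant
  have hjet : ∀ b ∈ cadj v (cadj v C w) y, ∀ q ∈ PI (cadj v C w),
      PG p v (cadj v (cadj v C w) y) (ν - m * s) (q.eval y - (b + R.eval y)) → b ∈ cadj v C w →
      ∀ i < t + 1, PG p v (cadj v (cadj v C w) y) (ν - m * s - p ^ (i + 1) * s)
        ((hasseDeriv (p ^ (i + 1)) q).eval y - A₀ i) := by
    intro b _ q hq h1 hb i hi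
    have h2 := pg_jet (f := q - (Polynomial.C b + R)) hy
      (sub_mem hq (add_mem (C_mem_PI hb) hRF)) (by
        rw [eval_sub, eval_add, eval_C]
        exact h1) (hpj0 (i + 1))
    rw [map_sub, map_add, hRj i hi, hasseDeriv_eq_zero_of_lt_natDegree (Polynomial.C b) _ (by
      rw [natDegree_C]
      exact Nat.pos_of_ne_zero (hpj0 _)), zero_add, eval_sub, eval_C] at h2
    push_cast at h2
    exact h2
  -- `m = 0`
  have hm0 : m = 0 := by
    by_contra hm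
    obtain ⟨h, hh, h1⟩ := hcls m hm hpm
    have h2 : PG p v (cadj v (cadj v C w) y) (ν - m * s)
        ((0 : Polynomial Ω).eval y - ((a₀ - h ^ p * X₀) + R.eval y)) := by
      rw [eval_zero]
      have h3 := hrel'.sub h1
      refine (congrArg _ ?_).mp h3
      ring
    have h3 := hjet _ (hFK (sub_mem ha₀ (mul_mem (pow_mem (hCF hh) p) (hCF hXC)))) 0
      (zero_mem _) h2 (sub_mem ha₀ (mul_mem (pow_mem (hCF hh) p) (hCF hXC))) t (by omega)
    rw [map_zero, eval_zero, zero_sub] at h3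
    refine htop ?_
    have h4 := h3.neg
    rw [neg_neg] at h4
    push_cast
    exact h4
  subst hm0
  simp only [Nat.cast_zero, zero_mul, sub_zero, hasseDeriv_zero'] at hrel' hjet hev hlo htop hst
  have hAcl : ∀ i < t + 1, PG p v (cadj v (cadj v C w) y) (ν - p ^ (i + 1) * s)
      ((hasseDeriv (p ^ (i + 1)) f).eval y - A₀ i) := hjet a₀ (hFK ha₀) f hf hrel' ha₀
  have hsum : ∀ z : Ω, ∑ i ∈ Finset.range (t + 1), A₀ i * z ^ p ^ (i + 1) =
      ∑ i ∈ Icc 1 (t + 1), A₀ (i - 1) * z ^ p ^ i := by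
    intro z
    have e1 : Icc 1 (t + 1) = Ico 1 (t + 1 + 1) := by
      ext i
      simp only [mem_Icc, mem_Ico]
      omega
    rw [e1, sum_Ico_eq_sum_range]
    refine sum_congr rfl fun i _ => ?_
    rw [add_comm 1 i, Nat.add_sub_cancel]
  obtain ⟨c, e₂, e', κ, g, B, J, h1, h2, h3, h4, h5, h6, h7, h8, h9⟩ :=
    exists_nrm_mono (N := t + 1) (A₀ := fun i => A₀ (i - 1)) (a₀ := a₀) (e₀ := e₀)
      (a := f.eval y) hk hμ hw hy hXC hξ hX (by omega) he₀ hev ha₀ (fun i _ => hA₀ _)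
      (fun i hi => by
        obtain ⟨j, rfl⟩ : ∃ j, i = j + 1 := ⟨i - 1, by have := (mem_Icc.1 hi).1; omega⟩
        have h5 := hlo j
        push_cast at h5
        simpa using h5)
      (fun i hi => by
        obtain ⟨j, rfl⟩ : ∃ j, i = j + 1 := ⟨i - 1, by have := (mem_Icc.1 hi).1; omega⟩
        have hj : j < t + 1 := by have := (mem_Icc.1 hi).2; omega
        obtain ⟨h, hh, h5⟩ := hcls (p ^ (j + 1)) (hpj0 _) (hpp _ (by omega))
        refine ⟨h, hh, ?_⟩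
        rw [Nat.add_sub_cancel]
        have h6 := h5.sub (by
          have h7 := hAcl j hj
          push_cast
          exact h7)
        push_cast at h6
        refine TWII.PG.down hy (sub_mem (hA₀ j) (mul_mem (pow_mem (hCF hh) p) (hCF hXC)))
          ((congrArg _ ?_).mp h6)
        ring)
      (by
        intro h5
        refine htop (TWII.PG.up ?_)
        push_cast
        simpa using h5)
      (fun ε hε => by
        obtain ⟨δ, hδ, h5⟩ := hst ε hε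
        refine ⟨δ, hδ, fun θ hθ h6 => ?_⟩
        obtain ⟨q, hq, h8⟩ := h5 θ hθ h6
        refine ⟨q, hq, ?_⟩
        rw [hsum] at h8
        have e1 : e₀ * θ + ∑ i ∈ Icc 1 (t + 1), A₀ (i - 1) * θ ^ p ^ i + a₀ - q ^ p =
            a₀ + e₀ * θ + ∑ i ∈ Icc 1 (t + 1), A₀ (i - 1) * θ ^ p ^ i - q ^ p := by ring
        rw [e1]
        exact h8)
      (by
        rw [hRe, hsum] at hrel'
        have e1 : e₀ * y + ∑ i ∈ Icc 1 (t + 1), A₀ (i - 1) * y ^ p ^ i + a₀ =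
            a₀ + (e₀ * y + ∑ i ∈ Icc 1 (t + 1), A₀ (i - 1) * y ^ p ^ i) := by ring
        rw [e1]
        exact hrel')
  exact ⟨t + 1, c, e₂, e', κ, g, B, J, by omega, h1, h2, h3, h4, h5, h6, h7, h8, h9⟩

end Pool.Agent.TWRR
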