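import Pool.Agent.Lib.TWRR.J1E
import Pool.Agent.Lib.TWFN.V0B

/-!
# TANK W, contact, row B: the additive form over `C`, the second floor not hit

`C` closed, `F = C⟨u⟩`, `K = F⟨z⟩`, radii and level `0`, `u` not hit over `C`, `d` the derivation
`∂_u` of norm `≤ 0` which kills `C`.

* `cls_of_nh`: a critical element of `F` with strict derivative is in `C` + null;
* `st_of_lp`: the specialisation of a form;
* `af_of_noC`: if the jets of `z` along `u` are attained, and the derivatives of the effects are strict,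
  then `a` is an additive form over `C`, in particular `K` is a pair over `C`.
-/

set_option autoImplicit false

open Polynomial Finset

namespace Pool.Agent.TWRR

open Pool.Agent.H15JM (RVal)
open Pool.Agent.D2 (Ctx0)
open Pool.Agent.LU1 (VPos)
open Pool.Agent.TWM
open Pool.Agent.TWS (IsoE)
open Pool.Agent.TWII (PG LP)
open Pool.Agent.TWN1
open Pool.Agent.TWCT (Hit unh_of_not_hit)
open Pool.Agent.TWCY (Drv)

universe u

variable {k Ω : Type u} [Field k] [Field Ω] [Algebra k Ω] {v : RVal Ω}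
  {C F K : IntermediateField k Ω} {u z a : Ω} {p : ℕ} {s ν : ℝ}

/-- A derivation over `C`, at a polynomial in `u`. -/
theorem drv_poly {d : Ω → Ω} (hd : Drv v F d) (hCF : C ≤ F) (huF : u ∈ F) (hdC : ∀ g ∈ C, d g = 0)
    (hdu : d u = 1) {f : Polynomial Ω} (hf : f ∈ PI C) : d (f.eval u) = (derivative f).eval u := by
  have h1 : ∀ n : ℕ, d (u ^ n) = n * u ^ (n - 1) := by
    intro n
    induction n with
    | zero =>
      have h2 := hd.alg 1
      rw [map_one] at h2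
      rw [pow_zero, h2]
      simp
    | succ n ih =>
      rw [pow_succ, hd.mul _ (pow_mem huF n) _ huF, ih, Nat.add_sub_cancel, hdu]
      rcases n with _ | n
      · simp
      · rw [Nat.add_sub_cancel, pow_succ]
        push_cast
        ring
  rw [eval_eq_sum_range, drv_sum hd _ _ fun i _ => mul_mem (hCF (hf i)) (pow_mem huF i),
    derivative_eval, sum_over_range]
  · refine sum_congr rfl fun i _ => ?_
    rw [drv_mul hd (hCF (hf i)) (pow_mem huF i) (hdC _ (hf i)), h1]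
    ring
  · intro n
    rw [zero_mul, zero_mul]

section Cls

variable [hp : Fact p.Prime] [CharP Ω p] [IsAlgClosed Ω]

/-- **The class over `C`**: `u` not hit. -/
theorem cls_of_nh (hu : TL v C u 0) (hnh : ¬ Hit p v C u 0) {d : Ω → Ω}
    (hd : Drv v (cadj v C u) d) (hdC : ∀ g ∈ C, d g = 0) (hdu : d u = 1) {b : Ω}
    (hb : b ∈ cadj v C u) (hlp : LP p v (cadj v C u) 0 b) (hdb : VPos v (d b)) :
    ∃ g ∈ C, PG p v (cadj v C u) 0 (b - g) := by
  classical
  have hCF : C ≤ cadj v C u := le_cadj v C u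
  have huF : u ∈ cadj v C u := self_mem_cadj v C u
  obtain ⟨f, hf, h1, h2⟩ := unh_of_not_hit hu hb hlp hnh
  have hfu : f.eval u ∈ cadj v C u := TWLM.eval_mem_cadj hf
  -- the first jet
  have h3 : Gt v 0 ((hasseDeriv 1 f).eval u) := by
    rw [hasseDeriv_one', ← drv_poly hd hCF huF hdC hdu hf]
    obtain ⟨g, hg, h4⟩ := h1
    obtain ⟨η, hη, h5⟩ := TWLM.exists_ge_of_gt h4
    have h6 := hd.norm _ (sub_mem (sub_mem hb hfu) (pow_mem hg p)) _ h5
    rw [drv_sub hd (sub_mem hb hfu) (pow_mem hg p), drv_sub hd hb hfu, drv_pow hd hg,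
      sub_zero] at h6
    have e1 : d (f.eval u) = d b - (d b - d (f.eval u)) := by ring
    rw [e1]
    exact Gt.sub (hdb : Gt v 0 (d b)) (Gt.of_ge h6 (by linarith))
  obtain ⟨μ₀, hμ₀, h4⟩ := TWLM.exists_ge_of_gt h3
  -- all the jets
  have h5 : ∀ l : ℕ, ∃ h ∈ cadj v C u, l ≠ 0 → (¬ p ∣ l → h = 0) ∧
      ∃ μ : ℝ, 0 < μ ∧ v.Ge μ ((hasseDeriv l f).eval u - h ^ p) := by
    intro l
    by_cases hl : l = 0
    · exact ⟨0, zero_mem _, fun h => absurd hl h⟩
    by_cases hpl : p ∣ l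
    · obtain ⟨h, hh, h6⟩ := h2 l hpl hl
      rw [taylor_coeff, mul_zero, sub_zero] at h6
      obtain ⟨μ, hμ, h7⟩ := TWLM.exists_ge_of_gt h6
      exact ⟨h, hh, fun _ => ⟨fun h8 => absurd hpl h8, μ, hμ, by rwa [zero_add] at h7⟩⟩
    · refine ⟨0, zero_mem _, fun _ => ⟨fun _ => rfl, μ₀, hμ₀, ?_⟩⟩
      rw [zero_pow hp.out.ne_zero, sub_zero]
      exact TWFN.ge_jet_one hu hf (by rwa [zero_add] at h4) hpl
  choose h hh h6 using h5
  set n := f.natDegree with hn
  obtain ⟨μ, hμ, h7⟩ := exists_unif (Icc 1 n)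
    (P := fun l μ => v.Ge μ ((hasseDeriv l f).eval u - h l ^ p))
    (fun l a b hab h8 => h8.mono hab) fun l hl =>
      (h6 l (by have := (mem_Icc.1 hl).1; omega)).2
  set ε : ℝ := μ / (2 * (n + 1)) with hε
  have hn1 : (0 : ℝ) < n + 1 := by positivity
  have hε0 : 0 < ε := by positivity
  obtain ⟨θ, hθ, h8⟩ := hu.lim ε hε0
  have hθF : θ ∈ cadj v C u := hCF hθ
  refine ⟨f.eval θ, eval_mem hf hθ, ?_⟩
  have h9 : PG p v (cadj v C u) 0 (f.eval θ - f.eval u) := by
    have e1 : Icc 1 n = Ico 1 (n + 1) := by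
      ext j
      simp only [mem_Icc, mem_Ico]
      omega
    refine ⟨∑ l ∈ Icc 1 n, if p ∣ l then h l * (θ - u) ^ (l / p) else 0, sum_mem fun l _ => ?_, ?_⟩
    · split_ifs
      · exact mul_mem (hh l) (pow_mem (sub_mem hθF huF) _)
      · exact zero_mem _
    · have e2 : f.eval θ - f.eval u - (∑ l ∈ Icc 1 n, if p ∣ l then
          h l * (θ - u) ^ (l / p) else 0) ^ p =
          ∑ l ∈ Icc 1 n, ((hasseDeriv l f).eval u - h l ^ p) * (θ - u) ^ l := by
        rw [TWN1.rt_taylor (le_refl _) u θ, range_eq_Ico, sum_eq_sum_Ico_succ_bot (Nat.succ_pos _),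
          hasseDeriv_zero', pow_zero, mul_one, zero_add, add_sub_cancel_left, ← hn, ← e1,
          sum_pow_char, ← sum_sub_distrib]
        refine sum_congr rfl fun l hl => ?_
        have hl0 : l ≠ 0 := by
          have := (mem_Icc.1 hl).1
          omega
        by_cases hpl : p ∣ l
        · rw [if_pos hpl, _root_.mul_pow, ← pow_mul, Nat.div_mul_cancel hpl]
          ring
        · rw [if_neg hpl, (h6 l hl0).1 hpl, zero_pow hp.out.ne_zero]
          ring
      rw [e2]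
      refine Gt.of_ge (RVal.Ge.sum (c := μ / 2) _ _ fun l hl => ?_) (by linarith)
      have hl1 : (l : ℝ) ≤ n := by exact_mod_cast (mem_Icc.1 hl).2
      have h10 : v.Ge (-ε) (θ - u) := by
        have h11 := h8.neg
        rw [neg_sub] at h11
        exact h11.mono (by linarith)
      refine ((h7 l hl).mul (ge_pow h10 l)).mono ?_
      have h12 : (l : ℝ) * ε ≤ μ / 2 := by
        have h13 : (l : ℝ) * ε ≤ (n + 1) * ε := mul_le_mul_of_nonneg_right (by linarith) hε0.le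
        have h14 : ((n : ℝ) + 1) * ε = μ / 2 := by
          rw [hε]
          field_simp
        linarith
      linarith
  have h10 := PG.sub h1 h9
  refine (congrArg _ ?_).mp h10
  ring

/-- The specialisation of a form. -/
theorem st_of_lp (hz : TL v F z s) {e b : Ω} {A : ℕ → Ω} {N : ℕ} (he : e ∈ F)
    (hA : ∀ i ∈ Icc 1 N, A i ∈ F) (hb : b ∈ F) (hlp : LP p v (cadj v F z) ν (ff p e A N b z))
    {ε : ℝ} (hε : 0 < ε) : ∃ δ : ℝ, 0 < δ ∧ ∀ θ ∈ F, v.Ge (s - δ) (z - θ) →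
      PC p v F (ν - ε) (ff p e A N b θ) := by
  set P : Polynomial Ω := Polynomial.C e * X + ∑ i ∈ Icc 1 N, Polynomial.C (A i) * X ^ p ^ i +
    Polynomial.C b with hP
  have hPe : ∀ θ, P.eval θ = ff p e A N b θ := fun θ => by
    rw [hP, ff]
    simp [eval_finsetSum]
  have hPF : P ∈ PI F := add_mem (add_mem (mul_mem (C_mem_PI he) X_mem_PI) (sum_mem fun i hi =>
    mul_mem (C_mem_PI (hA i hi)) (pow_mem X_mem_PI _))) (C_mem_PI hb)
  obtain ⟨G, hG, h1⟩ := LP.exists_poly (f := P) hz (by rwa [hPe]) hε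
  obtain ⟨δ, hδ, h2⟩ := TL.deep hz {P - G ^ p} fun f hf => by
    rw [mem_singleton.1 hf]
    exact sub_mem hPF (pow_mem hG p)
  refine ⟨δ, hδ, fun θ hθ h3 => ⟨G.eval θ, eval_mem hG hθ, ?_⟩⟩
  have h4 := ((h2 θ h3 _ (mem_singleton_self _)).1 (ν - ε)).1 h1
  rwa [eval_sub, eval_pow, hPe] at h4

end Cls

/-! ### The classes of the effects -/

section Eff

variable [hp : Fact p.Prime] [CharP Ω p] {T : k → Ω →ₐ[k] Ω} {D : ℕ} {f : ℕ → Ω}
  {e e' φ a₀ : Ω} {A A' : ℕ → Ω} {N N' J : ℕ} {B : Polynomial Ω} {d : Ω → Ω}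

/-- **From one form of `a` to `JL` and the derivatives of the effects**, for another form in normal
form, all the coefficients in `C`. -/
theorem exists_jl_pts [IsAlgClosed Ω] [Infinite k] (hk : Ctx0 k v) (hw : TL v C u 0)
    (hz : TL v (cadj v C u) z 0) (hatt : Att v C (cadj v C u) u (z - φ) T D f)
    (hTF : ∀ c, ∀ g ∈ cadj v C u, T c g ∈ cadj v C u)
    (hd : Drv v (cadj v C u) d) (hdC : ∀ g ∈ C, d g = 0)
    (he : e ∈ C) (hA : ∀ i ∈ Icc 1 N, A i ∈ C) (hφ : φ ∈ cadj v C u) (ha₀ : a₀ ∈ cadj v C u)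
    (h1 : PG p v (cadj v (cadj v C u) z) 0
      (a - (e * (z - φ) + ∑ i ∈ Icc 1 N, A i * (z - φ) ^ p ^ i + a₀)))
    (hN : Nrm p v C u z 0 0 0 e' A' N' B J 0)
    (h2 : PG p v (cadj v (cadj v C u) z) 0
      (a - (e' * z + ∑ i ∈ Icc 1 N', A' i * z ^ p ^ i + B.eval u)))
    (hX : ∀ c, VPos v (e * d (∑ j ∈ Icc 1 D, algebraMap k Ω c ^ j * f j) + d (T c a₀ - a₀))) :
    ∃ (ψ : ℕ → Polynomial Ω) (D' : ℕ) (f'' : ℕ → Ω), JL p v C u z 0 0 e' J ψ D' ∧
      (∀ l, f'' l ∈ cadj v C u) ∧ (∀ l, l ≠ 0 → p ∣ l → v.Ge 1 (f'' l - (ψ l).eval u)) ∧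
      ∀ l, l ≠ 0 → VPos v (e' * d (f'' l) + d ((hasseDeriv l B).eval u)) := by
  classical
  have hCF : C ≤ cadj v C u := le_cadj v C u
  obtain ⟨q, hq, hφq⟩ := hw.dense hφ 1
  set D' := max D q.natDegree with hD'
  set f' : ℕ → Ω := fun j => (if j ≤ D then f j else 0) + (hasseDeriv j q).eval u with hf'
  have hatt' : Att v C (cadj v C u) u z T D' f' := hatt.shift hq (hφq.mono (by norm_num))
  obtain ⟨ψ, hψ, hψf⟩ := hatt'.exists_jl hk hw p e' J (r := 1) zero_le_one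
  set f'' : ℕ → Ω := fun j => if j ≤ D' then f' j else 0 with hf''
  have hf''F : ∀ j, f'' j ∈ cadj v C u := fun j => by
    simp only [hf'']
    split_ifs
    · exact hatt'.fF j
    · exact zero_mem _
  have hd0 : d 0 = 0 := by
    have h3 := hd.alg 0
    rwa [map_zero] at h3
  have he'0 : v.Ge 0 e' := hN.ege.mono (by norm_num)
  have hBF : ∀ l, (hasseDeriv l B).eval u ∈ cadj v C u := fun l =>
    TWLM.eval_mem_cadj (hasse_mem_PI hN.BC l)
  set M := max D' B.natDegree with hM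
  have hpt : ∀ c : k, Gt v 0 (∑ l ∈ Icc 1 M, algebraMap k Ω c ^ l *
      (e' * d (f'' l) + d ((hasseDeriv l B).eval u))) := by
    intro c
    set S := ∑ j ∈ Icc 1 D, algebraMap k Ω c ^ j * f j with hS
    have hcF : ∀ j : ℕ, algebraMap k Ω c ^ j ∈ cadj v C u := fun j =>
      pow_mem ((cadj v C u).algebraMap_mem c) j
    have hSF : S ∈ cadj v C u := sum_mem fun j _ => mul_mem (hcF j) (hatt.fF j)
    have hBw : B.eval u ∈ cadj v C u := TWLM.eval_mem_cadj hN.BC
    have h3 := drv_form (T := T c) (d := d) (S := S) hz hCF (hatt.iso c)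
      (fun g hg => hatt.fix c g hg) (hTF c) hd hdC he hA hN.eC hN.AC hφ ha₀ hBw hSF h1 h2
      (hatt.jet c) (hX c)
    have hdc : ∀ (j : ℕ), ∀ g ∈ cadj v C u, d (algebraMap k Ω c ^ j * g) =
        algebraMap k Ω c ^ j * d g := fun j g hg => by
      refine drv_mul hd (hcF j) hg ?_
      rw [← map_pow]
      exact hd.alg _
    have e1 : ∑ l ∈ Icc 1 M, algebraMap k Ω c ^ l *
        (e' * d (f'' l) + d ((hasseDeriv l B).eval u)) =
        e' * d (∑ l ∈ Icc 1 D', algebraMap k Ω c ^ l * f' l) + d (T c (B.eval u) - B.eval u) := by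
      rw [hatt'.taylor hN.BC (le_max_right D' B.natDegree) c,
        drv_sum hd _ _ fun l _ => mul_mem (hcF l) (hBF l),
        ← sum_Icc_ite _ f' (le_max_left D' B.natDegree),
        drv_sum hd _ _ fun l _ => mul_mem (hcF l) (hf''F l), mul_sum, ← sum_add_distrib]
      refine sum_congr rfl fun l _ => ?_
      rw [hdc l _ (hBF l), hdc l _ (hf''F l)]
      ring
    rw [e1]
    have e2 : ∑ l ∈ Icc 1 D', algebraMap k Ω c ^ l * f' l = S + (T c (q.eval u) - q.eval u) := by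
      rw [hatt.taylor hq (le_max_right D q.natDegree) c, hS,
        ← sum_Icc_ite _ f (le_max_left D q.natDegree), ← sum_add_distrib]
      refine sum_congr rfl fun l _ => ?_
      simp only [hf']
      ring
    rw [e2]
    have hqw : q.eval u ∈ cadj v C u := TWLM.eval_mem_cadj hq
    have hδ : T c (φ - q.eval u) - (φ - q.eval u) ∈ cadj v C u :=
      sub_mem (hTF c _ (sub_mem hφ hqw)) (sub_mem hφ hqw)
    have e3 : S + (T c (q.eval u) - q.eval u) = S + (T c φ - φ) -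
        (T c (φ - q.eval u) - (φ - q.eval u)) := by
      rw [map_sub]
      ring
    rw [e3, drv_sub hd (add_mem hSF (sub_mem (hTF c _ hφ) hφ)) hδ]
    have e4 : e' * (d (S + (T c φ - φ)) - d (T c (φ - q.eval u) - (φ - q.eval u))) +
        d (T c (B.eval u) - B.eval u) =
        (e' * d (S + (T c φ - φ)) + d (T c (B.eval u) - B.eval u)) -
        e' * d (T c (φ - q.eval u) - (φ - q.eval u)) := by ring
    rw [e4]
    refine Gt.sub h3 (Gt.of_ge (he'0.mul (hd.norm _ hδ 1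
      (((hatt.iso c).ge_iff.2 hφq).sub hφq))) (by norm_num))
  refine ⟨ψ, D', f'', hψ, hf''F, fun l hl hpl => ?_, fun l hl => ?_⟩
  · by_cases hlD : l ≤ D'
    · simp only [hf'', if_pos hlD]
      exact hψf l hl hlD fun _ => hpl
    · simp only [hf'', if_neg hlD]
      rw [hψ.deg l (not_le.1 hlD), eval_zero, sub_zero]
      exact RVal.Ge.zero
  · by_cases hlM : l ≤ M
    · exact gt_of_vdm hk hpt hl hlM
    · push Not at hlM
      have h3 : B.natDegree < l := (le_max_right _ _).trans_lt hlM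
      have h4 : ¬ l ≤ D' := not_le.2 ((le_max_left _ _).trans_lt hlM)
      rw [hasseDeriv_eq_zero_of_lt_natDegree B l h3, eval_zero]
      simp only [hf'', if_neg h4]
      rw [hd0, mul_zero, add_zero]
      exact Gt.zero

/-- **The classes of the effects**, from the derivation, any class statement. -/
theorem clsJ_of_drv [IsAlgClosed Ω] (hw : TL v C u 0) (hN : Nrm p v C u z 0 0 0 e A N B J 0)
    {φ : ℕ → Polynomial Ω} (hjl : JL p v C u z 0 0 e J φ D) (hd : Drv v (cadj v C u) d)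
    (hdC : ∀ g ∈ C, d g = 0)
    (hcls : ∀ b ∈ cadj v C u, LP p v (cadj v C u) 0 b → VPos v (d b) →
      ∃ g ∈ C, PG p v (cadj v C u) 0 (b - g))
    (hf : ∀ l, f l ∈ cadj v C u)
    (hfφ : ∀ l, l ≠ 0 → p ∣ l → v.Ge 1 (f l - (φ l).eval u))
    (hG : ∀ l, l ≠ 0 → VPos v (e * d (f l) + d ((hasseDeriv l B).eval u))) :
    ClsJ p v C u 0 0 e A N B φ := by
  intro l hl hpl
  have hCF : C ≤ cadj v C u := le_cadj v C u
  have heF := hCF hN.eC
  have hAF : ∀ m ∈ Icc 1 N, A m ∈ cadj v C u := fun m hm => hCF (hN.AC m hm)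
  have hφF : ∀ j, (φ j).eval u ∈ cadj v C u := fun j => TWLM.eval_mem_cadj (hjl.mem j)
  have hBF : (hasseDeriv l B).eval u ∈ cadj v C u :=
    TWLM.eval_mem_cadj (hasse_mem_PI hN.BC l)
  have hlp := hjl.ef_lp hw hN hl
  rw [mul_zero, sub_zero] at hlp
  have hmem : ∀ m ∈ Icc 1 N, (if p ^ m ∣ l then
      A m * ((φ (l / p ^ m)).eval u) ^ p ^ m else 0) ∈ cadj v C u := fun m hm => by
    split_ifs
    · exact mul_mem (hAF m hm) (pow_mem (hφF _) _)
    · exact zero_mem _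
  have hef : (ef p e A N B φ l).eval u ∈ cadj v C u := by
    rw [ef_eval]
    exact add_mem (add_mem (mul_mem heF (hφF l)) (sum_mem hmem)) hBF
  have hder : d ((ef p e A N B φ l).eval u) =
      e * d ((φ l).eval u) + d ((hasseDeriv l B).eval u) := by
    rw [ef_eval, hd.add _ (add_mem (mul_mem heF (hφF l)) (sum_mem hmem)) _ hBF,
      hd.add _ (mul_mem heF (hφF l)) _ (sum_mem hmem), drv_mul hd heF (hφF l) (hdC _ hN.eC),
      drv_sum hd _ _ hmem]
    have h1 : ∑ m ∈ Icc 1 N, d (if p ^ m ∣ l then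
        A m * ((φ (l / p ^ m)).eval u) ^ p ^ m else 0) = 0 := by
      refine sum_eq_zero fun m hm => ?_
      split_ifs
      · rw [drv_mul hd (hAF m hm) (pow_mem (hφF _) _) (hdC _ (hN.AC m hm)),
          drv_powq hd (hφF _) (mem_Icc.1 hm).1, mul_zero]
      · have h2 := hd.alg 0
        rwa [map_zero] at h2
    rw [h1, add_zero]
  rw [mul_zero, sub_zero]
  refine hcls _ hef hlp ?_
  rw [hder]
  have h1 := hd.norm _ (sub_mem (hf l) (hφF l)) 1 (hfφ l hl hpl)
  rw [drv_sub hd (hf l) (hφF l)] at h1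
  have h2 : v.Ge 0 e := hN.ege.mono (by norm_num)
  have h3 : Gt v 0 (e * (d (f l) - d ((φ l).eval u))) :=
    Gt.of_ge (h2.mul h1) (by norm_num)
  have e1 : e * d ((φ l).eval u) + d ((hasseDeriv l B).eval u) =
      (e * d (f l) + d ((hasseDeriv l B).eval u)) - e * (d (f l) - d ((φ l).eval u)) := by ring
  rw [e1]
  exact Gt.sub (hG l hl) h3

/-- **The additive form over `C`.** -/
theorem af_of_noC [IsAlgClosed Ω] [Infinite k] (hk : Ctx0 k v) (hu : TL v C u 0)
    (hz : TL v (cadj v C u) z 0) (hnh : ¬ Hit p v C u 0)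
    (hatt : Att v C (cadj v C u) u (z - φ) T D f)
    (hTF : ∀ c, ∀ g ∈ cadj v C u, T c g ∈ cadj v C u)
    (hd : Drv v (cadj v C u) d) (hdC : ∀ g ∈ C, d g = 0) (hdu : d u = 1) {e : k} (hN1 : 1 ≤ N)
    (hA : ∀ i ∈ Icc 1 N, A i ∈ C) (hAl : ∀ i ∈ Icc 1 N, LP p v (cadj v C u) 0 (A i))
    (htop : ¬ PG p v (cadj v C u) 0 (A N)) (hφ : φ ∈ cadj v C u) (ha₀ : a₀ ∈ cadj v C u)
    (hlp : LP p v (cadj v (cadj v C u) z) 0 a)
    (h1 : PG p v (cadj v (cadj v C u) z) 0 (a - (algebraMap k Ω e * (z - φ) +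
      ∑ i ∈ Icc 1 N, A i * (z - φ) ^ p ^ i + a₀)))
    (hX : ∀ c, VPos v (algebraMap k Ω e * d (∑ j ∈ Icc 1 D, algebraMap k Ω c ^ j * f j) +
      d (T c a₀ - a₀))) :
    ∃ g ∈ cadj v C u, ∃ (b₀ : Ω) (x : ℕ → Ω) (S : ℕ) (y' : ℕ → Ω),
      AF p v C (cadj v (cadj v C u) z) 0 a b₀ u 0 x S (z - g) 0 y' N ∧
      (∀ i ∈ Icc 1 N, y' i = A i) ∧ (∀ i, N < i → y' i = 0) ∧ ¬ PG p v C 0 (y' N) := by
  have hCF : C ≤ cadj v C u := le_cadj v C u
  have hz₁ : TL v (cadj v C u) (z - φ) 0 := hz.sub_mem hφ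
  have hK₁ : cadj v (cadj v C u) (z - φ) = cadj v (cadj v C u) z := cadj_sub_mem hφ
  have heC : algebraMap k Ω e ∈ C := C.algebraMap_mem e
  have hev : algebraMap k Ω e ≠ 0 → v (algebraMap k Ω e) = 0 - 0 := fun h => by
    rw [sub_zero]
    exact hk.triv e fun h0 => h (by rw [h0, map_zero])
  have hAF : ∀ i ∈ Icc 1 N, A i ∈ cadj v C u := fun i hi => hCF (hA i hi)
  have hD₁ : Dat p v (cadj v C u) (cadj v (cadj v C u) (z - φ)) (z - φ) 0 0 a N (algebraMap k Ω e) A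
      a₀ := by
    refine ⟨hN1, hCF heC, ?_, hAF, fun i hi => ?_, ?_, ha₀, fun ε hε => ?_, ?_⟩
    · rw [sub_zero]
      exact hk.ge e
    · rw [mul_zero, sub_zero]
      exact hAl i hi
    · rw [mul_zero, sub_zero]
      exact htop
    · refine st_of_lp hz₁ (hCF heC) hAF ha₀ ?_ hε
      rw [hK₁]
      exact lp_of_pg_add hlp h1
    · rw [hK₁]
      exact h1
  obtain ⟨c, hc, e₂, he₂, B, hB, hBd, hBX, hee, he₂v, hD₂⟩ := hD₁.toX hu hz₁ heC hev hA
  have hz₂ : TL v (cadj v C u) (z - φ - c) 0 := hz₁.sub_mem hc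
  have hN := hD₂.nrm hu hz₂ hB heC hev hA hBd hee he₂v hBX
  have hB1 : hasseDeriv 1 B = Polynomial.C e₂ := by rw [hasseDeriv_one', hBd]
  have hK₂ : cadj v (cadj v C u) (z - φ - c) = cadj v (cadj v C u) (z - φ) := cadj_sub_mem hc
  have h2 : PG p v (cadj v (cadj v C u) (z - φ - c)) 0 (a - (algebraMap k Ω e * (z - φ - c) +
      ∑ i ∈ Icc 1 N, A i * (z - φ - c) ^ p ^ i + B.eval u)) := by
    rw [hK₂]
    exact hD₂.rel
  have e1 : z - φ - c - -c = z - φ := by ring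
  obtain ⟨ψ, D', f'', hjl, hfF, hfψ, hG⟩ := exists_jl_pts (z := z - φ - c) (φ := -c) (f := f)
    (T := T) (D := D) hk hu hz₂ (by rw [e1]; exact hatt) hTF hd hdC heC hA (neg_mem hc) ha₀
    (by rw [e1, hK₂, hK₁]; exact h1) hN h2 hX
  have hcl := clsJ_of_drv hu hN hjl hd hdC (fun b hb hlp hdb => cls_of_nh hu hnh hd hdC hdu hb hlp hdb)
    hfF hfψ hG
  obtain ⟨g, hg, b₀, x, S, y', h3, h4, h5, h6, -⟩ := hjl.af hu hz₂ hN hcl hB1 h2
  rw [hK₂, hK₁] at h3
  rw [mul_zero, sub_zero] at h5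
  refine ⟨φ + c + g.eval u, add_mem (add_mem hφ hc) (TWLM.eval_mem_cadj hg), b₀, x, S, y', ?_, h4,
    h6, h5⟩
  have e2 : z - (φ + c + g.eval u) = z - φ - c - g.eval u := by ring
  rw [e2]
  exact h3

end Eff

end Pool.Agent.TWRR
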