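import Pool.Agent.Lib.TWCT.ConS
import Pool.Agent.Lib.TWCT.Null
import Pool.Agent.Lib.TWN1.RatB
import Pool.Agent.Lib.TWD.Vdm

/-!
# TANK W, contact: the residue case of RAT, part 0: the family, H0

`FamR v C w ρ t`: strict motions of `C⟨w⟩`, near to the identity on `C`, which move `w` by `c t`,
for `c ∈ k` outside any finite set.
* `famR_of_mov`: from `MovR`;
* `FamR.poly`: the effect on finitely many polynomials;
* `H0w`, `FamR.h0`: H0.
-/

set_option autoImplicit false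

open Polynomial Finset

namespace Pool.Agent.TWRR

open Pool.Agent.H15JM (RVal)
open Pool.Agent.LU1 (VPos adj)
open Pool.Agent.D2 (Ctx0)
open Pool.Agent.D2P (hen clI mem_clI)
open Pool.Agent.TWM
open Pool.Agent.TWS
open Pool.Agent.TWII (PG LP)
open Pool.Agent.TWN1 (PC)
open Pool.Agent.TWCT

universe u

variable {k Ω : Type u} [Field k] [Field Ω] [Algebra k Ω] {v : RVal Ω}
  {C F K : IntermediateField k Ω} {w t : Ω} {ρ : ℝ}

/-- Strict motions of `C⟨w⟩`, near to the identity on `C`, with displacements `c t` of `w`, `c`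
outside any finite set. -/
structure FamR (v : RVal Ω) (C : IntermediateField k Ω) (w : Ω) (ρ : ℝ) (t : Ω) : Prop where
  tl : TL v C w ρ
  tC : t ∈ C
  t0 : t ≠ 0
  vt : v t = ρ
  fam : ∀ (S : Finset Ω) (M : ℝ) (R : Finset k), (∀ x ∈ S, x ∈ C) →
    ∃ (Φ : Ω →ₐ[k] Ω) (η : ℝ) (c : k), c ∉ R ∧ 0 < η ∧ IsoE v v Φ ∧
      (∀ a ∈ cadj v C w, Φ a ∈ cadj v C w) ∧ StrM v Φ (cadj v C w) η ∧
      Φ w = w + algebraMap k Ω c * t ∧ ∀ x ∈ S, v.Ge M (Φ x - x)

theorem famR_of_mov {L : ℕ → IntermediateField k Ω} (hL : Monotone L)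
    (hd : C ≤ clI v (⨆ J, L J)) (hw : TL v C w ρ) (h : MovR v L C w ρ) :
    ∃ t, FamR v C w ρ t := by
  obtain ⟨t, htC, ht0, hvt, hR⟩ := h
  refine ⟨t, hw, htC, ht0, hvt, fun S M R hS => ?_⟩
  obtain ⟨J₀, hJ₀⟩ := exists_level hL hd S hS M
  obtain ⟨Φ, η, c, hc, h1, h2, h3⟩ := hR J₀ R
  exact ⟨Φ, η, c, hc, h2.pos, h2.iso, fun a ha => h2.mem ha, h2.str, h3,
    fun x hx => hJ₀ J₀ le_rfl Φ h2.iso h2.fix x hx⟩

/-- Displacements of value `≥ ρ`. -/
theorem ge_smul_t (hk : Ctx0 k v) (h : FamR v C w ρ t) (c : k) :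
    v.Ge ρ (algebraMap k Ω c * t) := by
  have h1 := (hk.ge c).mul (RVal.ge_self (v := v) t)
  rwa [h.vt, zero_add] at h1

/-- The effect on finitely many polynomials. -/
theorem FamR.poly (hk : Ctx0 k v) (h : FamR v C w ρ t) (T : Finset (Polynomial Ω))
    (hT : ∀ f ∈ T, f ∈ PI C) (M : ℝ) (R : Finset k) :
    ∃ (Φ : Ω →ₐ[k] Ω) (η : ℝ) (c : k), c ∉ R ∧ 0 < η ∧ IsoE v v Φ ∧
      (∀ a ∈ cadj v C w, Φ a ∈ cadj v C w) ∧ StrM v Φ (cadj v C w) η ∧
      Φ w = w + algebraMap k Ω c * t ∧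
      ∀ f ∈ T, v.Ge M (Φ (f.eval w) - f.eval (w + algebraMap k Ω c * t)) := by
  classical
  obtain ⟨m₀, hm, hmρ⟩ : ∃ m : ℝ, v.Ge m w ∧ m ≤ ρ :=
    ⟨min (v w) ρ, (RVal.ge_self w).mono (min_le_left _ _), min_le_right _ _⟩
  set D := T.sup natDegree with hD
  obtain ⟨Φ, η, c, hc, h1, h2, h3, h4, h5, h6⟩ := h.fam
    (T.biUnion fun f => (range (D + 1)).image f.coeff) (M + (D + 1) * |m₀|) R (fun x hx => by
      obtain ⟨f, hf, hx⟩ := mem_biUnion.1 hx
      obtain ⟨i, -, rfl⟩ := mem_image.1 hx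
      exact hT f hf i)
  refine ⟨Φ, η, c, hc, h1, h2, h3, h4, h5, fun f hf => ?_⟩
  set u := w + algebraMap k Ω c * t with hu
  have hum : v.Ge m₀ u := hm.add ((ge_smul_t hk h c).mono hmρ)
  have hfD : f.natDegree ≤ D := Finset.le_sup (f := natDegree) hf
  have e1 : Φ (f.eval w) - f.eval u =
      ∑ i ∈ range (D + 1), (Φ (f.coeff i) - f.coeff i) * u ^ i := by
    rw [eval_eq_sum_range' (Nat.lt_succ_of_le hfD), eval_eq_sum_range' (Nat.lt_succ_of_le hfD),
      map_sum, ← sum_sub_distrib]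
    refine sum_congr rfl fun i _ => ?_
    rw [map_mul, map_pow, h5]
    ring
  rw [e1]
  refine RVal.Ge.sum _ _ fun i hi => ?_
  refine ((h6 _ (mem_biUnion.2 ⟨f, hf, mem_image_of_mem _ hi⟩)).mul (ge_pow hum i)).mono ?_
  have h7 : (i : ℝ) ≤ D + 1 := by
    have := mem_range.1 hi
    exact_mod_cast this.le
  have h8 : (i : ℝ) * |m₀| ≤ (D + 1) * |m₀| := mul_le_mul_of_nonneg_right h7 (abs_nonneg _)
  have h9 : (i : ℝ) * (-|m₀|) ≤ i * m₀ :=
    mul_le_mul_of_nonneg_left (neg_abs_le _) (Nat.cast_nonneg i)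
  linarith

/-- The value at a translate. -/
theorem ge_translate [IsAlgClosed Ω] (hw : TL v C w ρ) {f : Polynomial Ω} (hf : f ∈ PI C) {b : ℝ}
    (hb : v.Ge b (f.eval w)) {x : Ω} (hx : v.Ge ρ x) : v.Ge b (f.eval (w + x)) := by
  rw [TWN1.rt_taylor (le_refl f.natDegree) w (w + x)]
  refine RVal.Ge.sum _ _ fun j _ => ?_
  rw [add_sub_cancel_left]
  exact ((TWLM.poly_norm hw hf j hb).mul (ge_pow hx j)).mono (by linarith)

section P

variable {p : ℕ} [hp : Fact p.Prime] [CharP Ω p]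

/-- `F ^ p + O(> ν)`. -/
def pgsub (hp0 : p ≠ 0) [IsAlgClosed k] (hk : Ctx0 k v) (F : IntermediateField k Ω) (ν : ℝ) :
    Submodule k Ω where
  carrier := {x | PG p v F ν x}
  add_mem' hx hy := PG.add hx hy
  zero_mem' := PG.of_gt Gt.zero
  smul_mem' c x hx := by
    change PG p v F ν (c • x)
    rw [Algebra.smul_def, mul_comm]
    exact pg_const hp0 hk c hx

theorem mem_pgsub {hp0 : p ≠ 0} [IsAlgClosed k] {hk : Ctx0 k v} {ν : ℝ} {x : Ω} :
    x ∈ pgsub (p := p) hp0 hk F ν ↔ PG p v F ν x := Iff.rfl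

/-- **H0** for `w` over `C`. -/
def H0w (p : ℕ) (v : RVal Ω) (C : IntermediateField k Ω) (w : Ω) (ρ : ℝ) : Prop :=
  ∀ (f : Polynomial Ω) (ν : ℝ), f ∈ PI C → (∀ l, 2 ≤ l → ¬ p ∣ l → hasseDeriv l f = 0) →
    LP p v (cadj v C w) ν (f.eval w) → ∀ l : ℕ, l ≠ 0 → p ∣ l →
      PG p v (cadj v C w) (ν - l * ρ) ((hasseDeriv l f).eval w)

/-- **H0**, residue case. -/
theorem FamR.h0' [IsAlgClosed k] [IsAlgClosed Ω] (hk : Ctx0 k v) (h : FamR v C w ρ t)
    {f : Polynomial Ω} (hf : f ∈ PI C) {ν : ℝ} (hν : LP p v (cadj v C w) ν (f.eval w)) {l : ℕ}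
    (hl : l ≠ 0) (hpl : p ∣ l) :
    PG p v (cadj v C w) (ν - l * ρ) ((hasseDeriv l f).eval w) := by
  classical
  by_cases hlD : f.natDegree < l
  · rw [hasseDeriv_eq_zero_of_lt_natDegree f l hlD, eval_zero]
    exact .of_gt Gt.zero
  push Not at hlD
  set W := pgsub (p := p) hp.out.ne_zero hk (cadj v C w) ν with hW
  set A : ℕ → Ω := fun j => if j = 0 then 0 else (hasseDeriv j f).eval w * t ^ j with hA
  have hfw : f.eval w ∈ cadj v C w := TWLM.eval_mem_cadj hf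
  have hsum : ∀ c : k, ∑ j ∈ range (f.natDegree + 1), c ^ j • A j =
      f.eval (w + algebraMap k Ω c * t) - f.eval w := by
    intro c
    rw [TWN1.rt_taylor (le_refl f.natDegree) w (w + algebraMap k Ω c * t), sum_range_succ',
      sum_range_succ' (fun j => (hasseDeriv j f).eval w * (w + algebraMap k Ω c * t - w) ^ j)]
    have h0 : c ^ 0 • A 0 = 0 := by simp [hA]
    rw [h0, add_zero, hasseDeriv_zero', pow_zero, mul_one, add_sub_cancel_right]
    refine sum_congr rfl fun j _ => ?_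
    rw [hA]
    simp only [Nat.succ_ne_zero, if_false]
    rw [Algebra.smul_def, map_pow, add_sub_cancel_left, mul_pow]
    ring
  have hinf : {c : k | ∑ j ∈ range (f.natDegree + 1), c ^ j • A j ∈ W}.Infinite := by
    intro hfin
    obtain ⟨Φ, η, c, hc, h1, h2, h3, h4, h5, h6⟩ := h.poly hk {f}
      (fun g hg => by rw [mem_singleton.1 hg]; exact hf) (ν + 1) hfin.toFinset
    apply hc
    rw [hfin.mem_toFinset]
    change _ ∈ W
    rw [hsum]
    obtain ⟨g, hg, h7⟩ := StrM.null h4 h1 hfw hν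
    have h8 : PG p v (cadj v C w) ν (Φ (f.eval w) - f.eval w) :=
      ⟨Φ g - g, sub_mem (h3 g hg) hg, Gt.of_ge h7 (by linarith)⟩
    have h9 := PG.of_gt (p := p) (F := cadj v C w) (Gt.of_ge (h6 f (mem_singleton_self f))
      (show ν < ν + 1 by linarith))
    have e : f.eval (w + algebraMap k Ω c * t) - f.eval w = (Φ (f.eval w) - f.eval w) -
        (Φ (f.eval w) - f.eval (w + algebraMap k Ω c * t)) := by ring
    rw [e]
    exact W.sub_mem h8 h9
  have h1 := TWD.mem_of_vdm W hinf (fun c hc => hc) l (by omega)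
  rw [hA] at h1
  simp only [if_neg hl] at h1
  obtain ⟨m, rfl⟩ := hpl
  have h2 : PG p v (cadj v C w) ν ((hasseDeriv (p * m) f).eval w * (t ^ m) ^ p) := by
    rw [← pow_mul, mul_comm m p]
    exact h1
  refine PG.of_mul_pow (d := t ^ m) (pow_mem (le_cadj v C w h.tC) m) (pow_ne_zero _ h.t0) ?_
  refine h2.mono (le_of_eq ?_)
  rw [v.map_pow h.t0, h.vt]
  push_cast
  ring

theorem FamR.h0 [IsAlgClosed k] [IsAlgClosed Ω] (hk : Ctx0 k v) (h : FamR v C w ρ t) :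
    H0w p v C w ρ := fun _ _ hf _ hν _ hl hpl => h.h0' hk hf hν hl hpl

end P

end Pool.Agent.TWRR
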