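import Pool.Agent.Lib.TWRR.R0
import Pool.Agent.Lib.TWN1.Nf

/-!
# TANK W, contact: TOP and the normal form, from H0

`H0w p v C w ρ` is the only hypothesis on `w`, besides `TL`.
* `H0w.top`: TOP;
* `H0w.exists_nrm`: the normal form.
The proofs are those of `TWN1/Oc.lean`, `TWN1/Nf.lean`.
-/

set_option autoImplicit false

open Polynomial Finset

namespace Pool.Agent.TWRR

open Pool.Agent.H15JM (RVal)
open Pool.Agent.D2 (Ctx0)
open Pool.Agent.TWM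
open Pool.Agent.TWII (PG LP)
open Pool.Agent.TWN1

universe u

variable {k Ω : Type u} [Field k] [Field Ω] [Algebra k Ω] {v : RVal Ω}
  {C F K : IntermediateField k Ω} {w y : Ω} {ρ s ν : ℝ} {p : ℕ} [hp : Fact p.Prime] [CharP Ω p]
  {f : Polynomial Ω} {e e' b b' a θ : Ω} {A A' : ℕ → Ω} {N : ℕ} {μ δ : ℝ}

/-- **TOP**: `f(w) = e₂ w + c + null`. For `e₂ = 0` this is TOP of the text. -/
theorem H0w.top [IsAlgClosed Ω] (hw : TL v C w ρ) (h : H0w p v C w ρ)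
    (hf : f ∈ PI C) (hX : ∀ l, 2 ≤ l → ¬ p ∣ l → hasseDeriv l f = 0)
    (hν : LP p v (cadj v C w) ν (f.eval w)) {e₂ : Ω} (he : hasseDeriv 1 f = Polynomial.C e₂) :
    ∃ c ∈ C, PG p v (cadj v C w) ν (f.eval w - e₂ * w - c) := by
  obtain ⟨μ, δ₀, hμ, hδ₀, hdeep⟩ := exists_deep (l₀ := 0) hw hf
    (fun l hl hpl => h f ν hf hX hν l (by omega) hpl)
  have hL1 : (0 : ℝ) < 4 * (f.natDegree + 1) := by positivity
  set δ := min δ₀ (μ / (4 * (f.natDegree + 1))) with hδdef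
  have hδ : 0 < δ := lt_min hδ₀ (div_pos hμ hL1)
  have hδ1 : δ ≤ δ₀ := min_le_left _ _
  have hLδ : (f.natDegree + 1) * δ ≤ μ / 4 := by
    have h1 : δ ≤ μ / (4 * (f.natDegree + 1)) := min_le_right _ _
    rw [le_div_iff₀ hL1] at h1
    linarith
  obtain ⟨ψ, hψ, hwψ⟩ := hw.lim δ hδ
  have hj := hdeep ψ hψ (hwψ.mono (by linarith))
  have he2 : e₂ ∈ C := by
    have h1 := hasse_mem_PI hf 1 0
    rwa [he, coeff_C_zero] at h1
  -- the polynomial `f - e₂ X` satisfies the hypotheses of `jet_diff`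
  set f' := f - Polynomial.C e₂ * X with hf'
  have hjet : ∀ l, l ≠ 0 → l ≠ 1 → hasseDeriv l f' = hasseDeriv l f := by
    intro l h0 h1
    have h2 : hasseDeriv l (Polynomial.C e₂ * X) = 0 := by
      rw [← monomial_zero_left, ← monomial_one_one_eq_X, monomial_mul_monomial,
        hasseDeriv_monomial, Nat.choose_eq_zero_of_lt (by omega), Nat.cast_zero, zero_mul,
        monomial_zero_right]
    rw [hf', map_sub, h2, sub_zero]
  have hjet1 : hasseDeriv 1 f' = 0 := by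
    rw [hf', map_sub, he, hasseDeriv_one, derivative_C_mul, derivative_X, mul_one, sub_self]
  have hdeg : (f'.natDegree : ℝ) * δ ≤ μ / 2 := by
    have h1 : f'.natDegree ≤ f.natDegree + 1 := by
      refine (natDegree_sub_le _ _).trans (max_le (by omega) ?_)
      exact (natDegree_C_mul_le _ _).trans (natDegree_X_le.trans (by omega))
    have h2 : (f'.natDegree : ℝ) ≤ f.natDegree + 1 := by exact_mod_cast h1
    linarith [mul_le_mul_of_nonneg_right h2 hδ.le]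
  have h1 := jet_diff (p := p) (l₀ := 0) (f := f') (ν := ν) (dvd_zero p) (fun l h0 h1 => by
    rcases eq_or_ne l 1 with rfl | h2
    · exact hjet1
    · rw [hjet l (by omega) h2]
      exact hX l (by omega) h1) hψ (fun l h0 h1 => by
    have h2 : l ≠ 1 := by
      rintro rfl
      exact hp.out.one_lt.not_ge (Nat.le_of_dvd one_pos h1)
    rw [hjet l (by omega) h2]
    exact hj l h0 h1) hδ.le hdeg (le_cadj v C w) (self_mem_cadj v C w) hwψ
  rw [hasseDeriv_zero'] at h1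
  refine ⟨f'.eval ψ, ?_, ?_⟩
  · exact eval_mem (sub_mem hf (mul_mem (C_mem_PI he2) X_mem_PI)) hψ
  · have h2 : f'.eval w = f.eval w - e₂ * w := by
      rw [hf', eval_sub, eval_mul, eval_C, eval_X]
    rw [h2] at h1
    refine h1.pg ?_
    rw [Nat.cast_zero]
    linarith


/-- **(2.1)**: the coefficients are in `C`. -/
theorem H0w.toC [IsAlgClosed Ω] (hΩ : CompleteV v) (hw : TL v C w ρ) (h : H0w p v C w ρ)
    (hy : TL v (cadj v C w) y s) (hFK : cadj v C w ≤ K) (hyK : y ∈ K)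
    (hD : Dat p v (cadj v C w) K y s ν a N e A b) :
    ∃ c ∈ cadj v C w, ∃ e' ∈ C, ∃ (A' : ℕ → Ω) (b' : Ω), (∀ i ∈ Icc 1 N, A' i ∈ C) ∧
      (e' ≠ 0 → v e' = ν - s) ∧ Dat p v (cadj v C w) K (y - c) s ν a N e' A' b' := by
  have hp0 : (0 : ℝ) < p := by exact_mod_cast hp.out.pos
  have hQ : (0 : ℝ) < (p : ℝ) ^ N := by positivity
  have hNN : N ∈ Icc 1 N := mem_Icc.2 ⟨hD.N1, le_rfl⟩
  -- the first shift
  obtain ⟨c₁, hc₁, hyc₁⟩ := hy.lim (1 / (2 * p ^ N)) (by positivity)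
  have hy₁ : TL v (cadj v C w) (y - c₁) s := hy.sub_mem hc₁
  have hD₁ := hD.shift hc₁
  have hy₁K : y - c₁ ∈ K := sub_mem hyK (hFK hc₁)
  obtain ⟨B₁, hB₁, hb₁⟩ := hw.dense hD₁.bf (ν + 1)
  -- polynomials for the coefficients
  have hP : ∀ i : ℕ, ∃ P ∈ PI C, i ∈ Icc 1 N → v.Ge (ν - p ^ i * s + 1) (A i - P.eval w) := by
    intro i
    by_cases hi : i ∈ Icc 1 N
    · obtain ⟨P, hP, h1⟩ := hw.dense (hD.Af i hi) (ν - p ^ i * s + 1)
      exact ⟨P, hP, fun _ => h1⟩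
    · exact ⟨0, zero_mem _, fun h => absurd h hi⟩
  choose P hPm hPA using hP
  have hμ1 : (p : ℝ) ^ N * (1 / (2 * p ^ N)) < 1 := by
    have e1 : (p : ℝ) ^ N * (1 / (2 * p ^ N)) = 1 / 2 := by field_simp
    rw [e1]
    norm_num
  have hD₂ : Dat p v (cadj v C w) K (y - c₁) s ν a N e (fun i => (P i).eval w) (B₁.eval w) := by
    refine (hD₁.cmp hFK hy₁K (e' := e) (A' := fun i => (P i).eval w) (μ := 1)
      (δ := 1 / (2 * p ^ N)) hD.ef (fun i _ => TWLM.eval_mem_cadj (hPm i)) (by positivity) hyc₁ hμ1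
      (by rw [sub_self]; exact RVal.Ge.zero) fun i hi => PC.of_ge (hPA i hi)).base
      (TWLM.eval_mem_cadj hB₁) (hb₁.mono (by linarith)) (Gt.of_ge hb₁ (by linarith))
  -- Lemma M
  have hM : ∀ i ∈ Icc 1 N, Gt v (ν - p ^ i * s - ρ) ((derivative (P i)).eval w) :=
    TWLM.lemM_poly p hΩ hw hy₁ hD.ef hD.eg hB₁ (fun i _ => hPm i)
      (fun i hi ε hε => hD₂.Al i hi ε hε) fun ε hε => by
        obtain ⟨δ, hδ, h1⟩ := hD₂.st ε hε
        exact ⟨δ, hδ, fun θ hθ h2 => h1 _ (TWLM.eval_mem_cadj hθ) h2⟩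
  -- the coefficients in `C`
  have hC : ∀ i ∈ Icc 1 N, ∃ μ : ℝ, 0 < μ ∧ ∃ c ∈ C,
      PC p v (cadj v C w) (ν - p ^ i * s + μ) (A i - c) := by
    intro i hi
    obtain ⟨η, hη, h1⟩ := TWLM.exists_ge_of_gt (hM i hi)
    obtain ⟨G, hG, hGd, hGs⟩ := exists_anti p hw (g := derivative (P i))
      (by rw [← hasseDeriv_one']; exact hasse_mem_PI (hPm i) 1) (iterate_derivative_pred p _) h1
      (half_pos hη)
    have hGs' : Gt v (ν - p ^ i * s) (G.eval w) := Gt.of_ge hGs (by linarith)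
    have hd : derivative (P i - G) = 0 := by rw [derivative_sub, hGd, sub_self]
    have hd' : hasseDeriv 1 (P i - G) = Polynomial.C 0 := by
      rw [hasseDeriv_one', hd, Polynomial.C_0]
    have hlp : LP p v (cadj v C w) (ν - p ^ i * s) ((P i - G).eval w) := by
      rw [eval_sub]
      exact (hD₂.Al i hi).sub (PC.of_ge hGs'.ge).lp
    obtain ⟨c, hc, h2⟩ := h.top hw (sub_mem (hPm i) hG)
      (fun l _ hl => hasse_zero_of_derivative p hd hl) hlp hd'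
    have h3 : PG p v (cadj v C w) (ν - p ^ i * s) (A i - c) := by
      have e1 : A i - c = (A i - (P i).eval w) + G.eval w + ((P i - G).eval w - 0 * w - c) := by
        rw [eval_sub]
        ring
      rw [e1]
      exact PG.add' (PG.add' (PG.of_gt (Gt.of_ge (hPA i hi) (by linarith))) (PG.of_gt hGs')) h2
    obtain ⟨μ, hμ, h4⟩ := PG.exists_pc h3
    exact ⟨μ, hμ, c, hc, h4⟩
  -- the linear coefficient
  obtain ⟨e', he', he'v, hee'⟩ := exists_lead hw.imm hD.ef hD.eg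
  obtain ⟨μ₁, hμ₁, h1⟩ := TWLM.exists_ge_of_gt hee'
  obtain ⟨μ₂, hμ₂, h2⟩ := exists_unif (Icc 1 N)
    (P := fun i μ => ∃ c ∈ C, PC p v (cadj v C w) (ν - p ^ i * s + μ) (A i - c))
    (fun i a b hab ⟨c, hc, h3⟩ => ⟨c, hc, h3.mono (by linarith)⟩) hC
  choose! A' hA'C hA' using h2
  set μ := min μ₁ μ₂ with hμ
  have hμ0 : 0 < μ := lt_min hμ₁ hμ₂
  -- the second shift
  obtain ⟨c₂, hc₂, hyc₂⟩ := hy.lim (μ / (2 * p ^ N)) (by positivity)
  have hμ2 : (p : ℝ) ^ N * (μ / (2 * p ^ N)) < μ := by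
    have e1 : (p : ℝ) ^ N * (μ / (2 * p ^ N)) = μ / 2 := by field_simp
    rw [e1]
    linarith
  refine ⟨c₂, hc₂, e', he', A', _, hA'C, he'v, (hD.shift hc₂).cmp hFK (sub_mem hyK (hFK hc₂))
    (μ := μ) (hw.imm.le he') (fun i hi => hw.imm.le (hA'C i hi)) (by positivity) hyc₂ hμ2
    (h1.mono (by linarith [min_le_left μ₁ μ₂])) fun i hi => (hA' i hi).mono
      (by linarith [min_le_right μ₁ μ₂])⟩


/-- **R3**: (2.1) + (2.2) + (2.4) + (2.5), start with `R = 0`. -/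
theorem H0w.exists_nrm [IsAlgClosed Ω] (hΩ : CompleteV v) (hw : TL v C w ρ) (h : H0w p v C w ρ)
    {y a : Ω} (hy : TL v (cadj v C w) y s)
    {e₀ a₀ : Ω} {A₀ : ℕ → Ω} {N : ℕ} (hN : 1 ≤ N) (he₀ : e₀ ∈ cadj v C w)
    (hev : v.Ge (ν - s) e₀) (ha₀ : a₀ ∈ cadj v C w)
    (hA₀ : ∀ i ∈ Icc 1 N, A₀ i ∈ cadj v C w)
    (hlo : ∀ i ∈ Icc 1 N, LP p v (cadj v C w) (ν - p ^ i * s) (A₀ i))
    (htop : ¬ PG p v (cadj v C w) (ν - p ^ N * s) (A₀ N))
    (hst : ∀ ε : ℝ, 0 < ε → ∃ δ : ℝ, 0 < δ ∧ ∀ θ ∈ cadj v C w, v.Ge (s - δ) (y - θ) →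
      ∃ g ∈ cadj v C w, v.Ge (ν - ε)
        (e₀ * θ + ∑ i ∈ Icc 1 N, A₀ i * θ ^ p ^ i + a₀ - g ^ p))
    (ha : PG p v (cadj v (cadj v C w) y) ν
      (a - (e₀ * y + ∑ i ∈ Icc 1 N, A₀ i * y ^ p ^ i + a₀))) :
    ∃ (c e e₂ : Ω) (A : ℕ → Ω) (B : Polynomial Ω) (J : ℕ), c ∈ cadj v C w ∧
      Nrm p v C w (y - c) ρ s ν e A N B J 0 ∧
      (e ≠ 0 → v e = ν - s) ∧ e₂ ∈ C ∧ hasseDeriv 1 B = Polynomial.C e₂ ∧
      (e₂ ≠ 0 → v e₂ = ν - ρ) ∧
      PG p v (cadj v (cadj v C w) y) ν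
        (a - (e * (y - c) + ∑ i ∈ Icc 1 N, A i * (y - c) ^ p ^ i + B.eval w)) := by
  have hyK : y ∈ cadj v (cadj v C w) y := self_mem_cadj _ _ _
  have hFK : cadj v C w ≤ cadj v (cadj v C w) y := le_cadj _ _ _
  have hD : Dat p v (cadj v C w) (cadj v (cadj v C w) y) y s ν a N e₀ A₀ a₀ :=
    ⟨hN, he₀, hev, hA₀, hlo, htop, ha₀, hst, ha⟩
  obtain ⟨c₁, hc₁, e, heC, A, b, hAC, hev', hD₁⟩ := h.toC hΩ hw hy hFK hyK hD
  have hy₁ := hy.sub_mem hc₁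
  obtain ⟨c₂, hc₂, e₂, he₂, B, hB, hBd, hBX, hee, he₂v, hD₂⟩ := hD₁.toX hw hy₁ heC hev' hAC
  have hy₂ := hy₁.sub_mem hc₂
  have e1 : y - (c₁ + c₂) = y - c₁ - c₂ := by ring
  refine ⟨c₁ + c₂, e, e₂, A, B, B.natDegree / p ^ N, add_mem hc₁ hc₂, ?_, hev', he₂,
    by rw [hasseDeriv_one', hBd], he₂v, ?_⟩
  · rw [e1]
    exact hD₂.nrm hw hy₂ hB heC hev' hAC hBd hee he₂v hBX
  · rw [e1]
    exact hD₂.rel


end Pool.Agent.TWRR
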