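import Pool.Agent.Lib.TWRR.R1

/-!
# TANK W, contact: the residue case of RAT, part 2: the limits of the jets

`hN : Nrm p v C w y ρ s ν e A N B J 0`, `FamR v C w ρ t`. The jets `D^[j] θ (w)`, `j ≥ 1`, of the
approximants `θ` of `y` converge to `φ_j(w)` modulo `{≥ s - j ρ}`: `jets_lim`.
-/

set_option autoImplicit false

open Polynomial Finset

namespace Pool.Agent.TWRR

open Pool.Agent.H15JM (RVal)
open Pool.Agent.D2 (Ctx0)
open Pool.Agent.TWM
open Pool.Agent.TWS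
open Pool.Agent.TWII (PG LP)
open Pool.Agent.TWN1
open Pool.Agent.TWCT (StrM lp_map)

universe u

variable {k Ω : Type u} [Field k] [Field Ω] [Algebra k Ω] {v : RVal Ω}
  {C F K : IntermediateField k Ω} {w y t : Ω} {ρ s ν : ℝ} {p : ℕ} [hp : Fact p.Prime] [CharP Ω p]
  {e : Ω} {A : ℕ → Ω} {N J : ℕ} {B : Polynomial Ω}

/-- Dominance for one element. -/
theorem lin_dom (hD : Dt p v C F s ν e A N) {X : Ω} (hX : X ∈ F) {ε : ℝ}
    (hε : 0 < ε) (h : LP p v F (ν - p ^ N * ε) (e * X + ∑ i ∈ Icc 1 N, A i * X ^ p ^ i)) :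
    v.Ge (s - ε) X := by
  have hp0 : (0 : ℝ) < p := by exact_mod_cast hp.out.pos
  have hp1 : (1 : ℝ) < p := by exact_mod_cast hp.out.one_lt
  have hQ0 : (0 : ℝ) < (p : ℝ) ^ N := by positivity
  intro h0
  by_contra hlt
  push Not at hlt
  obtain ⟨d, hd⟩ : ∃ d, d = s - v X := ⟨_, rfl⟩
  have hdε : ε < d := by linarith
  have hd0 : 0 < d := hε.trans hdε
  have hX' : v.Ge (s - d) X := by
    rw [hd]
    exact (RVal.ge_self X).mono (by linarith)
  have hN1 := hD.N1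
  set τ := max (p ^ N * ε) (p ^ (N - 1) * d) with hτ
  have hτ1 : (p : ℝ) ^ N * ε ≤ τ := le_max_left _ _
  have hτ2 : (p : ℝ) ^ (N - 1) * d ≤ τ := le_max_right _ _
  have hpd : ∀ i, i < N → (p : ℝ) ^ i * d ≤ τ := fun i hi => by
    refine le_trans ?_ hτ2
    exact mul_le_mul_of_nonneg_right (pow_le_pow_right₀ hp1.le (by omega)) hd0.le
  have h1 := dom (F := F) hN1 hD.Alp hD.top hD.ege (ce := X) (c := fun _ => X)
    (fun _ _ => hX) (τ := 0) (t := τ) (hX'.mono (by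
      have := hpd 0 (by omega)
      rw [pow_zero, one_mul] at this
      linarith)) (fun i hi => by
      obtain ⟨hi1, hi2⟩ := mem_Ico.1 hi
      refine hX'.mono ?_
      have h2 : d ≤ τ / p ^ i := by
        rw [le_div_iff₀ (by positivity)]
        linarith [hpd i hi2]
      linarith) (lp_mono h (by linarith))
  have h2 := h1 h0
  have h3 : τ / (p : ℝ) ^ N < d := by
    rw [div_lt_iff₀ hQ0]
    refine max_lt (by nlinarith) ?_
    have h4 : (p : ℝ) ^ (N - 1) < (p : ℝ) ^ N := pow_lt_pow_right₀ hp1 (by omega)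
    nlinarith
  linarith

/-- The displacement of an approximant. -/
theorem disp_ge [IsAlgClosed Ω] (hk : Ctx0 k v) (hF : FamR v C w ρ t)
    (hN : Nrm p v C w y ρ s ν e A N B J 0) {Φ : Ω →ₐ[k] Ω} (hΦ : IsoE v v Φ)
    (hmem : ∀ a ∈ cadj v C w, Φ a ∈ cadj v C w) {c : k}
    {m : ℝ} (hm : v.Ge m y) (hms : m ≤ s - 1)
    (he : v.Ge (ν + p ^ N * |m|) (Φ e - e))
    (hA : ∀ i ∈ Icc 1 N, v.Ge (ν + p ^ N * |m|) (Φ (A i) - A i))
    (hB : v.Ge ν (Φ (B.eval w) - B.eval (w + algebraMap k Ω c * t))) {θ : Polynomial Ω}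
    (hθ : θ ∈ PI C) {ε : ℝ} (hε : 0 < ε) (hε1 : ε ≤ 1) (hyθ : v.Ge (s - ε) (y - θ.eval w)) :
    v.Ge (s - ε) (Φ (θ.eval w) - θ.eval (w + algebraMap k Ω c * t)) := by
  have hp0 : (0 : ℝ) < p := by exact_mod_cast hp.out.pos
  have hp1 : (1 : ℝ) ≤ p := by exact_mod_cast hp.out.one_lt.le
  have hQ0 : (0 : ℝ) < (p : ℝ) ^ N := by positivity
  set u := w + algebraMap k Ω c * t with hu
  have hut : v.Ge ρ (algebraMap k Ω c * t) := ge_smul_t hk hF c
  have huF : u ∈ cadj v C w := add_mem (self_mem_cadj v C w)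
    (mul_mem ((cadj v C w).algebraMap_mem c) (le_cadj v C w hF.tC))
  have hevu : ∀ g ∈ PI C, g.eval u ∈ cadj v C w := fun g hg =>
    eval_mem (PI_mono (le_cadj v C w) hg) huF
  have hθF : θ.eval w ∈ cadj v C w := TWLM.eval_mem_cadj hθ
  -- the levels
  have hlev := hN.lev hθ hε.le hyθ
  have h1 : LP p v (cadj v C w) (ν - p ^ N * ε) (Φ ((fth p e A N B θ).eval w)) :=
    lp_map hΦ hmem hlev
  have hfm : fth p e A N B θ ∈ PI C := fth_mem hN.toDt hN.BC hθ
  have h2 : LP p v (cadj v C w) (ν - p ^ N * ε) ((fth p e A N B θ).eval u) := by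
    intro ε' hε'
    obtain ⟨G, hG, h3⟩ := LP.exists_poly hF.tl hlev hε'
    have h4 := ge_translate hF.tl (sub_mem hfm (pow_mem hG p)) h3 hut
    rw [eval_sub, eval_pow] at h4
    exact ⟨_, hevu G hG, h4⟩
  -- the value of `Φ θ(w)`
  have hθv : v.Ge m (Φ (θ.eval w)) := by
    rw [hΦ.ge_iff]
    have e1 : θ.eval w = y - (y - θ.eval w) := by ring
    rw [e1]
    exact hm.sub (hyθ.mono (by linarith))
  have hpm : ∀ i, i ≤ N → -((p : ℝ) ^ N * |m|) ≤ (p : ℝ) ^ i * m := fun i hi => by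
    have h5 : (p : ℝ) ^ i ≤ (p : ℝ) ^ N := pow_le_pow_right₀ hp1 hi
    have h6 : (p : ℝ) ^ i * |m| ≤ (p : ℝ) ^ N * |m| := mul_le_mul_of_nonneg_right h5 (abs_nonneg m)
    have h7 : (p : ℝ) ^ i * (-|m|) ≤ p ^ i * m :=
      mul_le_mul_of_nonneg_left (neg_abs_le m) (by positivity)
    linarith
  -- the relation
  set X := Φ (θ.eval w) - θ.eval u with hX
  have hXF : X ∈ cadj v C w := sub_mem (hmem _ hθF) (hevu θ hθ)
  refine lin_dom hN.toDt hXF hε ?_
  have e1 : e * X + ∑ i ∈ Icc 1 N, A i * X ^ p ^ i =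
      (Φ ((fth p e A N B θ).eval w) - (fth p e A N B θ).eval u) -
      ((Φ e - e) * Φ (θ.eval w) + ∑ i ∈ Icc 1 N, (Φ (A i) - A i) * Φ (θ.eval w) ^ p ^ i +
        (Φ (B.eval w) - B.eval u)) := by
    rw [fth_eval, fth_eval, ff, ff, map_add, map_add, map_mul, map_sum]
    have h5 : ∑ i ∈ Icc 1 N, A i * X ^ p ^ i = ∑ i ∈ Icc 1 N, A i * Φ (θ.eval w) ^ p ^ i -
        ∑ i ∈ Icc 1 N, A i * θ.eval u ^ p ^ i := by
      rw [← sum_sub_distrib]
      refine sum_congr rfl fun i _ => ?_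
      rw [hX, sub_pow_char_pow]
      ring
    have h6 : ∑ i ∈ Icc 1 N, (Φ (A i) - A i) * Φ (θ.eval w) ^ p ^ i =
        ∑ i ∈ Icc 1 N, Φ (A i * θ.eval w ^ p ^ i) - ∑ i ∈ Icc 1 N, A i * Φ (θ.eval w) ^ p ^ i := by
      rw [← sum_sub_distrib]
      refine sum_congr rfl fun i _ => ?_
      rw [map_mul, map_pow]
      ring
    rw [h5, h6, hX]
    ring
  rw [e1]
  refine (h1.sub h2).sub (lp_of_ge (((RVal.Ge.add ?_ ?_).add hB).mono (by
    have : 0 < (p : ℝ) ^ N * ε := by positivity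
    linarith)))
  · refine (he.mul hθv).mono ?_
    have := hpm 0 (Nat.zero_le _)
    rw [pow_zero, one_mul] at this
    linarith
  · refine RVal.Ge.sum _ _ fun i hi => ?_
    refine ((hA i hi).mul (ge_pow hθv (p ^ i))).mono ?_
    have := hpm i (mem_Icc.1 hi).2
    push_cast
    linarith

/-- **The limits of the jets.** -/
theorem jets_lim [IsAlgClosed Ω] (hk : Ctx0 k v) (hF : FamR v C w ρ t)
    (hN : Nrm p v C w y ρ s ν e A N B J 0) :
    ∃ (φ : ℕ → Polynomial Ω) (ε₀ : ℝ), 0 < ε₀ ∧ (∀ j, φ j ∈ PI C) ∧ (∀ j, J < j → φ j = 0) ∧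
      (e ≠ 0 → ∀ j, ¬ p ∣ j → φ j = 0) ∧
      ∀ (ε : ℝ) (θ : Polynomial Ω), 0 < ε → ε ≤ ε₀ → θ ∈ PI C → θ.natDegree ≤ J →
        (e ≠ 0 → ∀ l, ¬ p ∣ l → hasseDeriv l θ = 0) → v.Ge (s - ε) (y - θ.eval w) →
        ∀ j : ℕ, j ≠ 0 → v.Ge (s - j * ρ - ε) ((hasseDeriv j θ).eval w - (φ j).eval w) := by
  classical
  have hQ0 : (0 : ℝ) < (p : ℝ) ^ N := by
    have := hp.out.pos
    positivity
  obtain ⟨m, hm, hms⟩ : ∃ m : ℝ, v.Ge m y ∧ m ≤ s - 1 :=
    ⟨min (v y) (s - 1), (RVal.ge_self y).mono (min_le_left _ _), min_le_right _ _⟩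
  have hNN : N ∈ Icc 1 N := mem_Icc.2 ⟨hN.N1, le_rfl⟩
  -- the motions
  set P : k → Prop := fun c => ∃ (Φ : Ω →ₐ[k] Ω) (η : ℝ), 0 < η ∧ IsoE v v Φ ∧
    (∀ a ∈ cadj v C w, Φ a ∈ cadj v C w) ∧ StrM v Φ (cadj v C w) η ∧
    v.Ge (ν + p ^ N * |m|) (Φ e - e) ∧ (∀ i ∈ Icc 1 N, v.Ge (ν + p ^ N * |m|) (Φ (A i) - A i)) ∧
    v.Ge ν (Φ (B.eval w) - B.eval (w + algebraMap k Ω c * t)) with hP
  have hinf : {c : k | P c}.Infinite := by
    intro hfin
    obtain ⟨Φ, η, c, hc, h1, h2, h3, h4, h5, h6⟩ := hF.poly hk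
      (insert B (insert (Polynomial.C e) ((Icc 1 N).image fun i => Polynomial.C (A i))))
      (fun f hf => by
        rcases mem_insert.1 hf with rfl | hf
        · exact hN.BC
        rcases mem_insert.1 hf with rfl | hf
        · exact C_mem_PI hN.eC
        obtain ⟨i, hi, rfl⟩ := mem_image.1 hf
        exact C_mem_PI (hN.AC i hi)) (ν + p ^ N * |m|) hfin.toFinset
    apply hc
    rw [hfin.mem_toFinset]
    refine ⟨Φ, η, h1, h2, h3, h4, ?_, fun i hi => ?_, ?_⟩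
    · have := h6 (Polynomial.C e) (mem_insert_of_mem (mem_insert_self _ _))
      rwa [eval_C, eval_C] at this
    · have := h6 (Polynomial.C (A i)) (mem_insert_of_mem (mem_insert_of_mem
        (mem_image_of_mem _ hi)))
      rwa [eval_C, eval_C] at this
    · refine (h6 B (mem_insert_self _ _)).mono ?_
      have : 0 ≤ (p : ℝ) ^ N * |m| := by positivity
      linarith
  obtain ⟨S, hS, hcard⟩ := hinf.exists_subset_card_eq (J + 1)
  let ee : Fin (J + 1) ≃ S := (Finset.equivFinOfCardEq hcard).symm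
  set ζ : Fin (J + 1) → k := fun i => (ee i : k) with hζ
  have hinj : Function.Injective ζ := fun i j h => ee.injective (Subtype.ext h)
  have hPζ : ∀ i, P (ζ i) := fun i => hS (ee i).2
  obtain ⟨V, hV⟩ := TWD.exists_vdm hinj
  choose Φ η hη hΦ hmem hstr hΦe hΦA hΦB using hPζ
  -- the reference approximants
  choose θ₀ hθ₀ hc₀ hX₀ hy₀ hl₀ using fun i => hN.fam (η i) (hη i)
  set z : Fin (J + 1) → Ω := fun i => Φ i ((θ₀ i).eval w) - (θ₀ i).eval w with hz
  have hzF : ∀ i, z i ∈ cadj v C w := fun i =>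
    sub_mem (hmem i _ (TWLM.eval_mem_cadj (hθ₀ i))) (TWLM.eval_mem_cadj (hθ₀ i))
  obtain ⟨ε₁, hε₁, hε₁η⟩ := rt_min (univ : Finset (Fin (J + 1))) (fun i μ => μ ≤ η i)
    (fun i a b hab hb => hab.trans hb) (fun i _ => ⟨η i, hη i, le_rfl⟩)
  -- the displacements
  have hkey : ∀ (ε : ℝ) (θ : Polynomial Ω), 0 < ε → ε ≤ min ε₁ 1 → θ ∈ PI C →
      v.Ge (s - ε) (y - θ.eval w) → ∀ i,
      v.Ge (s - ε) (θ.eval (w + algebraMap k Ω (ζ i) * t) - θ.eval w - z i) := by
    intro ε θ hε hεε hθ hyθ i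
    have h1 := disp_ge hk hF hN (hΦ i) (hmem i) hm hms (hΦe i) (hΦA i) (hΦB i) hθ hε
      (hεε.trans (min_le_right _ _)) hyθ
    have h2 : v.Ge (s - η i) ((θ - θ₀ i).eval w) := by
      rw [eval_sub]
      have e1 : θ.eval w - (θ₀ i).eval w = (y - (θ₀ i).eval w) - (y - θ.eval w) := by ring
      rw [e1]
      exact (hy₀ i).sub (hyθ.mono (by
        linarith [hε₁η i (mem_univ i), hεε.trans (min_le_left ε₁ 1)]))
    have h3 := hstr i _ (TWLM.eval_mem_cadj (sub_mem hθ (hθ₀ i))) _ h2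
    have e1 : θ.eval (w + algebraMap k Ω (ζ i) * t) - θ.eval w - z i =
        (Φ i ((θ - θ₀ i).eval w) - (θ - θ₀ i).eval w) -
        (Φ i (θ.eval w) - θ.eval (w + algebraMap k Ω (ζ i) * t)) := by
      rw [hz, eval_sub, map_sub]
      ring
    rw [e1]
    exact (h3.mono (by linarith)).sub h1
  -- the limits
  set φ' : ℕ → Ω := fun l => if h : l < J + 1 then
    (∑ i, algebraMap k Ω (V ⟨l, h⟩ i) * z i) / t ^ l else 0 with hφ'
  have hφ'F : ∀ l, φ' l ∈ cadj v C w := by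
    intro l
    rw [hφ']
    dsimp only
    split_ifs
    · exact div_mem (sum_mem fun i _ => mul_mem ((cadj v C w).algebraMap_mem _) (hzF i))
        (pow_mem (le_cadj v C w hF.tC) l)
    · exact zero_mem _
  choose φ₁ hφ₁C hφ₁ using fun l : ℕ => hF.tl.dense (hφ'F l) (s - l * ρ)
  set φ : ℕ → Polynomial Ω := fun l => if J < l ∨ (e ≠ 0 ∧ ¬ p ∣ l) then 0 else φ₁ l with hφ
  refine ⟨φ, min ε₁ 1, lt_min hε₁ one_pos, fun j => ?_, fun j hj => ?_, fun he j hj => ?_,
    fun ε θ hε hεε hθ hdeg hX hyθ l hl => ?_⟩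
  · rw [hφ]
    dsimp only
    split_ifs
    exacts [zero_mem _, hφ₁C j]
  · rw [hφ]
    exact if_pos (Or.inl hj)
  · rw [hφ]
    exact if_pos (Or.inr ⟨he, hj⟩)
  · rw [hφ]
    dsimp only
    split_ifs with hc
    · rw [eval_zero, sub_zero]
      rcases hc with hc | ⟨hc1, hc2⟩
      · rw [hasseDeriv_eq_zero_of_lt_natDegree θ l (by omega), eval_zero]
        exact RVal.Ge.zero
      · rw [hX hc1 l hc2, eval_zero]
        exact RVal.Ge.zero
    · push Not at hc
      have hlJ : l < J + 1 := by omega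
      have h1 : v.Ge (s - l * ρ) (φ' l - (φ₁ l).eval w) := hφ₁ l
      -- Vandermonde
      have h2 : t ^ l * (hasseDeriv l θ).eval w = ∑ i, algebraMap k Ω (V ⟨l, hlJ⟩ i) *
          (θ.eval (w + algebraMap k Ω (ζ i) * t) - θ.eval w) := by
        have h3 : ∀ i, θ.eval (w + algebraMap k Ω (ζ i) * t) =
            ∑ m ∈ range (J + 1), algebraMap k Ω (ζ i ^ m) * (t ^ m * (hasseDeriv m θ).eval w) := by
          intro i
          rw [rt_taylor hdeg w]
          refine sum_congr rfl fun m _ => ?_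
          rw [add_sub_cancel_left, mul_pow, map_pow]
          ring
        have h4 : ∀ m ∈ range (J + 1), ∑ i, algebraMap k Ω (V ⟨l, hlJ⟩ i * ζ i ^ m) =
            if l = m then 1 else 0 := by
          intro m hm
          rw [← map_sum, hV ⟨l, hlJ⟩ ⟨m, mem_range.1 hm⟩]
          by_cases hlm : l = m
          · rw [if_pos (Fin.ext hlm), if_pos hlm, map_one]
          · rw [if_neg (fun h4 => hlm (Fin.mk.inj h4)), if_neg hlm, map_zero]
        have h5 : ∑ i, algebraMap k Ω (V ⟨l, hlJ⟩ i) = 0 := by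
          have h6 := h4 0 (mem_range.2 (Nat.succ_pos J))
          rw [if_neg hl] at h6
          simpa using h6
        simp_rw [mul_sub]
        rw [sum_sub_distrib, ← sum_mul, h5, zero_mul, sub_zero]
        simp_rw [h3, mul_sum]
        rw [sum_comm]
        have h6 : ∀ m ∈ range (J + 1), ∑ i, algebraMap k Ω (V ⟨l, hlJ⟩ i) *
            (algebraMap k Ω (ζ i ^ m) * (t ^ m * (hasseDeriv m θ).eval w)) =
            if l = m then t ^ m * (hasseDeriv m θ).eval w else 0 := by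
          intro m hm
          have h7 : ∀ i, algebraMap k Ω (V ⟨l, hlJ⟩ i) *
              (algebraMap k Ω (ζ i ^ m) * (t ^ m * (hasseDeriv m θ).eval w)) =
              algebraMap k Ω (V ⟨l, hlJ⟩ i * ζ i ^ m) * (t ^ m * (hasseDeriv m θ).eval w) := by
            intro i
            rw [map_mul]
            ring
          simp_rw [h7]
          rw [← sum_mul, h4 m hm]
          split_ifs
          · rw [one_mul]
          · rw [zero_mul]
        rw [sum_congr rfl h6, sum_ite_eq, if_pos (mem_range.2 hlJ)]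
      have htl : (t ^ l) ≠ 0 := pow_ne_zero _ hF.t0
      have h3 : v.Ge (s - l * ρ - ε) ((hasseDeriv l θ).eval w - φ' l) := by
        have e1 : (hasseDeriv l θ).eval w - φ' l = (∑ i, algebraMap k Ω (V ⟨l, hlJ⟩ i) *
            (θ.eval (w + algebraMap k Ω (ζ i) * t) - θ.eval w - z i)) * (t ^ l)⁻¹ := by
          have h4 : ∑ i, algebraMap k Ω (V ⟨l, hlJ⟩ i) *
              (θ.eval (w + algebraMap k Ω (ζ i) * t) - θ.eval w - z i) =
              t ^ l * (hasseDeriv l θ).eval w - ∑ i, algebraMap k Ω (V ⟨l, hlJ⟩ i) * z i := by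
            rw [h2, ← sum_sub_distrib]
            exact sum_congr rfl fun i _ => by ring
          rw [h4, hφ']
          dsimp only
          rw [dif_pos hlJ]
          field_simp
        rw [e1]
        have h5 : v.Ge (-(l * ρ)) ((t ^ l)⁻¹) := by
          intro _
          rw [v.map_inv htl, v.map_pow hF.t0, hF.vt]
        have h6 : v.Ge (s - ε) (∑ i, algebraMap k Ω (V ⟨l, hlJ⟩ i) *
            (θ.eval (w + algebraMap k Ω (ζ i) * t) - θ.eval w - z i)) :=
          RVal.Ge.sum _ _ fun i _ =>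
            ((hk.ge _).mul (hkey ε θ hε hεε hθ hyθ i)).mono (by linarith)
        exact (h6.mul h5).mono (by linarith)
      have e1 : (hasseDeriv l θ).eval w - (φ₁ l).eval w =
          ((hasseDeriv l θ).eval w - φ' l) + (φ' l - (φ₁ l).eval w) := by ring
      rw [e1]
      exact h3.add (h1.mono (by linarith))

end Pool.Agent.TWRR
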