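import Pool.Agent.Lib.TWRR.R2

/-!
# TANK W, contact: the residue case of RAT, part 3: the limits of the jets are jets of a polynomial

`JL`: limits `φ_j(w)`, `j ≥ 1`, of the jets of the approximants of `y`; `mm φ l i` is
`D^[i] φ_l - binom(i + l, i) φ_(i + l)`. `RelJ`: the jets of index `p ^ N i` of `fl φ l` are null.
`JL.exists_small`: one may choose the `φ_j` with
`mm φ l i (w) > s - (i + l) ρ` for all `l, i ≥ 1`.
-/

set_option autoImplicit false
set_option linter.unusedSectionVars false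

open Polynomial Finset

namespace Pool.Agent.TWRR

open Pool.Agent.H15JM (RVal)
open Pool.Agent.D2 (Ctx0)
open Pool.Agent.TWM
open Pool.Agent.TWS
open Pool.Agent.TWII (PG LP)
open Pool.Agent.TWN1
open Pool.Agent.TWCT (StrM lp_map)

universe u

variable {k Ω : Type u} [Field k] [Field Ω] [Algebra k Ω] {v : RVal Ω}
  {C F K : IntermediateField k Ω} {w y t : Ω} {ρ s ν : ℝ} {p : ℕ} [hp : Fact p.Prime] [CharP Ω p]
  {e : Ω} {A : ℕ → Ω} {N J D : ℕ} {B : Polynomial Ω} {φ : ℕ → Polynomial Ω}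

/-- Limits of the jets of the approximants of `y`. -/
structure JL (p : ℕ) (v : RVal Ω) (C : IntermediateField k Ω) (w y : Ω) (ρ s : ℝ) (e : Ω) (J : ℕ)
    (φ : ℕ → Polynomial Ω) (D : ℕ) : Prop where
  mem : ∀ j, φ j ∈ PI C
  deg : ∀ j, D < j → φ j = 0
  X : e ≠ 0 → ∀ j, ¬ p ∣ j → φ j = 0
  lim : ∃ ε₀ : ℝ, 0 < ε₀ ∧ ∀ (ε : ℝ) (θ : Polynomial Ω), 0 < ε → ε ≤ ε₀ → θ ∈ PI C →
    θ.natDegree ≤ J → (e ≠ 0 → ∀ l, ¬ p ∣ l → hasseDeriv l θ = 0) →
    v.Ge (s - ε) (y - θ.eval w) →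
    ∀ j : ℕ, j ≠ 0 → v.Ge (s - j * ρ - ε) ((hasseDeriv j θ).eval w - (φ j).eval w)

/-- The defect. -/
noncomputable def mm (φ : ℕ → Polynomial Ω) (l i : ℕ) : Polynomial Ω :=
  hasseDeriv i (φ l) - Polynomial.C (((i + l).choose i : ℕ) : Ω) * φ (i + l)

omit hp [CharP Ω p] in
theorem mm_mem (h : ∀ j, φ j ∈ PI C) (l i : ℕ) : mm φ l i ∈ PI C :=
  sub_mem (hasse_mem_PI (h l) i) (mul_mem (C_mem_PI (natCast_mem _ _)) (h _))

/-- `e φ_(Q l) + ∑ A m φ_(Q l / p ^ m) ^ p ^ m + D^[Q l] B`. -/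
noncomputable def fl (p : ℕ) (e : Ω) (A : ℕ → Ω) (N : ℕ) (B : Polynomial Ω)
    (φ : ℕ → Polynomial Ω) (l : ℕ) : Polynomial Ω :=
  Polynomial.C e * φ (p ^ N * l) +
    ∑ m ∈ Icc 1 N, Polynomial.C (A m) * φ (p ^ (N - m) * l) ^ p ^ m + hasseDeriv (p ^ N * l) B

/-- A good approximant. -/
theorem exists_apx (hN : Nrm p v C w y ρ s ν e A N B J 0) {ε : ℝ} (hε : 0 < ε) :
    ∃ θ ∈ PI C, θ.natDegree ≤ J ∧ (e ≠ 0 → ∀ l, ¬ p ∣ l → hasseDeriv l θ = 0) ∧
      v.Ge (s - ε) (y - θ.eval w) ∧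
      LP p v (cadj v C w) (ν - ε) ((fth p e A N B θ).eval w) := by
  obtain ⟨θ, hθ, h1, h2, h3, h4⟩ := hN.fam ε hε
  refine ⟨θ, hθ, natDegree_le_iff_coeff_eq_zero.2 fun i hi => ?_, h2, h3, h4⟩
  rw [h1 i hi, coeff_zero]

/-- The defects have value `≥ s - (i + l) ρ`. -/
theorem JL.mm_ge [IsAlgClosed Ω] (hw : TL v C w ρ) (hN : Nrm p v C w y ρ s ν e A N B J 0)
    (h : JL p v C w y ρ s e J φ D) {l : ℕ} (hl : l ≠ 0) (i : ℕ) :
    v.Ge (s - (i + l : ℕ) * ρ) ((mm φ l i).eval w) := by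
  obtain ⟨ε₀, hε₀, h1⟩ := h.lim
  refine ge_of_eps fun ε hε => ?_
  obtain ⟨θ, hθ, hdeg, hX, hyθ, -⟩ := exists_apx hN (lt_min hε hε₀)
  have h2 := h1 _ θ (lt_min hε hε₀) (min_le_right _ _) hθ hdeg hX hyθ
  have h3 : v.Ge (s - l * ρ - min ε ε₀) ((hasseDeriv l θ - φ l).eval w) := by
    rw [eval_sub]
    exact h2 l hl
  have h4 := TWLM.poly_norm hw (sub_mem (hasse_mem_PI hθ l) (h.mem l)) i h3
  have h5 := h2 (i + l) (by omega)
  have e1 : (mm φ l i).eval w = (((i + l).choose i : ℕ) : Ω) *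
      ((hasseDeriv (i + l) θ).eval w - (φ (i + l)).eval w) -
      (hasseDeriv i (hasseDeriv l θ - φ l)).eval w := by
    rw [mm, map_sub, TWN1.hasse_hasse, eval_sub, eval_sub, eval_mul, eval_mul, eval_C]
    ring
  rw [e1]
  have h6 : min ε ε₀ ≤ ε := min_le_left _ _
  refine RVal.Ge.sub (((ge_natCast v _).mul h5).mono ?_) (h4.mono ?_)
  · push_cast
    linarith
  · push_cast
    linarith

omit hp [CharP Ω p] in
theorem fl_mem (hD : Dt p v C F s ν e A N) (hB : B ∈ PI C) (h : ∀ j, φ j ∈ PI C) (l : ℕ) :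
    fl p e A N B φ l ∈ PI C :=
  add_mem (add_mem (mul_mem (C_mem_PI hD.eC) (h _))
    (sum_mem fun m hm => mul_mem (C_mem_PI (hD.AC m hm)) (pow_mem (h _) _))) (hasse_mem_PI hB _)

omit hp [CharP Ω p] in
theorem fl_eval (l : ℕ) (x : Ω) : (fl p e A N B φ l).eval x = e * (φ (p ^ N * l)).eval x +
    ∑ m ∈ Icc 1 N, A m * ((φ (p ^ (N - m) * l)).eval x) ^ p ^ m +
    (hasseDeriv (p ^ N * l) B).eval x := by
  rw [fl, eval_add, eval_add, eval_mul, eval_C, eval_finsetSum]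
  simp only [eval_mul, eval_C, eval_pow]

/-- The level of `fl`. -/
theorem JL.fl_lp [IsAlgClosed Ω] (hw : TL v C w ρ) (hN : Nrm p v C w y ρ s ν e A N B J 0)
    (h : JL p v C w y ρ s e J φ D) {l : ℕ} (hl : l ≠ 0) :
    LP p v (cadj v C w) (ν - (p ^ N * l : ℕ) * ρ) ((fl p e A N B φ l).eval w) := by
  have hp0 := hp.out.pos
  have hp0' : (0 : ℝ) < p := by exact_mod_cast hp0
  have hp1 : (1 : ℝ) ≤ p := by exact_mod_cast hp.out.one_lt.le
  have hQ0 : (0 : ℝ) < (p : ℝ) ^ N := by positivity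
  have hQ1 : (1 : ℝ) ≤ (p : ℝ) ^ N := one_le_pow₀ hp1
  obtain ⟨ε₀, hε₀, h1⟩ := h.lim
  refine lp_of_forall fun ε hε => ?_
  obtain ⟨η, hη, hη0, hηε⟩ : ∃ η : ℝ, 0 < η ∧ η ≤ ε₀ ∧ p ^ N * η ≤ ε :=
    ⟨min ε₀ (ε / p ^ N), lt_min hε₀ (by positivity), min_le_left _ _, by
      have h2 : min ε₀ (ε / p ^ N) ≤ ε / p ^ N := min_le_right _ _
      rwa [le_div_iff₀' hQ0] at h2⟩
  obtain ⟨θ, hθ, hdeg, hX, hyθ, hlp⟩ := exists_apx hN hη
  have h2 := h1 _ θ hη hη0 hθ hdeg hX hyθ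
  have h3 := LP.hjet hw (fth_mem hN.toDt hN.BC hθ) hlp (p ^ N * l)
  rw [hasse_fth] at h3
  have hne : ∀ a : ℕ, p ^ a * l ≠ 0 := fun a => Nat.mul_ne_zero (Nat.pow_pos hp0).ne' hl
  have e1 : (fl p e A N B φ l).eval w = (e * (hasseDeriv (p ^ N * l) θ).eval w +
      ∑ i ∈ Icc 1 N, A i * (hasseDeriv (p ^ (N - i) * l) θ).eval w ^ p ^ i +
      (hasseDeriv (p ^ N * l) B).eval w) -
      (e * ((hasseDeriv (p ^ N * l) θ).eval w - (φ (p ^ N * l)).eval w) +
      ∑ i ∈ Icc 1 N, A i * ((hasseDeriv (p ^ (N - i) * l) θ).eval w -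
        (φ (p ^ (N - i) * l)).eval w) ^ p ^ i) := by
    rw [fl_eval]
    have h4 : ∑ i ∈ Icc 1 N, A i * ((hasseDeriv (p ^ (N - i) * l) θ).eval w -
        (φ (p ^ (N - i) * l)).eval w) ^ p ^ i =
        ∑ i ∈ Icc 1 N, A i * (hasseDeriv (p ^ (N - i) * l) θ).eval w ^ p ^ i -
        ∑ i ∈ Icc 1 N, A i * ((φ (p ^ (N - i) * l)).eval w) ^ p ^ i := by
      rw [← sum_sub_distrib]
      refine sum_congr rfl fun i _ => ?_
      rw [sub_pow_char_pow]
      ring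
    rw [h4]
    ring
  rw [e1]
  have hη1 : η ≤ p ^ N * η := le_mul_of_one_le_left hη.le hQ1
  refine (lp_mono h3 (by linarith)).sub (lp_add (lp_of_ge ((hN.ege.mul (h2 _ (hne N))).mono
    (by linarith))) (lp_sum _ _ fun i hi => ?_))
  obtain ⟨hi1, hi2⟩ := mem_Icc.1 hi
  have hφF : (hasseDeriv (p ^ (N - i) * l) θ).eval w - (φ (p ^ (N - i) * l)).eval w ∈
      cadj v C w := sub_mem (TWLM.eval_mem_cadj (hasse_mem_PI hθ _))
        (TWLM.eval_mem_cadj (h.mem _))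
  refine lp_mono (lp_mul_powq (hN.Alp i hi) hφF hi1 (h2 _ (hne (N - i)))) ?_
  have h4 : (p : ℝ) ^ i ≤ (p : ℝ) ^ N := pow_le_pow_right₀ hp1 hi2
  have e2 : (p : ℝ) ^ N = p ^ i * p ^ (N - i) := by
    rw [← pow_add, Nat.add_sub_cancel' hi2]
  have h5 : (p : ℝ) ^ i * η ≤ (p : ℝ) ^ N * η := mul_le_mul_of_nonneg_right h4 hη.le
  push_cast
  have e3 : (p : ℝ) ^ i * (s - p ^ (N - i) * l * ρ - η) =
      p ^ i * s - p ^ N * l * ρ - p ^ i * η := by
    rw [e2]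
    ring
  rw [e3]
  linarith

/-- Casts of binomial coefficients. -/
theorem cast_choose (a i l : ℕ) : (((p ^ a * i + p ^ a * l).choose (p ^ a * i) : ℕ) : Ω) =
    (((i + l).choose i : ℕ) : Ω) := by
  rw [← mul_add]
  exact (CharP.natCast_eq_natCast Ω p).2 (choose_modEq_pow p a (i + l) i)

theorem cast_pow (n m : ℕ) : ((n : ℕ) : Ω) ^ p ^ m = n := by
  have := map_natCast (iterateFrobenius Ω p m) n
  rwa [iterateFrobenius_def] at this

/-- The identity for the jets of `fl`. -/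
theorem hasse_fl (l i : ℕ) (x : Ω) :
    (hasseDeriv (p ^ N * i) (fl p e A N B φ l)).eval x =
      (((i + l).choose i : ℕ) : Ω) * (fl p e A N B φ (i + l)).eval x +
      (e * (mm φ (p ^ N * l) (p ^ N * i)).eval x +
        ∑ m ∈ Icc 1 N, A m * ((mm φ (p ^ (N - m) * l) (p ^ (N - m) * i)).eval x) ^ p ^ m) := by
  set b : Ω := (((i + l).choose i : ℕ) : Ω) with hb
  have h1 : ∀ a : ℕ, (hasseDeriv (p ^ a * i) (φ (p ^ a * l))).eval x =
      b * (φ (p ^ a * (i + l))).eval x + (mm φ (p ^ a * l) (p ^ a * i)).eval x := by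
    intro a
    rw [mm, eval_sub, eval_mul, eval_C, cast_choose, ← mul_add, ← hb]
    ring
  have h2 : (hasseDeriv (p ^ N * i) (hasseDeriv (p ^ N * l) B)).eval x =
      b * (hasseDeriv (p ^ N * (i + l)) B).eval x := by
    rw [hasse_eval, ← mul_add]
    congr 1
    have := cast_choose (Ω := Ω) (p := p) N i l
    rwa [← mul_add] at this
  rw [fl, map_add, map_add, map_sum, eval_add, eval_add, eval_finsetSum, nf_hasse_C_mul, h1 N, h2,
    fl_eval]
  have h3 : ∀ m ∈ Icc 1 N, (hasseDeriv (p ^ N * i) (Polynomial.C (A m) *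
      φ (p ^ (N - m) * l) ^ p ^ m)).eval x = b * (A m * ((φ (p ^ (N - m) * (i + l))).eval x) ^ p ^ m)
      + A m * ((mm φ (p ^ (N - m) * l) (p ^ (N - m) * i)).eval x) ^ p ^ m := by
    intro m hm
    have e1 : p ^ N * i = p ^ m * (p ^ (N - m) * i) := by
      rw [← mul_assoc, ← pow_add, Nat.add_sub_cancel' (mem_Icc.1 hm).2]
    rw [nf_hasse_C_mul, e1, hasse_pow_q, h1, add_pow_char_pow, mul_pow, hb, cast_pow]
    ring
  rw [sum_congr rfl h3, sum_add_distrib, ← mul_sum]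
  ring

/-- The jets of index `p ^ N i` of the `fl φ l` are null. -/
def RelJ (p : ℕ) (v : RVal Ω) (C : IntermediateField k Ω) (w y : Ω) (ρ s ν : ℝ) (e : Ω)
    (A : ℕ → Ω) (N : ℕ) (B : Polynomial Ω) (J : ℕ) : Prop :=
  ∀ (φ : ℕ → Polynomial Ω) (D : ℕ), JL p v C w y ρ s e J φ D → ∀ l i : ℕ, l ≠ 0 → i ≠ 0 →
    PG p v (cadj v C w) (ν - (p ^ N * (i + l) : ℕ) * ρ)
      ((hasseDeriv (p ^ N * i) (fl p e A N B φ l)).eval w)

theorem FamR.relJ [IsAlgClosed Ω] [IsAlgClosed k] (hk : Ctx0 k v) (hF : FamR v C w ρ t)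
    (hN : Nrm p v C w y ρ s ν e A N B J 0) : RelJ p v C w y ρ s ν e A N B J := by
  intro φ D h l i hl hi
  have h1 := hF.h0' (p := p) hk (fl_mem hN.toDt hN.BC h.mem l) (h.fl_lp hF.tl hN hl)
    (l := p ^ N * i) (Nat.mul_ne_zero (Nat.pow_pos hp.out.pos).ne' hi)
    ((dvd_pow_self p (by have := hN.N1; omega)).mul_right i)
  refine h1.mono (le_of_eq ?_)
  push_cast
  ring

/-- The relation between the defects. -/
theorem JL.rel (hR : RelJ p v C w y ρ s ν e A N B J)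
    (h : JL p v C w y ρ s e J φ D) {l i : ℕ} (hl : l ≠ 0)
    (hi : i ≠ 0) : PG p v (cadj v C w) (ν - (p ^ N * (i + l) : ℕ) * ρ)
      ((((i + l).choose i : ℕ) : Ω) * (fl p e A N B φ (i + l)).eval w +
      (e * (mm φ (p ^ N * l) (p ^ N * i)).eval w +
        ∑ m ∈ Icc 1 N, A m * ((mm φ (p ^ (N - m) * l) (p ^ (N - m) * i)).eval w) ^ p ^ m)) := by
  have h1 := hR φ D h l i hl hi
  rwa [hasse_fl] at h1

/-- The value of the top coefficient, strict form. -/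
theorem top_gt {F : IntermediateField k Ω} (hN : 1 ≤ N) {a x : Ω}
    (htop : ¬ PG p v F (ν - p ^ N * s) a) (hx : x ∈ F) {b : ℝ}
    (h : PG p v F (ν - p ^ N * b) (a * x ^ p ^ N)) : Gt v (s - b) x := by
  have hQ0 : (0 : ℝ) < (p : ℝ) ^ N := by
    have := hp.out.pos
    positivity
  intro h0
  by_contra hlt
  push Not at hlt
  apply htop
  obtain ⟨M, rfl⟩ : ∃ M, N = M + 1 := ⟨N - 1, by omega⟩
  have e1 : x ^ p ^ (M + 1) = (x ^ p ^ M) ^ p := by rw [← pow_mul, ← pow_succ]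
  refine PG.of_mul_pow (pow_mem hx (p ^ M)) (pow_ne_zero _ h0) ?_
  rw [← e1]
  refine h.mono ?_
  rw [v.map_pow h0]
  have h3 : (p : ℝ) ^ (M + 1) * v x ≤ p ^ (M + 1) * (s - b) :=
    mul_le_mul_of_nonneg_left hlt hQ0.le
  have e2 : (p : ℝ) * ((p ^ M : ℕ) * v x) = p ^ (M + 1) * v x := by
    push_cast
    ring
  rw [e2]
  linarith

/-- The relation at `i + l = d`, if the defects beyond `d` are small. -/
theorem JL.rel_top (hR : RelJ p v C w y ρ s ν e A N B J)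
    (hN : Nrm p v C w y ρ s ν e A N B J 0) (h : JL p v C w y ρ s e J φ D) {l i : ℕ} (hl : l ≠ 0)
    (hi : i ≠ 0) (hsm : ∀ l' i' : ℕ, l' ≠ 0 → i' ≠ 0 → i + l < i' + l' →
      Gt v (s - (i' + l' : ℕ) * ρ) ((mm φ l' i').eval w)) :
    PG p v (cadj v C w) (ν - (p ^ N * (i + l) : ℕ) * ρ)
      ((((i + l).choose i : ℕ) : Ω) * (fl p e A N B φ (i + l)).eval w +
        A N * ((mm φ l i).eval w) ^ p ^ N) := by
  have hp0 := hp.out.pos
  have hp0' : (0 : ℝ) < p := by exact_mod_cast hp0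
  have h1 := h.rel hR hl hi
  have hN1 := hN.N1
  have hbig : ∀ a : ℕ, 1 ≤ a → i + l < p ^ a * i + p ^ a * l := by
    intro a ha
    rw [← mul_add]
    have h2 : 2 ≤ p ^ a := hp.out.two_le.trans (Nat.le_self_pow (by omega) p)
    have h3 : 2 * (i + l) ≤ p ^ a * (i + l) := Nat.mul_le_mul_right _ h2
    omega
  have hne : ∀ a x : ℕ, x ≠ 0 → p ^ a * x ≠ 0 := fun a x hx =>
    Nat.mul_ne_zero (Nat.pow_pos hp0).ne' hx
  -- the small terms
  have h2 : PG p v (cadj v C w) (ν - (p ^ N * (i + l) : ℕ) * ρ)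
      (e * (mm φ (p ^ N * l) (p ^ N * i)).eval w +
        ∑ m ∈ Ico 1 N, A m * ((mm φ (p ^ (N - m) * l) (p ^ (N - m) * i)).eval w) ^ p ^ m) := by
    refine PG.add (PG.of_gt ?_) (PG.sum _ _ fun m hm => ?_)
    · have h3 := hsm _ _ (hne N l hl) (hne N i hi) (hbig N hN1)
      obtain ⟨μ, hμ, h4⟩ := TWLM.exists_ge_of_gt h3
      refine Gt.of_ge (hN.ege.mul h4) ?_
      push_cast
      linarith
    · obtain ⟨hm1, hm2⟩ := mem_Ico.1 hm
      have h3 := hsm _ _ (hne (N - m) l hl) (hne (N - m) i hi) (hbig (N - m) (by omega))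
      obtain ⟨μ, hμ, h4⟩ := TWLM.exists_ge_of_gt h3
      have h5 : (mm φ (p ^ (N - m) * l) (p ^ (N - m) * i)).eval w ∈ cadj v C w :=
        TWLM.eval_mem_cadj (mm_mem h.mem _ _)
      refine pg_of_lp (lp_mul_powq (hN.Alp m (mem_Icc.2 ⟨hm1, hm2.le⟩)) h5 hm1 h4) ?_
      have e2 : (p : ℝ) ^ N = p ^ m * p ^ (N - m) := by
        rw [← pow_add, Nat.add_sub_cancel' hm2.le]
      have h6 : 0 < (p : ℝ) ^ m * μ := by positivity
      push_cast
      have e3 : (p : ℝ) ^ m * (s - (p ^ (N - m) * i + p ^ (N - m) * l) * ρ + μ) =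
          p ^ m * s - p ^ N * (i + l) * ρ + p ^ m * μ := by
        rw [e2]
        ring
      rw [e3]
      linarith
  have h3 := h1.sub h2
  have e2 : Icc 1 N = insert N (Ico 1 N) := by
    ext i
    rw [mem_insert, mem_Icc, mem_Ico]
    omega
  rw [e2, sum_insert (by simp), Nat.sub_self, pow_zero, one_mul, one_mul] at h3
  refine (congrArg _ ?_).mp h3
  ring

omit hp [CharP Ω p] in
/-- Division by an integer. -/
theorem exists_inv_nat (p : ℕ) [hp : Fact p.Prime] [CharP Ω p] {n : ℕ} (hn : ¬ p ∣ n) :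
    ∃ m : ℕ, (m : Ω) * n = 1 := by
  obtain ⟨m, -, hm⟩ := Nat.exists_mul_mod_eq_one_of_coprime
    ((Nat.Prime.coprime_iff_not_dvd hp.out).2 hn).symm hp.out.one_lt
  exact ⟨m, by rw [mul_comm, ← Nat.cast_mul, CharP.cast_eq_mod Ω p, hm, Nat.cast_one]⟩

/-- **The correction of `φ_d`.** -/
theorem JL.exists_r [IsAlgClosed Ω] (hw : TL v C w ρ) (hR : RelJ p v C w y ρ s ν e A N B J)
    (hN : Nrm p v C w y ρ s ν e A N B J 0) (h : JL p v C w y ρ s e J φ D) {d : ℕ}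
    (hsm : ∀ l' i' : ℕ, l' ≠ 0 → i' ≠ 0 → d < i' + l' →
      Gt v (s - (i' + l' : ℕ) * ρ) ((mm φ l' i').eval w)) :
    ∃ r ∈ C, v.Ge (s - d * ρ) r ∧ (e ≠ 0 → ¬ p ∣ d → r = 0) ∧
      ∀ l i : ℕ, l ≠ 0 → i ≠ 0 → i + l = d →
        Gt v (s - d * ρ) ((mm φ l i).eval w - ((d.choose i : ℕ) : Ω) * r) := by
  classical
  have hN1 := hN.N1
  have hmF : ∀ l i, (mm φ l i).eval w ∈ cadj v C w := fun l i =>
    TWLM.eval_mem_cadj (mm_mem h.mem l i)
  -- the relations at `d`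
  have hrel : ∀ l i : ℕ, l ≠ 0 → i ≠ 0 → i + l = d →
      PG p v (cadj v C w) (ν - p ^ N * (d * ρ)) (((d.choose i : ℕ) : Ω) *
        (fl p e A N B φ d).eval w + A N * ((mm φ l i).eval w) ^ p ^ N) := by
    intro l i hl hi hd
    have h1 := h.rel_top hR hN hl hi (by rw [hd]; exact hsm)
    rw [hd] at h1
    refine h1.mono (le_of_eq ?_)
    push_cast
    ring
  -- a common element `r'`
  have key : ∀ r' ∈ cadj v C w, PG p v (cadj v C w) (ν - p ^ N * (d * ρ))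
      ((fl p e A N B φ d).eval w + A N * r' ^ p ^ N) → ∀ l i : ℕ, l ≠ 0 → i ≠ 0 → i + l = d →
        Gt v (s - d * ρ) ((mm φ l i).eval w - ((d.choose i : ℕ) : Ω) * r') := by
    intro r' hr' h1 l i hl hi hd
    refine top_gt hN1 hN.top (sub_mem (hmF l i) (mul_mem (natCast_mem _ _) hr')) ?_
    have h2 := (hrel l i hl hi hd).sub (h1.natCast_mul (d.choose i))
    refine (congrArg _ ?_).mp h2
    rw [sub_pow_char_pow, mul_pow, cast_pow]
    ring
  by_cases hex : ∃ l₀ i₀ : ℕ, l₀ ≠ 0 ∧ i₀ ≠ 0 ∧ i₀ + l₀ = d ∧ ¬ p ∣ d.choose i₀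
  · obtain ⟨l₀, i₀, hl₀, hi₀, hd, hch⟩ := hex
    by_cases hed : e ≠ 0 ∧ ¬ p ∣ d
    · -- `r = 0`
      obtain ⟨he, hpd⟩ := hed
      refine ⟨0, zero_mem _, RVal.Ge.zero, fun _ _ => rfl, fun l i hl hi hli => ?_⟩
      have hp1 : ¬ p ∣ 1 := Nat.Prime.not_dvd_one hp.out
      have h1 := hrel 1 (d - 1) one_ne_zero (by omega) (by omega)
      have h2 : mm φ 1 (d - 1) = 0 := by
        rw [mm, h.X he 1 hp1, map_zero, Nat.sub_add_cancel (by omega), h.X he d hpd, mul_zero,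
          sub_zero]
      rw [h2, eval_zero, zero_pow (Nat.pow_pos hp.out.pos).ne', mul_zero, add_zero,
        Nat.choose_symm (by omega), Nat.choose_one_right] at h1
      have h3 := PG.of_natCast_mul hpd h1
      have h4 := key 0 (zero_mem _) (by
        rw [zero_pow (Nat.pow_pos hp.out.pos).ne', mul_zero, add_zero]
        exact h3) l i hl hi hli
      exact h4
    · obtain ⟨n₀, hn₀⟩ := exists_inv_nat (Ω := Ω) p hch
      set r' : Ω := n₀ * (mm φ l₀ i₀).eval w with hr'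
      have hr'F : r' ∈ cadj v C w := mul_mem (natCast_mem _ _) (hmF _ _)
      have h1 := (hrel l₀ i₀ hl₀ hi₀ hd).natCast_mul n₀
      have h2 : PG p v (cadj v C w) (ν - p ^ N * (d * ρ))
          ((fl p e A N B φ d).eval w + A N * r' ^ p ^ N) := by
        refine (congrArg _ ?_).mp h1
        rw [hr', mul_pow, cast_pow, mul_add, ← mul_assoc, hn₀, one_mul]
        ring
      have h3 := key r' hr'F h2
      have h4 : v.Ge (s - d * ρ) r' := by
        have h5 := (ge_natCast v n₀).mul (h.mm_ge hw hN hl₀ i₀)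
        rw [hd, zero_add] at h5
        exact h5
      obtain ⟨r, hr, -, h5⟩ := exists_lead hw.imm hr'F h4
      refine ⟨r, hr, ?_, fun h6 h7 => absurd ⟨h6, h7⟩ hed, fun l i hl hi hli => ?_⟩
      · have e1 : r = r' - (r' - r) := by ring
        rw [e1]
        exact h4.sub h5.ge
      · have e1 : (mm φ l i).eval w - ((d.choose i : ℕ) : Ω) * r =
            ((mm φ l i).eval w - ((d.choose i : ℕ) : Ω) * r') +
            (r' - r) * ((d.choose i : ℕ) : Ω) := by ring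
        rw [e1]
        refine (h3 l i hl hi hli).add ?_
        have := Gt.mul_ge h5 (ge_natCast v (d.choose i))
        rwa [add_zero] at this
  · push Not at hex
    refine ⟨0, zero_mem _, RVal.Ge.zero, fun _ _ => rfl, fun l i hl hi hli => ?_⟩
    have h1 := hrel l i hl hi hli
    rw [(CharP.cast_eq_zero_iff Ω p _).2 (hex l i hl hi hli), zero_mul, zero_add] at h1
    rw [mul_zero, sub_zero]
    exact top_gt hN1 hN.top (hmF l i) h1

/-- The correction of `φ_d`: the new defects. -/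
theorem JL.upd [IsAlgClosed Ω] (hw : TL v C w ρ) (hR : RelJ p v C w y ρ s ν e A N B J)
    (hN : Nrm p v C w y ρ s ν e A N B J 0) (h : JL p v C w y ρ s e J φ D) {d : ℕ} (hdD : d ≤ D)
    (hsm : ∀ l' i' : ℕ, l' ≠ 0 → i' ≠ 0 → d < i' + l' →
      Gt v (s - (i' + l' : ℕ) * ρ) ((mm φ l' i').eval w)) :
    ∃ φ' : ℕ → Polynomial Ω, JL p v C w y ρ s e J φ' D ∧
      ∀ l' i' : ℕ, l' ≠ 0 → i' ≠ 0 → d ≤ i' + l' →
        Gt v (s - (i' + l' : ℕ) * ρ) ((mm φ' l' i').eval w) := by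
  classical
  obtain ⟨r, hr, hrv, hr0, hd⟩ := h.exists_r hw hR hN hsm
  set φ' : ℕ → Polynomial Ω := Function.update φ d (φ d + Polynomial.C r) with hφ'
  have hne : ∀ j, j ≠ d → φ' j = φ j := fun j hj => Function.update_of_ne hj _ _
  have heq : φ' d = φ d + Polynomial.C r := Function.update_self _ _ _
  refine ⟨φ', ⟨fun j => ?_, fun j hj => ?_, fun he j hj => ?_, ?_⟩, fun l i hl hi hle => ?_⟩
  · by_cases hjd : j = d
    · rw [hjd, heq]
      exact add_mem (h.mem d) (C_mem_PI hr)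
    · rw [hne j hjd]
      exact h.mem j
  · rw [hne j (by omega), h.deg j hj]
  · by_cases hjd : j = d
    · rw [hjd, heq, h.X he d (hjd ▸ hj), hr0 he (hjd ▸ hj), C_0, add_zero]
    · rw [hne j hjd, h.X he j hj]
  · obtain ⟨ε₀, hε₀, h1⟩ := h.lim
    refine ⟨ε₀, hε₀, fun ε θ hε hεε hθ hdeg hX hyθ j hj => ?_⟩
    have h2 := h1 ε θ hε hεε hθ hdeg hX hyθ j hj
    by_cases hjd : j = d
    · rw [hjd] at h2 ⊢
      rw [heq, eval_add, eval_C, ← sub_sub]
      exact h2.sub (hrv.mono (by linarith))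
    · rw [hne j hjd]
      exact h2
  · have hD1 : hasseDeriv i (φ' l) = hasseDeriv i (φ l) := by
      by_cases hld : l = d
      · rw [hld, heq, map_add, hasseDeriv_eq_zero_of_lt_natDegree (Polynomial.C r) i (by
          rw [natDegree_C]; omega), add_zero]
      · rw [hne l hld]
    rcases hle.eq_or_lt with hid | hlt
    · have e1 : (mm φ' l i).eval w = (mm φ l i).eval w - ((d.choose i : ℕ) : Ω) * r := by
        rw [mm, mm, hD1, ← hid, heq, eval_sub, eval_sub, eval_mul, eval_mul, eval_add, eval_C,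
          eval_C]
        ring
      rw [e1, ← hid]
      exact hd l i hl hi hid.symm
    · have e1 : mm φ' l i = mm φ l i := by
        rw [mm, mm, hD1, hne (i + l) (by omega)]
      rw [e1]
      exact hsm l i hl hi hlt

/-- **The limits of the jets, with small defects.** -/
theorem JL.exists_small [IsAlgClosed Ω] (hw : TL v C w ρ) (hR : RelJ p v C w y ρ s ν e A N B J)
    (hN : Nrm p v C w y ρ s ν e A N B J 0) {D₀ : ℕ} (hjl₀ : JL p v C w y ρ s e J φ D₀) :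
    ∃ (φ : ℕ → Polynomial Ω) (D : ℕ), JL p v C w y ρ s e J φ D ∧
      ∀ l i : ℕ, l ≠ 0 → i ≠ 0 → Gt v (s - (i + l : ℕ) * ρ) ((mm φ l i).eval w) := by
  classical
  have h2 := hjl₀.deg
  set D := D₀ + (range (D₀ + 1)).sup (fun j => (φ j).natDegree) with hD
  have hjl : JL p v C w y ρ s e J φ D :=
    ⟨hjl₀.mem, fun j hj => h2 j (by omega), hjl₀.X, hjl₀.lim⟩
  have hst : ∀ l i : ℕ, l ≠ 0 → i ≠ 0 → D < i + l →
      Gt v (s - (i + l : ℕ) * ρ) ((mm φ l i).eval w) := by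
    intro l i hl hi hli
    have e1 : mm φ l i = 0 := by
      rw [mm, h2 (i + l) (by omega), mul_zero, sub_zero]
      by_cases hlJ : D₀ < l
      · rw [h2 l hlJ, map_zero]
      · refine hasseDeriv_eq_zero_of_lt_natDegree _ _ ?_
        have h5 : (φ l).natDegree ≤ (range (D₀ + 1)).sup (fun j => (φ j).natDegree) :=
          Finset.le_sup (f := fun j => (φ j).natDegree) (mem_range.2 (by omega))
        omega
    rw [e1, eval_zero]
    exact Gt.zero
  have key : ∀ m : ℕ, m ≤ D + 1 → ∃ φ' : ℕ → Polynomial Ω, JL p v C w y ρ s e J φ' D ∧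
      ∀ l i : ℕ, l ≠ 0 → i ≠ 0 → D + 1 - m ≤ i + l →
        Gt v (s - (i + l : ℕ) * ρ) ((mm φ' l i).eval w) := by
    intro m
    induction m with
    | zero => exact fun _ => ⟨φ, hjl, fun l i hl hi h5 => hst l i hl hi (by omega)⟩
    | succ m ih =>
      intro hm
      obtain ⟨φ', h5, h6⟩ := ih (by omega)
      obtain ⟨φ'', h7, h8⟩ := h5.upd hw hR hN (d := D - m) (by omega)
        fun l i hl hi hli => h6 l i hl hi (by omega)
      exact ⟨φ'', h7, fun l i hl hi hli => h8 l i hl hi (by omega)⟩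
  obtain ⟨φ', h5, h6⟩ := key (D + 1) le_rfl
  exact ⟨φ', D, h5, fun l i hl hi => h6 l i hl hi (by omega)⟩

theorem FamR.exists_jl [IsAlgClosed Ω] [IsAlgClosed k] (hk : Ctx0 k v) (hF : FamR v C w ρ t)
    (hN : Nrm p v C w y ρ s ν e A N B J 0) :
    ∃ (φ : ℕ → Polynomial Ω) (D : ℕ), JL p v C w y ρ s e J φ D := by
  obtain ⟨φ, ε₀, hε₀, h1, h2, h3, h4⟩ := jets_lim hk hF hN
  exact ⟨φ, J, h1, h2, h3, ε₀, hε₀, h4⟩

end Pool.Agent.TWRR
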