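import Pool.Agent.Lib.TWRR.R3

/-!
# TANK W, contact: the residue case of RAT, part 4: the conclusion

`ratR`: `y - g(w)` has constant approximants, for some `g ∈ C[X]`.
-/

set_option autoImplicit false
set_option linter.unusedSectionVars false

open Polynomial Finset

namespace Pool.Agent.TWRR

open Pool.Agent.H15JM (RVal)
open Pool.Agent.D2 (Ctx0)
open Pool.Agent.TWM
open Pool.Agent.TWS
open Pool.Agent.TWII (PG LP)
open Pool.Agent.TWN1

universe u

variable {k Ω : Type u} [Field k] [Field Ω] [Algebra k Ω] {v : RVal Ω}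
  {C F K : IntermediateField k Ω} {w y t : Ω} {ρ s ν : ℝ} {p : ℕ} [hp : Fact p.Prime] [CharP Ω p]
  {e : Ω} {A : ℕ → Ω} {N J D : ℕ} {B : Polynomial Ω} {φ : ℕ → Polynomial Ω}

/-- The polynomial with the jets `φ_j(ψ)` at `ψ`. -/
noncomputable def phs (φ : ℕ → Polynomial Ω) (D : ℕ) (ψ : Ω) : Polynomial Ω :=
  ∑ j ∈ Icc 1 D, Polynomial.C ((φ j).eval ψ) * (X - Polynomial.C ψ) ^ j

theorem phs_mem (h : ∀ j, φ j ∈ PI C) {ψ : Ω} (hψ : ψ ∈ C) : phs φ D ψ ∈ PI C :=
  sum_mem fun j _ => mul_mem (C_mem_PI (eval_mem (h j) hψ))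
    (pow_mem (sub_mem X_mem_PI (C_mem_PI hψ)) _)

theorem phs_jet (hD : ∀ j, D < j → φ j = 0) (ψ : Ω) {l : ℕ} (hl : l ≠ 0) :
    (hasseDeriv l (phs φ D ψ)).eval ψ = (φ l).eval ψ := by
  rw [← taylor_coeff, phs, map_sum, finsetSum_coeff]
  have h1 : ∀ j, (taylor ψ (Polynomial.C ((φ j).eval ψ) * (X - Polynomial.C ψ) ^ j)).coeff l =
      if l = j then (φ j).eval ψ else 0 := by
    intro j
    rw [taylor_mul, taylor_pow, taylor_C, map_sub, taylor_X, taylor_C, add_sub_cancel_right,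
      coeff_C_mul, coeff_X_pow]
    split_ifs
    · rw [mul_one]
    · rw [mul_zero]
  rw [sum_congr rfl fun j _ => h1 j, sum_ite_eq]
  split_ifs with h2
  · rfl
  · rw [mem_Icc] at h2
    rw [hD l (by omega), eval_zero]

/-- The jets of `phs`. -/
theorem phs_near [IsAlgClosed Ω] (hw : TL v C w ρ) (h : JL p v C w y ρ s e J φ D)
    (hsm : ∀ l i : ℕ, l ≠ 0 → i ≠ 0 → Gt v (s - (i + l : ℕ) * ρ) ((mm φ l i).eval w)) :
    ∃ ψ ∈ C, ∀ j : ℕ, j ≠ 0 →
      v.Ge (s - j * ρ) ((φ j).eval w - (hasseDeriv j (phs φ D ψ)).eval w) := by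
  classical
  set D' := D + (range (D + 1)).sup (fun j => (φ j).natDegree) with hD'
  have hdeg : ∀ j, (φ j).natDegree ≤ D' := by
    intro j
    by_cases hj : D < j
    · rw [h.deg j hj, natDegree_zero]
      exact Nat.zero_le _
    · have h5 : (φ j).natDegree ≤ (range (D + 1)).sup (fun j => (φ j).natDegree) :=
        Finset.le_sup (f := fun j => (φ j).natDegree) (mem_range.2 (by omega))
      omega
  set T := Icc 1 D ×ˢ Icc 1 D' with hT
  obtain ⟨μ, hμ, h1⟩ := rt_min T (fun q μ => v.Ge (s - (q.2 + q.1 : ℕ) * ρ + μ)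
    ((mm φ q.1 q.2).eval w)) (fun q a b hab hb => hb.mono (by linarith)) (fun q hq => by
      obtain ⟨h2, h3⟩ := mem_product.1 hq
      exact TWLM.exists_ge_of_gt (hsm q.1 q.2 (by have := (mem_Icc.1 h2).1; omega)
        (by have := (mem_Icc.1 h3).1; omega)))
  obtain ⟨δ, hδ, hdeep⟩ := TL.deep hw (T.image fun q => mm φ q.1 q.2) (fun f hf => by
    obtain ⟨q, -, rfl⟩ := mem_image.1 hf
    exact mm_mem h.mem _ _)
  set δ' := min δ (μ / (D' + 1)) with hδ'
  have hD1 : (0 : ℝ) < (D' : ℝ) + 1 := by positivity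
  have hδ'0 : 0 < δ' := lt_min hδ (div_pos hμ hD1)
  obtain ⟨ψ, hψ, hwψ⟩ := hw.lim δ' hδ'0
  refine ⟨ψ, hψ, fun j hj => ?_⟩
  have e1 : (φ j).eval w - (hasseDeriv j (phs φ D ψ)).eval w =
      ∑ i ∈ range (D' + 1), (mm φ j i).eval ψ * (w - ψ) ^ i := by
    have hd : (hasseDeriv j (phs φ D ψ)).natDegree ≤ D' := by
      refine (natDegree_hasseDeriv_le _ _).trans ?_
      have h2 : (phs φ D ψ).natDegree ≤ D := by
        refine natDegree_sum_le_of_forall_le _ _ fun i hi => ?_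
        refine (natDegree_C_mul_le _ _).trans ((natDegree_pow_le).trans ?_)
        rw [natDegree_X_sub_C, mul_one]
        exact (mem_Icc.1 hi).2
      omega
    rw [rt_taylor (hdeg j) ψ w, rt_taylor hd ψ w, ← sum_sub_distrib]
    refine sum_congr rfl fun i _ => ?_
    rw [hasse_eval, phs_jet h.deg ψ (by omega), mm, eval_sub, eval_mul, eval_C]
    ring
  rw [e1]
  refine RVal.Ge.sum _ _ fun i hi => ?_
  have hi' : i ≤ D' := by
    have := mem_range.1 hi
    omega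
  by_cases hi0 : i = 0
  · have e2 : mm φ j i = 0 := by
      rw [hi0, mm, hasseDeriv_zero', zero_add, Nat.choose_zero_right, Nat.cast_one, C_1, one_mul,
        sub_self]
    rw [e2, eval_zero, zero_mul]
    exact RVal.Ge.zero
  by_cases hjD : D < j
  · have e2 : mm φ j i = 0 := by
      rw [mm, h.deg j hjD, map_zero, h.deg (i + j) (by omega), mul_zero, sub_zero]
    rw [e2, eval_zero, zero_mul]
    exact RVal.Ge.zero
  have hq : (j, i) ∈ T := mem_product.2 ⟨mem_Icc.2 ⟨by omega, by omega⟩,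
    mem_Icc.2 ⟨by omega, hi'⟩⟩
  have h2 := ((hdeep ψ (hwψ.mono (by linarith [min_le_left δ (μ / (D' + 1))])) _
    (mem_image.2 ⟨(j, i), hq, rfl⟩)).1 _).1 (h1 (j, i) hq)
  refine (h2.mul (ge_pow hwψ i)).mono ?_
  have h3 : (i : ℝ) * δ' ≤ μ := by
    have h4 : (i : ℝ) ≤ D' + 1 := by
      have : i ≤ D' + 1 := by omega
      exact_mod_cast this
    have h5 : δ' ≤ μ / (D' + 1) := min_le_right _ _
    calc (i : ℝ) * δ' ≤ (D' + 1) * (μ / (D' + 1)) := mul_le_mul h4 h5 hδ'0.le hD1.le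
      _ = μ := by field_simp
  push_cast
  linarith

/-- **Integration**: `g` has the jets `φ_j(w)`. -/
theorem JL.integ [IsAlgClosed Ω] (hw : TL v C w ρ) (hR : RelJ p v C w y ρ s ν e A N B J)
    (hN : Nrm p v C w y ρ s ν e A N B J 0) {φ₀ : ℕ → Polynomial Ω} {D₀ : ℕ}
    (hjl₀ : JL p v C w y ρ s e J φ₀ D₀) :
    ∃ g ∈ PI C, Nrm p v C w (y - g.eval w) ρ s ν e A N (fth p e A N B g) 0 0 ∧
      ∃ (φ : ℕ → Polynomial Ω) (D : ℕ), JL p v C w y ρ s e J φ D ∧
        ∀ j : ℕ, j ≠ 0 → v.Ge (s - j * ρ) ((φ j).eval w - (hasseDeriv j g).eval w) := by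
  classical
  have hp0 : (0 : ℝ) < p := by exact_mod_cast hp.out.pos
  have hQ0 : (0 : ℝ) < (p : ℝ) ^ N := by positivity
  have hQ1 : (1 : ℝ) ≤ (p : ℝ) ^ N := one_le_pow₀ (by exact_mod_cast hp.out.one_lt.le)
  obtain ⟨φ, D, hjl, hsm⟩ := hjl₀.exists_small hw hR hN
  obtain ⟨ψ, hψ, hps⟩ := phs_near hw hjl hsm
  obtain ⟨ε₀, hε₀, hlim⟩ := hjl.lim
  set g := phs φ D ψ with hg
  have hgC : g ∈ PI C := phs_mem hjl.mem hψ
  have hX : e ≠ 0 → ∀ l, ¬ p ∣ l → hasseDeriv l g = 0 := by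
    intro he l hl
    rw [hg, phs, map_sum]
    refine sum_eq_zero fun j _ => ?_
    rw [TWN1.hasse_C_mul]
    by_cases hj : p ∣ j
    · rw [rb_hasse_pow hj hl, mul_zero]
    · rw [hjl.X he j hj, eval_zero, C_0, zero_mul]
  refine ⟨g, hgC,
    { toDt := hN.toDt
      toAdm := rb_adm
      BC := fth_mem hN.toDt hN.BC hgC
      BX := hN.clsX hX
      B1 := hN.cls1 hX
      eB := hN.eB.imp_right fun h3 => by rw [hN.cls hX (Nat.Prime.not_dvd_one hp.out), h3]
      fam := fun ε hε => ?_ }, φ, D, hjl, hps⟩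
  obtain ⟨η, hη, hη0, hηε⟩ : ∃ η : ℝ, 0 < η ∧ η ≤ ε₀ ∧ p ^ N * (2 * η) ≤ ε := by
    refine ⟨min ε₀ (ε / (2 * p ^ N)), lt_min hε₀ (by positivity), min_le_left _ _, ?_⟩
    have h2 : min ε₀ (ε / (2 * p ^ N)) ≤ ε / (2 * p ^ N) := min_le_right _ _
    rw [le_div_iff₀ (by positivity)] at h2
    linarith
  have hηε' : 2 * η ≤ ε := le_trans (le_mul_of_one_le_left (by positivity) hQ1) hηε
  obtain ⟨θ, hθ, hdeg, hXθ, hyθ, -⟩ := exists_apx hN hη
  obtain ⟨θ', hθ', hdeg', -, h1⟩ := TWN1.exists_trunc p hw (sub_mem hθ hgC) 0 (s := s) (η := η)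
    (ε := 2 * η) (by linarith) (fun i hi => by
      have h2 := hlim η θ hη hη0 hθ hdeg hXθ hyθ i (by omega)
      have h3 := hps i (by omega)
      have e1 : (hasseDeriv i (θ - g)).eval w = ((hasseDeriv i θ).eval w - (φ i).eval w) +
          ((φ i).eval w - (hasseDeriv i g).eval w) := by
        rw [map_sub, eval_sub]
        ring
      rw [e1]
      exact h2.add (h3.mono (by linarith)))
  refine ⟨θ', hθ', fun i hi => ?_, fun _ l hl => ?_, ?_, ?_⟩
  · rw [coeff_zero]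
    exact coeff_eq_zero_of_natDegree_lt (by omega)
  · refine hasseDeriv_eq_zero_of_lt_natDegree _ _ ?_
    have : l ≠ 0 := by
      rintro rfl
      exact hl (dvd_zero p)
    omega
  · have e1 : y - g.eval w - θ'.eval w = (y - θ.eval w) + ((θ - g).eval w - θ'.eval w) := by
      rw [eval_sub]
      ring
    rw [e1]
    exact (hyθ.mono (by linarith)).add (h1.mono (by linarith))
  · rw [rb_fth]
    refine lp_mono (hN.lev (add_mem hθ' hgC) (η := 2 * η) (by positivity) ?_) (by linarith)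
    have e1 : y - (θ' + g).eval w = (y - θ.eval w) + ((θ - g).eval w - θ'.eval w) := by
      rw [eval_sub, eval_add]
      ring
    rw [e1]
    exact (hyθ.mono (by linarith)).add h1

/-- **RAT, residue case.** -/
theorem ratR [IsAlgClosed Ω] [IsAlgClosed k] (hk : Ctx0 k v) (hF : FamR v C w ρ t)
    (hN : Nrm p v C w y ρ s ν e A N B J 0) :
    ∃ g ∈ PI C, Nrm p v C w (y - g.eval w) ρ s ν e A N (fth p e A N B g) 0 0 := by
  obtain ⟨φ, D, hjl⟩ := hF.exists_jl hk hN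
  obtain ⟨g, hg, h1, -⟩ := hjl.integ hF.tl (hF.relJ hk hN) hN
  exact ⟨g, hg, h1⟩

end Pool.Agent.TWRR
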